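import Mathlib
import Pool.Agent.H378R2.LSBV3

set_option autoImplicit false

/-! Primes in residue classes modulo `Q h`: the part which comes from the characters whose conductor is
divisible by `h`. -/

open Finset

namespace Pool.Agent.L7h28.UM

open Pool.Agent.H378R2 Pool.Agent.H378R2.LSBV Pool.Agent.Helper112 Pool.Agent.Helper112.BLB
open Pool.Agent.H398R2.BV

/-- class sums -/
noncomputable def CS (y : ℝ) (Q c : ℕ) : ℝ :=
  ∑ n ∈ (Icc 1 ⌊3 * y⌋₊).filter (fun n => n ≡ c [MOD Q]), Phi (n / y) * ArithmeticFunction.vonMangoldt n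

theorem CS_nonneg (y : ℝ) (Q c : ℕ) : 0 ≤ CS y Q c :=
  sum_nonneg fun _ _ => mul_nonneg (Pool.Agent.H378R2.LSBV.Phi_nonneg _) ArithmeticFunction.vonMangoldt_nonneg

theorem CS_char (y : ℝ) (m c : ℕ) [NeZero m] (hc : c.Coprime m) :
    (CS y m c : ℂ) = (1 / (Nat.totient m : ℂ)) *
      ∑ χ : DirichletCharacter ℂ m, χ ((c : ZMod m)⁻¹) * psiPhi χ y := by
  have hφ : ((Nat.totient m : ℕ) : ℂ) ≠ 0 := by
    have := Nat.totient_pos.2 (NeZero.pos m)
    exact_mod_cast this.ne'
  have hu : IsUnit (c : ZMod m) := (ZMod.isUnit_iff_coprime c m).2 hc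
  have h1 : ∑ χ : DirichletCharacter ℂ m, χ ((c : ZMod m)⁻¹) * psiPhi χ y =
      ∑ n ∈ Icc 1 ⌊3 * y⌋₊, ((Phi (n / y) * ArithmeticFunction.vonMangoldt n : ℝ) : ℂ) *
        (if (c : ZMod m) = (n : ZMod m) then ((Nat.totient m : ℕ) : ℂ) else 0) := by
    unfold psiPhi
    simp_rw [Finset.mul_sum]
    rw [Finset.sum_comm]
    refine Finset.sum_congr rfl fun n _ => ?_
    rw [← DirichletCharacter.sum_char_inv_mul_char_eq ℂ hu (n : ZMod m), Finset.mul_sum]
    refine Finset.sum_congr rfl fun χ _ => ?_
    ring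
  rw [h1, Finset.mul_sum]
  unfold CS
  rw [Finset.sum_filter, Complex.ofReal_sum]
  refine Finset.sum_congr rfl fun n _ => ?_
  by_cases hn : n ≡ c [MOD m]
  · rw [if_pos hn, if_pos ((ZMod.natCast_eq_natCast_iff _ _ _).2 hn.symm)]
    field_simp
  · rw [if_neg hn, if_neg (fun h => hn ((ZMod.natCast_eq_natCast_iff _ _ _).1 h).symm)]
    simp

theorem CS_congr (y : ℝ) (Q c c' : ℕ) (h : c ≡ c' [MOD Q]) : CS y Q c = CS y Q c' := by
  unfold CS
  apply sum_congr _ fun _ _ => rfl
  apply filter_congr
  intro n _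
  exact ⟨fun h1 => h1.trans h, fun h1 => h1.trans h.symm⟩

theorem psiPhi_changeLevel_sub (X : ℝ) (hX : 1 ≤ X) (m f : ℕ) (hm : 1 ≤ m) (h : f ∣ m)
    (ψ : DirichletCharacter ℂ f) :
    ‖psiPhi (DirichletCharacter.changeLevel h ψ) X - psiPhi ψ X‖ ≤
      m.primeFactors.card * Real.log (3 * X) := by
  have hf : NeZero m := ⟨by omega⟩
  have e : psiPhi (DirichletCharacter.changeLevel h ψ) X = psiPhi ψ X -
      ∑ n ∈ (Icc 1 ⌊3 * X⌋₊).filter (fun n => ¬ n.Coprime m),
        ((Phi (n / X) * ArithmeticFunction.vonMangoldt n : ℝ) : ℂ) * ψ (n : ZMod f) := by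
    unfold psiPhi
    rw [sum_filter, ← sum_sub_distrib]
    apply sum_congr rfl
    intro n _
    by_cases hn : n.Coprime m
    · have h1 := DirichletCharacter.changeLevel_eq_cast_of_dvd' ψ h (a := (n : ℤ))
        (by exact_mod_cast Nat.isCoprime_iff_coprime.mpr hn)
      push_cast at h1
      rw [h1, if_neg (not_not.mpr hn), sub_zero]
    · rw [MulChar.map_nonunit _ (fun hu => hn ((ZMod.isUnit_iff_coprime n _).mp hu)), if_pos hn]
      ring
  rw [e, sub_sub_cancel_left, norm_neg]
  refine (norm_sum_le _ _).trans ?_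
  refine le_trans ?_ (sum_ncPhi X hX m hm)
  apply sum_le_sum
  intro n hn
  rw [mem_filter] at hn
  have h2 := ψ.norm_le_one (n : ZMod f)
  have h3 : 0 ≤ Phi (n / X) * ArithmeticFunction.vonMangoldt n :=
    mul_nonneg (Pool.Agent.H378R2.LSBV.Phi_nonneg _) ArithmeticFunction.vonMangoldt_nonneg
  rw [norm_mul, Complex.norm_real, Real.norm_eq_abs, abs_of_nonneg h3]
  calc Phi (n / X) * ArithmeticFunction.vonMangoldt n * ‖ψ (n : ZMod f)‖ ≤
      Phi (n / X) * ArithmeticFunction.vonMangoldt n * 1 := mul_le_mul_of_nonneg_left h2 h3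
    _ = _ := by ring

/-- the part of the class sum modulo `Q h` which belongs to `h` -/
noncomputable def Hg (y : ℝ) (Q h c : ℕ) : ℝ :=
  ∑ x ∈ h.divisorsAntidiagonal, ((ArithmeticFunction.moebius x.1 : ℤ) : ℝ) * ((x.2.totient : ℝ) * CS y (Q * x.2) c)

theorem Hg_sum (y : ℝ) (Q D c : ℕ) (hD : 0 < D) :
    ∑ h ∈ D.divisors, Hg y Q h c = (D.totient : ℝ) * CS y (Q * D) c := by
  have := (ArithmeticFunction.sum_eq_iff_sum_mul_moebius_eq (R := ℝ) (f := fun h => Hg y Q h c)
    (g := fun D => (D.totient : ℝ) * CS y (Q * D) c)).2 (fun n _ => rfl)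
  exact this D hD

theorem Hg_one (y : ℝ) (Q c : ℕ) : Hg y Q 1 c = CS y Q c := by
  unfold Hg
  simp

theorem Hg_congr (y : ℝ) (Q h c c' : ℕ) (hcc : c ≡ c' [MOD (Q * h)]) : Hg y Q h c = Hg y Q h c' := by
  unfold Hg
  refine sum_congr rfl fun x hx => ?_
  rw [Nat.mem_divisorsAntidiagonal] at hx
  have hd : Q * x.2 ∣ Q * h := Nat.mul_dvd_mul_left _ (hx.1 ▸ dvd_mul_left _ _)
  rw [CS_congr y (Q * x.2) c c' (hcc.of_dvd hd)]

/-- the bound, the same for all classes -/
noncomputable def Hb (y : ℝ) (Q h : ℕ) : ℝ :=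
  (1 / (Q.totient : ℝ)) * (∑ f ∈ (Q * h).divisors.filter (fun f => h ∣ f), TT y f) +
    (h.divisors.card + 1) * h.totient * ((Q * h).primeFactors.card * Real.log (3 * y))

theorem Hb_nonneg (y : ℝ) (hy : 1 ≤ y) (Q h : ℕ) : 0 ≤ Hb y Q h := by
  unfold Hb
  have hlog : 0 ≤ Real.log (3 * y) := Real.log_nonneg (by linarith)
  have : 0 ≤ ∑ f ∈ (Q * h).divisors.filter (fun f => h ∣ f), TT y f :=
    sum_nonneg fun f _ => TT_nonneg _ _
  positivity

theorem Hg_le (y : ℝ) (hy : 1 ≤ y) (Q h c : ℕ) (hQ : 1 ≤ Q) (hh : 1 < h) (hQh : Q.Coprime h)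
    (hc : c.Coprime (Q * h)) : |Hg y Q h c| ≤ Hb y Q h := by
  classical
  obtain ⟨m, hm⟩ : ∃ m, m = Q * h := ⟨_, rfl⟩
  have hm1 : 1 ≤ m := by rw [hm]; exact Nat.mul_pos hQ (by omega)
  have hnz : NeZero m := ⟨by omega⟩
  unfold Hb
  rw [← hm] at hc ⊢
  set E := (m.primeFactors.card : ℝ) * Real.log (3 * y) with hE
  have hlog : 0 ≤ Real.log (3 * y) := Real.log_nonneg (by linarith)
  have hE0 : 0 ≤ E := by positivity
  have hφQ : (1 : ℝ) ≤ Q.totient := by exact_mod_cast Nat.totient_pos.mpr hQ
  have hφ : (m.totient : ℝ) = Q.totient * h.totient := by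
    rw [hm, Nat.totient_mul hQh]; push_cast; ring
  have hcu : IsUnit (c : ZMod m) := (ZMod.isUnit_iff_coprime c m).2 hc
  -- the characters which come from a divisor
  set X : DirichletCharacter ℂ m → ℂ := fun χ => χ ((c : ZMod m)⁻¹) * psiPhi χ y with hX
  set F : ℕ → ℂ := fun e => ∑ χ ∈ (univ : Finset (DirichletCharacter ℂ m)).filter
    (fun χ => Nat.gcd χ.conductor h ∣ e), X χ with hF
  set G : ℕ → ℂ := fun k => ∑ χ ∈ (univ : Finset (DirichletCharacter ℂ m)).filter
    (fun χ => Nat.gcd χ.conductor h = k), X χ with hG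
  have hcond : ∀ χ : DirichletCharacter ℂ m, 0 < Nat.gcd χ.conductor h := fun χ =>
    Nat.gcd_pos_of_pos_right _ (by omega)
  have hFG : ∀ n > 0, ∑ k ∈ n.divisors, G k = F n := by
    intro n hn
    simp only [hG, hF]
    rw [← Finset.sum_fiberwise_of_maps_to (s := (univ : Finset (DirichletCharacter ℂ m)).filter
      (fun χ => Nat.gcd χ.conductor h ∣ n)) (t := n.divisors) (g := fun χ => Nat.gcd χ.conductor h)
      (fun χ hχ => by
        rw [mem_filter] at hχ
        exact Nat.mem_divisors.2 ⟨hχ.2, by omega⟩)]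
    refine sum_congr rfl fun k hk => ?_
    apply sum_congr _ fun _ _ => rfl
    ext χ
    simp only [mem_filter, mem_univ, true_and]
    constructor
    · intro h1
      exact ⟨h1 ▸ Nat.dvd_of_mem_divisors hk, h1⟩
    · exact fun h1 => h1.2
  have hinv := (ArithmeticFunction.sum_eq_iff_sum_mul_moebius_eq (R := ℂ) (f := G) (g := F)).1 hFG h (by omega)
  -- one divisor
  have hone : ∀ e, e ∣ h → ‖(((e.totient : ℝ) * CS y (Q * e) c : ℝ) : ℂ) - (1 / (Q.totient : ℂ)) * F e‖ ≤
      h.totient * E := by
    intro e he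
    have he1 : 1 ≤ e := Nat.pos_of_dvd_of_pos he (by omega)
    have hem : Q * e ∣ m := by rw [hm]; exact Nat.mul_dvd_mul_left _ he
    have hqe1 : 1 ≤ Q * e := Nat.mul_pos hQ he1
    have hnz' : NeZero (Q * e) := ⟨by omega⟩
    have hce : c.Coprime (Q * e) := hc.coprime_dvd_right hem
    have hcue : IsUnit (c : ZMod (Q * e)) := (ZMod.isUnit_iff_coprime c _).2 hce
    have hQe : Q.Coprime e := hQh.coprime_dvd_right he
    have hφe : ((Q * e).totient : ℂ) = Q.totient * e.totient := by
      rw [Nat.totient_mul hQe]; push_cast; ring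
    have hφe0 : (e.totient : ℂ) ≠ 0 := by
      have := Nat.totient_pos.2 he1
      exact_mod_cast this.ne'
    have hφQ0 : (Q.totient : ℂ) ≠ 0 := by
      have := Nat.totient_pos.2 hQ
      exact_mod_cast this.ne'
    have himg : (univ : Finset (DirichletCharacter ℂ m)).filter (fun χ => Nat.gcd χ.conductor h ∣ e) =
        univ.image (DirichletCharacter.changeLevel (R := ℂ) hem) := by
      ext χ
      simp only [mem_filter, mem_univ, true_and, mem_image]
      have hcm : χ.conductor ∣ m := χ.conductor_dvd_level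
      constructor
      · intro h1
        have h2 : χ.conductor ∣ Q * e := by
          have h3 : χ.conductor ∣ Nat.gcd χ.conductor Q * Nat.gcd χ.conductor h := by
            have : χ.conductor ∣ Q * h := hm ▸ hcm
            have h4 := (Nat.Coprime.gcd_mul χ.conductor hQh)
            rw [← h4]
            exact Nat.dvd_gcd dvd_rfl this
          exact h3.trans (Nat.mul_dvd_mul (Nat.gcd_dvd_right _ _) h1)
        have h5 : χ.FactorsThrough (Q * e) :=
          (DirichletCharacter.mem_conductorSet_iff_conductor_dvd χ hem).2 h2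
        exact ⟨h5.χ₀, (h5.eq_changeLevel).symm⟩
      · rintro ⟨ψ, rfl⟩
        have h2 : (DirichletCharacter.changeLevel hem ψ).conductor ∣ Q * e :=
          (DirichletCharacter.mem_conductorSet_iff_conductor_dvd _ hem).1
            (DirichletCharacter.changeLevel_factorsThrough ψ hem)
        have h3 : (Nat.gcd (DirichletCharacter.changeLevel hem ψ).conductor h).Coprime Q :=
          (hQh.symm).coprime_dvd_left (Nat.gcd_dvd_right _ _)
        exact h3.dvd_of_dvd_mul_left ((Nat.gcd_dvd_left _ _).trans h2)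
    have e1 : F e = ∑ ψ : DirichletCharacter ℂ (Q * e), ψ ((c : ZMod (Q * e))⁻¹) *
        psiPhi (DirichletCharacter.changeLevel hem ψ) y := by
      simp only [hF]
      rw [himg, Finset.sum_image]
      · refine Finset.sum_congr rfl fun ψ _ => ?_
        simp only [hX]
        congr 1
        have h1 : (DirichletCharacter.changeLevel hem ψ) (c : ZMod m) = ψ (c : ZMod (Q * e)) := by
          have := DirichletCharacter.changeLevel_eq_cast_of_dvd' ψ hem (a := (c : ℤ))
            (by exact_mod_cast Nat.isCoprime_iff_coprime.mpr hc)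
          push_cast at this
          exact this
        have h2 : (DirichletCharacter.changeLevel hem ψ) ((c : ZMod m)⁻¹) *
            (DirichletCharacter.changeLevel hem ψ) (c : ZMod m) = 1 := by
          rw [← map_mul, ZMod.inv_mul_of_unit _ hcu, map_one]
        have h3 : ψ ((c : ZMod (Q * e))⁻¹) * ψ (c : ZMod (Q * e)) = 1 := by
          rw [← map_mul, ZMod.inv_mul_of_unit _ hcue, map_one]
        rw [h1] at h2
        have h4 : ψ (c : ZMod (Q * e)) ≠ 0 := fun h => by rw [h, mul_zero] at h3; exact zero_ne_one h3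
        exact mul_right_cancel₀ h4 (h2.trans h3.symm)
      · intro x _ y' _ hxy
        exact DirichletCharacter.changeLevel_injective hem hxy
    have e2 : (((e.totient : ℝ) * CS y (Q * e) c : ℝ) : ℂ) - (1 / (Q.totient : ℂ)) * F e =
        (1 / (Q.totient : ℂ)) * ∑ ψ : DirichletCharacter ℂ (Q * e), ψ ((c : ZMod (Q * e))⁻¹) *
          (psiPhi ψ y - psiPhi (DirichletCharacter.changeLevel hem ψ) y) := by
      push_cast
      rw [CS_char y (Q * e) c hce, e1, hφe]
      simp_rw [mul_sub]
      rw [Finset.sum_sub_distrib]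
      field_simp
    rw [e2, norm_mul, norm_div, norm_one, Complex.norm_natCast]
    have h6 : ‖∑ ψ : DirichletCharacter ℂ (Q * e), ψ ((c : ZMod (Q * e))⁻¹) *
          (psiPhi ψ y - psiPhi (DirichletCharacter.changeLevel hem ψ) y)‖ ≤ (Q * e).totient * E := by
      refine (norm_sum_le _ _).trans ?_
      calc _ ≤ ∑ ψ : DirichletCharacter ℂ (Q * e), E := by
            apply sum_le_sum
            intro ψ _
            rw [norm_mul]
            have h7 : ‖ψ ((c : ZMod (Q * e))⁻¹)‖ ≤ 1 := ψ.norm_le_one _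
            have h8 := psiPhi_changeLevel_sub y hy m (Q * e) hm1 hem ψ
            rw [norm_sub_rev] at h8
            calc _ ≤ 1 * E := mul_le_mul h7 h8 (norm_nonneg _) zero_le_one
              _ = E := one_mul _
        _ = (Q * e).totient * E := by
            rw [sum_const, nsmul_eq_mul, card_univ, ← Nat.card_eq_fintype_card,
              DirichletCharacter.card_eq_totient_of_hasEnoughRootsOfUnity ℂ (Q * e)]
    have h9 : ((Q * e).totient : ℝ) = Q.totient * e.totient := by
      rw [Nat.totient_mul hQe]; push_cast; ring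
    have h10 : (e.totient : ℝ) ≤ h.totient := by
      exact_mod_cast Nat.le_of_dvd (Nat.totient_pos.2 (by omega)) (Nat.totient_dvd_of_dvd he)
    calc (1 / (Q.totient : ℝ)) * _ ≤ (1 / (Q.totient : ℝ)) * ((Q * e).totient * E) :=
          mul_le_mul_of_nonneg_left h6 (by positivity)
      _ = e.totient * E := by
          rw [h9]
          field_simp
      _ ≤ h.totient * E := mul_le_mul_of_nonneg_right h10 hE0
  -- the main part
  have hGb : ‖G h‖ ≤ (∑ f ∈ m.divisors.filter (fun f => h ∣ f), TT y f) + m.totient * E := by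
    have h2 := step2 m (fun χ => if h ∣ χ.conductor then max (‖psiPhi χ y‖ - E) 0 else 0)
      (fun χ => by
        split_ifs
        · exact le_max_right _ _
        · exact le_rfl) (fun f ψ => if h ∣ f then ‖psiPhi ψ y‖ else 0) (by
        intro f hf ψ
        by_cases hfW : h ∣ f
        · rw [if_pos hfW]
          split_ifs
          · apply max_le _ (norm_nonneg _)
            have := psiPhi_changeLevel y hy m f hm1 hf ψ
            linarith
          · exact norm_nonneg _
        · rw [if_neg hfW, if_neg]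
          intro h3
          apply hfW
          refine h3.trans ?_
          rw [DirichletCharacter.conductor_changeLevel]
          exact ψ.conductor_dvd_level)
    have hTW : ∀ f, ∑ ψ ∈ (univ : Finset (DirichletCharacter ℂ f)).filter (fun χ => χ.IsPrimitive),
        (if h ∣ f then ‖psiPhi ψ y‖ else 0) = if h ∣ f then TT y f else 0 := by
      intro f
      unfold TT
      split_ifs
      · rfl
      · simp
    have hfil : (univ : Finset (DirichletCharacter ℂ m)).filter (fun χ => Nat.gcd χ.conductor h = h) =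
        ((univ : Finset (DirichletCharacter ℂ m)).filter (fun χ => χ ≠ 1)).filter (fun χ => h ∣ χ.conductor) := by
      ext χ
      simp only [mem_filter, mem_univ, true_and]
      rw [Nat.gcd_eq_right_iff_dvd]
      constructor
      · intro h1
        refine ⟨?_, h1⟩
        rintro rfl
        rw [DirichletCharacter.conductor_one] at h1
        have := Nat.le_of_dvd one_pos h1
        omega
      · exact fun h1 => h1.2
    calc ‖G h‖ ≤ ∑ χ ∈ (univ : Finset (DirichletCharacter ℂ m)).filter (fun χ => Nat.gcd χ.conductor h = h),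
          ‖psiPhi χ y‖ := by
          simp only [hG]
          refine (norm_sum_le _ _).trans (sum_le_sum fun χ _ => ?_)
          simp only [hX]
          rw [norm_mul]
          have : ‖χ ((c : ZMod m)⁻¹)‖ ≤ 1 := χ.norm_le_one _
          calc _ ≤ 1 * ‖psiPhi χ y‖ := mul_le_mul_of_nonneg_right this (norm_nonneg _)
            _ = _ := one_mul _
      _ = ∑ χ ∈ (univ : Finset (DirichletCharacter ℂ m)).filter (fun χ => χ ≠ 1),
          (if h ∣ χ.conductor then ‖psiPhi χ y‖ else 0) := by
          rw [hfil, sum_filter]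
      _ ≤ ∑ χ ∈ (univ : Finset (DirichletCharacter ℂ m)).filter (fun χ => χ ≠ 1),
          ((if h ∣ χ.conductor then max (‖psiPhi χ y‖ - E) 0 else 0) + E) := by
          apply sum_le_sum
          intro χ _
          split_ifs
          · have := le_max_left (‖psiPhi χ y‖ - E) 0
            linarith
          · linarith
      _ = ∑ χ ∈ (univ : Finset (DirichletCharacter ℂ m)).filter (fun χ => χ ≠ 1),
          (if h ∣ χ.conductor then max (‖psiPhi χ y‖ - E) 0 else 0) +
          (((univ : Finset (DirichletCharacter ℂ m)).filter (fun χ => χ ≠ 1)).card : ℝ) * E := by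
          rw [sum_add_distrib, sum_const, nsmul_eq_mul]
      _ ≤ _ := by
          apply add_le_add
          · refine h2.trans ?_
            rw [sum_congr rfl fun f _ => hTW f, ← sum_filter, filter_filter]
            apply sum_le_sum_of_subset_of_nonneg
            · intro f hf
              rw [mem_filter] at hf ⊢
              exact ⟨hf.1, hf.2.2⟩
            · exact fun f _ _ => TT_nonneg _ _
          · apply mul_le_mul_of_nonneg_right _ hE0
            have h4 := DirichletCharacter.card_eq_totient_of_hasEnoughRootsOfUnity ℂ m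
            rw [← h4, Nat.card_eq_fintype_card]
            exact_mod_cast (card_filter_le _ _)
  -- assembly
  have e3 : ((Hg y Q h c : ℝ) : ℂ) = (1 / (Q.totient : ℂ)) * G h +
      ∑ x ∈ h.divisorsAntidiagonal, ((ArithmeticFunction.moebius x.1 : ℤ) : ℂ) *
        ((((x.2.totient : ℝ) * CS y (Q * x.2) c : ℝ) : ℂ) - (1 / (Q.totient : ℂ)) * F x.2) := by
    rw [← hinv, mul_sum, ← sum_add_distrib]
    unfold Hg
    rw [Complex.ofReal_sum]
    refine sum_congr rfl fun x _ => ?_
    push_cast
    ring
  rw [← Real.norm_eq_abs, ← Complex.norm_real, e3]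
  refine (norm_add_le _ _).trans ?_
  have h7 : ‖(1 / (Q.totient : ℂ)) * G h‖ ≤ (1 / (Q.totient : ℝ)) *
      (∑ f ∈ m.divisors.filter (fun f => h ∣ f), TT y f) + h.totient * E := by
    rw [norm_mul, norm_div, norm_one, Complex.norm_natCast]
    calc _ ≤ (1 / (Q.totient : ℝ)) * ((∑ f ∈ m.divisors.filter (fun f => h ∣ f), TT y f) + m.totient * E) :=
          mul_le_mul_of_nonneg_left hGb (by positivity)
      _ = _ := by
          rw [hφ]
          field_simp
  have h8 : ‖∑ x ∈ h.divisorsAntidiagonal, ((ArithmeticFunction.moebius x.1 : ℤ) : ℂ) *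
        ((((x.2.totient : ℝ) * CS y (Q * x.2) c : ℝ) : ℂ) - (1 / (Q.totient : ℂ)) * F x.2)‖ ≤
      h.divisors.card * (h.totient * E) := by
    refine (norm_sum_le _ _).trans ?_
    calc _ ≤ ∑ x ∈ h.divisorsAntidiagonal, (h.totient * E) := by
          apply sum_le_sum
          intro x hx
          rw [Nat.mem_divisorsAntidiagonal] at hx
          rw [norm_mul]
          have h9 := hone x.2 (hx.1 ▸ dvd_mul_left _ _)
          have h10 : ‖((ArithmeticFunction.moebius x.1 : ℤ) : ℂ)‖ ≤ 1 := by
            rw [Complex.norm_intCast, ← Int.cast_abs]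
            exact_mod_cast ArithmeticFunction.abs_moebius_le_one
          calc _ ≤ 1 * (h.totient * E) := mul_le_mul h10 h9 (norm_nonneg _) zero_le_one
            _ = _ := one_mul _
      _ = h.divisors.card * (h.totient * E) := by
          rw [sum_const, nsmul_eq_mul]
          congr 2
          rw [← Nat.map_div_right_divisors]
          simp
  calc _ ≤ ((1 / (Q.totient : ℝ)) * (∑ f ∈ m.divisors.filter (fun f => h ∣ f), TT y f) + h.totient * E) +
        h.divisors.card * (h.totient * E) := add_le_add h7 h8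
    _ = _ := by ring

end Pool.Agent.L7h28.UM
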