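import Mathlib
import Pool.Agent.L7h28.UM.Ch

set_option autoImplicit false

/-! The total of the bounds `Hb`. -/

open Finset Filter

namespace Pool.Agent.L7h28.UM

open Pool.Agent.H378R2 Pool.Agent.H378R2.LSBV

theorem card_pow_le (A : ℕ) : ∃ C : ℝ, 0 < C ∧ ∀ q : ℕ, 1 ≤ q → (q.divisors.card : ℝ) ^ A ≤ C * q := by
  obtain ⟨C, hC, h⟩ := wt_le A
  refine ⟨C, hC, fun q hq => ?_⟩
  have h1 := h q hq
  unfold wt at h1
  have hq0 : (1 : ℝ) ≤ q := by exact_mod_cast hq
  have hφ : (0 : ℝ) < q.totient := by exact_mod_cast Nat.totient_pos.2 hq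
  rw [div_le_iff₀ hφ] at h1
  have h2 : (q.totient : ℝ) ≤ q := by exact_mod_cast Nat.totient_le q
  have h3 : (1 : ℝ) ≤ Real.sqrt q := Real.one_le_sqrt.2 hq0
  calc (q.divisors.card : ℝ) ^ A ≤ C / Real.sqrt q * q.totient := h1
    _ ≤ C * q := by
        apply mul_le_mul _ h2 hφ.le hC.le
        exact div_le_self hC.le h3

theorem Hb_total0 (A : ℕ) : ∃ C y0 : ℝ, 0 < C ∧ ∀ y : ℝ, y0 ≤ y → 1 ≤ y ∧ ∀ (Q ps R : ℕ) (D : ℝ), 1 ≤ Q → 1 ≤ R →
    ((Q * R : ℕ) : ℝ) ≤ y ^ (1 / 50 : ℝ) → 0 < D → (∀ h ∈ QQ Q ps R, h = 1 ∨ D ≤ h) →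
    ∑ h ∈ (QQ Q ps R).filter (fun h => h ≠ 1), wt A h * Hb y Q h ≤
      (1 / (Q.totient : ℝ)) * (C / Real.sqrt D * (C * y * (Real.log y) ^ 8)) +
        C * (y ^ (1 / 50 : ℝ)) ^ 3 * Real.log (3 * y) := by
  obtain ⟨C1, hC1, hwt⟩ := wt_le A
  obtain ⟨C2, X0, hls⟩ := ls_sum
  obtain ⟨C3, hC3, hcard⟩ := card_pow_le (A + 1)
  refine ⟨max (max C1 |C2|) (2 * C3), max X0 3, lt_of_lt_of_le hC1 ((le_max_left _ _).trans (le_max_left _ _)), ?_⟩
  intro y hy
  have hyX : X0 ≤ y := (le_max_left _ _).trans hy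
  have hy3 : 3 ≤ y := (le_max_right _ _).trans hy
  have hy1 : 1 ≤ y := by linarith
  refine ⟨hy1, fun Q ps R D hQ hR hQR hD hmin => ?_⟩
  obtain ⟨C, hC⟩ : ∃ C, C = max (max C1 |C2|) (2 * C3) := ⟨_, rfl⟩
  rw [← hC]
  have hCC1 : C1 ≤ C := by rw [hC]; exact (le_max_left _ _).trans (le_max_left _ _)
  have hCC2 : C2 ≤ C := by rw [hC]; exact (le_abs_self _).trans ((le_max_right _ _).trans (le_max_left _ _))
  have hCC3 : 2 * C3 ≤ C := by rw [hC]; exact le_max_right _ _
  have hC0 : 0 < C := hC1.trans_le hCC1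
  have hlog : 1 ≤ Real.log y := by
    rw [Real.le_log_iff_exp_le (by linarith)]
    have := Real.exp_one_lt_d9
    linarith
  have hlog3 : 0 ≤ Real.log (3 * y) := Real.log_nonneg (by linarith)
  have hφ : (1 : ℝ) ≤ Q.totient := by exact_mod_cast Nat.totient_pos.mpr hQ
  set P := y ^ (1 / 50 : ℝ) with hP
  have hQRr : (Q : ℝ) * R ≤ P := by exact_mod_cast hQR
  have hQ1 : (1 : ℝ) ≤ Q := by exact_mod_cast hQ
  have hR1 : (1 : ℝ) ≤ R := by exact_mod_cast hR
  have hRP : (R : ℝ) ≤ P := by nlinarith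
  have hP1 : 1 ≤ P := by linarith
  have hsq : 0 < Real.sqrt D := Real.sqrt_pos.2 hD
  -- splitting
  have h1 : ∑ h ∈ (QQ Q ps R).filter (fun h => h ≠ 1), wt A h * Hb y Q h =
      ∑ h ∈ (QQ Q ps R).filter (fun h => h ≠ 1), wt A h * ((1 / (Q.totient : ℝ)) *
        (∑ f ∈ (Q * h).divisors.filter (fun f => h ∣ f), TT y f)) +
      ∑ h ∈ (QQ Q ps R).filter (fun h => h ≠ 1), wt A h *
        ((h.divisors.card + 1) * h.totient * ((Q * h).primeFactors.card * Real.log (3 * y))) := by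
    rw [← sum_add_distrib]
    refine sum_congr rfl fun q _ => ?_
    unfold Hb
    ring
  rw [h1]
  apply add_le_add
  · have e1 : ∀ h ∈ (QQ Q ps R).filter (fun h => h ≠ 1), wt A h * ((1 / (Q.totient : ℝ)) *
        (∑ f ∈ (Q * h).divisors.filter (fun f => h ∣ f), TT y f)) ≤
        (1 / (Q.totient : ℝ)) * (C / Real.sqrt D * ∑ a ∈ Q.divisors, TT y (a * h)) := by
      intro h hh
      rw [mem_filter] at hh
      have hhQ := mem_QQ.1 hh.1
      have hh1 : 1 ≤ h := hhQ.1.1
      have hD' : D ≤ h := (hmin h hh.1).resolve_left hh.2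
      have hw : wt A h ≤ C / Real.sqrt D := by
        refine (hwt h hh1).trans ?_
        apply div_le_div₀ hC0.le hCC1 hsq
        exact Real.sqrt_le_sqrt hD'
      have hs : ∑ f ∈ (Q * h).divisors.filter (fun f => h ∣ f), TT y f ≤ ∑ a ∈ Q.divisors, TT y (a * h) := by
        have hinj : Set.InjOn (fun a => a * h) (Q.divisors : Set ℕ) := by
          intro a _ b _ hab
          exact Nat.eq_of_mul_eq_mul_right (by omega) hab
        rw [← Finset.sum_image (f := TT y) (g := fun a => a * h) (s := Q.divisors) hinj]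
        apply sum_le_sum_of_subset_of_nonneg
        · intro f hf
          rw [mem_filter, Nat.mem_divisors] at hf
          rw [mem_image]
          obtain ⟨a, rfl⟩ := hf.2
          refine ⟨a, Nat.mem_divisors.2 ⟨?_, by omega⟩, by ring⟩
          have h2 := hf.1.1
          rw [mul_comm Q h] at h2
          exact Nat.dvd_of_mul_dvd_mul_left (by omega) h2
        · exact fun f _ _ => TT_nonneg _ _
      have hs0 : 0 ≤ ∑ f ∈ (Q * h).divisors.filter (fun f => h ∣ f), TT y f :=
        sum_nonneg fun f _ => TT_nonneg _ _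
      calc wt A h * ((1 / (Q.totient : ℝ)) * (∑ f ∈ (Q * h).divisors.filter (fun f => h ∣ f), TT y f)) =
          (1 / (Q.totient : ℝ)) * (wt A h * (∑ f ∈ (Q * h).divisors.filter (fun f => h ∣ f), TT y f)) := by ring
        _ ≤ _ := by
            apply mul_le_mul_of_nonneg_left _ (by positivity)
            exact mul_le_mul hw hs hs0 (by positivity)
    refine (sum_le_sum e1).trans ?_
    rw [← mul_sum, ← mul_sum]
    apply mul_le_mul_of_nonneg_left _ (by positivity)
    apply mul_le_mul_of_nonneg_left _ (by positivity)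
    have h2 := pair_inj (TT y) (TT_nonneg y) Q ps R (Icc 2 ⌊P⌋₊)
      (Q.divisors ×ˢ (QQ Q ps R).filter (fun h => h ≠ 1)) (product_subset_product_right (filter_subset _ _)) (by
        intro p hp
        rw [mem_product, Nat.mem_divisors, mem_filter, mem_QQ] at hp
        rw [mem_Icc]
        have hp1 : 0 < p.1 := Nat.pos_of_dvd_of_pos hp.1.1 hQ
        have hp2 : 2 ≤ p.2 := by
          have := hp.2.1.1.1
          have := hp.2.2
          omega
        have hpp : 2 ≤ p.1 * p.2 := by nlinarith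
        refine ⟨hpp, Nat.le_floor ?_⟩
        have h3 : p.1 * p.2 ≤ Q * R := Nat.mul_le_mul (Nat.le_of_dvd hQ hp.1.1) hp.2.1.1.2
        calc ((p.1 * p.2 : ℕ) : ℝ) ≤ ((Q * R : ℕ) : ℝ) := by exact_mod_cast h3
          _ ≤ P := hQR)
    rw [sum_product_right] at h2
    refine h2.trans ?_
    have h3 := hls y hyX
    refine le_trans (le_of_eq ?_) (h3.trans ?_)
    · rfl
    · gcongr
  · have e2 : ∀ h ∈ (QQ Q ps R).filter (fun h => h ≠ 1), wt A h *
        ((h.divisors.card + 1) * h.totient * ((Q * h).primeFactors.card * Real.log (3 * y))) ≤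
        (2 * (C3 * R)) * (P * Real.log (3 * y)) := by
      intro h hh
      rw [mem_filter, mem_QQ] at hh
      have hq1 := hh.1.1.1
      have h2 := hcard h hq1
      have h3 : (h : ℝ) ≤ R := by exact_mod_cast hh.1.1.2
      have hφh : (0 : ℝ) < h.totient := by exact_mod_cast Nat.totient_pos.2 hq1
      have hτ : (1 : ℝ) ≤ h.divisors.card := by
        have : 1 ≤ h.divisors.card := Finset.card_pos.2 ⟨1, Nat.one_mem_divisors.2 (by omega)⟩
        exact_mod_cast this
      have h4 : (((Q * h).primeFactors.card : ℕ) : ℝ) ≤ P := by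
        have h5 : (Q * h).primeFactors.card ≤ Q * h := by
          have h6 : (Q * h).primeFactors ⊆ Icc 1 (Q * h) := by
            intro p hp
            rw [mem_Icc]
            have := Nat.prime_of_mem_primeFactors hp
            exact ⟨this.one_lt.le, Nat.le_of_mem_primeFactors hp⟩
          have := card_le_card h6
          rwa [Nat.card_Icc, Nat.add_sub_cancel] at this
        calc (((Q * h).primeFactors.card : ℕ) : ℝ) ≤ ((Q * h : ℕ) : ℝ) := by exact_mod_cast h5
          _ ≤ ((Q * R : ℕ) : ℝ) := by exact_mod_cast Nat.mul_le_mul_left _ hh.1.1.2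
          _ ≤ P := hQR
      have h7 : wt A h * ((h.divisors.card + 1) * h.totient) ≤ 2 * (C3 * R) := by
        unfold wt
        calc (h.divisors.card : ℝ) ^ A / h.totient * ((h.divisors.card + 1) * h.totient) =
            (h.divisors.card : ℝ) ^ A * (h.divisors.card + 1) := by field_simp
          _ ≤ (h.divisors.card : ℝ) ^ A * (2 * h.divisors.card) := by gcongr; linarith
          _ = 2 * (h.divisors.card : ℝ) ^ (A + 1) := by ring
          _ ≤ 2 * (C3 * h) := by linarith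
          _ ≤ 2 * (C3 * R) := by gcongr
      calc wt A h * ((h.divisors.card + 1) * h.totient * ((Q * h).primeFactors.card * Real.log (3 * y))) =
          (wt A h * ((h.divisors.card + 1) * h.totient)) * ((Q * h).primeFactors.card * Real.log (3 * y)) := by ring
        _ ≤ _ := by
            apply mul_le_mul h7 _ (by positivity) (by positivity)
            gcongr
    refine (sum_le_card_nsmul _ _ _ e2).trans ?_
    rw [nsmul_eq_mul]
    have hcd : (((QQ Q ps R).filter (fun h => h ≠ 1)).card : ℝ) ≤ R := by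
      have : (QQ Q ps R).filter (fun h => h ≠ 1) ⊆ Icc 1 R := by
        unfold QQ
        exact (filter_subset _ _).trans (filter_subset _ _)
      have := card_le_card this
      rw [Nat.card_Icc, Nat.add_sub_cancel] at this
      exact_mod_cast this
    calc (((QQ Q ps R).filter (fun h => h ≠ 1)).card : ℝ) * ((2 * (C3 * R)) * (P * Real.log (3 * y))) ≤
        P * ((2 * (C3 * P)) * (P * Real.log (3 * y))) := by
          gcongr
          exact hcd.trans hRP
      _ = (2 * C3) * P ^ 3 * Real.log (3 * y) := by ring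
      _ ≤ _ := by gcongr

/-- the total of the bounds `Hb`; the exponent `2 (B + 9)` does not depend on the weight -/
theorem Hb_total (A B : ℕ) : ∃ (y0 : ℝ), ∀ y : ℝ, y0 ≤ y → 1 ≤ y ∧ ∀ (Q ps R : ℕ) (D : ℝ), 1 ≤ Q → 1 ≤ R →
    ((Q * R : ℕ) : ℝ) ≤ y ^ (1 / 50 : ℝ) → (Real.log y) ^ (2 * (B + 9)) ≤ D → (∀ h ∈ QQ Q ps R, h = 1 ∨ D ≤ h) →
    ∑ h ∈ (QQ Q ps R).filter (fun h => h ≠ 1), wt A h * Hb y Q h ≤ y / ((Q.totient : ℝ) * (Real.log y) ^ B) := by
  obtain ⟨C, y0, hC, h⟩ := Hb_total0 A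
  -- the small term
  have ev1 : ∀ᶠ y : ℝ in atTop, 2 * C * ((y ^ (1 / 50 : ℝ)) ^ 4 * Real.log (3 * y) * (Real.log y) ^ B) ≤ y := by
    have h1 := (isLittleO_log_rpow_atTop (r := 1 / 50) (by norm_num)).def (c := 1) one_pos
    have h2 := (isLittleO_log_rpow_atTop (r := 1 / (50 * ((B : ℝ) + 1))) (by positivity)).def (c := 1) one_pos
    filter_upwards [h1, h2, eventually_ge_atTop 3, eventually_ge_atTop ((4 * C) ^ 2 + 1)] with y h3 h4 h5 h6
    have hy0 : 0 < y := by linarith
    have hlog : 1 ≤ Real.log y := by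
      rw [Real.le_log_iff_exp_le (by linarith)]
      have := Real.exp_one_lt_d9
      linarith
    rw [one_mul, Real.norm_of_nonneg (by linarith), Real.norm_of_nonneg (by positivity)] at h3 h4
    have h7 : Real.log (3 * y) ≤ 2 * y ^ (1 / 50 : ℝ) := by
      rw [Real.log_mul (by norm_num) hy0.ne']
      have : Real.log 3 ≤ Real.log y := Real.log_le_log (by norm_num) h5
      linarith
    have h8 : (Real.log y) ^ B ≤ y ^ (1 / 50 : ℝ) := by
      calc (Real.log y) ^ B ≤ (y ^ (1 / (50 * ((B : ℝ) + 1)))) ^ B := pow_le_pow_left₀ (by linarith) h4 _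
        _ = y ^ ((1 / (50 * ((B : ℝ) + 1))) * B) := by rw [← Real.rpow_natCast, ← Real.rpow_mul hy0.le]
        _ ≤ y ^ (1 / 50 : ℝ) := by
            apply Real.rpow_le_rpow_of_exponent_le (by linarith)
            rw [div_mul_eq_mul_div, div_le_div_iff₀ (by positivity) (by norm_num)]
            linarith
    have h9 : (2 * C) * 2 ≤ y ^ (1 / 2 : ℝ) := by
      rw [← Real.sqrt_eq_rpow]
      apply Real.le_sqrt_of_sq_le
      nlinarith
    calc 2 * C * ((y ^ (1 / 50 : ℝ)) ^ 4 * Real.log (3 * y) * (Real.log y) ^ B) ≤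
        2 * C * ((y ^ (1 / 50 : ℝ)) ^ 4 * (2 * y ^ (1 / 50 : ℝ)) * y ^ (1 / 50 : ℝ)) := by gcongr
      _ = ((2 * C) * 2) * (y ^ (1 / 50 : ℝ)) ^ 6 := by ring
      _ ≤ y ^ (1 / 2 : ℝ) * (y ^ (1 / 50 : ℝ)) ^ 6 := by gcongr
      _ = y ^ ((1 / 2 : ℝ) + (1 / 50 : ℝ) * 6) := by
          rw [← Real.rpow_natCast, ← Real.rpow_mul hy0.le, ← Real.rpow_add hy0]
          norm_num
      _ ≤ y ^ (1 : ℝ) := Real.rpow_le_rpow_of_exponent_le (by linarith) (by norm_num)
      _ = y := Real.rpow_one y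
  have ev2 : ∀ᶠ y : ℝ in atTop, 2 * (C * C) ≤ Real.log y :=
    Real.tendsto_log_atTop.eventually_ge_atTop _
  obtain ⟨y1, hy1⟩ := eventually_atTop.1 (ev1.and (ev2.and (eventually_ge_atTop 3)))
  refine ⟨max y0 y1, fun y hy => ?_⟩
  obtain ⟨hyge, h2⟩ := h y ((le_max_left _ _).trans hy)
  obtain ⟨g1, g2, g3⟩ := hy1 y ((le_max_right _ _).trans hy)
  refine ⟨hyge, fun Q ps R D hQ hR hQR hD hmin => ?_⟩
  have hlog : 1 ≤ Real.log y := by
    rw [Real.le_log_iff_exp_le (by linarith)]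
    have := Real.exp_one_lt_d9
    linarith
  have hD0 : 0 < D := lt_of_lt_of_le (by positivity) hD
  refine (h2 Q ps R D hQ hR hQR hD0 hmin).trans ?_
  have hφ : (1 : ℝ) ≤ Q.totient := by exact_mod_cast Nat.totient_pos.mpr hQ
  set P := y ^ (1 / 50 : ℝ) with hP
  have hQRr : (Q : ℝ) * R ≤ P := by exact_mod_cast hQR
  have hQ1 : (1 : ℝ) ≤ Q := by exact_mod_cast hQ
  have hR1 : (1 : ℝ) ≤ R := by exact_mod_cast hR
  have hQP : (Q : ℝ) ≤ P := by nlinarith
  have hsq : (Real.log y) ^ (B + 9) ≤ Real.sqrt D := by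
    apply Real.le_sqrt_of_sq_le
    rw [← pow_mul, mul_comm]
    exact hD
  have hsq0 : 0 < Real.sqrt D := lt_of_lt_of_le (by positivity) hsq
  have t1 : C / Real.sqrt D * (C * y * (Real.log y) ^ 8) ≤ y / (2 * (Real.log y) ^ B) := by
    calc C / Real.sqrt D * (C * y * (Real.log y) ^ 8) ≤
        C / (Real.log y) ^ (B + 9) * (C * y * (Real.log y) ^ 8) := by gcongr
      _ = (C * C) * y / ((Real.log y) * (Real.log y) ^ B) := by
          have : Real.log y ≠ 0 := by positivity
          field_simp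
          ring
      _ ≤ y / (2 * (Real.log y) ^ B) := by
          rw [div_le_div_iff₀ (by positivity) (by positivity)]
          have := mul_le_mul_of_nonneg_right g2 (by positivity : 0 ≤ y * (Real.log y) ^ B)
          nlinarith
  have t2 : C * P ^ 3 * Real.log (3 * y) ≤ (1 / (Q.totient : ℝ)) * (y / (2 * (Real.log y) ^ B)) := by
    rw [one_div, ← div_eq_inv_mul, le_div_iff₀ (by linarith), le_div_iff₀ (by positivity)]
    have hφP : (Q.totient : ℝ) ≤ P := by
      have : (Q.totient : ℝ) ≤ Q := by exact_mod_cast Nat.totient_le Q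
      linarith
    have hl3 : 0 ≤ Real.log (3 * y) := Real.log_nonneg (by linarith)
    calc C * P ^ 3 * Real.log (3 * y) * (Q.totient : ℝ) * (2 * (Real.log y) ^ B) ≤
        C * P ^ 3 * Real.log (3 * y) * P * (2 * (Real.log y) ^ B) := by gcongr
      _ = 2 * C * (P ^ 4 * Real.log (3 * y) * (Real.log y) ^ B) := by ring
      _ ≤ y := g1
  calc (1 / (Q.totient : ℝ)) * (C / Real.sqrt D * (C * y * (Real.log y) ^ 8)) +
        C * P ^ 3 * Real.log (3 * y) ≤
      (1 / (Q.totient : ℝ)) * (y / (2 * (Real.log y) ^ B)) + (1 / (Q.totient : ℝ)) * (y / (2 * (Real.log y) ^ B)) := by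
        apply add_le_add _ t2
        exact mul_le_mul_of_nonneg_left t1 (by positivity)
    _ = y / ((Q.totient : ℝ) * (Real.log y) ^ B) := by
        field_simp
        ring

end Pool.Agent.L7h28.UM
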