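import Mathlib
import Pool.Agent.L7h28.UM.Tot
import Pool.Agent.H378R2.M7n

set_option autoImplicit false

/-! The statements of the separate parts of the uniform Maynard-Tao theorem of Linnik type. -/

open Finset Filter
open scoped ContDiff

namespace Pool.Agent.L7h28.UM

open Pool.Agent.H378R2

/-- the sifting set: all primes up to `(log z)^b` and few others -/
def EOK (b : ℕ) (z : ℝ) (E : Finset ℕ) : Prop :=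
  (∀ p ∈ E, p.Prime) ∧ (∀ p : ℕ, p.Prime → (p : ℝ) ≤ (Real.log z) ^ b → p ∈ E) ∧
    (((E.filter (fun p : ℕ => (Real.log z) ^ b < (p : ℝ))).card : ℝ) ≤ (Real.log z) ^ 2)

/-- the conditions on the smooth functions -/
def FamOK {K B : ℕ} (f : Fin B → ℝ → ℝ) (c : Fin B → ℝ) (A : Finset (Fin K → Fin B)) : Prop :=
  (∀ l, ContDiff ℝ ∞ (f l)) ∧ (∀ l, HasCompactSupport (f l)) ∧ (∀ l x, c l < x → f l x = 0) ∧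
    (∀ l, 0 ≤ c l ∧ c l ≤ 1 / 2) ∧ (∀ a ∈ A, ∑ j, c (a j) ≤ 1) ∧ (∀ l x, |f l x| ≤ 1)

/-- the primes outside `E` are harmless for the system `α j * n + β j` -/
def SysOK {K : ℕ} (E : Finset ℕ) (α β : Fin K → ℕ) : Prop :=
  (∀ j, ∀ p : ℕ, p.Prime → p ∣ α j → p ∈ E) ∧
    (∀ i j, i ≠ j → ∀ p : ℕ, p.Prime → p ∉ E → ¬ (p : ℤ) ∣ (α i : ℤ) * β j - (α j : ℤ) * β i)

open Classical in
/-- the sieve sum restricted to the pairs with `g j ∣ lcm (d j) (e j)` -/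
noncomputable def cSum {J : ℕ} (F G : Fin J → ℝ → ℝ) (L : ℝ) (E : Finset ℕ) (w : ℕ → ℝ) (R : ℕ)
    (g : Fin J → ℕ) : ℝ :=
  ∑ d ∈ Fintype.piFinset (fun _ : Fin J => adm E R), ∑ e ∈ Fintype.piFinset (fun _ : Fin J => adm E R),
    if PC d e ∧ ∀ j, g j ∣ Nat.lcm (d j) (e j) then
      wt F G L d e * ∏ j, ∏ p ∈ (Nat.lcm (d j) (e j)).primeFactors, w p
    else 0

/-- (CB) bound for the restricted sieve sums -/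
def S_CB : Prop := ∀ (J : ℕ) (F G : Fin J → ℝ → ℝ)
    (_ : ∀ j, ContDiff ℝ ∞ (F j)) (_ : ∀ j, ContDiff ℝ ∞ (G j))
    (_ : ∀ j, HasCompactSupport (F j)) (_ : ∀ j, HasCompactSupport (G j)),
    ∃ C δ : ℝ, 0 < C ∧ 0 < δ ∧ ∀ (L : ℝ) (E : Finset ℕ) (w : ℕ → ℝ) (R : ℕ) (g : Fin J → ℕ),
      1 / δ ≤ L →
      (∀ j x, Real.log R / L < x → F j x = 0 ∧ G j x = 0) →
      (∀ p ∈ E, p.Prime) → (∀ p : ℕ, p.Prime → (p : ℝ) ≤ 1 / δ → p ∈ E) →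
      (∑ p ∈ E ∪ (∏ j, g j).primeFactors, Real.log p / p ≤ L ^ (1 / 4 : ℝ)) →
      (∑ p ∈ E ∪ (∏ j, g j).primeFactors, (1 : ℝ) / p ≤ Real.log L / 32) →
      (∀ p : ℕ, p.Prime → p ∉ E → |w p - 1 / p| ≤ 2 / (p : ℝ) ^ 2) →
      (∀ j, Squarefree (g j)) → (Pairwise fun i j => (g i).Coprime (g j)) →
      (∀ j, ∀ p : ℕ, p.Prime → p ∣ g j → p ∉ E) →
      (L * BE (E ∪ (∏ j, g j).primeFactors)) ^ J * |cSum F G L E w R g| ≤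
        C * 9 ^ (∏ j, g j).primeFactors.card / ((∏ j, g j : ℕ) : ℝ)

/-- (E1) -/
def S_E1 : Prop := ∀ b : ℕ, 4 ≤ b → ∀ᶠ z : ℝ in atTop, ∀ E T : Finset ℕ, EOK b z E →
    (∀ p ∈ T, p.Prime ∧ p ∉ E) → (T.card : ℝ) ≤ (Real.log z) ^ 2 →
    (∑ p ∈ E ∪ T, Real.log p / p ≤ (LL z) ^ (1 / 4 : ℝ)) ∧
      (∑ p ∈ E ∪ T, (1 : ℝ) / p ≤ Real.log (LL z) / 32)

/-- the big modulus -/
noncomputable def WX (X : ℝ) (S : Finset ℕ) : ℕ :=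
  ∏ p ∈ (Icc 1 ⌊Real.log X⌋₊).filter (fun p => p.Prime ∧ p ∉ S), p

/-- (E2) -/
def S_E2 : Prop := ∀ b : ℕ, 4 ≤ b → ∃ cE : ℝ, 0 < cE ∧ ∀ᶠ X : ℝ in atTop, ∀ S E : Finset ℕ,
    (∀ p ∈ S, p.Prime) → ∑ p ∈ S, (1 : ℝ) / p ≤ 1 → EOK b (X ^ 400) E →
    cE * (((WX X S).totient : ℝ) / (WX X S : ℝ)) ≤ BE E

/-- (S1) -/
def S_S1 : Prop := ∀ (K B : ℕ) (f : Fin B → ℝ → ℝ) (c : Fin B → ℝ) (A : Finset (Fin K → Fin B)),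
    FamOK f c A → ∀ b : ℕ, 4 ≤ b → ∀ ε1 : ℝ, 0 < ε1 → ∀ᶠ z : ℝ in atTop,
    ∀ (E : Finset ℕ) (W a0 N : ℕ) (α β : Fin K → ℕ), EOK b z E → 0 < W →
    (∀ p : ℕ, p.Prime → p ∣ W → p ∈ E) → SysOK E α β →
    ∑ n ∈ (Icc 1 N).filter (fun n => n ≡ a0 [MOD W]),
        sqw E z f A (fun j => (α j : ℤ) * (n : ℤ) + (β j : ℤ)) ^ 2 ≤
      ((N : ℝ) / W) * (1 / (LL z * BE E)) ^ K * (II f A + ε1) +
        (A.card : ℝ) ^ 2 * (2 * Real.exp (2 * LL z))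

/-- the main error terms of (S2) -/
noncomputable def ErrS2 (y z BEE : ℝ) (K0 Q card : ℕ) : ℝ :=
  (1 / (LL z * BEE)) ^ K0 * (y / ((Q.totient : ℝ) * (Real.log z) ^ 3)) +
    (card : ℝ) ^ 2 * (Real.exp (2 * LL z) * (4 * Real.sqrt (3 * y) * Real.log (3 * y)))

/-- (S2) -/
def S_S2 : Prop := ∀ (K0 B : ℕ) (f : Fin B → ℝ → ℝ) (c : Fin B → ℝ) (A : Finset (Fin (K0 + 1) → Fin B)),
    FamOK f c A → ∀ ε1 : ℝ, 0 < ε1 → ∀ K' : ℕ, ∀ᶠ z : ℝ in atTop,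
    ∀ (E : Finset ℕ) (W a0 : ℕ) (α β : Fin (K0 + 1) → ℕ) (i : Fin (K0 + 1)) (x : ℝ),
    EOK 25 z E → 0 < W → (∀ p : ℕ, p.Prime → p ∣ W → p ∈ E) → SysOK E α β →
    z ≤ x → x ≤ z ^ K' → 1 ≤ α i → ((α i * W : ℕ) : ℝ) ≤ z ^ (1 / 100 : ℝ) → (β i : ℝ) ≤ z ^ (1 / 100 : ℝ) →
    (α i * a0 + β i).Coprime (α i * W) →
    CS (α i * x) (α i * W) (α i * a0 + β i) * ((1 / (LL z * BE E)) ^ K0 * (JJ f A i - ε1)) -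
        ErrS2 (α i * x) z (BE E) K0 (α i * W) A.card ≤
      ∑ n ∈ (Icc 1 ⌊3 * x⌋₊).filter (fun n => n ≡ a0 [MOD W]),
        Phi (((α i * n + β i : ℕ) : ℝ) / (α i * x)) * th (α i * n + β i) *
          sqw E z f A (fun j => (α j : ℤ) * (n : ℤ) + (β j : ℤ)) ^ 2

/-- the Linnik type bound which is available in the library (`Pool.Agent.Y835.SC.page`) -/
def PageStmt : Prop := ∃ (K : ℕ) (c : ℝ), 1 ≤ K ∧ 0 < c ∧ ∃ z0 : ℕ, ∀ z : ℕ, z0 ≤ z → ∃ q₁ : ℕ, 2 ≤ q₁ ∧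
    ∀ q b : ℕ, 0 < q → q ^ 16 ≤ z → ¬ q₁ ∣ q → b.Coprime q →
    c / (q.totient : ℝ) ≤
      ∑ p ∈ (Ioc z (z ^ K)).filter (fun p => p.Prime ∧ p ≡ b [MOD q]), (1 : ℝ) / p

/-- (P) a common scale for several progressions -/
def S_P : Prop := PageStmt → ∃ (K' : ℕ) (c1 : ℝ), 1 ≤ K' ∧ 0 < c1 ∧ ∀ᶠ z : ℝ in atTop, ∃ q₁ : ℕ, 2 ≤ q₁ ∧
    ∀ (k : ℕ) (w : Fin k → ℝ) (α Q b : Fin k → ℕ), (∀ i, 0 ≤ w i) →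
    (∀ i, 1 ≤ α i ∧ (α i : ℝ) ≤ z ^ (1 / 100 : ℝ)) →
    (∀ i, 1 ≤ Q i ∧ (Q i : ℝ) ≤ z ^ (1 / 100 : ℝ) ∧ ¬ q₁ ∣ Q i) → (∀ i, (b i).Coprime (Q i)) →
    ∃ x : ℝ, z ≤ x ∧ x ≤ z ^ K' ∧
      c1 * ∑ i, w i ≤ ∑ i, w i * (CS (α i * x) (Q i) (b i) * ((Q i).totient : ℝ) / (α i * x))

/-- (PG) the pigeonhole step for the exceptional modulus -/
def S_PG : Prop := ∀ K1 : ℕ, 1 ≤ K1 → ∃ K : ℕ, ∀ (q₁ : ℕ) (α : Fin K → ℕ), 2 ≤ q₁ →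
    (∀ j, 1 ≤ α j ∧ ¬ q₁ ∣ α j) →
    ∃ (ι : Fin K1 ↪ Fin K) (S : Finset ℕ), (∀ p ∈ S, p.Prime) ∧ ∑ p ∈ S, (1 : ℝ) / p ≤ 1 ∧
      ∀ (j : Fin K1) (W : ℕ), (∀ p ∈ S, ¬ p ∣ W) → ¬ q₁ ∣ α (ι j) * W

/-- (CRT) -/
def S_CRT : Prop := ∀ (K : ℕ) (α β : Fin K → ℕ) (W : ℕ), 0 < W →
    (∀ p : ℕ, p.Prime → ∃ n : ℕ, ∀ j, ¬ p ∣ α j * n + β j) →
    ∃ a0 : ℕ, ∀ j, (α j * a0 + β j).Coprime (α j * W)

/-- the goal -/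
def UMT : Prop := ∀ r : ℕ, ∃ K A : ℕ, ∀ᶠ X : ℕ in atTop, ∃ q₁ : ℕ, 2 ≤ q₁ ∧ ∀ a b : Fin K → ℕ,
    (∀ j, 1 ≤ a j ∧ a j ≤ X ∧ b j ≤ X ∧ ¬ q₁ ∣ a j) →
    (∀ i j, i ≠ j → a i * b j ≠ a j * b i) →
    (∀ p : ℕ, p.Prime → ∃ n : ℕ, ∀ j, ¬ p ∣ a j * n + b j) →
    ∃ n : ℕ, n ≤ X ^ A ∧ r ≤ ((univ : Finset (Fin K)).filter (fun j => (a j * n + b j).Prime)).card

end Pool.Agent.L7h28.UM
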