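import Mathlib
import Pool.Agent.L7h28.UM.Stm

set_option autoImplicit false

/-! The decomposition of the prime sums twisted by the sieve weights. -/

open Finset Filter
open scoped ContDiff

namespace Pool.Agent.L7h28.UM

open Pool.Agent.H378R2

/-! ### divisors of a product of pairwise coprime numbers -/

theorem gcd_prod_aux {J : ℕ} (h : ℕ) (D : Fin J → ℕ) (hD : Pairwise fun i j => (D i).Coprime (D j))
    (s : Finset (Fin J)) : Nat.gcd h (∏ j ∈ s, D j) = ∏ j ∈ s, Nat.gcd h (D j) := by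
  classical
  induction s using Finset.induction_on with
  | empty => simp
  | insert a s ha ih =>
    rw [prod_insert ha, prod_insert ha, Nat.Coprime.gcd_mul, ih]
    apply Nat.Coprime.prod_right
    intro i hi
    exact hD (fun h => ha (h ▸ hi))

theorem gcd_prod_self {J : ℕ} (D g : Fin J → ℕ) (hD : Pairwise fun i j => (D i).Coprime (D j))
    (hg : ∀ j, g j ∣ D j) (j : Fin J) : Nat.gcd (∏ k, g k) (D j) = g j := by
  classical
  rw [← mul_prod_erase univ g (mem_univ j)]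
  have h1 : (∏ k ∈ univ.erase j, g k).Coprime (D j) := by
    apply Nat.Coprime.prod_left
    intro i hi
    exact (hD (ne_of_mem_erase hi)).coprime_dvd_left (hg i)
  rw [Nat.Coprime.gcd_mul_right_cancel _ h1]
  exact Nat.gcd_eq_left (hg j)

theorem sum_divisors_prod {J : ℕ} (D : Fin J → ℕ) (hD0 : ∀ j, D j ≠ 0)
    (hD : Pairwise fun i j => (D i).Coprime (D j)) (φ : ℕ → ℝ) :
    ∑ h ∈ (∏ j, D j).divisors, φ h = ∑ g ∈ Fintype.piFinset (fun j => (D j).divisors), φ (∏ j, g j) := by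
  classical
  have hP0 : ∏ j, D j ≠ 0 := prod_ne_zero_iff.2 fun j _ => hD0 j
  refine sum_bij' (fun h _ => fun j => Nat.gcd h (D j)) (fun g _ => ∏ j, g j) ?_ ?_ ?_ ?_ ?_
  · intro h _
    rw [Fintype.mem_piFinset]
    intro j
    exact Nat.mem_divisors.2 ⟨Nat.gcd_dvd_right _ _, hD0 j⟩
  · intro g hg
    rw [Fintype.mem_piFinset] at hg
    exact Nat.mem_divisors.2 ⟨prod_dvd_prod_of_dvd _ _ fun j _ => Nat.dvd_of_mem_divisors (hg j), hP0⟩
  · intro h hh
    simp only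
    rw [← gcd_prod_aux h D hD univ]
    exact Nat.gcd_eq_left (Nat.dvd_of_mem_divisors hh)
  · intro g hg
    rw [Fintype.mem_piFinset] at hg
    funext j
    exact gcd_prod_self D g hD (fun j => Nat.dvd_of_mem_divisors (hg j)) j
  · intro h hh
    simp only
    rw [← gcd_prod_aux h D hD univ, Nat.gcd_eq_left (Nat.dvd_of_mem_divisors hh)]

/-! ### the residue class -/

/-- the class which describes the divisibility conditions -/
def IsCls {J : ℕ} (Q c : ℕ) (cc : Fin J → ℕ) (hh : Fin J → ℤ) (D : Fin J → ℕ) (b : ℕ) : Prop :=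
  ∀ n : ℕ, ((n ≡ c [MOD Q] ∧ ∀ j, (D j : ℤ) ∣ cc j * n + hh j) ↔ n ≡ b [MOD Q * ∏ j, D j])

open Classical in
noncomputable def cls {J : ℕ} (Q c : ℕ) (cc : Fin J → ℕ) (hh : Fin J → ℤ) (D : Fin J → ℕ) : ℕ :=
  if h : ∃ b, IsCls Q c cc hh D b then h.choose else 0

/-- the vectors which occur -/
def Good {J : ℕ} (E : Finset ℕ) (D : Fin J → ℕ) : Prop :=
  (∀ j, Squarefree (D j)) ∧ (Pairwise fun i j => (D i).Coprime (D j)) ∧
    ∀ j, ∀ p : ℕ, p.Prime → p ∣ D j → p ∉ E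

theorem Good.mono {J : ℕ} {E : Finset ℕ} {D g : Fin J → ℕ} (h : Good E D) (hg : ∀ j, g j ∣ D j) : Good E g := by
  refine ⟨fun j => (h.1 j).squarefree_of_dvd (hg j), fun i j hij => ?_, fun j p hp hd => h.2.2 j p hp (hd.trans (hg j))⟩
  exact ((h.2.1 hij).coprime_dvd_left (hg i)).coprime_dvd_right (hg j)

theorem Good.ne_zero {J : ℕ} {E : Finset ℕ} {D : Fin J → ℕ} (h : Good E D) (j : Fin J) : D j ≠ 0 :=
  (h.1 j).ne_zero

/-- the conditions on the data -/
structure Dat {J : ℕ} (E : Finset ℕ) (Q c : ℕ) (cc : Fin J → ℕ) (hh : Fin J → ℤ) : Prop where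
  hQ : 0 < Q
  hcQ : c.Coprime Q
  hEQ : ∀ p : ℕ, p.Prime → p ∉ E → ¬ p ∣ Q
  hEc : ∀ j, ∀ p : ℕ, p.Prime → p ∉ E → ¬ p ∣ cc j
  hEh : ∀ j, ∀ p : ℕ, p.Prime → p ∉ E → ¬ (p : ℤ) ∣ hh j
  hres : ∀ i j, i ≠ j → ∀ p : ℕ, p.Prime → p ∉ E → ∀ n : ℕ,
      ¬ ((p : ℤ) ∣ cc i * n + hh i ∧ (p : ℤ) ∣ cc j * n + hh j)

theorem cls_spec {J : ℕ} {E : Finset ℕ} {Q c : ℕ} {cc : Fin J → ℕ} {hh : Fin J → ℤ} (hd : Dat E Q c cc hh)
    {D : Fin J → ℕ} (hD : Good E D) : IsCls Q c cc hh D (cls Q c cc hh D) := by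
  classical
  have h : ∃ b, IsCls Q c cc hh D b := by
    obtain ⟨b, hb⟩ := class_exists Q c hd.hQ.ne' D cc hh hD.ne_zero hD.2.1 (fun j => by
      apply Nat.Coprime.symm
      apply Nat.Coprime.symm
      apply Nat.coprime_of_dvd
      intro p hp h1 h2
      exact hd.hEQ p hp (hD.2.2 j p hp h1) h2) (fun j => by
      apply Nat.coprime_of_dvd
      intro p hp h1 h2
      exact hd.hEc j p hp (hD.2.2 j p hp h2) h1)
    exact ⟨b, hb⟩
  unfold cls
  rw [dif_pos h]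
  exact h.choose_spec

theorem cls_self {J : ℕ} {E : Finset ℕ} {Q c : ℕ} {cc : Fin J → ℕ} {hh : Fin J → ℤ} (hd : Dat E Q c cc hh)
    {D : Fin J → ℕ} (hD : Good E D) : cls Q c cc hh D ≡ c [MOD Q] ∧
      ∀ j, (D j : ℤ) ∣ cc j * (cls Q c cc hh D : ℕ) + hh j :=
  (cls_spec hd hD _).2 (Nat.ModEq.refl _)

theorem cls_coprime {J : ℕ} {E : Finset ℕ} {Q c : ℕ} {cc : Fin J → ℕ} {hh : Fin J → ℤ} (hd : Dat E Q c cc hh)
    {D : Fin J → ℕ} (hD : Good E D) : (cls Q c cc hh D).Coprime (Q * ∏ j, D j) := by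
  have h := cls_self hd hD
  apply Nat.Coprime.mul_right
  · have h1 := h.1.gcd_eq
    rw [Nat.Coprime, h1]
    exact hd.hcQ
  · apply Nat.Coprime.prod_right
    intro j _
    apply Nat.coprime_of_dvd
    intro p hp h1 h2
    have h3 : (p : ℤ) ∣ cc j * (cls Q c cc hh D : ℕ) + hh j := (Int.natCast_dvd_natCast.2 h2).trans (h.2 j)
    have h4 : (p : ℤ) ∣ cc j * (cls Q c cc hh D : ℕ) := (Int.natCast_dvd_natCast.2 h1).mul_left _
    exact hd.hEh j p hp (hD.2.2 j p hp h2) ((dvd_add_right h4).1 h3)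

theorem cls_dvd {J : ℕ} {E : Finset ℕ} {Q c : ℕ} {cc : Fin J → ℕ} {hh : Fin J → ℤ} (hd : Dat E Q c cc hh)
    {D g : Fin J → ℕ} (hD : Good E D) (hg : ∀ j, g j ∣ D j) :
    cls Q c cc hh D ≡ cls Q c cc hh g [MOD Q * ∏ j, g j] := by
  have h := cls_self hd hD
  exact (cls_spec hd (hD.mono hg) _).1 ⟨h.1, fun j => (Int.natCast_dvd_natCast.2 (hg j)).trans (h.2 j)⟩

theorem good_one {J : ℕ} (E : Finset ℕ) : Good E (fun _ : Fin J => 1) :=
  ⟨fun _ => squarefree_one, fun _ _ _ => Nat.coprime_one_left _, fun _ p hp h => absurd (Nat.dvd_one.1 h) hp.one_lt.ne'⟩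

theorem good_lcm {J : ℕ} {E : Finset ℕ} {R : ℕ} {d e : Fin J → ℕ} (hd : ∀ j, d j ∈ adm E R)
    (he : ∀ j, e j ∈ adm E R) (h : PC d e) : Good E (fun j => Nat.lcm (d j) (e j)) :=
  ⟨fun j => sqf_lcm (mem_adm.1 (hd j)).2.1 (mem_adm.1 (he j)).2.1, h,
    fun j _ hp hdv => prime_not_mem (hd j) (he j) hp hdv⟩

/-! ### the sum for one pair -/

/-- the prime weight -/
noncomputable def nuC (y : ℝ) (Q c n : ℕ) : ℝ :=
  if n ≡ c [MOD Q] then Phi (n / y) * ArithmeticFunction.vonMangoldt n else 0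

open Classical in
theorem pair_PC {J : ℕ} {E : Finset ℕ} {Q c : ℕ} {cc : Fin J → ℕ} {hh : Fin J → ℤ} (hd : Dat E Q c cc hh)
    (y : ℝ) {R : ℕ} {d e : Fin J → ℕ} (h1 : ∀ j, d j ∈ adm E R) (h2 : ∀ j, e j ∈ adm E R) (h : PC d e) :
    ∑ n ∈ Icc 1 ⌊3 * y⌋₊, nuC y Q c n * (if DC (fun j => (cc j : ℤ) * n + hh j) d e then (1 : ℝ) else 0) =
      CS y (Q * ∏ j, Nat.lcm (d j) (e j)) (cls Q c cc hh (fun j => Nat.lcm (d j) (e j))) := by
  have hs := cls_spec hd (good_lcm h1 h2 h)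
  unfold CS
  rw [sum_filter]
  refine sum_congr rfl fun n _ => ?_
  have h3 := hs n
  unfold nuC DC
  by_cases hn : n ≡ c [MOD Q] ∧ ∀ j, ((Nat.lcm (d j) (e j) : ℕ) : ℤ) ∣ (cc j : ℤ) * n + hh j
  · rw [if_pos (h3.1 hn), if_pos hn.1, if_pos hn.2, mul_one]
  · rw [if_neg (fun h4 => hn (h3.2 h4))]
    by_cases h5 : n ≡ c [MOD Q]
    · rw [if_neg (fun h6 => hn ⟨h5, h6⟩), mul_zero]
    · rw [if_neg h5, zero_mul]

open Classical in
theorem pair_not_PC {J : ℕ} {E : Finset ℕ} {Q c : ℕ} {cc : Fin J → ℕ} {hh : Fin J → ℤ} (hd : Dat E Q c cc hh)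
    (y : ℝ) {R : ℕ} {d e : Fin J → ℕ} (h1 : ∀ j, d j ∈ adm E R) (h2 : ∀ j, e j ∈ adm E R) (h : ¬ PC d e) :
    ∑ n ∈ Icc 1 ⌊3 * y⌋₊, nuC y Q c n * (if DC (fun j => (cc j : ℤ) * n + hh j) d e then (1 : ℝ) else 0) = 0 := by
  apply sum_eq_zero
  intro n _
  rw [if_neg, mul_zero]
  intro h3
  apply h
  intro i j hij
  apply Nat.coprime_of_dvd
  intro p hp h4 h5
  exact hd.hres i j hij p hp (prime_not_mem (h1 i) (h2 i) hp h4) n
    ⟨(Int.natCast_dvd_natCast.2 h4).trans (h3 i), (Int.natCast_dvd_natCast.2 h5).trans (h3 j)⟩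

theorem CS_eq_sum {J : ℕ} {E : Finset ℕ} {Q c : ℕ} {cc : Fin J → ℕ} {hh : Fin J → ℤ} (hd : Dat E Q c cc hh)
    (y : ℝ) {D : Fin J → ℕ} (hD : Good E D) :
    CS y (Q * ∏ j, D j) (cls Q c cc hh D) = (∏ j, ∏ p ∈ (D j).primeFactors, (1 : ℝ) / ((p : ℝ) - 1)) *
      ∑ g ∈ Fintype.piFinset (fun j => (D j).divisors), Hg y Q (∏ j, g j) (cls Q c cc hh g) := by
  have hP0 : ∏ j, D j ≠ 0 := prod_ne_zero_iff.2 fun j _ => hD.ne_zero j
  have h1 := Hg_sum y Q (∏ j, D j) (cls Q c cc hh D) (Nat.pos_of_ne_zero hP0)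
  rw [sum_divisors_prod D hD.ne_zero hD.2.1] at h1
  have h2 : ∑ g ∈ Fintype.piFinset (fun j => (D j).divisors), Hg y Q (∏ j, g j) (cls Q c cc hh D) =
      ∑ g ∈ Fintype.piFinset (fun j => (D j).divisors), Hg y Q (∏ j, g j) (cls Q c cc hh g) := by
    refine sum_congr rfl fun g hg => ?_
    rw [Fintype.mem_piFinset] at hg
    exact Hg_congr y Q _ _ _ (cls_dvd hd hD fun j => Nat.dvd_of_mem_divisors (hg j))
  rw [h2] at h1
  rw [h1]
  have h3 : ((∏ j, D j).totient : ℝ) = ∏ j, ∏ p ∈ (D j).primeFactors, ((p : ℝ) - 1) := by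
    rw [totient_prod D hD.2.1]
    push_cast
    exact prod_congr rfl fun j _ => totient_sqf (hD.1 j)
  have h4 : (∏ j, ∏ p ∈ (D j).primeFactors, (1 : ℝ) / ((p : ℝ) - 1)) * ((∏ j, D j).totient : ℝ) = 1 := by
    rw [h3, ← prod_mul_distrib]
    apply prod_eq_one
    intro j _
    rw [← prod_mul_distrib]
    apply prod_eq_one
    intro p hp
    have : (2 : ℝ) ≤ p := by exact_mod_cast (Nat.prime_of_mem_primeFactors hp).two_le
    have : (p : ℝ) - 1 ≠ 0 := by linarith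
    field_simp
  rw [← mul_assoc, h4, one_mul]

/-! ### the decomposition -/

/-- all vectors -/
def GG (J R : ℕ) : Finset (Fin J → ℕ) := Fintype.piFinset (fun _ : Fin J => Icc 1 (R * R))

open Classical in
theorem decomp {J : ℕ} {E : Finset ℕ} {Q c : ℕ} {cc : Fin J → ℕ} {hh : Fin J → ℤ} (hd : Dat E Q c cc hh)
    (F G : Fin J → ℝ → ℝ) (L y : ℝ) (R : ℕ) :
    ∑ n ∈ Icc 1 ⌊3 * y⌋₊, nuC y Q c n *
        ∏ j, (VVm E R L (F j) ((cc j : ℤ) * n + hh j) * VVm E R L (G j) ((cc j : ℤ) * n + hh j)) =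
      ∑ g ∈ GG J R, Hg y Q (∏ j, g j) (cls Q c cc hh g) * cSum F G L E (fun p => 1 / ((p : ℝ) - 1)) R g := by
  have e1 : ∀ n : ℕ, ∏ j, (VVm E R L (F j) ((cc j : ℤ) * n + hh j) * VVm E R L (G j) ((cc j : ℤ) * n + hh j)) =
      ∑ d ∈ Fintype.piFinset (fun _ : Fin J => adm E R), ∑ e ∈ Fintype.piFinset (fun _ : Fin J => adm E R),
        wt F G L d e * (if DC (fun j => (cc j : ℤ) * n + hh j) d e then 1 else 0) := fun n =>
    VV_prod (fun _ => E) R L F G (fun j => (cc j : ℤ) * n + hh j)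
  have e2 : ∑ n ∈ Icc 1 ⌊3 * y⌋₊, nuC y Q c n *
        ∏ j, (VVm E R L (F j) ((cc j : ℤ) * n + hh j) * VVm E R L (G j) ((cc j : ℤ) * n + hh j)) =
      ∑ d ∈ Fintype.piFinset (fun _ : Fin J => adm E R), ∑ e ∈ Fintype.piFinset (fun _ : Fin J => adm E R),
        wt F G L d e * ∑ n ∈ Icc 1 ⌊3 * y⌋₊, nuC y Q c n *
          (if DC (fun j => (cc j : ℤ) * n + hh j) d e then (1 : ℝ) else 0) := by
    rw [sum_congr rfl fun n _ => by rw [e1 n, mul_sum]]
    rw [sum_comm]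
    refine sum_congr rfl fun d _ => ?_
    rw [sum_congr rfl fun n _ => by rw [mul_sum]]
    rw [sum_comm]
    refine sum_congr rfl fun e _ => ?_
    rw [mul_sum]
    refine sum_congr rfl fun n _ => ?_
    ring
  rw [e2]
  have e3 : ∀ d ∈ Fintype.piFinset (fun _ : Fin J => adm E R), ∀ e ∈ Fintype.piFinset (fun _ : Fin J => adm E R),
      wt F G L d e * ∑ n ∈ Icc 1 ⌊3 * y⌋₊, nuC y Q c n *
          (if DC (fun j => (cc j : ℤ) * n + hh j) d e then (1 : ℝ) else 0) =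
      ∑ g ∈ GG J R, Hg y Q (∏ j, g j) (cls Q c cc hh g) * (if PC d e ∧ ∀ j, g j ∣ Nat.lcm (d j) (e j) then
        wt F G L d e * ∏ j, ∏ p ∈ (Nat.lcm (d j) (e j)).primeFactors, (1 / ((p : ℝ) - 1)) else 0) := by
    intro d hdm e hem
    rw [Fintype.mem_piFinset] at hdm hem
    by_cases h : PC d e
    · have hgood := good_lcm hdm hem h
      rw [pair_PC hd y hdm hem h, CS_eq_sum hd y hgood]
      have hsub : Fintype.piFinset (fun j => (Nat.lcm (d j) (e j)).divisors) ⊆ GG J R := by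
        intro g hg
        unfold GG
        rw [Fintype.mem_piFinset] at hg ⊢
        intro j
        have h1 := hg j
        rw [Nat.mem_divisors] at h1
        rw [mem_Icc]
        have h2 := (mem_adm.1 (hdm j)).1
        have h3 := (mem_adm.1 (hem j)).1
        refine ⟨Nat.pos_of_dvd_of_pos h1.1 (Nat.pos_of_ne_zero h1.2), ?_⟩
        refine (Nat.le_of_dvd (Nat.pos_of_ne_zero h1.2) h1.1).trans ?_
        refine (lcm_le_mul' (by omega) (by omega)).trans ?_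
        exact Nat.mul_le_mul h2.2 h3.2
      rw [← sum_subset hsub]
      · rw [← mul_assoc, mul_sum]
        refine sum_congr rfl fun g hg => ?_
        rw [Fintype.mem_piFinset] at hg
        rw [if_pos ⟨h, fun j => Nat.dvd_of_mem_divisors (hg j)⟩]
        ring
      · intro g _ hg
        rw [if_neg, mul_zero]
        rintro ⟨_, h3⟩
        apply hg
        rw [Fintype.mem_piFinset]
        intro j
        exact Nat.mem_divisors.2 ⟨h3 j, hgood.ne_zero j⟩
    · rw [pair_not_PC hd y hdm hem h, mul_zero]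
      symm
      apply sum_eq_zero
      intro g _
      rw [if_neg (fun h1 => h h1.1), mul_zero]
  rw [sum_congr rfl fun d hdm => sum_congr rfl fun e hem => e3 d hdm e hem]
  unfold cSum
  simp_rw [mul_sum]
  rw [sum_congr rfl fun d _ => sum_comm]
  rw [sum_comm]

theorem cSum_one {J : ℕ} (F G : Fin J → ℝ → ℝ) (L : ℝ) (E : Finset ℕ) (w : ℕ → ℝ) (R : ℕ) :
    cSum F G L E w R (fun _ => 1) = sieveSum J F G L (fun _ => E) (fun p _ => w p) R := by
  classical
  unfold cSum sieveSum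
  refine sum_congr rfl fun d _ => sum_congr rfl fun e _ => ?_
  by_cases h : PC d e
  · rw [if_pos ⟨h, fun j => one_dvd _⟩]
    unfold PC at h
    rw [if_pos h, wt, ← prod_mul_distrib]
  · rw [if_neg (fun h1 => h h1.1)]
    unfold PC at h
    rw [if_neg h]

theorem Hg_cls_one {J : ℕ} {E : Finset ℕ} {Q c : ℕ} {cc : Fin J → ℕ} {hh : Fin J → ℤ} (hd : Dat E Q c cc hh)
    (y : ℝ) : Hg y Q (∏ _j : Fin J, 1) (cls Q c cc hh (fun _ => 1)) = CS y Q c := by
  rw [prod_const_one, Hg_one]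
  exact CS_congr y Q _ _ (cls_self hd (good_one E)).1

/-- the terms which really occur -/
theorem cSum_ne_zero {J : ℕ} (F G : Fin J → ℝ → ℝ) (L : ℝ) (hL : 0 < L) (E : Finset ℕ) (w : ℕ → ℝ) (R : ℕ)
    (cF cG : Fin J → ℝ) (hF0 : ∀ j x, cF j < x → F j x = 0) (hG0 : ∀ j x, cG j < x → G j x = 0)
    (g : Fin J → ℕ) (h : cSum F G L E w R g ≠ 0) :
    Good E g ∧ ((∏ j, g j : ℕ) : ℝ) ≤ Real.exp (L * (∑ j, cF j + ∑ j, cG j)) := by
  classical
  unfold cSum at h
  obtain ⟨d, hd, h1⟩ := exists_ne_zero_of_sum_ne_zero h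
  obtain ⟨e, he, h2⟩ := exists_ne_zero_of_sum_ne_zero h1
  rw [Fintype.mem_piFinset] at hd he
  by_cases h3 : PC d e ∧ ∀ j, g j ∣ Nat.lcm (d j) (e j)
  · rw [if_pos h3] at h2
    have hgood := good_lcm hd he h3.1
    refine ⟨hgood.mono h3.2, ?_⟩
    have hw : wt F G L d e ≠ 0 := left_ne_zero_of_mul h2
    unfold wt at hw
    rw [prod_ne_zero_iff] at hw
    have hj : ∀ j, ((g j : ℕ) : ℝ) ≤ Real.exp (L * cF j) * Real.exp (L * cG j) := by
      intro j
      have h4 := hw j (mem_univ _)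
      have h5 : F j (Real.log (d j) / L) ≠ 0 := right_ne_zero_of_mul (left_ne_zero_of_mul h4)
      have h6 : G j (Real.log (e j) / L) ≠ 0 := right_ne_zero_of_mul h4
      have h7 : Real.log (d j) / L ≤ cF j := by
        by_contra hc
        exact h5 (hF0 j _ (not_le.1 hc))
      have h8 : Real.log (e j) / L ≤ cG j := by
        by_contra hc
        exact h6 (hG0 j _ (not_le.1 hc))
      have hd1 := (mem_adm.1 (hd j)).1
      have he1 := (mem_adm.1 (he j)).1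
      have hd2 : (0 : ℝ) < d j := by exact_mod_cast hd1.1
      have he2 : (0 : ℝ) < e j := by exact_mod_cast he1.1
      have h9 : (d j : ℝ) ≤ Real.exp (L * cF j) := by
        rw [← Real.log_le_iff_le_exp hd2]
        rw [div_le_iff₀ hL] at h7
        linarith
      have h10 : (e j : ℝ) ≤ Real.exp (L * cG j) := by
        rw [← Real.log_le_iff_le_exp he2]
        rw [div_le_iff₀ hL] at h8
        linarith
      have h11 : g j ≤ d j * e j :=
        (Nat.le_of_dvd (Nat.pos_of_ne_zero (hgood.ne_zero j)) (h3.2 j)).trans (lcm_le_mul' (by omega) (by omega))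
      calc ((g j : ℕ) : ℝ) ≤ (d j : ℝ) * e j := by exact_mod_cast h11
        _ ≤ _ := mul_le_mul h9 h10 he2.le (Real.exp_pos _).le
    push_cast
    calc ∏ j, (g j : ℝ) ≤ ∏ j, (Real.exp (L * cF j) * Real.exp (L * cG j)) :=
          prod_le_prod (fun _ _ => Nat.cast_nonneg _) fun j _ => hj j
      _ = _ := by
          rw [prod_mul_distrib, ← Real.exp_sum, ← Real.exp_sum, ← Real.exp_add, mul_add, mul_sum, mul_sum]
  · rw [if_neg h3] at h2
    exact absurd rfl h2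

/-- the error as a sum over vectors -/
theorem error_le {J : ℕ} {E : Finset ℕ} {Q c : ℕ} {cc : Fin J → ℕ} {hh : Fin J → ℤ} (hd : Dat E Q c cc hh)
    (F G : Fin J → ℝ → ℝ) (L y : ℝ) (hL : 0 < L) (hy : 1 ≤ y) (R : ℕ) (hR : 1 ≤ R)
    (cF cG : Fin J → ℝ) (hF0 : ∀ j x, cF j < x → F j x = 0) (hG0 : ∀ j x, cG j < x → G j x = 0)
    (M : ℕ → ℝ) (hM : ∀ h, 0 ≤ M h)
    (hMb : ∀ g : Fin J → ℕ, Good E g → ((∏ j, g j : ℕ) : ℝ) ≤ Real.exp (L * (∑ j, cF j + ∑ j, cG j)) →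
      |cSum F G L E (fun p => 1 / ((p : ℝ) - 1)) R g| ≤ M (∏ j, g j)) (ps : ℕ)
    (hps : ∀ p : ℕ, p.Prime → p ∣ ps → p ∈ E) :
    |∑ n ∈ Icc 1 ⌊3 * y⌋₊, nuC y Q c n *
        ∏ j, (VVm E R L (F j) ((cc j : ℤ) * n + hh j) * VVm E R L (G j) ((cc j : ℤ) * n + hh j)) -
      CS y Q c * sieveSum J F G L (fun _ => E) (fun p _ => 1 / ((p : ℝ) - 1)) R| ≤
    ∑ h ∈ (LSBV.QQ Q ps ⌊Real.exp (L * (∑ j, cF j + ∑ j, cG j))⌋₊).filter (fun h => h ≠ 1),
      (h.divisors.card : ℝ) ^ J * (M h * Hb y Q h) := by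
  classical
  set V := ⌊Real.exp (L * (∑ j, cF j + ∑ j, cG j))⌋₊ with hV
  set QF := (LSBV.QQ Q ps V).filter (fun h => h ≠ 1) with hQF
  rw [decomp hd F G L y R]
  have h1m : (fun _ : Fin J => 1) ∈ GG J R := by
    unfold GG
    rw [Fintype.mem_piFinset]
    intro j
    rw [mem_Icc]
    exact ⟨le_rfl, Nat.mul_pos hR hR⟩
  rw [← add_sum_erase _ _ h1m]
  have e0 : Hg y Q (∏ _j : Fin J, 1) (cls Q c cc hh (fun _ => 1)) *
      cSum F G L E (fun p => 1 / ((p : ℝ) - 1)) R (fun _ => 1) =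
      CS y Q c * sieveSum J F G L (fun _ => E) (fun p _ => 1 / ((p : ℝ) - 1)) R := by
    rw [Hg_cls_one hd, cSum_one]
  rw [e0, add_sub_cancel_left]
  refine (abs_sum_le_sum_abs _ _).trans ?_
  -- restrict to the vectors which occur
  set GF : Finset (Fin J → ℕ) := ((GG J R).erase (fun _ => 1)).filter (fun g => Good E g ∧
    ((∏ j, g j : ℕ) : ℝ) ≤ Real.exp (L * (∑ j, cF j + ∑ j, cG j))) with hGF
  have h2 : ∑ g ∈ (GG J R).erase (fun _ => 1), |Hg y Q (∏ j, g j) (cls Q c cc hh g) *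
      cSum F G L E (fun p => 1 / ((p : ℝ) - 1)) R g| ≤
      ∑ g ∈ GF, M (∏ j, g j) * Hb y Q (∏ j, g j) := by
    rw [← sum_subset (filter_subset _ _ : GF ⊆ (GG J R).erase (fun _ => 1))]
    · apply sum_le_sum
      intro g hg
      rw [mem_filter, mem_erase] at hg
      obtain ⟨⟨hg1, hg2⟩, hgood, hgV⟩ := hg
      have hpos : 0 < ∏ j, g j := Nat.pos_of_ne_zero (prod_ne_zero_iff.2 fun j _ => hgood.ne_zero j)
      have hone : 1 < ∏ j, g j := by
        rcases Nat.lt_or_ge 1 (∏ j, g j) with h | h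
        · exact h
        · exfalso
          apply hg1
          have h3 : ∏ j, g j = 1 := by omega
          funext j
          exact Nat.dvd_one.1 (h3 ▸ dvd_prod_of_mem g (mem_univ j))
      have hQc : Q.Coprime (∏ j, g j) := by
        apply Nat.Coprime.prod_right
        intro j _
        apply Nat.coprime_of_dvd
        intro p hp h1 h2
        exact hd.hEQ p hp (hgood.2.2 j p hp h2) h1
      rw [abs_mul]
      have h4 := Hg_le y hy Q (∏ j, g j) (cls Q c cc hh g) hd.hQ hone hQc (cls_coprime hd hgood)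
      have h5 := hMb g hgood hgV
      rw [mul_comm]
      exact mul_le_mul h5 h4 (abs_nonneg _) (hM _)
    · intro g hg hgn
      rw [mem_filter, not_and] at hgn
      have h3 := hgn hg
      have h4 : cSum F G L E (fun p => 1 / ((p : ℝ) - 1)) R g = 0 := by
        by_contra hc
        exact h3 (cSum_ne_zero F G L hL E _ R cF cG hF0 hG0 g hc)
      rw [h4, mul_zero, abs_zero]
  refine h2.trans ?_
  have hmaps : ∀ g ∈ GF, ∏ j, g j ∈ QF := by
    intro g hg
    rw [hGF, mem_filter, mem_erase] at hg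
    obtain ⟨⟨hg1, hg2⟩, hgood, hgV⟩ := hg
    have hpos : 0 < ∏ j, g j := Nat.pos_of_ne_zero (prod_ne_zero_iff.2 fun j _ => hgood.ne_zero j)
    rw [hQF, mem_filter, LSBV.mem_QQ]
    refine ⟨⟨⟨hpos, ?_⟩, squarefree_prod g hgood.2.1 hgood.1, ?_⟩, ?_⟩
    · rw [hV]
      exact Nat.le_floor hgV
    · apply Nat.Coprime.mul_right
      · apply Nat.Coprime.prod_left
        intro j _
        apply Nat.coprime_of_dvd
        intro p hp h1 h2
        exact hd.hEQ p hp (hgood.2.2 j p hp h1) h2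
      · apply Nat.Coprime.prod_left
        intro j _
        apply Nat.coprime_of_dvd
        intro p hp h1 h2
        exact hgood.2.2 j p hp h1 (hps p hp h2)
    · intro h3
      apply hg1
      funext j
      exact Nat.dvd_one.1 (h3 ▸ dvd_prod_of_mem g (mem_univ j))
  rw [← sum_fiberwise_of_maps_to hmaps]
  apply sum_le_sum
  intro h hh'
  have hh0 : h ≠ 0 := by
    rw [hQF, mem_filter, LSBV.mem_QQ] at hh'
    have := hh'.1.1.1
    omega
  calc ∑ g ∈ GF.filter (fun g => ∏ j, g j = h), M (∏ j, g j) * Hb y Q (∏ j, g j) =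
      ∑ g ∈ GF.filter (fun g => ∏ j, g j = h), M h * Hb y Q h := by
        refine sum_congr rfl fun g hg => ?_
        rw [(mem_filter.1 hg).2]
    _ = ((GF.filter (fun g => ∏ j, g j = h)).card : ℝ) * (M h * Hb y Q h) := by
        rw [sum_const, nsmul_eq_mul]
    _ ≤ (h.divisors.card : ℝ) ^ J * (M h * Hb y Q h) := by
        apply mul_le_mul_of_nonneg_right _ (mul_nonneg (hM h) (Hb_nonneg y hy Q h))
        have h5 : GF.filter (fun g => ∏ j, g j = h) ⊆ Fintype.piFinset (fun _ : Fin J => h.divisors) := by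
          intro g hg
          rw [Fintype.mem_piFinset]
          intro j
          rw [Nat.mem_divisors]
          exact ⟨(mem_filter.1 hg).2 ▸ dvd_prod_of_mem g (mem_univ j), hh0⟩
        have h6 := card_le_card h5
        rw [Fintype.card_piFinset, prod_const, card_univ, Fintype.card_fin] at h6
        exact_mod_cast h6

end Pool.Agent.L7h28.UM
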