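import Mathlib
import Pool.Agent.L7h28.UM.Dec
import Pool.Agent.H378R2.M7s

set_option autoImplicit false

/-! The prime sum for one pair of smooth functions. -/

open Finset Filter
open scoped ContDiff

namespace Pool.Agent.L7h28.UM

open Pool.Agent.H378R2

theorem BE_union {E T : Finset ℕ} (h : Disjoint E T) : BE (E ∪ T) = BE E * BE T := by
  unfold BE
  rw [prod_union h]

theorem BE_ge_two_pow {T : Finset ℕ} (hT : ∀ p ∈ T, p.Prime) : (1 / 2 : ℝ) ^ T.card ≤ BE T := by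
  unfold BE
  rw [← prod_const]
  apply Finset.prod_le_prod
  · intro _ _; norm_num
  · intro p hp
    have h2 : (2 : ℝ) ≤ p := by exact_mod_cast (hT p hp).two_le
    have : 1 / (p : ℝ) ≤ 1 / 2 := one_div_le_one_div_of_le (by norm_num) h2
    linarith

theorem LL_pos_of {z : ℝ} (h : 1 < z) : 0 < LL z := by
  unfold LL
  have := Real.log_pos h
  positivity

/-- the number of prime factors of a number which is not too large -/
theorem card_le_log {h : ℕ} (h0 : h ≠ 0) {V : ℝ} (hV : (h : ℝ) ≤ Real.exp V) :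
    (h.primeFactors.card : ℝ) ≤ 2 * V := by
  have h1 : (2 : ℝ) ^ h.primeFactors.card ≤ h := by
    have h2 : ∏ _p ∈ h.primeFactors, 2 ≤ ∏ p ∈ h.primeFactors, p :=
      prod_le_prod' fun p hp => (Nat.prime_of_mem_primeFactors hp).two_le
    rw [prod_const] at h2
    have h3 : ∏ p ∈ h.primeFactors, p ≤ h := Nat.le_of_dvd (Nat.pos_of_ne_zero h0) (Nat.prod_primeFactors_dvd h)
    exact_mod_cast h2.trans h3
  have h2 : (h.primeFactors.card : ℝ) * Real.log 2 ≤ V := by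
    have h3 := h1.trans hV
    rw [← Real.log_le_log_iff (by positivity) (Real.exp_pos _), Real.log_exp, Real.log_pow] at h3
    exact h3
  have h3 : (1 / 2 : ℝ) ≤ Real.log 2 := by
    have := Real.log_two_gt_d9
    linarith
  have h4 : (0 : ℝ) ≤ (h.primeFactors.card : ℝ) := Nat.cast_nonneg _
  nlinarith

/-- the restricted sieve sums under the standing conditions -/
theorem cSum_le (hCB : S_CB) (hE1 : S_E1) {J : ℕ} (F G : Fin J → ℝ → ℝ)
    (hF : ∀ j, ContDiff ℝ ∞ (F j)) (hG : ∀ j, ContDiff ℝ ∞ (G j))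
    (hFc : ∀ j, HasCompactSupport (F j)) (hGc : ∀ j, HasCompactSupport (G j))
    (hF0 : ∀ j x, 1 / 2 < x → F j x = 0) (hG0 : ∀ j x, 1 / 2 < x → G j x = 0) :
    ∃ C : ℝ, 0 < C ∧ ∀ᶠ z : ℝ in atTop, ∀ E : Finset ℕ, EOK 25 z E → ∀ g : Fin J → ℕ, Good E g →
      ((∏ j, g j : ℕ) : ℝ) ≤ Real.exp (2 * LL z) →
      |cSum F G (LL z) E (fun p => 1 / ((p : ℝ) - 1)) (RR z) g| ≤
        C * (1 / (LL z * BE E)) ^ J * ((9 * 2 ^ J) ^ (∏ j, g j).primeFactors.card / ((∏ j, g j : ℕ) : ℝ)) := by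
  classical
  obtain ⟨C, δ, hC, hδ, h⟩ := hCB J F G hF hG hFc hGc
  refine ⟨C, hC, ?_⟩
  have e1 := LL_tendsto.eventually_ge_atTop (1 / δ)
  have e2 := LL_tendsto.eventually_ge_atTop 2
  have e3 := Real.tendsto_log_atTop.eventually_ge_atTop (max (1 / δ) 1)
  filter_upwards [e1, e2, e3, hE1 25 (by norm_num), eventually_gt_atTop 1] with z h1 h2 h3 h4 h5
  intro E hE g hg hgV
  have hL0 : 0 < LL z := LL_pos_of h5
  have hlog1 : 1 ≤ Real.log z := (le_max_right _ _).trans h3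
  have hP0 : ∏ j, g j ≠ 0 := prod_ne_zero_iff.2 fun j _ => hg.ne_zero j
  set T := (∏ j, g j).primeFactors with hT
  have hTp : ∀ p ∈ T, p.Prime ∧ p ∉ E := by
    intro p hp
    have hpp := Nat.prime_of_mem_primeFactors hp
    refine ⟨hpp, ?_⟩
    obtain ⟨j, _, hj⟩ := (Prime.dvd_finsetProd_iff hpp.prime _).1 (Nat.dvd_of_mem_primeFactors hp)
    exact hg.2.2 j p hpp hj
  have hTc : (T.card : ℝ) ≤ (Real.log z) ^ 2 := by
    have h6 := card_le_log hP0 hgV
    have h7 : 2 * (2 * LL z) ≤ Real.log z := by unfold LL; linarith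
    nlinarith
  obtain ⟨hs1, hs2⟩ := h4 E T hE hTp hTc
  have hsm : ∀ p : ℕ, p.Prime → (p : ℝ) ≤ 1 / δ → p ∈ E := by
    intro p hp hpl
    apply hE.2.1 p hp
    have h6 : Real.log z ≤ Real.log z ^ 25 := le_self_pow₀ hlog1 (by norm_num)
    exact hpl.trans (((le_max_left _ _).trans h3).trans h6)
  have h7 := h (LL z) E (fun p => 1 / ((p : ℝ) - 1)) (RR z) g h1 (by
    intro j x hx
    have h6 : 1 / 2 < x := by
      refine lt_of_le_of_lt ?_ hx
      rw [le_div_iff₀ (by linarith)]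
      have := RR_ge (LL z) h2
      unfold RR
      linarith
    exact ⟨hF0 j x h6, hG0 j x h6⟩) hE.1 hsm hs1 hs2 (fun p hp _ => w_two hp) hg.1 hg.2.1 hg.2.2
  rw [← hT] at h7
  have hdis : Disjoint E T := disjoint_right.2 fun p hp => (hTp p hp).2
  have hBE := BE_pos hE.1
  have hBT := BE_ge_two_pow (fun p hp => (hTp p hp).1)
  have h8 : (LL z * BE E) ^ J * (1 / 2 : ℝ) ^ (J * T.card) ≤ (LL z * BE (E ∪ T)) ^ J := by
    rw [mul_comm J T.card, pow_mul, ← mul_pow]
    apply pow_le_pow_left₀ (by positivity)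
    rw [BE_union hdis, ← mul_assoc]
    exact mul_le_mul_of_nonneg_left hBT (by positivity)
  have h9 : (0 : ℝ) < (∏ j, g j : ℕ) := by exact_mod_cast Nat.pos_of_ne_zero hP0
  have hpos : 0 < (LL z * BE E) ^ J * (1 / 2 : ℝ) ^ (J * T.card) := by positivity
  have h10 : (LL z * BE E) ^ J * (1 / 2 : ℝ) ^ (J * T.card) * |cSum F G (LL z) E (fun p => 1 / ((p : ℝ) - 1)) (RR z) g| ≤
      C * 9 ^ T.card / ((∏ j, g j : ℕ) : ℝ) :=
    (mul_le_mul_of_nonneg_right h8 (abs_nonneg _)).trans h7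
  rw [← le_div_iff₀' hpos] at h10
  refine h10.trans (le_of_eq ?_)
  rw [mul_pow (9 : ℝ), ← pow_mul (2 : ℝ), one_div_pow, one_div_pow]
  field_simp

/-- the prime sum for one pair of smooth functions -/
theorem pair_bound (hCB : S_CB) (hE1 : S_E1) {J : ℕ} (F G : Fin J → ℝ → ℝ)
    (hF : ∀ j, ContDiff ℝ ∞ (F j)) (hG : ∀ j, ContDiff ℝ ∞ (G j))
    (hFc : ∀ j, HasCompactSupport (F j)) (hGc : ∀ j, HasCompactSupport (G j))
    (cF cG : Fin J → ℝ) (hcF : ∀ j, cF j ≤ 1 / 2) (hcG : ∀ j, cG j ≤ 1 / 2)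
    (hF0 : ∀ j x, cF j < x → F j x = 0) (hG0 : ∀ j x, cG j < x → G j x = 0)
    (hsum : ∑ j, cF j + ∑ j, cG j ≤ 2) (K' : ℕ) (η : ℝ) (hη : 0 < η) :
    ∀ᶠ z : ℝ in atTop, ∀ E : Finset ℕ, EOK 25 z E → ∀ (Q c : ℕ) (cc : Fin J → ℕ) (hh : Fin J → ℤ),
      Dat E Q c cc hh → (Q : ℝ) ≤ z ^ (1 / 100 : ℝ) → ∀ y : ℝ, z ≤ y → y ≤ z ^ K' →
      |∑ n ∈ Icc 1 ⌊3 * y⌋₊, nuC y Q c n *
        ∏ j, (VVm E (RR z) (LL z) (F j) ((cc j : ℤ) * n + hh j) * VVm E (RR z) (LL z) (G j) ((cc j : ℤ) * n + hh j)) -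
      CS y Q c * sieveSum J F G (LL z) (fun _ => E) (fun p _ => 1 / ((p : ℝ) - 1)) (RR z)| ≤
      η * ((1 / (LL z * BE E)) ^ J * (y / ((Q.totient : ℝ) * (Real.log z) ^ 2))) := by
  classical
  have hF0' : ∀ j x, 1 / 2 < x → F j x = 0 := fun j x hx => hF0 j x ((hcF j).trans_lt hx)
  have hG0' : ∀ j x, 1 / 2 < x → G j x = 0 := fun j x hx => hG0 j x ((hcG j).trans_lt hx)
  obtain ⟨C, hC, hcs⟩ := cSum_le hCB hE1 F G hF hG hFc hGc hF0' hG0'
  obtain ⟨y0, hy0⟩ := Hb_total (2 * J + 4) 3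
  have e1 := LL_tendsto.eventually_ge_atTop 2
  have e3 := Real.tendsto_log_atTop.eventually_ge_atTop (max (max (C / η) 1) ((K' : ℝ) ^ 24))
  filter_upwards [e1, e3, hcs, eventually_gt_atTop 1, eventually_ge_atTop y0] with z h1 h3 h4 h5 h6
  intro E hE Q c cc hh hd hQz y hzy hyz
  have hL0 : 0 < LL z := LL_pos_of h5
  have hz0 : 0 < z := by linarith
  have hy0' : 0 < y := by linarith
  have hlog1 : 1 ≤ Real.log z := ((le_max_right _ _).trans (le_max_left _ _)).trans h3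
  have hlogC : C / η ≤ Real.log z := ((le_max_left _ _).trans (le_max_left _ _)).trans h3
  have hlogK : (K' : ℝ) ^ 24 ≤ Real.log z := (le_max_right _ _).trans h3
  have hBE := BE_pos hE.1
  have hR : 1 ≤ RR z := by
    unfold RR
    rw [Nat.one_le_floor_iff]
    exact Real.one_le_exp hL0.le
  have hRe : Real.exp (LL z * (∑ j, cF j + ∑ j, cG j)) ≤ Real.exp (2 * LL z) := by
    apply Real.exp_le_exp.2
    nlinarith
  obtain ⟨hy1, hyt⟩ := hy0 y (h6.trans hzy)
  set M : ℕ → ℝ := fun h => C * (1 / (LL z * BE E)) ^ J * ((9 * 2 ^ J) ^ h.primeFactors.card / (h : ℝ)) with hM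
  have hM0 : ∀ h, 0 ≤ M h := fun h => by rw [hM]; positivity
  -- the auxiliary modulus
  set ps : ℕ := ∏ p ∈ E, p with hps
  have hpsE : ∀ p : ℕ, p.Prime → p ∣ ps → p ∈ E := by
    intro p hp hdv
    obtain ⟨q, hq, hpq⟩ := (Prime.dvd_finsetProd_iff hp.prime _).1 hdv
    rwa [(Nat.prime_dvd_prime_iff_eq hp (hE.1 q hq)).1 hpq]
  refine (error_le hd F G (LL z) y hL0 hy1 (RR z) hR cF cG hF0 hG0 M hM0 (fun g hg hgV =>
    h4 E hE g hg (hgV.trans hRe)) ps hpsE).trans ?_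
  set V := ⌊Real.exp (LL z * (∑ j, cF j + ∑ j, cG j))⌋₊ with hV
  -- enlarge to the full range
  set V2 := ⌊Real.exp (2 * LL z)⌋₊ with hV2
  have hVV : V ≤ V2 := Nat.floor_le_floor hRe
  have hV21 : 1 ≤ V2 := by
    rw [hV2, Nat.one_le_floor_iff]
    exact Real.one_le_exp (by linarith)
  have hexp2 : Real.exp (2 * LL z) = z ^ (1 / 100 : ℝ) := exp_two_LL z hz0
  have hlogy : Real.log y ≤ K' * Real.log z := by
    have := Real.log_le_log hy0' hyz
    rwa [Real.log_pow] at this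
  have hlogy0 : 0 ≤ Real.log y := Real.log_nonneg hy1
  have hlogzy : Real.log z ≤ Real.log y := Real.log_le_log hz0 hzy
  have htot := hyt Q ps V2 ((Real.log z) ^ 25) hd.hQ hV21 (by
    push_cast
    calc (Q : ℝ) * V2 ≤ z ^ (1 / 100 : ℝ) * z ^ (1 / 100 : ℝ) := by
          apply mul_le_mul hQz _ (Nat.cast_nonneg _) (by positivity)
          rw [← hexp2]
          exact Nat.floor_le (Real.exp_pos _).le
      _ = z ^ (1 / 50 : ℝ) := by rw [← Real.rpow_add hz0]; norm_num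
      _ ≤ y ^ (1 / 50 : ℝ) := Real.rpow_le_rpow hz0.le hzy (by norm_num)) (by
    calc Real.log y ^ (2 * (3 + 9)) ≤ (K' * Real.log z) ^ 24 := pow_le_pow_left₀ hlogy0 hlogy _
      _ = (K' : ℝ) ^ 24 * Real.log z ^ 24 := mul_pow _ _ _
      _ ≤ Real.log z * Real.log z ^ 24 := mul_le_mul_of_nonneg_right hlogK (by positivity)
      _ = Real.log z ^ 25 := by ring) (by
    intro h hh'
    rw [LSBV.mem_QQ] at hh'
    by_cases h1' : h = 1
    · left; exact h1'
    · right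
      have hp := Nat.minFac_prime h1'
      have hpd := Nat.minFac_dvd h
      have hpE : h.minFac ∉ E := by
        intro hmem
        have h7 : h.minFac ∣ ps := hps ▸ dvd_prod_of_mem _ hmem
        have h8 := hh'.2.2.coprime_dvd_right (dvd_mul_of_dvd_right h7 Q)
        exact hp.one_lt.ne' (Nat.dvd_one.1 (h8 ▸ Nat.dvd_gcd hpd dvd_rfl))
      have h9 : Real.log z ^ 25 < (h.minFac : ℝ) := by
        by_contra hc
        exact hpE (hE.2.1 _ hp (not_lt.1 hc))
      have h10 : (h.minFac : ℝ) ≤ h := by exact_mod_cast Nat.minFac_le (by omega)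
      linarith)
  have hstep : ∑ h ∈ (LSBV.QQ Q ps V).filter (fun h => h ≠ 1), (h.divisors.card : ℝ) ^ J * (M h * Hb y Q h) ≤
      C * (1 / (LL z * BE E)) ^ J * ∑ h ∈ (LSBV.QQ Q ps V2).filter (fun h => h ≠ 1),
        LSBV.wt (2 * J + 4) h * Hb y Q h := by
    rw [mul_sum]
    have hsub : (LSBV.QQ Q ps V).filter (fun h => h ≠ 1) ⊆ (LSBV.QQ Q ps V2).filter (fun h => h ≠ 1) := by
      intro h hh'
      rw [mem_filter, LSBV.mem_QQ] at hh' ⊢
      exact ⟨⟨⟨hh'.1.1.1, hh'.1.1.2.trans hVV⟩, hh'.1.2⟩, hh'.2⟩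
    refine (sum_le_sum_of_subset_of_nonneg hsub fun h _ _ => ?_).trans (sum_le_sum fun h hh' => ?_)
    · exact mul_nonneg (by positivity) (mul_nonneg (hM0 h) (Hb_nonneg y hy1 Q h))
    · rw [mem_filter, LSBV.mem_QQ] at hh'
      have hpos : 1 ≤ h := hh'.1.1.1
      have hτ : (2 : ℝ) ^ h.primeFactors.card ≤ h.divisors.card := by
        exact_mod_cast Pool.Agent.H398R2.BV.two_pow_omega_le h (by omega)
      have hφ : (h.totient : ℝ) ≤ h := by exact_mod_cast Nat.totient_le h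
      have hφ0 : (0 : ℝ) < h.totient := by exact_mod_cast Nat.totient_pos.2 hpos
      have hb := Hb_nonneg y hy1 Q h
      have h9 : ((9 : ℝ) * 2 ^ J) ^ h.primeFactors.card ≤ (h.divisors.card : ℝ) ^ (J + 4) := by
        calc ((9 : ℝ) * 2 ^ J) ^ h.primeFactors.card ≤ (2 ^ (J + 4)) ^ h.primeFactors.card := by
              apply pow_le_pow_left₀ (by positivity)
              rw [pow_add]
              have : (0 : ℝ) < 2 ^ J := by positivity
              nlinarith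
          _ = (2 ^ h.primeFactors.card) ^ (J + 4) := by rw [← pow_mul, ← pow_mul, mul_comm]
          _ ≤ _ := pow_le_pow_left₀ (by positivity) hτ _
      have h10 : (h.divisors.card : ℝ) ^ J * ((9 * 2 ^ J) ^ h.primeFactors.card / (h : ℝ)) ≤ LSBV.wt (2 * J + 4) h := by
        unfold LSBV.wt
        calc (h.divisors.card : ℝ) ^ J * ((9 * 2 ^ J) ^ h.primeFactors.card / (h : ℝ)) ≤
            (h.divisors.card : ℝ) ^ J * ((h.divisors.card : ℝ) ^ (J + 4) / (h.totient : ℝ)) := by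
              apply mul_le_mul_of_nonneg_left _ (by positivity)
              exact div_le_div₀ (by positivity) h9 hφ0 hφ
          _ = _ := by rw [← mul_div_assoc, ← pow_add]; congr 2; ring
      calc (h.divisors.card : ℝ) ^ J * (M h * Hb y Q h) =
          C * (1 / (LL z * BE E)) ^ J * (((h.divisors.card : ℝ) ^ J * ((9 * 2 ^ J) ^ h.primeFactors.card / (h : ℝ))) *
            Hb y Q h) := by rw [hM]; ring
        _ ≤ _ := by
            apply mul_le_mul_of_nonneg_left _ (by positivity)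
            exact mul_le_mul_of_nonneg_right h10 hb
  refine hstep.trans ?_
  have hφQ : (0 : ℝ) < Q.totient := by exact_mod_cast Nat.totient_pos.2 hd.hQ
  calc C * (1 / (LL z * BE E)) ^ J * _ ≤ C * (1 / (LL z * BE E)) ^ J * (y / ((Q.totient : ℝ) * (Real.log y) ^ 3)) :=
        mul_le_mul_of_nonneg_left htot (by positivity)
    _ ≤ C * (1 / (LL z * BE E)) ^ J * (y / ((Q.totient : ℝ) * (Real.log z) ^ 3)) := by
        apply mul_le_mul_of_nonneg_left _ (by positivity)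
        apply div_le_div_of_nonneg_left hy0'.le (by positivity)
        apply mul_le_mul_of_nonneg_left _ hφQ.le
        exact pow_le_pow_left₀ (by linarith) hlogzy _
    _ = (C / Real.log z) * ((1 / (LL z * BE E)) ^ J * (y / ((Q.totient : ℝ) * (Real.log z) ^ 2))) := by
        field_simp
    _ ≤ _ := by
        apply mul_le_mul_of_nonneg_right _ (by positivity)
        rw [div_le_iff₀ (by linarith)]
        rw [div_le_iff₀ hη] at hlogC
        linarith

end Pool.Agent.L7h28.UM
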