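import Mathlib
import Pool.Agent.L7h28.UM.Pair

set_option autoImplicit false

/-! The weighted prime sum for one form. -/

open Finset Filter
open scoped ContDiff

namespace Pool.Agent.L7h28.UM

open Pool.Agent.H378R2

theorem asympE (h5 : SieveAsymp) (hE1 : S_E1) {J : ℕ} (F G : Fin J → ℝ → ℝ)
    (hF : ∀ j, ContDiff ℝ ∞ (F j)) (hG : ∀ j, ContDiff ℝ ∞ (G j))
    (hFc : ∀ j, HasCompactSupport (F j)) (hGc : ∀ j, HasCompactSupport (G j))
    (hF0 : ∀ j x, 1 / 2 < x → F j x = 0) (hG0 : ∀ j x, 1 / 2 < x → G j x = 0)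
    (b : ℕ) (hb : 4 ≤ b) (ε : ℝ) (hε : 0 < ε) :
    ∀ᶠ z : ℝ in atTop, ∀ (E : Finset ℕ) (w : ℕ → ℝ), EOK b z E →
      (∀ p : ℕ, p.Prime → |w p - 1 / p| ≤ 2 / (p : ℝ) ^ 2) →
      |(LL z * BE E) ^ J * sieveSum J F G (LL z) (fun _ => E) (fun p _ => w p) (RR z) - ∏ j, DD (F j) (G j)| ≤ ε := by
  obtain ⟨δ, hδ, h⟩ := h5 J F G hF hG hFc hGc ε hε
  have e1 := LL_tendsto.eventually_ge_atTop (1 / δ)
  have e2 := LL_tendsto.eventually_ge_atTop 2
  have e3 := Real.tendsto_log_atTop.eventually_ge_atTop (max (1 / δ) 1)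
  filter_upwards [e1, e2, e3, hE1 b hb] with z h1 h2 h3 h4
  intro E w hE hw
  have hlog1 : 1 ≤ Real.log z := (le_max_right _ _).trans h3
  obtain ⟨hs1, hs2⟩ := h4 E ∅ hE (by simp) (by simp; positivity)
  rw [union_empty] at hs1 hs2
  have h7 := h (LL z) (fun _ => E) (fun p _ => w p) (RR z) h1 (by
    intro j x hx
    have h6 : 1 / 2 < x := by
      refine lt_of_le_of_lt ?_ hx
      rw [le_div_iff₀ (by linarith)]
      have := RR_ge (LL z) h2
      unfold RR
      linarith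
    exact ⟨hF0 j x h6, hG0 j x h6⟩) (fun _ => hE.1) (by
    intro _ p hp hpl
    apply hE.2.1 p hp
    have h6 : Real.log z ≤ Real.log z ^ b := le_self_pow₀ hlog1 (by omega)
    exact hpl.trans (((le_max_left _ _).trans h3).trans h6)) (fun _ => hs1) (fun _ => hs2)
    (fun _ p hp _ => hw p hp)
  rw [prod_const, card_univ, Fintype.card_fin] at h7
  exact h7

/-- the product of the remaining forms, as a function of the prime -/
noncomputable def PRm {K0 B : ℕ} (E : Finset ℕ) (z : ℝ) (f : Fin B → ℝ → ℝ) (a b : Fin (K0 + 1) → Fin B)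
    (i : Fin (K0 + 1)) (cc : Fin K0 → ℕ) (hh : Fin K0 → ℤ) (m : ℕ) : ℝ :=
  ∏ j : Fin K0, (VVm E (RR z) (LL z) (f (a (i.succAbove j))) ((cc j : ℤ) * m + hh j) *
    VVm E (RR z) (LL z) (f (b (i.succAbove j))) ((cc j : ℤ) * m + hh j))

theorem VVm_scale (E : Finset ℕ) (R : ℕ) (L : ℝ) (F : ℝ → ℝ) (α : ℕ) (x : ℤ)
    (h : ∀ p : ℕ, p.Prime → p ∣ α → p ∈ E) : VVm E R L F ((α : ℤ) * x) = VVm E R L F x := by
  unfold VVm
  refine sum_congr rfl fun d hd => ?_
  have hc : IsCoprime (d : ℤ) (α : ℤ) := by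
    rw [Nat.isCoprime_iff_coprime]
    apply Nat.coprime_of_dvd
    intro p hp h1 h2
    exact (mem_adm.1 hd).2.2 p (h p hp h2) hp h1
  have : ((d : ℤ) ∣ (α : ℤ) * x) ↔ ((d : ℤ) ∣ x) :=
    ⟨fun h1 => hc.dvd_of_dvd_mul_left h1, fun h1 => h1.mul_left _⟩
  simp only [this]

theorem at_prime {K0 B : ℕ} (E : Finset ℕ) (z : ℝ) (f : Fin B → ℝ → ℝ) (A : Finset (Fin (K0 + 1) → Fin B))
    (i : Fin (K0 + 1)) (α β : Fin (K0 + 1) → ℕ) (n : ℕ) (hR : 1 ≤ RR z)
    (hα : ∀ p : ℕ, p.Prime → p ∣ α i → p ∈ E)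
    (hp : (α i * n + β i).Prime) (hRp : RR z < α i * n + β i) :
    sqw E z f A (fun j => (α j : ℤ) * (n : ℤ) + (β j : ℤ)) ^ 2 =
      ∑ a ∈ A, ∑ b ∈ A, f (a i) 0 * f (b i) 0 * PRm E z f a b i (fun j => α (i.succAbove j))
        (fun j => (α i : ℤ) * β (i.succAbove j) - (α (i.succAbove j) : ℤ) * β i) (α i * n + β i) := by
  rw [sqw_sq]
  refine Finset.sum_congr rfl fun a _ => Finset.sum_congr rfl fun b _ => ?_
  rw [Fin.prod_univ_succAbove _ i]
  have h1 : ∀ l, VVm E (RR z) (LL z) (f l) ((α i : ℤ) * (n : ℤ) + (β i : ℤ)) = f l 0 := by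
    intro l
    have := VV_prime E (RR z) hR (LL z) (f l) (α i * n + β i) hp hRp
    push_cast at this
    exact this
  rw [h1, h1]
  congr 1
  unfold PRm
  refine Finset.prod_congr rfl fun j _ => ?_
  have h2 : ((α (i.succAbove j) : ℕ) : ℤ) * ((α i * n + β i : ℕ) : ℤ) +
      ((α i : ℤ) * β (i.succAbove j) - (α (i.succAbove j) : ℤ) * β i) =
      (α i : ℤ) * ((α (i.succAbove j) : ℤ) * n + β (i.succAbove j)) := by
    push_cast; ring
  rw [h2, VVm_scale _ _ _ _ _ _ hα, VVm_scale _ _ _ _ _ _ hα]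

/-- change of variables -/
theorem sum_form (α β W a0 : ℕ) (x : ℝ) (hα : 1 ≤ α) (hx : 1 ≤ x) (hβ : ((α + β : ℕ) : ℝ) ≤ α * x)
    (g : ℕ → ℝ) :
    ∑ n ∈ (Icc 1 ⌊3 * x⌋₊).filter (fun n => n ≡ a0 [MOD W]),
        Phi (((α * n + β : ℕ) : ℝ) / (α * x)) * g (α * n + β) =
      ∑ m ∈ (Icc 1 ⌊3 * (α * x)⌋₊).filter (fun m => m ≡ α * a0 + β [MOD α * W]), Phi (m / (α * x)) * g m := by
  classical
  have hα0 : (1 : ℝ) ≤ α := by exact_mod_cast hα
  have hy : 0 < (α : ℝ) * x := by positivity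
  set A := (Icc 1 ⌊3 * x⌋₊).filter (fun n => n ≡ a0 [MOD W]) with hA
  set B := (Icc 1 ⌊3 * (α * x)⌋₊).filter (fun m => m ≡ α * a0 + β [MOD α * W]) with hB
  have h1 : ∑ n ∈ A, Phi (((α * n + β : ℕ) : ℝ) / (α * x)) * g (α * n + β) =
      ∑ m ∈ A.image (fun n => α * n + β), Phi (m / (α * x)) * g m := by
    rw [sum_image]
    intro n _ n' _ h
    simp only at h
    exact Nat.eq_of_mul_eq_mul_left (by omega) (by omega : α * n = α * n')
  rw [h1]
  have h2 : ∑ m ∈ A.image (fun n => α * n + β), Phi (m / (α * x)) * g m =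
      ∑ m ∈ A.image (fun n => α * n + β) ∪ B, Phi (m / (α * x)) * g m := by
    apply sum_subset subset_union_left
    intro m hm hmn
    by_contra hne
    have hΦ : Phi (m / (α * x)) ≠ 0 := left_ne_zero_of_mul hne
    apply hmn
    have hmB : m ∈ B := (mem_union.1 hm).resolve_left hmn
    rw [hB, mem_filter, mem_Icc] at hmB
    obtain ⟨⟨hm1, hm2⟩, hm3⟩ := hmB
    have hmy : (α : ℝ) * x < m := by
      by_contra hc
      apply hΦ
      exact Phi_eq_zero_of_le (by positivity) (by rw [div_le_one hy]; exact not_lt.1 hc)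
    have hm3y : (m : ℝ) ≤ 3 * (α * x) := (Nat.le_floor_iff (by positivity)).1 hm2
    have hmαβ : α + β < m := by exact_mod_cast hβ.trans_lt hmy
    have h3 : α ∣ m - β := by
      have h4 : m ≡ β [MOD α] := by
        have h5 : m ≡ α * a0 + β [MOD α] := hm3.of_dvd (dvd_mul_right _ _)
        have h6 : α * a0 + β ≡ β [MOD α] := by
          unfold Nat.ModEq
          rw [Nat.mul_add_mod]
        exact h5.trans h6
      exact (Nat.modEq_iff_dvd' (by omega)).1 h4.symm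
    obtain ⟨n, hn⟩ := h3
    have hmn' : m = α * n + β := by omega
    rw [mem_image]
    refine ⟨n, ?_, hmn'.symm⟩
    rw [hA, mem_filter, mem_Icc]
    refine ⟨⟨?_, ?_⟩, ?_⟩
    · rcases Nat.eq_zero_or_pos n with h | h
      · subst h; omega
      · exact h
    · apply Nat.le_floor
      have h7 : (α : ℝ) * n ≤ α * (3 * x) := by
        have h8 : (α : ℝ) * n ≤ m := by
          rw [hmn']
          push_cast
          have : (0 : ℝ) ≤ β := Nat.cast_nonneg _
          linarith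
        linarith
      exact le_of_mul_le_mul_left h7 (by linarith)
    · rw [hmn'] at hm3
      have h9 : α * n ≡ α * a0 [MOD α * W] := Nat.ModEq.add_right_cancel' β hm3
      exact Nat.ModEq.mul_left_cancel' (by omega) h9
  have h3 : ∑ m ∈ B, Phi (m / (α * x)) * g m =
      ∑ m ∈ A.image (fun n => α * n + β) ∪ B, Phi (m / (α * x)) * g m := by
    apply sum_subset subset_union_right
    intro m hm hmn
    have hmA : m ∈ A.image (fun n => α * n + β) := (mem_union.1 hm).resolve_right hmn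
    rw [mem_image] at hmA
    obtain ⟨n, hn, rfl⟩ := hmA
    rw [hA, mem_filter, mem_Icc] at hn
    have h4 : α * n + β ≡ α * a0 + β [MOD α * W] := (Nat.ModEq.mul_left' α hn.2).add_right β
    have h5 : ¬ (α * n + β ≤ ⌊3 * (α * x)⌋₊) := by
      intro h6
      apply hmn
      rw [hB, mem_filter, mem_Icc]
      exact ⟨⟨by nlinarith [hn.1.1], h6⟩, h4⟩
    rw [Nat.le_floor_iff (by positivity), not_le] at h5
    rw [Phi_eq_zero_of_ge, zero_mul]
    rw [le_div_iff₀ hy]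
    have := exp_one_lt_three'
    nlinarith
  rw [h2, h3]

end Pool.Agent.L7h28.UM
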