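import Mathlib
import Pool.Agent.L7h28.UM.S2

set_option autoImplicit false

/-! The weighted prime sum for one form: the final bound. -/

open Finset Filter
open scoped ContDiff

namespace Pool.Agent.L7h28.UM

open Pool.Agent.H378R2

/-- the error terms -/
noncomputable def ErS (y z BEE : ℝ) (K0 Q card : ℕ) : ℝ :=
  (1 / (LL z * BEE)) ^ K0 * (y / ((Q.totient : ℝ) * (Real.log z) ^ 2)) +
    (card : ℝ) ^ 2 * (Real.exp (2 * LL z) * (2 * Real.sqrt (3 * y) * Real.log (3 * y)))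

theorem dat_of {K0 : ℕ} {E : Finset ℕ} {W a0 : ℕ} {α β : Fin (K0 + 1) → ℕ} (i : Fin (K0 + 1))
    (hW : 0 < W) (hWE : ∀ p : ℕ, p.Prime → p ∣ W → p ∈ E) (hs : SysOK E α β) (hα : 1 ≤ α i)
    (hc : (α i * a0 + β i).Coprime (α i * W)) :
    Dat E (α i * W) (α i * a0 + β i) (fun j => α (i.succAbove j))
      (fun j => (α i : ℤ) * β (i.succAbove j) - (α (i.succAbove j) : ℤ) * β i) := by
  refine ⟨Nat.mul_pos hα hW, hc, ?_, ?_, ?_, ?_⟩
  · intro p hp hpE h
    rcases (Nat.Prime.dvd_mul hp).1 h with h1 | h1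
    · exact hpE (hs.1 i p hp h1)
    · exact hpE (hWE p hp h1)
  · intro j p hp hpE h
    exact hpE (hs.1 _ p hp h)
  · intro j p hp hpE h
    exact hs.2 i (i.succAbove j) (Fin.succAbove_ne i j).symm p hp hpE h
  · intro j k hjk p hp hpE n hh
    have hne : i.succAbove k ≠ i.succAbove j := fun h => hjk (Fin.succAbove_right_injective h).symm
    have h1 := hs.2 _ _ hne p hp hpE
    have h2 : (p : ℤ) ∣ (α i : ℤ) * ((α (i.succAbove k) : ℤ) * β (i.succAbove j) -
        (α (i.succAbove j) : ℤ) * β (i.succAbove k)) := by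
      have h3 := dvd_sub (hh.1.mul_left ((α (i.succAbove k) : ℕ) : ℤ)) (hh.2.mul_left ((α (i.succAbove j) : ℕ) : ℤ))
      have h4 : (α i : ℤ) * ((α (i.succAbove k) : ℤ) * β (i.succAbove j) -
        (α (i.succAbove j) : ℤ) * β (i.succAbove k)) = (α (i.succAbove k) : ℤ) * ((α (i.succAbove j) : ℤ) * n +
          ((α i : ℤ) * β (i.succAbove j) - (α (i.succAbove j) : ℤ) * β i)) - (α (i.succAbove j) : ℤ) *
          ((α (i.succAbove k) : ℤ) * n + ((α i : ℤ) * β (i.succAbove k) - (α (i.succAbove k) : ℤ) * β i)) := by ring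
      rw [h4]
      exact h3
    rcases (Nat.prime_iff_prime_int.1 hp).dvd_mul.1 h2 with h3 | h3
    · exact hpE (hs.1 i p hp (Int.natCast_dvd_natCast.1 h3))
    · exact h1 h3

theorem pair_main (h5 : SieveAsymp) (hCB : S_CB) (hE1 : S_E1) {K0 B : ℕ} (f : Fin B → ℝ → ℝ) (c : Fin B → ℝ)
    (A : Finset (Fin (K0 + 1) → Fin B)) (hfam : FamOK f c A) (K' : ℕ) (ε1 : ℝ) (hε1 : 0 < ε1) (η : ℝ) (hη : 0 < η)
    (a b : Fin (K0 + 1) → Fin B) (i : Fin (K0 + 1)) (ha : a ∈ A) (hb : b ∈ A) :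
    ∀ᶠ z : ℝ in atTop, ∀ E : Finset ℕ, EOK 25 z E → ∀ (Q cl : ℕ) (cc : Fin K0 → ℕ) (hh : Fin K0 → ℤ),
      Dat E Q cl cc hh → (Q : ℝ) ≤ z ^ (1 / 100 : ℝ) → ∀ y : ℝ, z ≤ y → y ≤ z ^ K' →
      |∑ m ∈ (Icc 1 ⌊3 * y⌋₊).filter (fun m => m ≡ cl [MOD Q]), Phi (m / y) * (th m * PRm E z f a b i cc hh m) -
        CS y Q cl * ((1 / (LL z * BE E)) ^ K0 * ∏ j : Fin K0, DD (f (a (i.succAbove j))) (f (b (i.succAbove j))))| ≤
      CS y Q cl * ((1 / (LL z * BE E)) ^ K0 * ε1) +
        (η * ((1 / (LL z * BE E)) ^ K0 * (y / ((Q.totient : ℝ) * (Real.log z) ^ 2))) +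
        Real.exp (2 * LL z) * (2 * Real.sqrt (3 * y) * Real.log (3 * y))) := by
  classical
  obtain ⟨hsm, hcs, hf0, hc, hA, hf1⟩ := hfam
  have hsum : ∑ j : Fin K0, c (a (i.succAbove j)) + ∑ j : Fin K0, c (b (i.succAbove j)) ≤ 2 := by
    have := sum_succAbove_le c (fun l => (hc l).1) a i
    have := sum_succAbove_le c (fun l => (hc l).1) b i
    linarith [hA a ha, hA b hb]
  have ev1 := asympE h5 hE1 (fun j : Fin K0 => f (a (i.succAbove j))) (fun j => f (b (i.succAbove j)))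
    (fun j => hsm _) (fun j => hsm _)
      (fun j => hcs _) (fun j => hcs _) (fun j x hx => hf0 _ x ((hc _).2.trans_lt hx))
      (fun j x hx => hf0 _ x ((hc _).2.trans_lt hx)) 25 (by norm_num) ε1 hε1
  have ev2 := pair_bound hCB hE1 (fun j : Fin K0 => f (a (i.succAbove j))) (fun j => f (b (i.succAbove j)))
    (fun j => hsm _) (fun j => hsm _) (fun j => hcs _) (fun j => hcs _)
    (fun j => c (a (i.succAbove j))) (fun j => c (b (i.succAbove j))) (fun j => (hc _).2) (fun j => (hc _).2)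
    (fun j x hx => hf0 _ x hx) (fun j x hx => hf0 _ x hx) hsum K' η hη
  filter_upwards [ev1, ev2, eventually_ge_atTop 4] with z h1 h2 h4
  intro E hE Q cl cc hh hd hQ y hzy hyz
  have hL0 : 0 < LL z := LL_pos_of (by linarith)
  have hBE := BE_pos hE.1
  have hP : 0 < LL z * BE E := by positivity
  have hCS : 0 ≤ CS y Q cl := CS_nonneg y Q cl
  have k1 := h1 E (fun p => 1 / ((p : ℝ) - 1)) hE (fun p hp => w_two hp)
  have k2 := h2 E hE Q cl cc hh hd hQ y hzy hyz
  set SS := sieveSum K0 (fun j : Fin K0 => f (a (i.succAbove j))) (fun j => f (b (i.succAbove j))) (LL z) (fun _ => E)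
    (fun p _ => 1 / ((p : ℝ) - 1)) (RR z) with hSS
  set D := ∏ j : Fin K0, DD (f (a (i.succAbove j))) (f (b (i.succAbove j))) with hD
  have k3 : |CS y Q cl * SS - CS y Q cl * ((1 / (LL z * BE E)) ^ K0 * D)| ≤
      CS y Q cl * ((1 / (LL z * BE E)) ^ K0 * ε1) := by
    have hpp : (1 / (LL z * BE E)) ^ K0 * (LL z * BE E) ^ K0 = 1 := by
      rw [← mul_pow, one_div_mul_cancel hP.ne', one_pow]
    have : CS y Q cl * SS - CS y Q cl * ((1 / (LL z * BE E)) ^ K0 * D) =
        CS y Q cl * ((1 / (LL z * BE E)) ^ K0 * ((LL z * BE E) ^ K0 * SS - D)) := by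
      linear_combination (-(CS y Q cl * SS)) * hpp
    rw [this, abs_mul, abs_of_nonneg hCS, abs_mul, abs_of_nonneg (by positivity : 0 ≤ (1 / (LL z * BE E)) ^ K0)]
    apply mul_le_mul_of_nonneg_left _ hCS
    exact mul_le_mul_of_nonneg_left k1 (by positivity)
  -- passage from Λ to primes
  have hPR : ∀ m : ℕ, |PRm E z f a b i cc hh m| ≤ Real.exp (2 * LL z) := by
    intro m
    exact prod_VV_le E (RR z) (LL z) hL0 f c hf0 hf1 (fun j => a (i.succAbove j))
      (fun j => b (i.succAbove j)) hsum _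
  have k4 : |∑ m ∈ (Icc 1 ⌊3 * y⌋₊).filter (fun m => m ≡ cl [MOD Q]), Phi (m / y) * (th m * PRm E z f a b i cc hh m) -
      ∑ n ∈ Icc 1 ⌊3 * y⌋₊, nuC y Q cl n * PRm E z f a b i cc hh n| ≤
      Real.exp (2 * LL z) * (2 * Real.sqrt (3 * y) * Real.log (3 * y)) := by
    rw [sum_filter, ← sum_sub_distrib]
    refine (abs_sum_le_sum_abs _ _).trans ?_
    have hle : ∀ m ∈ Icc 1 ⌊3 * y⌋₊, |(if m ≡ cl [MOD Q] then Phi (m / y) * (th m * PRm E z f a b i cc hh m) else 0) -
        nuC y Q cl m * PRm E z f a b i cc hh m| ≤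
        if ¬ m.Prime then Real.exp (2 * LL z) * ArithmeticFunction.vonMangoldt m else 0 := by
      intro m _
      unfold nuC
      by_cases hm : m ≡ cl [MOD Q]
      · rw [if_pos hm, if_pos hm]
        by_cases hp : m.Prime
        · have : th m = ArithmeticFunction.vonMangoldt m := by
            unfold th
            rw [if_pos hp, ArithmeticFunction.vonMangoldt_apply_prime hp]
          rw [this, if_neg (not_not.2 hp)]
          have : Phi (m / y) * (ArithmeticFunction.vonMangoldt m * PRm E z f a b i cc hh m) -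
            Phi (m / y) * ArithmeticFunction.vonMangoldt m * PRm E z f a b i cc hh m = 0 := by ring
          rw [this, abs_zero]
        · have h0 : th m = 0 := by unfold th; rw [if_neg hp]
          rw [h0, zero_mul, mul_zero, zero_sub, abs_neg, if_pos hp, abs_mul, abs_mul,
            abs_of_nonneg (Pool.Agent.H378R2.Phi_nonneg _), abs_of_nonneg ArithmeticFunction.vonMangoldt_nonneg]
          have h6 := Phi_le_one (m / y)
          have h7 : 0 ≤ ArithmeticFunction.vonMangoldt m := ArithmeticFunction.vonMangoldt_nonneg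
          calc Phi (m / y) * ArithmeticFunction.vonMangoldt m * |PRm E z f a b i cc hh m| ≤
              (1 * ArithmeticFunction.vonMangoldt m) * Real.exp (2 * LL z) := by
                apply mul_le_mul _ (hPR m) (abs_nonneg _) (by positivity)
                exact mul_le_mul_of_nonneg_right h6 h7
            _ = _ := by ring
      · rw [if_neg hm, if_neg hm, zero_mul, sub_zero, abs_zero]
        split_ifs
        · exact le_rfl
        · exact mul_nonneg (Real.exp_pos _).le ArithmeticFunction.vonMangoldt_nonneg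
    refine (sum_le_sum hle).trans ?_
    rw [← sum_filter, ← mul_sum]
    apply mul_le_mul_of_nonneg_left _ (Real.exp_pos _).le
    exact sum_nonprime_le (3 * y) (by linarith)
  have k5 : ∑ n ∈ Icc 1 ⌊3 * y⌋₊, nuC y Q cl n * PRm E z f a b i cc hh n =
    ∑ n ∈ Icc 1 ⌊3 * y⌋₊, nuC y Q cl n *
        ∏ j : Fin K0, (VVm E (RR z) (LL z) (f (a (i.succAbove j))) ((cc j : ℤ) * n + hh j) *
          VVm E (RR z) (LL z) (f (b (i.succAbove j))) ((cc j : ℤ) * n + hh j)) := rfl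
  rw [k5] at k4
  have s8 := abs_le.1 k4
  have s9 := abs_le.1 k2
  have s10 := abs_le.1 k3
  rw [abs_le]
  constructor <;> linarith [s8.1, s8.2, s9.1, s9.2, s10.1, s10.2]

/-- (S2) -/
theorem S2_bound (h5 : SieveAsymp) (hCB : S_CB) (hE1 : S_E1) {K0 B : ℕ} (f : Fin B → ℝ → ℝ) (c : Fin B → ℝ)
    (A : Finset (Fin (K0 + 1) → Fin B)) (hfam : FamOK f c A) (ε1 : ℝ) (hε1 : 0 < ε1) (K' : ℕ) :
    ∀ᶠ z : ℝ in atTop,
    ∀ (E : Finset ℕ) (W a0 : ℕ) (α β : Fin (K0 + 1) → ℕ) (i : Fin (K0 + 1)) (x : ℝ),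
    EOK 25 z E → 0 < W → (∀ p : ℕ, p.Prime → p ∣ W → p ∈ E) → SysOK E α β →
    z ≤ x → α i * x ≤ z ^ K' → 1 ≤ α i → ((α i * W : ℕ) : ℝ) ≤ z ^ (1 / 100 : ℝ) → (β i : ℝ) ≤ z ^ (1 / 100 : ℝ) →
    (α i * a0 + β i).Coprime (α i * W) →
    CS (α i * x) (α i * W) (α i * a0 + β i) * ((1 / (LL z * BE E)) ^ K0 * (JJ f A i - ε1)) -
        ErS (α i * x) z (BE E) K0 (α i * W) A.card ≤
      ∑ n ∈ (Icc 1 ⌊3 * x⌋₊).filter (fun n => n ≡ a0 [MOD W]),
        Phi (((α i * n + β i : ℕ) : ℝ) / (α i * x)) * (th (α i * n + β i) *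
          sqw E z f A (fun j => (α j : ℤ) * (n : ℤ) + (β j : ℤ)) ^ 2) := by
  classical
  set N : ℝ := (A.card : ℝ) ^ 2 + 1 with hN
  have hN0 : 0 < N := by positivity
  have hev : ∀ i : Fin (K0 + 1), ∀ᶠ z : ℝ in atTop, ∀ a ∈ A, ∀ b ∈ A, ∀ E : Finset ℕ, EOK 25 z E →
      ∀ (Q cl : ℕ) (cc : Fin K0 → ℕ) (hh : Fin K0 → ℤ),
      Dat E Q cl cc hh → (Q : ℝ) ≤ z ^ (1 / 100 : ℝ) → ∀ y : ℝ, z ≤ y → y ≤ z ^ K' →
      |∑ m ∈ (Icc 1 ⌊3 * y⌋₊).filter (fun m => m ≡ cl [MOD Q]), Phi (m / y) * (th m * PRm E z f a b i cc hh m) -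
        CS y Q cl * ((1 / (LL z * BE E)) ^ K0 * ∏ j : Fin K0, DD (f (a (i.succAbove j))) (f (b (i.succAbove j))))| ≤
      CS y Q cl * ((1 / (LL z * BE E)) ^ K0 * (ε1 / N)) +
        ((1 / N) * ((1 / (LL z * BE E)) ^ K0 * (y / ((Q.totient : ℝ) * (Real.log z) ^ 2))) +
        Real.exp (2 * LL z) * (2 * Real.sqrt (3 * y) * Real.log (3 * y))) := by
    intro i
    rw [Filter.eventually_all_finset]
    intro a ha
    rw [Filter.eventually_all_finset]
    intro b hb
    exact pair_main h5 hCB hE1 f c A hfam K' (ε1 / N) (by positivity) (1 / N) (by positivity) a b i ha hb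
  rw [← Filter.eventually_all] at hev
  obtain ⟨hsm, hcs, hf0, hc, hA, hf1⟩ := hfam
  have hR : ∀ᶠ z : ℝ in atTop, 1 ≤ RR z ∧ (RR z : ℝ) < z := by
    filter_upwards [LL_tendsto.eventually_ge_atTop 1, eventually_gt_atTop 1] with z h1 h2
    have hlog : 0 < Real.log z := Real.log_pos h2
    constructor
    · unfold RR
      apply Nat.le_floor
      rw [Nat.cast_one]
      exact Real.one_le_exp (by linarith)
    · unfold RR
      calc (⌊Real.exp (LL z)⌋₊ : ℝ) ≤ Real.exp (LL z) := Nat.floor_le (Real.exp_pos _).le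
        _ < Real.exp (Real.log z) := by
            apply Real.exp_lt_exp.2
            unfold LL
            linarith
        _ = z := Real.exp_log (by linarith)
  filter_upwards [hev, hR, eventually_ge_atTop 4] with z h1 h2 h4
  intro E W a0 α β i x hE hW hWE hs hzx hxz hα hQ hβ hcop
  have hα0 : (1 : ℝ) ≤ α i := by exact_mod_cast hα
  have hx0 : 0 < x := by linarith
  have hy : z ≤ α i * x := by nlinarith
  have hd := dat_of i hW hWE hs hα hcop
  -- change of variables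
  set cc : Fin K0 → ℕ := fun j => α (i.succAbove j) with hcc
  set hh : Fin K0 → ℤ := fun j => (α i : ℤ) * β (i.succAbove j) - (α (i.succAbove j) : ℤ) * β i with hhh
  set GGm : ℕ → ℝ := fun m => ∑ a ∈ A, ∑ b ∈ A, f (a i) 0 * f (b i) 0 * PRm E z f a b i cc hh m with hGGm
  have hroot : z ^ (1 / 100 : ℝ) ≤ z - 1 := by
    have h6 : z ^ (1 / 100 : ℝ) ≤ z ^ (1 / 2 : ℝ) := Real.rpow_le_rpow_of_exponent_le (by linarith) (by norm_num)
    have h7 : z ^ (1 / 2 : ℝ) ≤ z - 1 := by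
      rw [← Real.sqrt_eq_rpow, Real.sqrt_le_left (by linarith)]
      nlinarith
    linarith
  have hαβ : ((α i + β i : ℕ) : ℝ) ≤ α i * x := by
    push_cast
    have : (α i : ℝ) * z ≤ α i * x := mul_le_mul_of_nonneg_left hzx (by linarith)
    nlinarith
  have hterm : ∀ n ∈ (Icc 1 ⌊3 * x⌋₊).filter (fun n => n ≡ a0 [MOD W]),
      Phi (((α i * n + β i : ℕ) : ℝ) / (α i * x)) * (th (α i * n + β i) *
          sqw E z f A (fun j => (α j : ℤ) * (n : ℤ) + (β j : ℤ)) ^ 2) =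
      Phi (((α i * n + β i : ℕ) : ℝ) / (α i * x)) * (fun m => th m * GGm m) (α i * n + β i) := by
    intro n _
    by_cases hz : Phi (((α i * n + β i : ℕ) : ℝ) / (α i * x)) = 0
    · rw [hz, zero_mul, zero_mul]
    by_cases hp : (α i * n + β i).Prime
    · have hXn : α i * x < ((α i * n + β i : ℕ) : ℝ) := by
        by_contra hle
        push Not at hle
        apply hz
        exact Phi_eq_zero_of_le (by positivity) (by rw [div_le_one (by linarith)]; exact hle)
      have hRn : RR z < α i * n + β i := by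
        have h3 : (RR z : ℝ) < ((α i * n + β i : ℕ) : ℝ) := h2.2.trans (hy.trans_lt hXn)
        exact_mod_cast h3
      simp only [hGGm]
      rw [at_prime E z f A i α β n h2.1 (hs.1 i) hp hRn]
    · have h0 : th (α i * n + β i) = 0 := by unfold th; rw [if_neg hp]
      simp only [h0, zero_mul]
  rw [sum_congr rfl hterm, sum_form (α i) (β i) W a0 x hα (by linarith) hαβ (fun m => th m * GGm m)]
  set Bm := (Icc 1 ⌊3 * (α i * x)⌋₊).filter (fun m => m ≡ α i * a0 + β i [MOD α i * W]) with hBm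
  have hexch : ∑ m ∈ Bm, Phi (m / (α i * x)) * (fun m => th m * GGm m) m =
      ∑ a ∈ A, ∑ b ∈ A, f (a i) 0 * f (b i) 0 *
        ∑ m ∈ Bm, Phi (m / (α i * x)) * (th m * PRm E z f a b i cc hh m) := by
    simp only [hGGm]
    have e1 : ∀ m ∈ Bm, Phi (m / (α i * x)) * (th m * ∑ a ∈ A, ∑ b ∈ A, f (a i) 0 * f (b i) 0 * PRm E z f a b i cc hh m) =
        ∑ a ∈ A, ∑ b ∈ A, f (a i) 0 * f (b i) 0 * (Phi (m / (α i * x)) * (th m * PRm E z f a b i cc hh m)) := by
      intro m _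
      rw [mul_sum, mul_sum]
      refine sum_congr rfl fun a _ => ?_
      rw [mul_sum, mul_sum]
      refine sum_congr rfl fun b _ => ?_
      ring
    rw [sum_congr rfl e1, Finset.sum_comm]
    refine Finset.sum_congr rfl fun a _ => ?_
    rw [Finset.sum_comm]
    refine Finset.sum_congr rfl fun b _ => ?_
    rw [Finset.mul_sum]
  rw [hexch]
  set CSv := CS (α i * x) (α i * W) (α i * a0 + β i) with hCSv
  set P := (1 / (LL z * BE E)) ^ K0 with hPdef
  set E1v := P * (α i * x / (((α i * W).totient : ℝ) * (Real.log z) ^ 2)) with hE1v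
  set E2v := Real.exp (2 * LL z) * (2 * Real.sqrt (3 * (α i * x)) * Real.log (3 * (α i * x))) with hE2v
  have hL0 : 0 < LL z := LL_pos_of (by linarith)
  have hBE := BE_pos hE.1
  have hP0 : 0 ≤ P := by rw [hPdef]; positivity
  have hCS0 : 0 ≤ CSv := CS_nonneg _ _ _
  have hE10 : 0 ≤ E1v := by
    rw [hE1v]
    apply mul_nonneg hP0
    apply div_nonneg (by nlinarith)
    positivity
  have hpair : ∀ a ∈ A, ∀ b ∈ A, CSv * (P * (f (a i) 0 * f (b i) 0 * ∏ j : Fin K0, DD (f (a (i.succAbove j))) (f (b (i.succAbove j))))) -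
      (CSv * (P * (ε1 / N)) + ((1 / N) * E1v + E2v)) ≤ f (a i) 0 * f (b i) 0 *
        ∑ m ∈ Bm, Phi (m / (α i * x)) * (th m * PRm E z f a b i cc hh m) := by
    intro a ha b hb
    have k1 := h1 i a ha b hb E hE (α i * W) (α i * a0 + β i) cc hh hd hQ (α i * x) hy hxz
    have k2 : |f (a i) 0 * f (b i) 0| ≤ 1 := by
      rw [abs_mul]
      calc |f (a i) 0| * |f (b i) 0| ≤ 1 * 1 := mul_le_mul (hf1 _ _) (hf1 _ _) (abs_nonneg _) zero_le_one
        _ = 1 := one_mul 1
    set U := ∑ m ∈ Bm, Phi (m / (α i * x)) * (th m * PRm E z f a b i cc hh m)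
    set D := ∏ j : Fin K0, DD (f (a (i.succAbove j))) (f (b (i.succAbove j)))
    have k3 : |f (a i) 0 * f (b i) 0 * (U - CSv * (P * D))| ≤ CSv * (P * (ε1 / N)) + ((1 / N) * E1v + E2v) := by
      rw [abs_mul]
      calc |f (a i) 0 * f (b i) 0| * |U - CSv * (P * D)| ≤ 1 * (CSv * (P * (ε1 / N)) + ((1 / N) * E1v + E2v)) :=
            mul_le_mul k2 k1 (abs_nonneg _) zero_le_one
        _ = _ := one_mul _
    have k4 := (abs_le.1 k3).1
    have k5 : f (a i) 0 * f (b i) 0 * (U - CSv * (P * D)) =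
      f (a i) 0 * f (b i) 0 * U - CSv * (P * (f (a i) 0 * f (b i) 0 * D)) := by
      ring
    rw [k5] at k4
    linarith
  refine le_trans ?_ (Finset.sum_le_sum fun a ha => Finset.sum_le_sum fun b hb => hpair a ha b hb)
  simp_rw [Finset.sum_sub_distrib, ← Finset.mul_sum, Finset.sum_const, nsmul_eq_mul]
  have hJ : JJ f A i = ∑ a ∈ A, ∑ b ∈ A, f (a i) 0 * f (b i) 0 * ∏ j : Fin K0, DD (f (a (i.succAbove j))) (f (b (i.succAbove j))) := rfl
  rw [← hJ]
  have hErS : ErS (α i * x) z (BE E) K0 (α i * W) A.card = E1v + (A.card : ℝ) ^ 2 * E2v := rfl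
  rw [hErS]
  have hfrac : (A.card : ℝ) ^ 2 / N ≤ 1 := by
    rw [div_le_one hN0, hN]; linarith
  have h7 : (A.card : ℝ) * ((A.card : ℝ) * (CSv * (P * (ε1 / N)) + ((1 / N) * E1v + E2v))) =
      (A.card : ℝ) ^ 2 / N * (CSv * (P * ε1)) + (A.card : ℝ) ^ 2 / N * E1v + (A.card : ℝ) ^ 2 * E2v := by
    field_simp
    ring
  rw [h7]
  have h8 : (A.card : ℝ) ^ 2 / N * (CSv * (P * ε1)) ≤ CSv * (P * ε1) := by
    apply mul_le_of_le_one_left (by positivity) hfrac
  have h9 : (A.card : ℝ) ^ 2 / N * E1v ≤ E1v := mul_le_of_le_one_left hE10 hfrac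
  have h10 : CSv * (P * (JJ f A i - ε1)) = CSv * (P * JJ f A i) - CSv * (P * ε1) := by ring
  rw [h10]
  linarith

end Pool.Agent.L7h28.UM
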