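import Mathlib
import Pool.Agent.L7h28.UM.S2b

set_option autoImplicit false

/-! Small lemmas for the final assembly. -/

open Finset Filter
open scoped ContDiff

namespace Pool.Agent.L7h28.UM

open Pool.Agent.H378R2

theorem totient_real (n : ℕ) : (n.totient : ℝ) = n * ∏ p ∈ n.primeFactors, (1 - 1 / (p : ℝ)) := by
  have h := Nat.totient_eq_mul_prod_factors n
  have h2 : ((n.totient : ℚ) : ℝ) = ((n * ∏ p ∈ n.primeFactors, (1 - (p : ℚ)⁻¹) : ℚ) : ℝ) := by rw [h]
  push_cast at h2
  rw [h2]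
  simp only [one_div]

theorem totient_mul_le' (a b : ℕ) (ha : a ≠ 0) (hb : b ≠ 0) : ((a * b).totient : ℝ) ≤ a * b.totient := by
  rw [totient_real, totient_real b, Nat.cast_mul, mul_assoc]
  apply mul_le_mul_of_nonneg_left _ (Nat.cast_nonneg a)
  apply mul_le_mul_of_nonneg_left _ (Nat.cast_nonneg b)
  apply Finset.prod_le_prod_of_subset_of_le_one (Nat.primeFactors_mono (dvd_mul_left b a) (mul_ne_zero ha hb))
  · intro p hp
    exact (one_sub_prime_pos (Nat.prime_of_mem_primeFactors hp)).le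
  · intro p _ _
    have : (0 : ℝ) ≤ 1 / p := by positivity
    linarith

theorem prod_ratio (T : Finset ℕ) : (∀ p ∈ T, 2 ≤ p) → ∏ p ∈ T, ((p : ℝ) / ((p : ℝ) - 1)) ≤ T.card + 1 := by
  induction T using Finset.induction_on_max with
  | empty => simp
  | insert m T hm ih =>
    intro h
    have hmT : m ∉ T := fun hc => (lt_irrefl m (hm m hc))
    have h1 := ih fun p hp => h p (mem_insert_of_mem hp)
    rw [prod_insert hmT, card_insert_of_notMem hmT]
    have hcard : T.card + 2 ≤ m := by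
      have h2 : T ⊆ Ico 2 m := fun p hp => mem_Ico.2 ⟨h p (mem_insert_of_mem hp), hm p hp⟩
      have h3 := card_le_card h2
      rw [Nat.card_Ico] at h3
      have := h m (mem_insert_self _ _)
      omega
    have hc : ((T.card : ℝ) + 2) ≤ m := by exact_mod_cast hcard
    have hT0 : (0 : ℝ) ≤ T.card := Nat.cast_nonneg _
    have h4 : (m : ℝ) / ((m : ℝ) - 1) ≤ ((T.card : ℝ) + 2) / (T.card + 1) := by
      rw [div_le_div_iff₀ (by linarith) (by linarith)]
      nlinarith
    calc (m : ℝ) / ((m : ℝ) - 1) * ∏ p ∈ T, ((p : ℝ) / ((p : ℝ) - 1)) ≤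
        ((T.card : ℝ) + 2) / (T.card + 1) * (T.card + 1) := by
          apply mul_le_mul h4 h1 _ (by positivity)
          apply prod_nonneg
          intro p hp
          have : (2 : ℝ) ≤ p := by exact_mod_cast h p (mem_insert_of_mem hp)
          apply div_nonneg <;> linarith
      _ = ((T.card + 1 : ℕ) : ℝ) + 1 := by
          field_simp
          push_cast
          ring

theorem div_totient_le (a : ℕ) (ha : 0 < a) : (a : ℝ) / a.totient ≤ a.primeFactors.card + 1 := by
  rw [totient_real]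
  have ha0 : (0 : ℝ) < a := by exact_mod_cast ha
  rw [mul_comm, ← div_div, div_right_comm, div_self ha0.ne']
  refine le_trans (le_of_eq ?_) (prod_ratio a.primeFactors fun p hp => (Nat.prime_of_mem_primeFactors hp).two_le)
  rw [one_div, ← prod_inv_distrib]
  refine prod_congr rfl fun p hp => ?_
  have : (2 : ℝ) ≤ p := by exact_mod_cast (Nat.prime_of_mem_primeFactors hp).two_le
  rw [one_sub_div (by linarith), inv_div]

/-- the sifting set -/
noncomputable def ES (z : ℝ) {K : ℕ} (α β : Fin K → ℕ) : Finset ℕ :=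
  (Icc 1 ⌊(Real.log z) ^ 25⌋₊).filter Nat.Prime ∪ ((univ.biUnion fun j => (α j).primeFactors) ∪
    (univ.biUnion fun ij : Fin K × Fin K =>
      (Int.natAbs ((α ij.1 : ℤ) * β ij.2 - (α ij.2 : ℤ) * β ij.1)).primeFactors))

theorem mem_ES {z : ℝ} {K : ℕ} {α β : Fin K → ℕ} {p : ℕ} : p ∈ ES z α β ↔
    ((1 ≤ p ∧ p ≤ ⌊(Real.log z) ^ 25⌋₊) ∧ p.Prime) ∨ ((∃ j, p ∈ (α j).primeFactors) ∨
      ∃ ij : Fin K × Fin K, p ∈ (Int.natAbs ((α ij.1 : ℤ) * β ij.2 - (α ij.2 : ℤ) * β ij.1)).primeFactors) := by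
  unfold ES
  rw [mem_union, mem_union, mem_filter, mem_Icc, mem_biUnion, mem_biUnion]
  simp only [mem_univ, true_and]

theorem ES_ok (K : ℕ) : ∀ᶠ X : ℝ in atTop, ∀ α β : Fin K → ℕ,
    (∀ j, 1 ≤ α j ∧ (α j : ℝ) ≤ X ∧ (β j : ℝ) ≤ X) → (∀ i j, i ≠ j → α i * β j ≠ α j * β i) →
    EOK 25 (X ^ 400) (ES (X ^ 400) α β) ∧ SysOK (ES (X ^ 400) α β) α β := by
  classical
  filter_upwards [Real.tendsto_log_atTop.eventually_ge_atTop (2 * K + 4 * K ^ 2 + 1 : ℝ), eventually_ge_atTop 1] with X h1 h2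
  intro α β hαβ hdet
  have hX0 : 0 < X := by linarith
  have hlog1 : 1 ≤ Real.log X := by
    have : (0 : ℝ) ≤ K := Nat.cast_nonneg _
    nlinarith
  have hlogz : Real.log (X ^ 400) = 400 * Real.log X := by rw [Real.log_pow]; norm_num
  have hlz0 : 0 ≤ Real.log (X ^ 400) := by rw [hlogz]; linarith
  refine ⟨⟨?_, ?_, ?_⟩, ?_, ?_⟩
  · intro p hp
    rcases mem_ES.1 hp with h | ⟨j, h⟩ | ⟨ij, h⟩
    · exact h.2
    · exact Nat.prime_of_mem_primeFactors h
    · exact Nat.prime_of_mem_primeFactors h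
  · intro p hp hle
    exact mem_ES.2 (Or.inl ⟨⟨hp.one_lt.le, Nat.le_floor hle⟩, hp⟩)
  · have hsub : (ES (X ^ 400) α β).filter (fun p : ℕ => (Real.log (X ^ 400)) ^ 25 < (p : ℝ)) ⊆
        (univ.biUnion fun j => (α j).primeFactors) ∪ (univ.biUnion fun ij : Fin K × Fin K =>
          (Int.natAbs ((α ij.1 : ℤ) * β ij.2 - (α ij.2 : ℤ) * β ij.1)).primeFactors) := by
      intro p hp
      rw [mem_filter] at hp
      rw [mem_union, mem_biUnion, mem_biUnion]
      simp only [mem_univ, true_and]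
      rcases mem_ES.1 hp.1 with h | h
      · exfalso
        have := (Nat.le_floor_iff (by positivity)).1 h.1.2
        linarith [hp.2]
      · exact h
    have hα : ∀ j, (((α j).primeFactors.card : ℕ) : ℝ) ≤ 2 * Real.log X := by
      intro j
      apply card_le_log (by have := (hαβ j).1; omega)
      rw [Real.exp_log hX0]
      exact (hαβ j).2.1
    have hΔ : ∀ ij : Fin K × Fin K, (((Int.natAbs ((α ij.1 : ℤ) * β ij.2 - (α ij.2 : ℤ) * β ij.1)).primeFactors.card : ℕ) : ℝ) ≤
        4 * Real.log X := by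
      intro ij
      by_cases h0 : Int.natAbs ((α ij.1 : ℤ) * β ij.2 - (α ij.2 : ℤ) * β ij.1) = 0
      · rw [h0, Nat.primeFactors_zero, card_empty, Nat.cast_zero]
        linarith
      · have h3 := card_le_log h0 (V := 2 * Real.log X) (by
          have e1 : Real.exp (2 * Real.log X) = X * X := by
            rw [two_mul, Real.exp_add, Real.exp_log hX0]
          rw [e1, Nat.cast_natAbs, Int.cast_abs]
          push_cast
          have a1 : 0 ≤ (α ij.1 : ℝ) * β ij.2 := by positivity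
          have a2 : 0 ≤ (α ij.2 : ℝ) * β ij.1 := by positivity
          have a3 : (α ij.1 : ℝ) * β ij.2 ≤ X * X :=
            mul_le_mul (hαβ _).2.1 (hαβ _).2.2 (Nat.cast_nonneg _) hX0.le
          have a4 : (α ij.2 : ℝ) * β ij.1 ≤ X * X :=
            mul_le_mul (hαβ _).2.1 (hαβ _).2.2 (Nat.cast_nonneg _) hX0.le
          rw [abs_le]
          constructor <;> linarith)
        linarith
    have hcard := card_le_card hsub
    have hc1 : ((univ.biUnion fun j => (α j).primeFactors).card : ℝ) ≤ K * (2 * Real.log X) := by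
      have h5 : (univ.biUnion fun j => (α j).primeFactors).card ≤ ∑ j, (α j).primeFactors.card := card_biUnion_le
      calc ((univ.biUnion fun j => (α j).primeFactors).card : ℝ) ≤ ∑ j, ((α j).primeFactors.card : ℝ) := by
            exact_mod_cast h5
        _ ≤ ∑ _j : Fin K, 2 * Real.log X := sum_le_sum fun j _ => hα j
        _ = _ := by rw [sum_const, card_univ, Fintype.card_fin, nsmul_eq_mul]
    have hc2 : ((univ.biUnion fun ij : Fin K × Fin K =>
          (Int.natAbs ((α ij.1 : ℤ) * β ij.2 - (α ij.2 : ℤ) * β ij.1)).primeFactors).card : ℝ) ≤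
          (K * K) * (4 * Real.log X) := by
      have h5 : (univ.biUnion fun ij : Fin K × Fin K =>
          (Int.natAbs ((α ij.1 : ℤ) * β ij.2 - (α ij.2 : ℤ) * β ij.1)).primeFactors).card ≤
          ∑ ij : Fin K × Fin K, (Int.natAbs ((α ij.1 : ℤ) * β ij.2 - (α ij.2 : ℤ) * β ij.1)).primeFactors.card :=
        card_biUnion_le
      calc _ ≤ ∑ ij : Fin K × Fin K, ((Int.natAbs ((α ij.1 : ℤ) * β ij.2 - (α ij.2 : ℤ) * β ij.1)).primeFactors.card : ℝ) := by
            exact_mod_cast h5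
        _ ≤ ∑ _ij : Fin K × Fin K, 4 * Real.log X := sum_le_sum fun ij _ => hΔ ij
        _ = _ := by
            rw [sum_const, card_univ, Fintype.card_prod, Fintype.card_fin, nsmul_eq_mul]
            push_cast
            ring
    have hu := card_union_le (univ.biUnion fun j => (α j).primeFactors) (univ.biUnion fun ij : Fin K × Fin K =>
          (Int.natAbs ((α ij.1 : ℤ) * β ij.2 - (α ij.2 : ℤ) * β ij.1)).primeFactors)
    have hu2 : (((ES (X ^ 400) α β).filter (fun p : ℕ => (Real.log (X ^ 400)) ^ 25 < (p : ℝ))).card : ℝ) ≤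
        K * (2 * Real.log X) + (K * K) * (4 * Real.log X) := by
      have : (((ES (X ^ 400) α β).filter (fun p : ℕ => (Real.log (X ^ 400)) ^ 25 < (p : ℝ))).card : ℝ) ≤
        ((univ.biUnion fun j => (α j).primeFactors).card : ℝ) + ((univ.biUnion fun ij : Fin K × Fin K =>
          (Int.natAbs ((α ij.1 : ℤ) * β ij.2 - (α ij.2 : ℤ) * β ij.1)).primeFactors).card : ℝ) := by
        exact_mod_cast hcard.trans hu
      linarith
    refine hu2.trans ?_
    rw [hlogz]
    have hK : (0 : ℝ) ≤ K := Nat.cast_nonneg _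
    nlinarith
  · intro j p hp hd
    exact mem_ES.2 (Or.inr (Or.inl ⟨j, Nat.mem_primeFactors.2 ⟨hp, hd, by have := (hαβ j).1; omega⟩⟩))
  · intro i j hij p hp hpE hd
    apply hpE
    refine mem_ES.2 (Or.inr (Or.inr ⟨(i, j), Nat.mem_primeFactors.2 ⟨hp, ?_, ?_⟩⟩))
    · exact Int.natCast_dvd.1 hd
    · intro h0
      rw [Int.natAbs_eq_zero] at h0
      apply hdet i j hij
      have : (α i : ℤ) * β j = (α j : ℤ) * β i := by linarith
      exact_mod_cast this

/-- facts on the big modulus -/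
theorem WX_pos (X : ℝ) (S : Finset ℕ) : 0 < WX X S :=
  prod_pos fun _ hp => (mem_filter.1 hp).2.1.pos

theorem WX_prime {X : ℝ} {S : Finset ℕ} {p : ℕ} (hp : p.Prime) (h : p ∣ WX X S) : p ≤ ⌊Real.log X⌋₊ ∧ p ∉ S := by
  unfold WX at h
  obtain ⟨q, hq, hpq⟩ := (Prime.dvd_finsetProd_iff hp.prime _).1 h
  rw [mem_filter, mem_Icc] at hq
  have := (Nat.prime_dvd_prime_iff_eq hp hq.2.1).1 hpq
  subst this
  exact ⟨hq.1.2, hq.2.2⟩

theorem WX_le {X : ℝ} (hX : 1 ≤ X) (S : Finset ℕ) : (WX X S : ℝ) ≤ X ^ 2 := by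
  have hlog : 0 ≤ Real.log X := Real.log_nonneg hX
  have h1 : WX X S ≤ primorial ⌊Real.log X⌋₊ := by
    unfold WX primorial
    apply Finset.prod_le_prod_of_subset_of_one_le'
    · intro p hp
      rw [mem_filter, mem_Icc] at hp
      rw [mem_filter, mem_range]
      exact ⟨by omega, hp.2.1⟩
    · intro p hp _
      exact (mem_filter.1 hp).2.one_lt.le
  have h2 := h1.trans (primorial_le_four_pow ⌊Real.log X⌋₊)
  calc (WX X S : ℝ) ≤ (4 : ℝ) ^ ⌊Real.log X⌋₊ := by exact_mod_cast h2
    _ ≤ (Real.exp 2) ^ ⌊Real.log X⌋₊ := by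
        apply pow_le_pow_left₀ (by norm_num)
        have : (2 : ℝ) ≤ Real.exp 1 := by
          have := Real.add_one_le_exp (1 : ℝ)
          linarith
        have h3 : Real.exp 2 = Real.exp 1 * Real.exp 1 := by rw [← Real.exp_add]; norm_num
        rw [h3]; nlinarith
    _ = Real.exp (⌊Real.log X⌋₊ * 2) := by rw [← Real.exp_nat_mul]
    _ ≤ Real.exp (Real.log X * 2) := by
        apply Real.exp_le_exp.2
        have := Nat.floor_le hlog
        linarith
    _ = X ^ 2 := by
        rw [mul_two, Real.exp_add, Real.exp_log (by linarith), sq]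

end Pool.Agent.L7h28.UM
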