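import Mathlib
import Pool.Agent.L7h28.UM.Fin1
import Pool.Agent.H378R2.M7p

set_option autoImplicit false

/-! Numerical lemmas for the final assembly. -/

open Finset Filter
open scoped ContDiff

namespace Pool.Agent.L7h28.UM

open Pool.Agent.H378R2

theorem evPow (n : ℕ) (s C : ℝ) (hs : 0 < s) : ∀ᶠ z : ℝ in atTop, C * (Real.log z) ^ n ≤ z ^ s := by
  have h := Real.tendsto_log_atTop.eventually (ev_pow_exp n s C hs)
  filter_upwards [h, eventually_gt_atTop 0] with z h1 h2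
  rw [Real.rpow_def_of_pos h2, mul_comm (Real.log z) s]
  exact h1

theorem evB (K0 K' : ℕ) (C c : ℝ) (hC : 0 ≤ C) (hc : 0 < c) : ∀ᶠ z : ℝ in atTop, ∀ x y : ℝ, z ≤ x → 0 < y →
    1 ≤ 3 * y → y ≤ z ^ (1 / 100 : ℝ) * x → x ≤ z ^ K' →
    C * (Real.exp (2 * LL z) * (2 * Real.sqrt (3 * y) * Real.log (3 * y))) ≤
      c * ((1 / Real.log z) ^ K0 * (x / z ^ (1 / 100 : ℝ))) := by
  have h1 := evPow (K0 + 1) (1 / 4) (C * 4 * (K' + 3) / c) (by norm_num)
  filter_upwards [h1, eventually_ge_atTop (4 : ℝ)] with z h2 h3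
  intro x y hzx hy hy1 hyx hxz
  have hz0 : 0 < z := by linarith
  have hx0 : 0 < x := by linarith
  have hlog1 : 1 ≤ Real.log z := by
    rw [Real.le_log_iff_exp_le hz0]
    linarith [exp_one_lt_three']
  have hlog3 : Real.log 3 ≤ 2 * Real.log z := by
    have : Real.log 3 ≤ Real.log z := Real.log_le_log (by norm_num) (by linarith)
    linarith
  have hy3 : 3 * y ≤ 3 * (z ^ (1 / 100 : ℝ) * x) := by linarith
  have hlogy : Real.log (3 * y) ≤ (K' + 3) * Real.log z := by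
    calc Real.log (3 * y) ≤ Real.log (3 * (z ^ (1 / 100 : ℝ) * x)) := Real.log_le_log (by linarith) hy3
      _ = Real.log 3 + ((1 / 100 : ℝ) * Real.log z + Real.log x) := by
          rw [Real.log_mul (by norm_num) (by positivity), Real.log_mul (by positivity) hx0.ne',
            Real.log_rpow hz0]
      _ ≤ 2 * Real.log z + ((1 / 100 : ℝ) * Real.log z + K' * Real.log z) := by
          have : Real.log x ≤ K' * Real.log z := by
            have := Real.log_le_log hx0 hxz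
            rwa [Real.log_pow] at this
          linarith
      _ ≤ _ := by nlinarith
  have hsq : Real.sqrt (3 * y) ≤ 2 * (z ^ (1 / 200 : ℝ) * Real.sqrt x) := by
    rw [Real.sqrt_le_left (by positivity)]
    have e1 : (2 * (z ^ (1 / 200 : ℝ) * Real.sqrt x)) ^ 2 = 4 * (z ^ (1 / 100 : ℝ) * x) := by
      have e2 : (z ^ (1 / 200 : ℝ)) ^ 2 = z ^ (1 / 100 : ℝ) := by
        rw [← Real.rpow_natCast, ← Real.rpow_mul hz0.le]; norm_num
      rw [mul_pow, mul_pow, e2, Real.sq_sqrt hx0.le]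
      norm_num
    rw [e1]
    have : 0 ≤ z ^ (1 / 100 : ℝ) * x := by positivity
    linarith
  have hlogy0 : 0 ≤ Real.log (3 * y) := Real.log_nonneg hy1
  have hsx : Real.sqrt x * Real.sqrt x = x := Real.mul_self_sqrt hx0.le
  have hsz : z ^ (1 / 2 : ℝ) ≤ Real.sqrt x := by
    rw [Real.sqrt_eq_rpow]
    exact Real.rpow_le_rpow hz0.le hzx (by norm_num)
  have hexp : Real.exp (2 * LL z) = z ^ (1 / 100 : ℝ) := exp_two_LL z hz0
  have key : C * 4 * (K' + 3) * (Real.log z) ^ (K0 + 1) * (z ^ (1 / 100 : ℝ) * z ^ (1 / 100 : ℝ) * z ^ (1 / 200 : ℝ)) ≤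
      c * Real.sqrt x := by
    have e1 : C * 4 * (K' + 3) * (Real.log z) ^ (K0 + 1) ≤ c * z ^ (1 / 4 : ℝ) := by
      have := mul_le_mul_of_nonneg_left h2 hc.le
      calc _ = c * (C * 4 * (K' + 3) / c * (Real.log z) ^ (K0 + 1)) := by field_simp
        _ ≤ _ := this
    calc _ ≤ c * z ^ (1 / 4 : ℝ) * (z ^ (1 / 100 : ℝ) * z ^ (1 / 100 : ℝ) * z ^ (1 / 200 : ℝ)) :=
          mul_le_mul_of_nonneg_right e1 (by positivity)
      _ = c * z ^ (1 / 4 + (1 / 100 + 1 / 100 + 1 / 200) : ℝ) := by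
          rw [mul_assoc, Real.rpow_add hz0, Real.rpow_add hz0, Real.rpow_add hz0]
      _ ≤ c * z ^ (1 / 2 : ℝ) := by
          apply mul_le_mul_of_nonneg_left _ hc.le
          exact Real.rpow_le_rpow_of_exponent_le (by linarith) (by norm_num)
      _ ≤ _ := mul_le_mul_of_nonneg_left hsz hc.le
  rw [hexp]
  have hzr : 0 < z ^ (1 / 100 : ℝ) := by positivity
  have hlz : 0 < Real.log z := by linarith
  calc C * (z ^ (1 / 100 : ℝ) * (2 * Real.sqrt (3 * y) * Real.log (3 * y))) ≤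
      C * (z ^ (1 / 100 : ℝ) * (2 * (2 * (z ^ (1 / 200 : ℝ) * Real.sqrt x)) * ((K' + 3) * Real.log z))) := by
        apply mul_le_mul_of_nonneg_left _ hC
        apply mul_le_mul_of_nonneg_left _ hzr.le
        apply mul_le_mul _ hlogy hlogy0 (by positivity)
        linarith
    _ = (C * 4 * (K' + 3) * (Real.log z) ^ (K0 + 1) * (z ^ (1 / 100 : ℝ) * z ^ (1 / 100 : ℝ) * z ^ (1 / 200 : ℝ))) *
        ((1 / Real.log z) ^ K0 * (Real.sqrt x / z ^ (1 / 100 : ℝ))) := by
        rw [one_div_pow, pow_succ]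
        field_simp
        ring
    _ ≤ (c * Real.sqrt x) * ((1 / Real.log z) ^ K0 * (Real.sqrt x / z ^ (1 / 100 : ℝ))) :=
        mul_le_mul_of_nonneg_right key (by positivity)
    _ = c * ((1 / Real.log z) ^ K0 * ((Real.sqrt x * Real.sqrt x) / z ^ (1 / 100 : ℝ))) := by ring
    _ = _ := by rw [hsx]

theorem evC (K0 : ℕ) (C c : ℝ) (hc : 0 < c) : ∀ᶠ z : ℝ in atTop, ∀ x : ℝ, z ≤ x →
    C * (Real.log z * Real.exp (2 * LL z)) ≤ c * ((1 / Real.log z) ^ K0 * (x / z ^ (1 / 100 : ℝ))) := by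
  have h1 := evPow (K0 + 1) (1 / 2) (C / c) (by norm_num)
  filter_upwards [h1, eventually_ge_atTop (4 : ℝ)] with z h2 h3
  intro x hzx
  have hz0 : 0 < z := by linarith
  have hlog1 : 1 ≤ Real.log z := by
    rw [Real.le_log_iff_exp_le hz0]
    linarith [exp_one_lt_three']
  have hexp : Real.exp (2 * LL z) = z ^ (1 / 100 : ℝ) := exp_two_LL z hz0
  rw [hexp]
  have hzr : 0 < z ^ (1 / 100 : ℝ) := by positivity
  have key : C * (Real.log z) ^ (K0 + 1) * (z ^ (1 / 100 : ℝ) * z ^ (1 / 100 : ℝ)) ≤ c * x := by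
    have e1 : C * (Real.log z) ^ (K0 + 1) ≤ c * z ^ (1 / 2 : ℝ) := by
      have := mul_le_mul_of_nonneg_left h2 hc.le
      calc _ = c * (C / c * (Real.log z) ^ (K0 + 1)) := by field_simp
        _ ≤ _ := this
    calc _ ≤ c * z ^ (1 / 2 : ℝ) * (z ^ (1 / 100 : ℝ) * z ^ (1 / 100 : ℝ)) :=
          mul_le_mul_of_nonneg_right e1 (by positivity)
      _ = c * z ^ (1 / 2 + (1 / 100 + 1 / 100) : ℝ) := by
          rw [mul_assoc, Real.rpow_add hz0, Real.rpow_add hz0]
      _ ≤ c * z ^ (1 : ℝ) := by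
          apply mul_le_mul_of_nonneg_left _ hc.le
          exact Real.rpow_le_rpow_of_exponent_le (by linarith) (by norm_num)
      _ ≤ _ := by rw [Real.rpow_one]; exact mul_le_mul_of_nonneg_left hzx hc.le
  have hlz : 0 < Real.log z := by linarith
  calc C * (Real.log z * z ^ (1 / 100 : ℝ)) =
      (C * (Real.log z) ^ (K0 + 1) * (z ^ (1 / 100 : ℝ) * z ^ (1 / 100 : ℝ))) * ((1 / Real.log z) ^ K0 * (1 / z ^ (1 / 100 : ℝ))) := by
        rw [one_div_pow, pow_succ]
        field_simp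
    _ ≤ (c * x) * ((1 / Real.log z) ^ K0 * (1 / z ^ (1 / 100 : ℝ))) :=
        mul_le_mul_of_nonneg_right key (by positivity)
    _ = _ := by ring

/-- the final comparison -/
theorem fin_real (PK x W φW BEE L lz II c1 M0 cE r K2 S1v S2v e1 e2 : ℝ)
    (hPK : 0 < PK) (hx : 0 < x) (hW : 0 < W) (hφW : 0 < φW) (hBE : 0 < BEE) (hlz : 0 < lz) (hII : 0 < II)
    (hcE : 0 < cE) (hr : 0 ≤ r) (hK2 : 0 ≤ K2) (hL : L = lz / 200)
    (hBEc : cE * (φW / W) ≤ BEE)
    (H1 : S1v ≤ (3 * x / W) * (PK * (1 / (L * BEE))) * (2 * II) + e1)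
    (H2 : PK * (x / φW) * (c1 * M0 * II / 4) - e2 ≤ S2v)
    (H3 : S2v ≤ r * K2 * lz * S1v)
    (he2 : e2 ≤ PK * (x / φW) * (c1 * M0 * II / 8))
    (he1 : r * K2 * lz * e1 ≤ PK * (x / φW) * (c1 * M0 * II / 16))
    (hM0 : 1200 * r * K2 / cE < c1 * M0 / 16) : False := by
  have h1 : S2v ≤ r * K2 * lz * ((3 * x / W) * (PK * (1 / (L * BEE))) * (2 * II)) + r * K2 * lz * e1 := by
    have := mul_le_mul_of_nonneg_left H1 (by positivity : 0 ≤ r * K2 * lz)
    linarith
  have h2 : r * K2 * lz * ((3 * x / W) * (PK * (1 / (L * BEE))) * (2 * II)) = PK * x * II * (1200 * r * K2) * (1 / (W * BEE)) := by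
    rw [hL]
    field_simp
    ring
  have h3 : 1 / (W * BEE) ≤ 1 / (cE * φW) := by
    apply one_div_le_one_div_of_le (by positivity)
    have := mul_le_mul_of_nonneg_left hBEc hW.le
    calc cE * φW = W * (cE * (φW / W)) := by field_simp
      _ ≤ _ := this
  have h4 : PK * x * II * (1200 * r * K2) * (1 / (W * BEE)) ≤ PK * x * II * (1200 * r * K2) * (1 / (cE * φW)) :=
    mul_le_mul_of_nonneg_left h3 (by positivity)
  have h5 : PK * x * II * (1200 * r * K2) * (1 / (cE * φW)) = PK * (x / φW) * II * (1200 * r * K2 / cE) := by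
    field_simp
  have h6 : PK * (x / φW) * (c1 * M0 * II / 4) - PK * (x / φW) * (c1 * M0 * II / 8) - PK * (x / φW) * (c1 * M0 * II / 16) =
      PK * (x / φW) * II * (c1 * M0 / 16) := by ring
  have h7 : PK * (x / φW) * II * (c1 * M0 / 16) ≤ PK * (x / φW) * II * (1200 * r * K2 / cE) := by
    linarith
  have h8 : 0 < PK * (x / φW) * II := by positivity
  have h9 := le_of_mul_le_mul_left h7 h8
  linarith

end Pool.Agent.L7h28.UM
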