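import Mathlib
import Pool.Agent.L7h28.UM.Stm

set_option autoImplicit false

/-! Statements for the second theorem: many primes, and all values almost prime. -/

open Finset Filter
open scoped ContDiff

namespace Pool.Agent.L7h28.UM

open Pool.Agent.H378R2

open Classical in
/-- the sieve sum for the values with `p ∣ L i`: the `i`-th modulus is `lcm (d i) (e i) p` -/
noncomputable def cSumP {J : ℕ} (F G : Fin J → ℝ → ℝ) (L : ℝ) (E : Finset ℕ) (w : ℕ → ℝ) (R : ℕ)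
    (i : Fin J) (p : ℕ) : ℝ :=
  ∑ d ∈ Fintype.piFinset (fun _ : Fin J => adm E R), ∑ e ∈ Fintype.piFinset (fun _ : Fin J => adm E R),
    if PC d e ∧ ∀ j, j ≠ i → ¬ p ∣ Nat.lcm (d j) (e j) then
      wt F G L d e * ((∏ j, ∏ q ∈ (Nat.lcm (d j) (e j)).primeFactors, w q) *
        (if p ∣ Nat.lcm (d i) (e i) then 1 else w p))
    else 0

/-- (CP) -/
def S_CP : Prop := ∀ (J : ℕ) (F G : Fin J → ℝ → ℝ)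
    (_ : ∀ j, ContDiff ℝ ∞ (F j)) (_ : ∀ j, ContDiff ℝ ∞ (G j))
    (_ : ∀ j, HasCompactSupport (F j)) (_ : ∀ j, HasCompactSupport (G j)),
    ∃ C δ : ℝ, 0 < C ∧ 0 < δ ∧ ∀ (L : ℝ) (E : Finset ℕ) (w : ℕ → ℝ) (R : ℕ) (i : Fin J) (p : ℕ),
      1 / δ ≤ L →
      (∀ j x, Real.log R / L < x → F j x = 0 ∧ G j x = 0) →
      (∀ q ∈ E, q.Prime) → (∀ q : ℕ, q.Prime → (q : ℝ) ≤ 1 / δ → q ∈ E) → p.Prime → p ∉ E →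
      (∑ q ∈ insert p E, Real.log q / q ≤ L ^ (1 / 4 : ℝ)) →
      (∑ q ∈ insert p E, (1 : ℝ) / q ≤ Real.log L / 32) →
      (∀ q : ℕ, q.Prime → q ∉ E → |w q - 1 / q| ≤ 2 / (q : ℝ) ^ 2) →
      (L * BE E) ^ J * |cSumP F G L E w R i p| ≤ C * ((1 / (p : ℝ)) * (Real.log p / L) ^ 2)

/-- (S1P) the values with `p ∣ L i`, `p ∉ E` -/
def S_S1P : Prop := ∀ (K B : ℕ) (f : Fin B → ℝ → ℝ) (c : Fin B → ℝ) (A : Finset (Fin K → Fin B)),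
    FamOK f c A → ∀ b : ℕ, 4 ≤ b → ∃ C : ℝ, 0 < C ∧ ∀ᶠ z : ℝ in atTop,
    ∀ (E : Finset ℕ) (W a0 N : ℕ) (α β : Fin K → ℕ) (i : Fin K) (p : ℕ), EOK b z E → 0 < W →
    (∀ q : ℕ, q.Prime → q ∣ W → q ∈ E) → SysOK E α β → p.Prime → p ∉ E →
    ∑ n ∈ (Icc 1 N).filter (fun n => n ≡ a0 [MOD W] ∧ p ∣ α i * n + β i),
        sqw E z f A (fun j => (α j : ℤ) * (n : ℤ) + (β j : ℤ)) ^ 2 ≤
      C * (((N : ℝ) / W) * (1 / (LL z * BE E)) ^ K * ((1 / (p : ℝ)) * (Real.log p / LL z) ^ 2)) +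
        (A.card : ℝ) ^ 2 * (2 * Real.exp (2 * LL z))

/-- (E3) the primes of `E` which do not divide the big modulus -/
def S_E3 : Prop := ∀ b : ℕ, 4 ≤ b → ∃ C : ℝ, 0 < C ∧ ∀ᶠ X : ℝ in atTop, ∀ S E : Finset ℕ,
    (∀ p ∈ S, p.Prime) → ∑ p ∈ S, (1 : ℝ) / p ≤ 1 → EOK b (X ^ 400) E →
    ∑ p ∈ E.filter (fun p => ¬ p ∣ WX X S), (1 : ℝ) / p ≤ C

/-- (FAM) -/
def S_FAM : Prop := ∀ M0 : ℝ, ∃ K1 : ℕ, 1 ≤ K1 ∧ ∀ (K0 : ℕ) (ι : Fin K1 ↪ Fin (K0 + 1)),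
    ∃ (B : ℕ) (f : Fin B → ℝ → ℝ) (c : Fin B → ℝ) (A : Finset (Fin (K0 + 1) → Fin B)),
      FamOK f c A ∧ 0 < II f A ∧ M0 * II f A ≤ ∑ j, JJ f A (ι j)

/-- (FAM1) -/
def S_FAM1 : Prop := ∀ (K0 : ℕ) (i : Fin (K0 + 1)),
    ∃ (B : ℕ) (f : Fin B → ℝ → ℝ) (c : Fin B → ℝ) (A : Finset (Fin (K0 + 1) → Fin B)),
      FamOK f c A ∧ 0 < II f A ∧ 0 < JJ f A i

/-- (PGJ) the pigeonhole step for the exceptional modulus, for a system of any size -/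
def S_PGJ : Prop := ∀ K1 : ℕ, 1 ≤ K1 → ∃ K : ℕ, ∀ (k : ℕ) (q₁ : ℕ) (α : Fin k → ℕ), 2 ≤ q₁ →
    K ≤ ((univ : Finset (Fin k)).filter (fun j => 1 ≤ α j ∧ ¬ q₁ ∣ α j)).card →
    ∃ (ι : Fin K1 ↪ Fin k) (S : Finset ℕ), (∀ p ∈ S, p.Prime) ∧ ∑ p ∈ S, (1 : ℝ) / p ≤ 1 ∧
      ∀ (j : Fin K1) (W : ℕ), (∀ p ∈ S, ¬ p ∣ W) → ¬ q₁ ∣ α (ι j) * W

end Pool.Agent.L7h28.UM
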