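import Mathlib
import Pool.Agent.L7h28.UM.Fin2
import Pool.Agent.L7h28.UM.Stm2

set_option autoImplicit false

/-! The lower bound for the weighted number of primes, at a good scale. -/

open Finset Filter
open scoped ContDiff

namespace Pool.Agent.L7h28.UM

open Pool.Agent.H378R2

/-- the property of the exceptional modulus -/
def ScaleOK (z : ℝ) (K' : ℕ) (c1 : ℝ) (q₁ : ℕ) : Prop :=
    ∀ (k : ℕ) (w : Fin k → ℝ) (α Q b : Fin k → ℕ), (∀ i, 0 ≤ w i) →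
    (∀ i, 1 ≤ α i ∧ (α i : ℝ) ≤ z ^ (1 / 100 : ℝ)) →
    (∀ i, 1 ≤ Q i ∧ (Q i : ℝ) ≤ z ^ (1 / 100 : ℝ) ∧ ¬ q₁ ∣ Q i) → (∀ i, (b i).Coprime (Q i)) →
    ∃ x : ℝ, z ≤ x ∧ x ≤ z ^ K' ∧
      c1 * ∑ i, w i ≤ ∑ i, w i * (CS (α i * x) (Q i) (b i) * ((Q i).totient : ℝ) / (α i * x))

/-- the square of the sieve weight at `n` -/
noncomputable def sqn {K B : ℕ} (E : Finset ℕ) (z : ℝ) (f : Fin B → ℝ → ℝ) (A : Finset (Fin K → Fin B))
    (α β : Fin K → ℕ) (n : ℕ) : ℝ := sqw E z f A (fun j => (α j : ℤ) * (n : ℤ) + (β j : ℤ)) ^ 2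

theorem sqn_nonneg {K B : ℕ} (E : Finset ℕ) (z : ℝ) (f : Fin B → ℝ → ℝ) (A : Finset (Fin K → Fin B))
    (α β : Fin K → ℕ) (n : ℕ) : 0 ≤ sqn E z f A α β n := sq_nonneg _

/-- the range of summation -/
noncomputable def NS (x : ℝ) (a0 W : ℕ) : Finset ℕ := (Icc 1 ⌊3 * x⌋₊).filter (fun n => n ≡ a0 [MOD W])

theorem mem_NS {x : ℝ} {a0 W n : ℕ} : n ∈ NS x a0 W ↔ (1 ≤ n ∧ n ≤ ⌊3 * x⌋₊) ∧ n ≡ a0 [MOD W] := by
  unfold NS
  rw [mem_filter, mem_Icc]

/-- the weighted number of primes of the form `i` -/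
noncomputable def TP {K B : ℕ} (E : Finset ℕ) (z : ℝ) (f : Fin B → ℝ → ℝ) (A : Finset (Fin K → Fin B))
    (α β : Fin K → ℕ) (x : ℝ) (a0 W : ℕ) (i : Fin K) : ℝ :=
  ∑ n ∈ NS x a0 W, Phi (((α i * n + β i : ℕ) : ℝ) / (α i * x)) * (th (α i * n + β i) * sqn E z f A α β n)

/-- one form -/
theorem one_form (PK z x φW lz e3 : ℝ) (card : ℕ) (BEE : ℝ) (K0 α W : ℕ) (X : ℝ) (hX : 1 ≤ X)
    (hPK : PK = (1 / (LL z * BEE)) ^ K0) (hPK0 : 0 < PK) (hlz : lz = Real.log z) (hlz0 : 0 < lz)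
    (hlX : 2 * Real.log X + 1 ≤ lz)
    (hφW : φW = (W.totient : ℝ)) (hφW0 : 0 < φW) (hx0 : 0 < x) (hα : 1 ≤ α) (hαX : (α : ℝ) ≤ X)
    (he3 : (card : ℝ) ^ 2 * (Real.exp (2 * LL z) * (2 * Real.sqrt (3 * (α * x)) * Real.log (3 * (α * x)))) ≤ e3) :
    ErS (α * x) z BEE K0 (α * W) card ≤ PK * (x / φW) / lz + e3 := by
  unfold ErS
  rw [← hPK, ← hlz]
  have hφα : (0 : ℝ) < α.totient := by exact_mod_cast Nat.totient_pos.2 hα
  have hα0 : (0 : ℝ) < α := by exact_mod_cast hα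
  have h1 : (α.totient : ℝ) * φW ≤ ((α * W).totient : ℝ) := by
    rw [hφW]; exact_mod_cast Nat.totient_super_multiplicative α W
  have h2 : (α : ℝ) / α.totient ≤ lz := by
    refine (div_totient_le α hα).trans ?_
    have h3 := card_le_log (h := α) (by omega) (V := Real.log X)
      (by rw [Real.exp_log (by linarith)]; exact hαX)
    linarith
  have h4 : (α : ℝ) * x / (((α * W).totient : ℝ) * lz ^ 2) ≤ (x / φW) / lz := by
    calc (α : ℝ) * x / (((α * W).totient : ℝ) * lz ^ 2) ≤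
        (α : ℝ) * x / (((α.totient : ℝ) * φW) * lz ^ 2) := by
          apply div_le_div_of_nonneg_left (by positivity) (by positivity)
          exact mul_le_mul_of_nonneg_right h1 (by positivity)
      _ = ((α : ℝ) / α.totient) * ((x / φW) / lz ^ 2) := by
          field_simp
      _ ≤ lz * ((x / φW) / lz ^ 2) := mul_le_mul_of_nonneg_right h2 (by positivity)
      _ = _ := by field_simp
  have h5'' := mul_le_mul_of_nonneg_left h4 hPK0.le
  have h6 : PK * (x / φW) / lz = PK * (x / φW / lz) := mul_div_assoc _ _ _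
  rw [h6]
  exact add_le_add h5'' he3

/-- the form with its weight -/
theorem one_lower (PK J ε1 w CSv Er T : ℝ) (hPK0 : 0 < PK) (hCS : 0 ≤ CSv)
    (hw : w = if 2 * ε1 ≤ J then J else 0) (hEr : 0 ≤ Er) (hT : 0 ≤ T)
    (h : CSv * (PK * (J - ε1)) - Er ≤ T) : PK * (CSv * w) / 2 - Er ≤ T := by
  by_cases hJ : 2 * ε1 ≤ J
  · rw [if_pos hJ] at hw
    subst hw
    have h2 : PK * (CSv * w) / 2 ≤ CSv * (PK * (w - ε1)) := by
      have h3 : 0 ≤ PK * CSv := mul_nonneg hPK0.le hCS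
      have h4 : 0 ≤ PK * CSv * (w - 2 * ε1) := mul_nonneg h3 (by linarith)
      have h5 : CSv * (PK * (w - ε1)) - PK * (CSv * w) / 2 = PK * CSv * (w - 2 * ε1) / 2 := by ring
      linarith
    linarith
  · rw [if_neg hJ] at hw
    subst hw
    rw [mul_zero, mul_zero, zero_div]
    linarith

theorem cs_lower (CSv φQ α φW x : ℝ) (hCS : 0 ≤ CSv) (hα : 0 < α) (hφW : 0 < φW) (hx : 0 < x)
    (h2 : φQ ≤ α * φW) : (x / φW) * (CSv * φQ / (α * x)) ≤ CSv := by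
  calc (x / φW) * (CSv * φQ / (α * x)) ≤ (x / φW) * (CSv * (α * φW) / (α * x)) := by
        apply mul_le_mul_of_nonneg_left _ (by positivity)
        apply div_le_div_of_nonneg_right _ (by positivity)
        exact mul_le_mul_of_nonneg_left h2 hCS
    _ = _ := by field_simp

/-- facts on the numbers which occur -/
theorem basics : ∀ᶠ X : ℕ in atTop, (4 : ℝ) ≤ X ∧ 1 ≤ Real.log X ∧
    Real.log ((X : ℝ) ^ 400) = 400 * Real.log X ∧ ((X : ℝ) ^ 400) ^ (1 / 100 : ℝ) = (X : ℝ) ^ 4 ∧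
    (X : ℝ) ≤ ((X : ℝ) ^ 400) ^ (1 / 100 : ℝ) ∧ (4 : ℝ) ≤ (X : ℝ) ^ 400 := by
  filter_upwards [eventually_ge_atTop 4] with X hX4
  have hX1 : (4 : ℝ) ≤ X := by exact_mod_cast hX4
  have hX0 : (0 : ℝ) < X := by linarith
  have hzr : ((X : ℝ) ^ 400) ^ (1 / 100 : ℝ) = (X : ℝ) ^ 4 := by
    rw [← Real.rpow_natCast, ← Real.rpow_mul hX0.le, ← Real.rpow_natCast]
    norm_num
  refine ⟨hX1, ?_, ?_, hzr, ?_, ?_⟩
  · rw [Real.le_log_iff_exp_le hX0]
    linarith [exp_one_lt_three']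
  · rw [Real.log_pow]; norm_num
  · rw [hzr]
    exact le_self_pow₀ (by linarith) (by norm_num)
  · exact hX1.trans (le_self_pow₀ (by linarith) (by norm_num))

/-- the lower bound -/
theorem lower (h5 : SieveAsymp) (hCB : S_CB) (hE1 : S_E1) {K0 B : ℕ} (f : Fin B → ℝ → ℝ) (c : Fin B → ℝ)
    (A : Finset (Fin (K0 + 1) → Fin B)) (hfam : FamOK f c A) (hII : 0 < II f A) {K1 : ℕ}
    (ι : Fin K1 ↪ Fin (K0 + 1)) (M0 : ℝ) (hM0 : 0 < M0) (hJJ : M0 * II f A ≤ ∑ j, JJ f A (ι j))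
    (K' : ℕ) (c1 : ℝ) (hc1 : 0 < c1) :
    ∀ᶠ X : ℕ in atTop, ∀ (q₁ : ℕ), ScaleOK ((X : ℝ) ^ 400) K' c1 q₁ →
      ∀ (α β : Fin (K0 + 1) → ℕ) (S E : Finset ℕ) (a0 : ℕ),
      (∀ j, 1 ≤ α j ∧ (α j : ℝ) ≤ X ∧ (β j : ℝ) ≤ X) → EOK 25 ((X : ℝ) ^ 400) E → SysOK E α β →
      (∀ p : ℕ, p.Prime → p ∣ WX X S → p ∈ E) →
      (∀ j, ¬ q₁ ∣ α (ι j) * WX X S) → (∀ j, (α j * a0 + β j).Coprime (α j * WX X S)) →
      ∃ x : ℝ, (X : ℝ) ^ 400 ≤ x ∧ x ≤ ((X : ℝ) ^ 400) ^ K' ∧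
        (1 / (LL ((X : ℝ) ^ 400) * BE E)) ^ K0 * (x / ((WX X S).totient : ℝ)) * (c1 * M0 * II f A / 8) ≤
          ∑ j, TP E ((X : ℝ) ^ 400) f A α β x a0 (WX X S) (ι j) := by
  classical
  set I0 := II f A with hI0
  set ε1 : ℝ := M0 * I0 / (4 * ((K1 : ℝ) + 1)) with hε1
  have hε1pos : 0 < ε1 := by positivity
  set cst : ℝ := c1 * M0 * I0 with hcst
  have hcst0 : 0 < cst := by positivity
  have ev1 := S2_bound h5 hCB hE1 f c A hfam ε1 hε1pos (K' + 1)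
  have ev3 := evB K0 K' (((K1 : ℝ) + 1) * (A.card : ℝ) ^ 2) (cst / 16) (by positivity) (by positivity)
  have ev5 := Real.tendsto_log_atTop.eventually_ge_atTop (16 * ((K1 : ℝ) + 1) / cst)
  have ht : Tendsto (fun X : ℕ => ((X : ℝ)) ^ 400) atTop atTop :=
    (tendsto_pow_atTop (by norm_num)).comp tendsto_natCast_atTop_atTop
  filter_upwards [ht.eventually ev1, ht.eventually ev3, ht.eventually ev5, basics] with X w2 w4 w6 hbas
  intro q₁ hscale α β S E a0 hαβ hE hSys hWE hq₁ ha0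
  obtain ⟨hX1, hlogX1, hlogz, hzr, hXz, hz4⟩ := hbas
  have hX0 : (0 : ℝ) < X := by linarith
  have hXz1 : (X : ℝ) ≤ (X : ℝ) ^ 400 := le_self_pow₀ (by linarith) (by norm_num)
  set z : ℝ := (X : ℝ) ^ 400 with hz
  clear_value z
  have hz0 : 0 < z := by linarith
  have hlz0 : 0 < Real.log z := by rw [hlogz]; linarith
  obtain ⟨W, hW⟩ : ∃ W : ℕ, W = WX X S := ⟨_, rfl⟩
  have hWpos : 0 < W := hW ▸ WX_pos _ _
  have hWX2 : (W : ℝ) ≤ (X : ℝ) ^ 2 := hW ▸ WX_le (by linarith) S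
  rw [← hW] at hWE hq₁ ha0 ⊢
  have hW0 : (0 : ℝ) < W := by exact_mod_cast hWpos
  have hQ : ∀ i, ((α i * W : ℕ) : ℝ) ≤ z ^ (1 / 100 : ℝ) := by
    intro i
    rw [hzr]
    push_cast
    calc (α i : ℝ) * W ≤ X * (X : ℝ) ^ 2 := mul_le_mul (hαβ i).2.1 hWX2 hW0.le hX0.le
      _ = (X : ℝ) ^ 3 := by ring
      _ ≤ (X : ℝ) ^ 4 := pow_le_pow_right₀ (by linarith) (by norm_num)
  set w : Fin K1 → ℝ := fun i => if 2 * ε1 ≤ JJ f A (ι i) then JJ f A (ι i) else 0 with hw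
  have hw0 : ∀ i, 0 ≤ w i := by
    intro i
    simp only [hw]
    split_ifs with h
    · linarith
    · exact le_rfl
  obtain ⟨x, hzx, hxz, hxs⟩ := hscale K1 w (fun j => α (ι j)) (fun j => α (ι j) * W)
    (fun j => α (ι j) * a0 + β (ι j)) hw0
    (fun i => ⟨(hαβ _).1, (hαβ _).2.1.trans hXz⟩)
    (fun i => ⟨Nat.mul_pos (hαβ _).1 hWpos, hQ _, hq₁ i⟩) (fun j => ha0 (ι j))
  refine ⟨x, hzx, hxz, ?_⟩
  have hx0 : 0 < x := by linarith
  obtain ⟨φW, hφW⟩ : ∃ φW : ℝ, φW = (W.totient : ℝ) := ⟨_, rfl⟩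
  have hφW0 : 0 < φW := by rw [hφW]; exact_mod_cast Nat.totient_pos.2 hWpos
  have hφWle : φW ≤ z ^ (1 / 100 : ℝ) := by
    have h1 : φW ≤ W := by rw [hφW]; exact_mod_cast Nat.totient_le W
    have h2 : (W : ℝ) ≤ (X : ℝ) ^ 4 := hWX2.trans (pow_le_pow_right₀ (by linarith) (by norm_num))
    rw [hzr]
    exact h1.trans h2
  rw [← hφW]
  have hBE : 0 < BE E := BE_pos hE.1
  have hBE1 : BE E ≤ 1 := BE_le_one hE.1
  have hL0 : 0 < LL z := LL_pos_of (by linarith)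
  obtain ⟨PK, hPK⟩ : ∃ PK : ℝ, PK = (1 / (LL z * BE E)) ^ K0 := ⟨_, rfl⟩
  rw [← hPK]
  have hPK0 : 0 < PK := by rw [hPK]; positivity
  have hPKlow : (1 / Real.log z) ^ K0 ≤ PK := by
    rw [hPK]
    apply pow_le_pow_left₀ (by positivity)
    apply one_div_le_one_div_of_le (by positivity)
    have h1 : LL z ≤ Real.log z := by unfold LL; linarith
    calc LL z * BE E ≤ LL z * 1 := mul_le_mul_of_nonneg_left hBE1 hL0.le
      _ ≤ _ := by linarith
  have hlow : (1 / Real.log z) ^ K0 * (x / z ^ (1 / 100 : ℝ)) ≤ PK * (x / φW) := by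
    apply mul_le_mul hPKlow _ (by positivity) hPK0.le
    exact div_le_div_of_nonneg_left hx0.le hφW0 hφWle
  have hPx : 0 < PK * (x / φW) := by positivity
  -- the errors
  have hErr : ∀ j, ErS (α (ι j) * x) z (BE E) K0 (α (ι j) * W) A.card ≤
      PK * (x / φW) / Real.log z + PK * (x / φW) * (cst / 16) / ((K1 : ℝ) + 1) := by
    intro j
    have hαi : (1 : ℝ) ≤ α (ι j) := by exact_mod_cast (hαβ (ι j)).1
    have hy : x ≤ (α (ι j) : ℝ) * x := le_mul_of_one_le_left hx0.le hαi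
    refine one_form PK z x φW (Real.log z) _ A.card (BE E) K0 (α (ι j)) W X (by linarith) hPK hPK0 rfl hlz0
      (by rw [hlogz]; linarith) hφW hφW0 hx0 (hαβ _).1 (hαβ _).2.1 ?_
    have h2 := w4 x (α (ι j) * x) hzx (by linarith) (by linarith) (by
      exact mul_le_mul_of_nonneg_right ((hαβ _).2.1.trans hXz) hx0.le) hxz
    rw [le_div_iff₀ (by positivity)]
    calc _ = ((K1 : ℝ) + 1) * (A.card : ℝ) ^ 2 * (Real.exp (2 * LL z) *
          (2 * Real.sqrt (3 * (α (ι j) * x)) * Real.log (3 * (α (ι j) * x)))) := by ring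
      _ ≤ _ := h2
      _ ≤ cst / 16 * (PK * (x / φW)) := mul_le_mul_of_nonneg_left hlow (by positivity)
      _ = _ := by ring
  have hlower : ∀ j, PK * (CS (α (ι j) * x) (α (ι j) * W) (α (ι j) * a0 + β (ι j)) * w j) / 2 -
      ErS (α (ι j) * x) z (BE E) K0 (α (ι j) * W) A.card ≤ TP E z f A α β x a0 W (ι j) := by
    intro j
    have hαi : (1 : ℝ) ≤ α (ι j) := by exact_mod_cast (hαβ (ι j)).1
    have hy : x ≤ (α (ι j) : ℝ) * x := le_mul_of_one_le_left hx0.le hαi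
    have hCS0 := CS_nonneg (α (ι j) * x) (α (ι j) * W) (α (ι j) * a0 + β (ι j))
    have h1 := w2 E W a0 α β (ι j) x hE hWpos hWE hSys hzx (by
        rw [pow_succ']
        exact mul_le_mul ((hαβ _).2.1.trans hXz1) hxz hx0.le hz0.le) (hαβ _).1 (hQ _)
        ((hαβ _).2.2.trans hXz) (ha0 _)
    rw [← hPK] at h1
    refine one_lower PK (JJ f A (ι j)) ε1 (w j) _ _ _ hPK0 hCS0 rfl ?_ ?_ h1
    · unfold ErS
      have hl : 0 ≤ Real.log (3 * (α (ι j) * x)) := Real.log_nonneg (by linarith)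
      positivity
    · unfold TP
      exact sum_nonneg fun n _ => mul_nonneg (Phi_nonneg _) (mul_nonneg (th_nonneg _) (sqn_nonneg _ _ _ _ _ _ _))
  have hwsum : M0 / 2 * I0 ≤ ∑ i, w i := by
    have h1 : ∀ i, JJ f A (ι i) - 2 * ε1 ≤ w i := by
      intro i
      simp only [hw]
      split_ifs with h
      · linarith
      · linarith
    have h2 := sum_le_sum fun i (_ : i ∈ (univ : Finset (Fin K1))) => h1 i
    rw [sum_sub_distrib, sum_const, card_univ, Fintype.card_fin, nsmul_eq_mul] at h2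
    have h3 : (K1 : ℝ) * (2 * ε1) ≤ M0 * I0 / 2 := by
      rw [hε1]
      have : (K1 : ℝ) * (2 * (M0 * I0 / (4 * ((K1 : ℝ) + 1)))) = (M0 * I0 / 2) * (K1 / ((K1 : ℝ) + 1)) := by
        field_simp
        norm_num
      rw [this]
      apply mul_le_of_le_one_right (by positivity)
      rw [div_le_one (by positivity)]
      linarith
    linarith
  have hcsum : (x / φW) * (c1 * (M0 / 2 * I0)) ≤
      ∑ j, CS (α (ι j) * x) (α (ι j) * W) (α (ι j) * a0 + β (ι j)) * w j := by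
    have h1 : (x / φW) * (c1 * (M0 / 2 * I0)) ≤ (x / φW) * (c1 * ∑ i, w i) := by
      apply mul_le_mul_of_nonneg_left _ (by positivity)
      exact mul_le_mul_of_nonneg_left hwsum hc1.le
    refine h1.trans ((mul_le_mul_of_nonneg_left hxs (by positivity)).trans ?_)
    rw [mul_sum]
    apply sum_le_sum
    intro j _
    have hαi : (1 : ℝ) ≤ α (ι j) := by exact_mod_cast (hαβ (ι j)).1
    have hCS0 := CS_nonneg (α (ι j) * x) (α (ι j) * W) (α (ι j) * a0 + β (ι j))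
    have h2 : ((α (ι j) * W).totient : ℝ) ≤ α (ι j) * φW := by
      rw [hφW]
      exact totient_mul_le' (α (ι j)) W (by have := (hαβ (ι j)).1; omega) hWpos.ne'
    have h3 := cs_lower _ _ _ φW x hCS0 (by linarith : (0 : ℝ) < α (ι j)) hφW0 hx0 h2
    calc _ = w j * ((x / φW) * (CS (α (ι j) * x) (α (ι j) * W) (α (ι j) * a0 + β (ι j)) *
          ((α (ι j) * W).totient : ℝ) / (α (ι j) * x))) := by ring
      _ ≤ w j * CS (α (ι j) * x) (α (ι j) * W) (α (ι j) * a0 + β (ι j)) := mul_le_mul_of_nonneg_left h3 (hw0 j)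
      _ = _ := mul_comm _ _
  have h1 := sum_le_sum fun i (_ : i ∈ (univ : Finset (Fin K1))) => hlower i
  rw [sum_sub_distrib, ← sum_div, ← mul_sum] at h1
  have h2 := mul_le_mul_of_nonneg_left hcsum hPK0.le
  have h3 := sum_le_sum fun i (_ : i ∈ (univ : Finset (Fin K1))) => hErr i
  rw [sum_const, card_univ, Fintype.card_fin, nsmul_eq_mul] at h3
  have h4 : (K1 : ℝ) * (PK * (x / φW) / Real.log z + PK * (x / φW) * (cst / 16) / ((K1 : ℝ) + 1)) ≤
      PK * (x / φW) * (cst / 8) := by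
    have e1 : (K1 : ℝ) * (PK * (x / φW) / Real.log z + PK * (x / φW) * (cst / 16) / ((K1 : ℝ) + 1)) =
        PK * (x / φW) * (K1 / Real.log z) + PK * (x / φW) * (cst / 16) * (K1 / ((K1 : ℝ) + 1)) := by ring
    rw [e1]
    have e2 : (K1 : ℝ) / Real.log z ≤ cst / 16 := by
      rw [div_le_div_iff₀ hlz0 (by norm_num)]
      have := w6
      rw [div_le_iff₀ hcst0] at this
      linarith
    have e3 : (K1 : ℝ) / ((K1 : ℝ) + 1) ≤ 1 := by
      rw [div_le_one (by positivity)]; linarith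
    have e4 := mul_le_mul_of_nonneg_left e2 hPx.le
    have e5 : PK * (x / φW) * (cst / 16) * (K1 / ((K1 : ℝ) + 1)) ≤ PK * (x / φW) * (cst / 16) :=
      mul_le_of_le_one_right (by positivity) e3
    linarith
  have h6 : PK * (x / φW) * (cst / 8) = PK * ((x / φW) * (c1 * (M0 / 2 * I0))) / 2 - PK * (x / φW) * (cst / 8) := by
    rw [hcst]; ring
  linarith

end Pool.Agent.L7h28.UM
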