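import Mathlib
import Pool.Agent.L7h28.UM.Core1
import Pool.Agent.Erdos456.Mertens

set_option autoImplicit false

/-! The sums over the bad integers. -/

open Finset Filter
open scoped ContDiff

namespace Pool.Agent.L7h28.UM

open Pool.Agent.H378R2

open Classical in
/-- number of the pairs (form, prime) with a prime of medium size which divides the value -/
noncomputable def bad1 {K : ℕ} (E : Finset ℕ) (Y : ℕ) (α β : Fin K → ℕ) (n : ℕ) : ℝ :=
  ∑ i, ∑ p ∈ (Icc 1 Y).filter (fun p => p.Prime ∧ p ∉ E), if p ∣ α i * n + β i then 1 else 0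

open Classical in
/-- number of the prime factors from `E'`, with multiplicity up to `κ` -/
noncomputable def bad2 {K : ℕ} (E' : Finset ℕ) (κ : ℕ) (α β : Fin K → ℕ) (n : ℕ) : ℝ :=
  ∑ i, ∑ p ∈ E', ∑ k ∈ Icc 1 κ, if p ^ k ∣ α i * n + β i then 1 else 0

theorem bad1_nonneg {K : ℕ} (E : Finset ℕ) (Y : ℕ) (α β : Fin K → ℕ) (n : ℕ) : 0 ≤ bad1 E Y α β n := by
  unfold bad1
  refine sum_nonneg fun i _ => sum_nonneg fun p _ => ?_
  split_ifs <;> norm_num

theorem bad2_nonneg {K : ℕ} (E' : Finset ℕ) (κ : ℕ) (α β : Fin K → ℕ) (n : ℕ) : 0 ≤ bad2 E' κ α β n := by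
  unfold bad2
  refine sum_nonneg fun i _ => sum_nonneg fun p _ => sum_nonneg fun k _ => ?_
  split_ifs <;> norm_num

/-- Mertens -/
theorem sum_log_sq : ∃ C0 : ℝ, 0 ≤ C0 ∧ ∀ (Y : ℕ) (P : Finset ℕ), 1 ≤ Y → P ⊆ (Icc 1 Y).filter Nat.Prime →
    ∑ p ∈ P, (1 / (p : ℝ)) * (Real.log p) ^ 2 ≤ Real.log Y * (Real.log Y + C0) := by
  obtain ⟨C, hC⟩ := Pool.Agent.Erdos456.Mert.mertens_log
  have hC0 : 0 ≤ C := (abs_nonneg _).trans (hC 1 le_rfl)
  refine ⟨C, hC0, fun Y P hY hP => ?_⟩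
  have h1 := (abs_le.1 (hC Y hY)).2
  have hlog : 0 ≤ Real.log Y := Real.log_natCast_nonneg Y
  calc ∑ p ∈ P, (1 / (p : ℝ)) * (Real.log p) ^ 2 ≤ ∑ p ∈ (Icc 1 Y).filter Nat.Prime, (1 / (p : ℝ)) * (Real.log p) ^ 2 :=
        sum_le_sum_of_subset_of_nonneg hP fun p _ _ => by positivity
    _ ≤ ∑ p ∈ (Icc 1 Y).filter Nat.Prime, Real.log Y * (Real.log p / p) := by
        apply sum_le_sum
        intro p hp
        rw [mem_filter, mem_Icc] at hp
        have h2 : Real.log p ≤ Real.log Y := Real.log_le_log (by exact_mod_cast hp.1.1) (by exact_mod_cast hp.1.2)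
        have h3 : 0 ≤ Real.log p := Real.log_natCast_nonneg p
        have h4 : 0 ≤ Real.log p / p := by positivity
        calc (1 / (p : ℝ)) * (Real.log p) ^ 2 = Real.log p * (Real.log p / p) := by ring
          _ ≤ _ := mul_le_mul_of_nonneg_right h2 h4
    _ = Real.log Y * ∑ p ∈ (Icc 1 Y).filter Nat.Prime, Real.log p / p := by rw [mul_sum]
    _ ≤ _ := by
        apply mul_le_mul_of_nonneg_left _ hlog
        linarith

/-- the first bad sum -/
theorem bad1_sum (hS1P : S_S1P) {K B : ℕ} (f : Fin B → ℝ → ℝ) (c : Fin B → ℝ) (A : Finset (Fin K → Fin B))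
    (hfam : FamOK f c A) : ∃ C : ℝ, 0 < C ∧ ∀ η : ℝ, 0 < η → ∀ᶠ z : ℝ in atTop,
    ∀ (E : Finset ℕ) (W a0 N : ℕ) (α β : Fin K → ℕ), EOK 25 z E → 0 < W →
    (∀ q : ℕ, q.Prime → q ∣ W → q ∈ E) → SysOK E α β →
    ∑ n ∈ (Icc 1 N).filter (fun n => n ≡ a0 [MOD W]), sqn E z f A α β n * bad1 E ⌊z ^ η⌋₊ α β n ≤
      C * η ^ 2 * (((N : ℝ) / W) * (1 / (LL z * BE E)) ^ K) +
        K * (z ^ η * ((A.card : ℝ) ^ 2 * (2 * Real.exp (2 * LL z)))) := by
  classical
  obtain ⟨C, hC, hev⟩ := hS1P K B f c A hfam 25 (by norm_num)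
  obtain ⟨C0, hC0, hM⟩ := sum_log_sq
  refine ⟨K * C * 80000 + 1, by positivity, fun η hη => ?_⟩
  filter_upwards [hev, Real.tendsto_log_atTop.eventually_ge_atTop (C0 / η + 1), eventually_ge_atTop 1] with z h1 h2 h3
  intro E W a0 N α β hE hW hWE hSys
  have hz0 : 0 < z := by linarith
  have hlz : 0 < Real.log z := by
    have : 0 ≤ C0 / η := by positivity
    linarith
  have hL0 : 0 < LL z := by unfold LL; positivity
  have hBE := BE_pos hE.1
  obtain ⟨Y, hY⟩ : ∃ Y : ℕ, Y = ⌊z ^ η⌋₊ := ⟨_, rfl⟩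
  rw [← hY]
  have hzη : 1 ≤ z ^ η := Real.one_le_rpow h3 hη.le
  have hY1 : 1 ≤ Y := by rw [hY]; exact Nat.le_floor (by exact_mod_cast hzη)
  have hYz : (Y : ℝ) ≤ z ^ η := by rw [hY]; exact Nat.floor_le (by positivity)
  have hlY : Real.log Y ≤ η * Real.log z := by
    have := Real.log_le_log (by exact_mod_cast hY1) hYz
    rwa [Real.log_rpow hz0] at this
  have hlY0 : 0 ≤ Real.log Y := Real.log_natCast_nonneg Y
  set P := (Icc 1 Y).filter (fun p => p.Prime ∧ p ∉ E) with hP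
  have hPsub : P ⊆ (Icc 1 Y).filter Nat.Prime := by
    intro p hp
    rw [hP, mem_filter] at hp
    rw [mem_filter]
    exact ⟨hp.1, hp.2.1⟩
  obtain ⟨M, hMd⟩ : ∃ M : ℝ, M = ((N : ℝ) / W) * (1 / (LL z * BE E)) ^ K := ⟨_, rfl⟩
  obtain ⟨er, her⟩ : ∃ er : ℝ, er = (A.card : ℝ) ^ 2 * (2 * Real.exp (2 * LL z)) := ⟨_, rfl⟩
  have hM0 : 0 ≤ M := by rw [hMd]; positivity
  have her0 : 0 ≤ er := by rw [her]; positivity
  rw [← hMd, ← her]
  have e1 : ∑ n ∈ (Icc 1 N).filter (fun n => n ≡ a0 [MOD W]), sqn E z f A α β n * bad1 E Y α β n =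
      ∑ i, ∑ p ∈ P, ∑ n ∈ (Icc 1 N).filter (fun n => n ≡ a0 [MOD W] ∧ p ∣ α i * n + β i), sqn E z f A α β n := by
    unfold bad1
    rw [← hP]
    simp_rw [mul_sum]
    rw [sum_comm]
    refine sum_congr rfl fun i _ => ?_
    rw [sum_comm]
    refine sum_congr rfl fun p _ => ?_
    rw [← filter_filter, sum_filter (fun n => p ∣ α i * n + β i)]
    refine sum_congr rfl fun n _ => ?_
    split_ifs <;> simp
  rw [e1]
  have e2 : ∀ i : Fin K, ∀ p ∈ P, ∑ n ∈ (Icc 1 N).filter (fun n => n ≡ a0 [MOD W] ∧ p ∣ α i * n + β i), sqn E z f A α β n ≤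
      (C * M / LL z ^ 2) * ((1 / (p : ℝ)) * (Real.log p) ^ 2) + er := by
    intro i p hp
    rw [hP, mem_filter] at hp
    have h4 := h1 E W a0 N α β i p hE hW hWE hSys hp.2.1 hp.2.2
    rw [← her] at h4
    refine h4.trans (le_of_eq ?_)
    rw [hMd]
    congr 1
    rw [div_pow]
    ring
  calc ∑ i, ∑ p ∈ P, ∑ n ∈ (Icc 1 N).filter (fun n => n ≡ a0 [MOD W] ∧ p ∣ α i * n + β i), sqn E z f A α β n ≤
      ∑ _i : Fin K, ∑ p ∈ P, ((C * M / LL z ^ 2) * ((1 / (p : ℝ)) * (Real.log p) ^ 2) + er) :=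
        sum_le_sum fun i _ => sum_le_sum fun p hp => e2 i p hp
    _ = K * ((C * M / LL z ^ 2) * ∑ p ∈ P, (1 / (p : ℝ)) * (Real.log p) ^ 2 + (P.card : ℝ) * er) := by
        rw [sum_const, card_univ, Fintype.card_fin, nsmul_eq_mul, sum_add_distrib, ← mul_sum, sum_const, nsmul_eq_mul]
    _ ≤ K * ((C * M / LL z ^ 2) * (2 * (η * Real.log z) ^ 2) + z ^ η * er) := by
        apply mul_le_mul_of_nonneg_left _ (Nat.cast_nonneg K)
        apply add_le_add
        · apply mul_le_mul_of_nonneg_left _ (by positivity)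
          refine (hM Y P hY1 hPsub).trans ?_
          have h5 : C0 ≤ η * Real.log z := by
            have h6 : C0 / η ≤ Real.log z := by linarith
            rw [div_le_iff₀ hη] at h6
            linarith
          calc Real.log Y * (Real.log Y + C0) ≤ (η * Real.log z) * (η * Real.log z + η * Real.log z) := by
                apply mul_le_mul hlY (by linarith) (by linarith) (by positivity)
            _ = _ := by ring
        · apply mul_le_mul_of_nonneg_right _ her0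
          have h7 : P.card ≤ Y := by
            have := card_le_card (filter_subset (fun p => p.Prime ∧ p ∉ E) (Icc 1 Y))
            rw [Nat.card_Icc] at this
            rw [hP]; omega
          exact (by exact_mod_cast h7 : (P.card : ℝ) ≤ Y).trans hYz
    _ = K * C * 80000 * η ^ 2 * M + K * (z ^ η * er) := by
        have h8 : LL z ^ 2 = (Real.log z) ^ 2 / 40000 := by unfold LL; ring
        rw [h8]
        field_simp
        ring
    _ ≤ (K * C * 80000 + 1) * η ^ 2 * M + K * (z ^ η * er) := by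
        have : 0 ≤ η ^ 2 * M := by positivity
        nlinarith

theorem sum_inv_pow (p κ : ℕ) (hp : 2 ≤ p) : ∑ k ∈ Icc 1 κ, (1 : ℝ) / (p : ℝ) ^ k ≤ 2 * (1 / (p : ℝ)) := by
  have hp2 : (2 : ℝ) ≤ p := by exact_mod_cast hp
  have hp0 : (0 : ℝ) < p := by linarith
  have h : ∀ κ : ℕ, ∑ k ∈ Icc 1 κ, (1 : ℝ) / (p : ℝ) ^ k ≤ 2 * (1 / (p : ℝ)) * (1 - (1 / p : ℝ) ^ κ) := by
    intro κ
    induction κ with
    | zero => simp
    | succ m ih =>
      rw [sum_Icc_succ_top (by omega)]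
      have h1 : (1 : ℝ) / (p : ℝ) ^ (m + 1) = (1 / p : ℝ) ^ m * (1 / p) := by
        rw [one_div_pow, pow_succ]
        field_simp
      rw [h1]
      have h2 : (1 / (p : ℝ)) ≤ 1 / 2 := one_div_le_one_div_of_le (by norm_num) hp2
      have h3 : 0 < (1 / p : ℝ) ^ m := by positivity
      have h4 : 0 < (1 / (p : ℝ)) := by positivity
      have h5 : 2 * (1 / (p : ℝ)) * (1 - (1 / p : ℝ) ^ (m + 1)) =
          2 * (1 / (p : ℝ)) * (1 - (1 / p : ℝ) ^ m) + 2 * (1 / (p : ℝ)) * ((1 / p : ℝ) ^ m * (1 - 1 / p)) := by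
        rw [pow_succ]; ring
      rw [h5]
      have h6 : (1 / p : ℝ) ^ m * (1 / p) ≤ 2 * (1 / (p : ℝ)) * ((1 / p : ℝ) ^ m * (1 - 1 / p)) := by
        have h7 : 0 < (1 / p : ℝ) ^ m * (1 / p) := by positivity
        nlinarith
      linarith
  refine (h κ).trans ?_
  apply mul_le_of_le_one_right (by positivity)
  have : 0 ≤ (1 / p : ℝ) ^ κ := by positivity
  linarith

/-- one prime power -/
theorem bad2_one {K B : ℕ} (E : Finset ℕ) (z : ℝ) (f : Fin B → ℝ → ℝ) (A : Finset (Fin K → Fin B))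
    (W a0 N : ℕ) (α β : Fin K → ℕ) (i : Fin K) (M er : ℝ) (hW : 0 < W) (hM : 0 ≤ M) (her : 0 ≤ er)
    (hS : ∀ W' a', 0 < W' → (∀ q : ℕ, q.Prime → q ∣ W' → q ∈ E) →
      ∑ n ∈ (Icc 1 N).filter (fun n => n ≡ a' [MOD W']), sqn E z f A α β n ≤ ((N : ℝ) / W') * M + er)
    (hWE : ∀ q : ℕ, q.Prime → q ∣ W → q ∈ E) (hcop : (α i).Coprime (β i)) (p k : ℕ) (hp : p.Prime) (hpE : p ∈ E)
    (hpW : ¬ p ∣ W) (hk : 1 ≤ k) :
    ∑ n ∈ (Icc 1 N).filter (fun n => n ≡ a0 [MOD W] ∧ p ^ k ∣ α i * n + β i), sqn E z f A α β n ≤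
      ((N : ℝ) / W) * M * (1 / (p : ℝ) ^ k) + er := by
  classical
  by_cases hpa : p ∣ α i
  · have h0 : (Icc 1 N).filter (fun n => n ≡ a0 [MOD W] ∧ p ^ k ∣ α i * n + β i) = ∅ := by
      rw [filter_eq_empty_iff]
      rintro n _ ⟨_, h2⟩
      have h3 : p ∣ α i * n + β i := (dvd_pow_self p (by omega)).trans h2
      have h4 : p ∣ β i := (Nat.dvd_add_right (hpa.mul_right n)).1 h3
      exact hp.one_lt.ne' (Nat.dvd_one.1 (hcop ▸ Nat.dvd_gcd hpa h4))
    rw [h0, sum_empty]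
    positivity
  · obtain ⟨b, hb⟩ := class_exists W a0 hW.ne' (fun _ : Fin 1 => p ^ k) (fun _ => α i) (fun _ => (β i : ℤ))
      (fun _ => pow_ne_zero _ hp.ne_zero) (fun x y hxy => absurd (Subsingleton.elim x y) hxy)
      (fun _ => Nat.Coprime.pow_left k ((Nat.Prime.coprime_iff_not_dvd hp).2 hpW))
      (fun _ => Nat.Coprime.pow_right k ((Nat.coprime_comm.1 ((Nat.Prime.coprime_iff_not_dvd hp).2 hpa))))
    have h1 : (Icc 1 N).filter (fun n => n ≡ a0 [MOD W] ∧ p ^ k ∣ α i * n + β i) =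
        (Icc 1 N).filter (fun n => n ≡ b [MOD (W * p ^ k)]) := by
      apply filter_congr
      intro n _
      have h2 := hb n
      simp only [forall_const, univ_unique, prod_singleton] at h2
      rw [← h2]
      constructor
      · rintro ⟨h3, h4⟩
        refine ⟨h3, ?_⟩
        have := Int.natCast_dvd_natCast.2 h4
        push_cast at this ⊢
        exact this
      · rintro ⟨h3, h4⟩
        refine ⟨h3, ?_⟩
        apply Int.natCast_dvd_natCast.1
        push_cast at h4 ⊢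
        exact h4
    rw [h1]
    have hp0 : (0 : ℝ) < p := by exact_mod_cast hp.pos
    refine (hS (W * p ^ k) b (Nat.mul_pos hW (pow_pos hp.pos k)) ?_).trans (le_of_eq ?_)
    · intro q hq hd
      rcases (Nat.Prime.dvd_mul hq).1 hd with h | h
      · exact hWE q hq h
      · rw [(Nat.prime_dvd_prime_iff_eq hq hp).1 (hq.dvd_of_dvd_pow h)]
        exact hpE
    · push_cast
      have hW0 : (0 : ℝ) < W := by exact_mod_cast hW
      field_simp

/-- the second bad sum -/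
theorem bad2_sum {K B : ℕ} (E : Finset ℕ) (z : ℝ) (f : Fin B → ℝ → ℝ) (A : Finset (Fin K → Fin B))
    (W a0 N κ : ℕ) (α β : Fin K → ℕ) (M er : ℝ) (hW : 0 < W) (hM : 0 ≤ M) (her : 0 ≤ er)
    (hS : ∀ W' a', 0 < W' → (∀ q : ℕ, q.Prime → q ∣ W' → q ∈ E) →
      ∑ n ∈ (Icc 1 N).filter (fun n => n ≡ a' [MOD W']), sqn E z f A α β n ≤ ((N : ℝ) / W') * M + er)
    (hE : ∀ p ∈ E, p.Prime)
    (hWE : ∀ q : ℕ, q.Prime → q ∣ W → q ∈ E) (hcop : ∀ i, (α i).Coprime (β i)) (CE : ℝ)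
    (hCE : ∑ p ∈ E.filter (fun p => ¬ p ∣ W), (1 : ℝ) / p ≤ CE) :
    ∑ n ∈ (Icc 1 N).filter (fun n => n ≡ a0 [MOD W]), sqn E z f A α β n * bad2 (E.filter (fun p => ¬ p ∣ W)) κ α β n ≤
      K * (((N : ℝ) / W) * M * (2 * CE) + E.card * κ * er) := by
  classical
  set E' := E.filter (fun p => ¬ p ∣ W) with hE'
  have e1 : ∑ n ∈ (Icc 1 N).filter (fun n => n ≡ a0 [MOD W]), sqn E z f A α β n * bad2 E' κ α β n =
      ∑ i, ∑ p ∈ E', ∑ k ∈ Icc 1 κ,
        ∑ n ∈ (Icc 1 N).filter (fun n => n ≡ a0 [MOD W] ∧ p ^ k ∣ α i * n + β i), sqn E z f A α β n := by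
    unfold bad2
    simp_rw [mul_sum]
    rw [sum_comm]
    refine sum_congr rfl fun i _ => ?_
    rw [sum_comm]
    refine sum_congr rfl fun p _ => ?_
    rw [sum_comm]
    refine sum_congr rfl fun k _ => ?_
    rw [← filter_filter, sum_filter (fun n => p ^ k ∣ α i * n + β i)]
    refine sum_congr rfl fun n _ => ?_
    split_ifs <;> simp
  rw [e1]
  have hNM : 0 ≤ ((N : ℝ) / W) * M := by positivity
  calc ∑ i, ∑ p ∈ E', ∑ k ∈ Icc 1 κ,
        ∑ n ∈ (Icc 1 N).filter (fun n => n ≡ a0 [MOD W] ∧ p ^ k ∣ α i * n + β i), sqn E z f A α β n ≤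
      ∑ _i : Fin K, ∑ p ∈ E', ∑ k ∈ Icc 1 κ, (((N : ℝ) / W) * M * (1 / (p : ℝ) ^ k) + er) := by
        refine sum_le_sum fun i _ => sum_le_sum fun p hp => sum_le_sum fun k hk => ?_
        rw [hE', mem_filter] at hp
        exact bad2_one E z f A W a0 N α β i M er hW hM her hS hWE (hcop i) p k (hE p hp.1) hp.1 hp.2 (mem_Icc.1 hk).1
    _ ≤ ∑ _i : Fin K, ∑ p ∈ E', (((N : ℝ) / W) * M * (2 * (1 / (p : ℝ))) + κ * er) := by
        refine sum_le_sum fun i _ => sum_le_sum fun p hp => ?_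
        rw [hE', mem_filter] at hp
        rw [sum_add_distrib, ← mul_sum, sum_const, nsmul_eq_mul, Nat.card_Icc, Nat.add_sub_cancel]
        have := mul_le_mul_of_nonneg_left (sum_inv_pow p κ (hE p hp.1).two_le) hNM
        linarith
    _ = K * (((N : ℝ) / W) * M * (2 * ∑ p ∈ E', (1 : ℝ) / p) + E'.card * κ * er) := by
        rw [sum_const, card_univ, Fintype.card_fin, nsmul_eq_mul, sum_add_distrib, ← mul_sum, ← mul_sum,
          sum_const, nsmul_eq_mul]
        ring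
    _ ≤ _ := by
        apply mul_le_mul_of_nonneg_left _ (Nat.cast_nonneg K)
        apply add_le_add
        · apply mul_le_mul_of_nonneg_left _ hNM
          linarith
        · apply mul_le_mul_of_nonneg_right _ her
          apply mul_le_mul_of_nonneg_right _ (Nat.cast_nonneg κ)
          exact_mod_cast card_le_card (filter_subset _ _)

/-- the number of the prime factors of a value -/
theorem omega_le (m : ℕ) (hm : 0 < m) (E' : Finset ℕ) (κ M R : ℕ) (y : ℝ) (hy : 1 < y)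
    (hκ : m < 2 ^ (κ + 1)) (h1 : ∀ p : ℕ, p.Prime → p ∣ m → p ∈ E' ∨ y < p)
    (h2 : ∑ p ∈ E', (∑ k ∈ Icc 1 κ, if p ^ k ∣ m then (1 : ℝ) else 0) ≤ M) (hR : (m : ℝ) ≤ y ^ R) :
    ArithmeticFunction.cardFactors m ≤ M + R := by
  classical
  rw [ArithmeticFunction.cardFactors_eq_sum_factorization, Finsupp.sum, Nat.support_factorization]
  rw [← sum_filter_add_sum_filter_not m.primeFactors (fun p => p ∈ E')]
  apply Nat.add_le_add
  · have h3 : ∀ p ∈ m.primeFactors, ((m.factorization p : ℕ) : ℝ) ≤ ∑ k ∈ Icc 1 κ, if p ^ k ∣ m then (1 : ℝ) else 0 := by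
      intro p hp
      have hpp := Nat.prime_of_mem_primeFactors hp
      have hv : m.factorization p ≤ κ := by
        by_contra hc
        push Not at hc
        have h4 : p ^ (κ + 1) ∣ m := (pow_dvd_pow p hc).trans (Nat.ordProj_dvd m p)
        have h5 := Nat.le_of_dvd hm h4
        have h6 : 2 ^ (κ + 1) ≤ p ^ (κ + 1) := Nat.pow_le_pow_left hpp.two_le _
        omega
      have h7 : ∑ k ∈ Icc 1 (m.factorization p), (if p ^ k ∣ m then (1 : ℝ) else 0) = (m.factorization p : ℝ) := by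
        rw [sum_congr rfl (g := fun _ => (1 : ℝ)) (fun k hk => by
          rw [if_pos ((pow_dvd_pow p (mem_Icc.1 hk).2).trans (Nat.ordProj_dvd m p))])]
        rw [sum_const, Nat.card_Icc, nsmul_eq_mul, mul_one, Nat.add_sub_cancel]
      rw [← h7]
      apply sum_le_sum_of_subset_of_nonneg (Icc_subset_Icc le_rfl hv)
      intro k _ _
      split_ifs <;> norm_num
    have h8 : ((∑ p ∈ m.primeFactors.filter (fun p => p ∈ E'), m.factorization p : ℕ) : ℝ) ≤ M := by
      push_cast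
      refine le_trans ?_ h2
      calc ∑ p ∈ m.primeFactors.filter (fun p => p ∈ E'), ((m.factorization p : ℕ) : ℝ) ≤
          ∑ p ∈ m.primeFactors.filter (fun p => p ∈ E'), (∑ k ∈ Icc 1 κ, if p ^ k ∣ m then (1 : ℝ) else 0) :=
            sum_le_sum fun p hp => h3 p (mem_filter.1 hp).1
        _ ≤ _ := by
            apply sum_le_sum_of_subset_of_nonneg
            · intro p hp
              exact (mem_filter.1 hp).2
            · intro p _ _
              refine sum_nonneg fun k _ => ?_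
              split_ifs <;> norm_num
    exact_mod_cast h8
  · set T := m.primeFactors.filter (fun p => ¬ p ∈ E') with hT
    have h3 : ∏ p ∈ T, p ^ m.factorization p ∣ m := by
      have h4 := Nat.prod_factorization_pow_eq_self hm.ne'
      rw [Finsupp.prod, Nat.support_factorization] at h4
      conv_rhs => rw [← h4]
      exact prod_dvd_prod_of_subset _ _ _ (filter_subset _ _)
    have h5 : ((∏ p ∈ T, p ^ m.factorization p : ℕ) : ℝ) ≤ m := by
      exact_mod_cast Nat.le_of_dvd hm h3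
    have h6 : y ^ (∑ p ∈ T, m.factorization p) ≤ ((∏ p ∈ T, p ^ m.factorization p : ℕ) : ℝ) := by
      rw [← prod_pow_eq_pow_sum]
      push_cast
      apply Finset.prod_le_prod
      · intro p _; positivity
      · intro p hp
        rw [hT, mem_filter] at hp
        have h7 := (h1 p (Nat.prime_of_mem_primeFactors hp.1) (Nat.dvd_of_mem_primeFactors hp.1)).resolve_left hp.2
        exact pow_le_pow_left₀ (by linarith) h7.le _
    have h7 : y ^ (∑ p ∈ T, m.factorization p) ≤ y ^ R := h6.trans (h5.trans hR)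
    exact (pow_le_pow_iff_right₀ hy).1 h7

end Pool.Agent.L7h28.UM
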