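import Mathlib
import Pool.Agent.L7h28.UM.Core2

set_option autoImplicit false

/-! The core: many primes, all values almost prime. -/

open Finset Filter
open scoped ContDiff

namespace Pool.Agent.L7h28.UM

open Pool.Agent.H378R2

theorem evD (n K0 : ℕ) (C c : ℝ) (hC : 0 ≤ C) (hc : 0 < c) : ∀ᶠ z : ℝ in atTop, ∀ x : ℝ, z ≤ x →
    C * ((Real.log z) ^ n * z ^ (1 / 4 : ℝ)) ≤ c * ((1 / Real.log z) ^ K0 * (x / z ^ (1 / 100 : ℝ))) := by
  have h1 := evPow (K0 + n) (1 / 2) (C / c) (by norm_num)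
  filter_upwards [h1, eventually_ge_atTop (4 : ℝ)] with z h2 h3
  intro x hzx
  have hz0 : 0 < z := by linarith
  have hlog1 : 1 ≤ Real.log z := by
    rw [Real.le_log_iff_exp_le hz0]
    linarith [exp_one_lt_three']
  have hzr : 0 < z ^ (1 / 100 : ℝ) := by positivity
  have key : C * (Real.log z) ^ (K0 + n) * (z ^ (1 / 4 : ℝ) * z ^ (1 / 100 : ℝ)) ≤ c * x := by
    have e1 : C * (Real.log z) ^ (K0 + n) ≤ c * z ^ (1 / 2 : ℝ) := by
      have := mul_le_mul_of_nonneg_left h2 hc.le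
      calc _ = c * (C / c * (Real.log z) ^ (K0 + n)) := by field_simp
        _ ≤ _ := this
    calc _ ≤ c * z ^ (1 / 2 : ℝ) * (z ^ (1 / 4 : ℝ) * z ^ (1 / 100 : ℝ)) :=
          mul_le_mul_of_nonneg_right e1 (by positivity)
      _ = c * z ^ (1 / 2 + (1 / 4 + 1 / 100) : ℝ) := by
          rw [mul_assoc, Real.rpow_add hz0, Real.rpow_add hz0]
      _ ≤ c * z ^ (1 : ℝ) := by
          apply mul_le_mul_of_nonneg_left _ hc.le
          exact Real.rpow_le_rpow_of_exponent_le (by linarith) (by norm_num)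
      _ ≤ _ := by rw [Real.rpow_one]; exact mul_le_mul_of_nonneg_left hzx hc.le
  have hlz : 0 < Real.log z := by linarith
  calc C * ((Real.log z) ^ n * z ^ (1 / 4 : ℝ)) =
      (C * (Real.log z) ^ (K0 + n) * (z ^ (1 / 4 : ℝ) * z ^ (1 / 100 : ℝ))) *
        ((1 / Real.log z) ^ K0 * (1 / z ^ (1 / 100 : ℝ))) := by
        rw [one_div_pow, pow_add]
        field_simp
    _ ≤ (c * x) * ((1 / Real.log z) ^ K0 * (1 / z ^ (1 / 100 : ℝ))) :=
        mul_le_mul_of_nonneg_right key (by positivity)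
    _ = _ := by ring

theorem evE (n K0 : ℕ) (C c : ℝ) (hC : 0 ≤ C) (hc : 0 < c) : ∀ᶠ z : ℝ in atTop, ∀ x : ℝ, z ≤ x →
    x ^ (9 / 10 : ℝ) * (C * ((Real.log z) ^ n * z ^ (1 / 100 : ℝ))) ≤
      c * ((1 / Real.log z) ^ K0 * (x / z ^ (1 / 100 : ℝ))) := by
  have h1 := evPow (K0 + n) (1 / 20) (C / c) (by norm_num)
  filter_upwards [h1, eventually_ge_atTop (4 : ℝ)] with z h2 h3
  intro x hzx
  have hz0 : 0 < z := by linarith
  have hx0 : 0 < x := by linarith
  have hlog1 : 1 ≤ Real.log z := by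
    rw [Real.le_log_iff_exp_le hz0]
    linarith [exp_one_lt_three']
  have hzr : 0 < z ^ (1 / 100 : ℝ) := by positivity
  have hxz : z ^ (1 / 10 : ℝ) ≤ x ^ (1 / 10 : ℝ) := Real.rpow_le_rpow hz0.le hzx (by norm_num)
  have key : x ^ (9 / 10 : ℝ) * (C * (Real.log z) ^ (K0 + n) * (z ^ (1 / 100 : ℝ) * z ^ (1 / 100 : ℝ))) ≤ c * x := by
    have e1 : C * (Real.log z) ^ (K0 + n) ≤ c * z ^ (1 / 20 : ℝ) := by
      have := mul_le_mul_of_nonneg_left h2 hc.le
      calc _ = c * (C / c * (Real.log z) ^ (K0 + n)) := by field_simp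
        _ ≤ _ := this
    have e2 : C * (Real.log z) ^ (K0 + n) * (z ^ (1 / 100 : ℝ) * z ^ (1 / 100 : ℝ)) ≤ c * x ^ (1 / 10 : ℝ) := by
      calc _ ≤ c * z ^ (1 / 20 : ℝ) * (z ^ (1 / 100 : ℝ) * z ^ (1 / 100 : ℝ)) :=
            mul_le_mul_of_nonneg_right e1 (by positivity)
        _ = c * z ^ (1 / 20 + (1 / 100 + 1 / 100) : ℝ) := by
            rw [mul_assoc, Real.rpow_add hz0, Real.rpow_add hz0]
        _ ≤ c * z ^ (1 / 10 : ℝ) := by
            apply mul_le_mul_of_nonneg_left _ hc.le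
            exact Real.rpow_le_rpow_of_exponent_le (by linarith) (by norm_num)
        _ ≤ _ := mul_le_mul_of_nonneg_left hxz hc.le
    calc _ ≤ x ^ (9 / 10 : ℝ) * (c * x ^ (1 / 10 : ℝ)) := mul_le_mul_of_nonneg_left e2 (by positivity)
      _ = c * (x ^ (9 / 10 : ℝ) * x ^ (1 / 10 : ℝ)) := by ring
      _ = c * x := by
          rw [← Real.rpow_add hx0]; norm_num
  have hlz : 0 < Real.log z := by linarith
  calc x ^ (9 / 10 : ℝ) * (C * ((Real.log z) ^ n * z ^ (1 / 100 : ℝ))) =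
      (x ^ (9 / 10 : ℝ) * (C * (Real.log z) ^ (K0 + n) * (z ^ (1 / 100 : ℝ) * z ^ (1 / 100 : ℝ)))) *
        ((1 / Real.log z) ^ K0 * (1 / z ^ (1 / 100 : ℝ))) := by
        rw [one_div_pow, pow_add]
        field_simp
    _ ≤ (c * x) * ((1 / Real.log z) ^ K0 * (1 / z ^ (1 / 100 : ℝ))) :=
        mul_le_mul_of_nonneg_right key (by positivity)
    _ = _ := by ring

/-- the unit -/
theorem unit_le (PK x W φW BEE L lz cE : ℝ) (hPK : 0 < PK) (hx : 0 < x) (hW : 0 < W) (hφW : 0 < φW)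
    (hBE : 0 < BEE) (hlz : 0 < lz) (hcE : 0 < cE) (hL : L = lz / 200) (hBEc : cE * (φW / W) ≤ BEE) :
    lz * ((3 * x / W) * (PK * (1 / (L * BEE)))) ≤ PK * (x / φW) * (600 / cE) := by
  have h2 : lz * ((3 * x / W) * (PK * (1 / (L * BEE)))) = PK * x * 600 * (1 / (W * BEE)) := by
    rw [hL]
    field_simp
    ring
  have h3 : 1 / (W * BEE) ≤ 1 / (cE * φW) := by
    apply one_div_le_one_div_of_le (by positivity)
    have := mul_le_mul_of_nonneg_left hBEc hW.le
    calc cE * φW = W * (cE * (φW / W)) := by field_simp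
      _ ≤ _ := this
  rw [h2]
  calc PK * x * 600 * (1 / (W * BEE)) ≤ PK * x * 600 * (1 / (cE * φW)) :=
        mul_le_mul_of_nonneg_left h3 (by positivity)
    _ = _ := by field_simp

/-- the total weight at `n` -/
noncomputable def TT' {K1 K : ℕ} (ι : Fin K1 ↪ Fin K) (E E' : Finset ℕ) (Y κ : ℕ) (α β : Fin K → ℕ) (x ρL KL M : ℝ)
    (n : ℕ) : ℝ :=
  ∑ j, Phi (((α (ι j) * n + β (ι j) : ℕ) : ℝ) / (α (ι j) * x)) * th (α (ι j) * n + β (ι j)) -
    (ρL + KL * (bad1 E Y α β n + bad2 E' κ α β n / M))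

theorem sum_TT {K1 K B : ℕ} (ι : Fin K1 ↪ Fin K) (E E' : Finset ℕ) (Y κ : ℕ) (α β : Fin K → ℕ) (x ρL KL M : ℝ)
    (z : ℝ) (f : Fin B → ℝ → ℝ) (A : Finset (Fin K → Fin B)) (a0 W : ℕ) :
    ∑ n ∈ NS x a0 W, TT' ι E E' Y κ α β x ρL KL M n * sqn E z f A α β n =
      ∑ j, TP E z f A α β x a0 W (ι j) - (ρL * ∑ n ∈ NS x a0 W, sqn E z f A α β n +
        KL * (∑ n ∈ NS x a0 W, sqn E z f A α β n * bad1 E Y α β n +
          (∑ n ∈ NS x a0 W, sqn E z f A α β n * bad2 E' κ α β n) / M)) := by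
  unfold TT' TP
  rw [sum_comm (s := univ) (t := NS x a0 W), mul_sum, sum_div, ← sum_add_distrib, mul_sum, ← sum_add_distrib,
    ← sum_sub_distrib]
  refine sum_congr rfl fun n _ => ?_
  rw [sub_mul, sum_mul]
  congr 1
  · refine sum_congr rfl fun j _ => ?_
    ring
  · ring

/-- a bound for the prime part of the weight -/
theorem prime_part {K1 K : ℕ} (ι : Fin K1 ↪ Fin K) (α β : Fin K → ℕ) (x Λ : ℝ) (n : ℕ) (hx : 0 < x)
    (hα : ∀ j, 1 ≤ α j) (hΛ : ∀ j, Real.log (3 * (α j * x)) ≤ Λ) (hΛ0 : 0 ≤ Λ) :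
    ∑ j, Phi (((α (ι j) * n + β (ι j) : ℕ) : ℝ) / (α (ι j) * x)) * th (α (ι j) * n + β (ι j)) ≤
      (((univ : Finset (Fin K1)).filter (fun j => (α (ι j) * n + β (ι j)).Prime)).card : ℝ) * Λ := by
  calc _ ≤ ∑ j, (if (α (ι j) * n + β (ι j)).Prime then Λ else 0) := by
        apply sum_le_sum
        intro j _
        have hαi : (1 : ℝ) ≤ α (ι j) := by exact_mod_cast hα (ι j)
        have hy0 : 0 < (α (ι j) : ℝ) * x := by positivity
        by_cases hp : (α (ι j) * n + β (ι j)).Prime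
        · rw [if_pos hp]
          by_cases hΦ : Phi (((α (ι j) * n + β (ι j) : ℕ) : ℝ) / (α (ι j) * x)) = 0
          · rw [hΦ, zero_mul]
            exact hΛ0
          · have h6 : ((α (ι j) * n + β (ι j) : ℕ) : ℝ) < 3 * (α (ι j) * x) := by
              by_contra hge
              apply hΦ
              apply Phi_eq_zero_of_ge
              rw [le_div_iff₀ hy0]
              have := exp_one_lt_three'
              nlinarith
            have h7 : th (α (ι j) * n + β (ι j)) ≤ Λ := by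
              unfold th
              rw [if_pos hp]
              have hpp : (0 : ℝ) < ((α (ι j) * n + β (ι j) : ℕ) : ℝ) := by exact_mod_cast hp.pos
              exact (Real.log_le_log hpp h6.le).trans (hΛ _)
            have h8 := Phi_le_one (((α (ι j) * n + β (ι j) : ℕ) : ℝ) / (α (ι j) * x))
            calc _ ≤ 1 * th (α (ι j) * n + β (ι j)) := mul_le_mul_of_nonneg_right h8 (th_nonneg _)
              _ = th (α (ι j) * n + β (ι j)) := one_mul _
              _ ≤ _ := h7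
        · rw [if_neg hp]
          have : th (α (ι j) * n + β (ι j)) = 0 := by unfold th; rw [if_neg hp]
          rw [this, mul_zero]
    _ = _ := by rw [← sum_filter, sum_const, nsmul_eq_mul]

/-- the weight is positive only at good integers -/
theorem good_of_pos {K1 K : ℕ} (ι : Fin K1 ↪ Fin K) (E : Finset ℕ) (Y κ : ℕ) (α β : Fin K → ℕ)
    (x Λ : ℝ) (ρ M : ℕ) (W a0 n : ℕ) (hx : 0 < x) (hM : 0 < M)
    (hα : ∀ j, 1 ≤ α j) (hΛ : ∀ j, Real.log (3 * (α j * x)) ≤ Λ) (hΛ0 : 0 < Λ)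
    (hβ : ∀ j, 2 * (β j : ℝ) ≤ x) (hn : n ≡ a0 [MOD W]) (hcop : ∀ j, (α j * a0 + β j).Coprime (α j * W))
    (η z V : ℝ) (R : ℕ) (hY : Y = ⌊z ^ η⌋₊) (hzη : 1 < z ^ η) (hn1 : 1 ≤ n)
    (hκ : V < 2 ^ (κ + 1)) (hVR : V ≤ (z ^ η) ^ R) (hV : ∀ j, ((α j * n + β j : ℕ) : ℝ) ≤ V)
    (hpos : 0 < TT' ι E (E.filter (fun p => ¬ p ∣ W)) Y κ α β x (ρ * Λ) (K1 * Λ) M n) :
    x ≤ 2 * n ∧ ρ < ((univ : Finset (Fin K1)).filter (fun j => (α (ι j) * n + β (ι j)).Prime)).card ∧
      ∀ i, ArithmeticFunction.cardFactors (α i * n + β i) ≤ M + R := by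
  classical
  set E' := E.filter (fun p => ¬ p ∣ W) with hE'
  unfold TT' at hpos
  have hb1 := bad1_nonneg E Y α β n
  have hb2 := bad2_nonneg E' κ α β n
  have hM0 : (0 : ℝ) < M := by exact_mod_cast hM
  have hb2M : 0 ≤ bad2 E' κ α β n / M := by positivity
  have hPP := prime_part ι α β x Λ n hx hα hΛ hΛ0.le
  set cnt := ((univ : Finset (Fin K1)).filter (fun j => (α (ι j) * n + β (ι j)).Prime)).card with hcnt
  have hcntK : (cnt : ℝ) ≤ K1 := by
    have := card_le_univ ((univ : Finset (Fin K1)).filter (fun j => (α (ι j) * n + β (ι j)).Prime))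
    rw [Fintype.card_fin] at this
    exact_mod_cast this
  have hK1 : 0 ≤ (K1 : ℝ) * Λ * (bad1 E Y α β n + bad2 E' κ α β n / M) := by positivity
  refine ⟨?_, ?_, ?_⟩
  · by_contra hc
    push Not at hc
    have h0 : ∑ j, Phi (((α (ι j) * n + β (ι j) : ℕ) : ℝ) / (α (ι j) * x)) * th (α (ι j) * n + β (ι j)) = 0 := by
      apply sum_eq_zero
      intro j _
      have hαi : (1 : ℝ) ≤ α (ι j) := by exact_mod_cast hα (ι j)
      rw [Phi_eq_zero_of_le (by positivity), zero_mul]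
      rw [div_le_one (by positivity)]
      push_cast
      have h1 := hβ (ι j)
      have h2 : (α (ι j) : ℝ) * (2 * n) ≤ α (ι j) * x := mul_le_mul_of_nonneg_left hc.le (by linarith)
      have h3 : x ≤ α (ι j) * x := le_mul_of_one_le_left hx.le hαi
      linarith
    rw [h0] at hpos
    have : 0 ≤ (ρ : ℝ) * Λ := by positivity
    linarith
  · have h1 : (ρ : ℝ) * Λ < cnt * Λ := by linarith
    have h2 := lt_of_mul_lt_mul_right h1 hΛ0.le
    exact_mod_cast h2
  · have h1 : (K1 : ℝ) * Λ * (bad1 E Y α β n + bad2 E' κ α β n / M) < K1 * Λ := by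
      have : (cnt : ℝ) * Λ ≤ K1 * Λ := mul_le_mul_of_nonneg_right hcntK hΛ0.le
      have : 0 ≤ (ρ : ℝ) * Λ := by positivity
      linarith
    have hK1pos : 0 < (K1 : ℝ) * Λ := by
      rcases Nat.eq_zero_or_pos K1 with h | h
      · exfalso
        subst h
        simp at h1
      · have : (0 : ℝ) < K1 := by exact_mod_cast h
        positivity
    have h2 : bad1 E Y α β n + bad2 E' κ α β n / M < 1 := by
      have h3 : (K1 : ℝ) * Λ * (bad1 E Y α β n + bad2 E' κ α β n / M) < K1 * Λ * 1 := by rw [mul_one]; exact h1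
      exact lt_of_mul_lt_mul_left h3 hK1pos.le
    intro i
    have hmpos : 0 < α i * n + β i := by
      have := hα i
      have : 0 < α i * n := Nat.mul_pos (by omega) (by omega)
      omega
    apply omega_le (α i * n + β i) hmpos E' κ M R (z ^ η) hzη
    · have h3 : ((α i * n + β i : ℕ) : ℝ) < 2 ^ (κ + 1) := (hV i).trans_lt hκ
      exact_mod_cast h3
    · intro p hp hd
      by_cases hpE : p ∈ E
      · left
        rw [hE', mem_filter]
        refine ⟨hpE, fun hpW => ?_⟩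
        have h4 : p ∣ α i * a0 + β i := by
          have h5 : α i * n + β i ≡ α i * a0 + β i [MOD p] :=
            ((hn.of_dvd hpW).mul_left (α i)).add_right (β i)
          exact (Nat.ModEq.dvd_iff h5 dvd_rfl).1 hd
        have h6 := Nat.dvd_gcd h4 (hpW.mul_left (α i))
        rw [hcop i] at h6
        exact hp.one_lt.ne' (Nat.dvd_one.1 h6)
      · right
        by_contra hle
        push Not at hle
        have hpY : p ∈ (Icc 1 Y).filter (fun p => p.Prime ∧ p ∉ E) := by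
          rw [mem_filter, mem_Icc, hY]
          exact ⟨⟨hp.one_lt.le, Nat.le_floor hle⟩, hp, hpE⟩
        have h7 : (1 : ℝ) ≤ bad1 E Y α β n := by
          unfold bad1
          calc (1 : ℝ) = (if p ∣ α i * n + β i then 1 else 0) := by rw [if_pos hd]
            _ ≤ ∑ p ∈ (Icc 1 Y).filter (fun p => p.Prime ∧ p ∉ E), if p ∣ α i * n + β i then (1 : ℝ) else 0 :=
                single_le_sum (f := fun p => if p ∣ α i * n + β i then (1 : ℝ) else 0)
                  (fun q _ => by split_ifs <;> norm_num) hpY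
            _ ≤ _ := single_le_sum (f := fun i => ∑ p ∈ (Icc 1 Y).filter (fun p => p.Prime ∧ p ∉ E),
                  if p ∣ α i * n + β i then (1 : ℝ) else 0)
                  (fun q _ => sum_nonneg fun _ _ => by split_ifs <;> norm_num) (mem_univ i)
        linarith
    · have h8 : bad2 E' κ α β n ≤ M := by
        have h9 : bad2 E' κ α β n / M ≤ 1 := by linarith
        rwa [div_le_one hM0] at h9
      refine le_trans ?_ h8
      unfold bad2
      exact single_le_sum (f := fun i => ∑ p ∈ E', ∑ k ∈ Icc 1 κ, if p ^ k ∣ α i * n + β i then (1 : ℝ) else 0)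
        (fun q _ => sum_nonneg fun _ _ => sum_nonneg fun _ _ => by split_ifs <;> norm_num) (mem_univ i)
    · exact (hV i).trans hVR

/-- the number of elements of the sifting set -/
theorem EOK.card_le {b : ℕ} {z : ℝ} {E : Finset ℕ} (hE : EOK b z E) (hz : 0 ≤ Real.log z) :
    (E.card : ℝ) ≤ (Real.log z) ^ b + (Real.log z) ^ 2 := by
  classical
  have h1 : E.card = (E.filter (fun p : ℕ => (Real.log z) ^ b < (p : ℝ))).card +
      (E.filter (fun p : ℕ => ¬ (Real.log z) ^ b < (p : ℝ))).card := by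
    rw [card_filter_add_card_filter_not]
  have h2 : (E.filter (fun p : ℕ => ¬ (Real.log z) ^ b < (p : ℝ))).card ≤ ⌊(Real.log z) ^ b⌋₊ := by
    have h3 : E.filter (fun p : ℕ => ¬ (Real.log z) ^ b < (p : ℝ)) ⊆ Icc 1 ⌊(Real.log z) ^ b⌋₊ := by
      intro p hp
      rw [mem_filter] at hp
      rw [mem_Icc]
      exact ⟨(hE.1 p hp.1).one_lt.le, Nat.le_floor (not_lt.1 hp.2)⟩
    have := card_le_card h3
    rwa [Nat.card_Icc, Nat.add_sub_cancel] at this
  have h3 : ((E.filter (fun p : ℕ => ¬ (Real.log z) ^ b < (p : ℝ))).card : ℝ) ≤ (Real.log z) ^ b :=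
    (by exact_mod_cast h2 : ((E.filter (fun p : ℕ => ¬ (Real.log z) ^ b < (p : ℝ))).card : ℝ) ≤
      (⌊(Real.log z) ^ b⌋₊ : ℝ)).trans (Nat.floor_le (by positivity))
  rw [h1]
  push_cast
  have := hE.2.2
  linarith

end Pool.Agent.L7h28.UM
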