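import Mathlib
import Pool.Agent.L7h28.UM.Core3

set_option autoImplicit false

/-! Real inequalities for the final assembly. -/

open Finset Filter
open scoped ContDiff

namespace Pool.Agent.L7h28.UM

open Pool.Agent.H378R2

/-- the first main-term comparison -/
theorem t_S1 (ρ K2 K'3 I0 D cE c1 M0 cst lz U S1 Λ er : ℝ) (hρ0 : 0 ≤ ρ) (hK2 : 0 < K2) (hI0 : 0 < I0)
    (hD0 : 0 < D) (hlz : 0 < lz) (hK : K2 = K'3) (hcst : cst = c1 * M0 * I0) (hΛ : Λ = K2 * lz)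
    (hUD : lz * U ≤ D * (600 / cE)) (hρ : ρ * K'3 * (1200 / cE) ≤ c1 * M0 / 64)
    (hS1v : S1 ≤ U * (2 * I0) + er) : ρ * Λ * S1 ≤ D * (cst / 64) + ρ * Λ * er := by
  have hΛ0 : 0 < Λ := by rw [hΛ]; positivity
  have h1 := mul_le_mul_of_nonneg_left hS1v (by positivity : 0 ≤ ρ * Λ)
  have h2 : ρ * Λ * (U * (2 * I0)) ≤ D * (cst / 64) := by
    have h3 : ρ * Λ * (U * (2 * I0)) = ρ * K2 * (2 * I0) * (lz * U) := by rw [hΛ]; ring
    rw [h3]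
    calc _ ≤ ρ * K2 * (2 * I0) * (D * (600 / cE)) := mul_le_mul_of_nonneg_left hUD (by positivity)
      _ = D * I0 * (ρ * K'3 * (1200 / cE)) := by rw [hK]; ring
      _ ≤ D * I0 * (c1 * M0 / 64) := mul_le_mul_of_nonneg_left hρ (by positivity)
      _ = _ := by rw [hcst]; ring
  linarith

theorem t_B1 (K1 K2 C η D cE cst lz U B1 Λ e : ℝ) (hK10 : 0 ≤ K1) (hK2 : 0 < K2) (hC : 0 < C)
    (hD0 : 0 < D) (hlz : 0 < lz) (hΛ : Λ = K2 * lz)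
    (hUD : lz * U ≤ D * (600 / cE)) (hηc : (K1 * K2) * (C * η ^ 2) * (600 / cE) ≤ cst / 64)
    (hB1v : B1 ≤ C * η ^ 2 * U + e) : K1 * Λ * B1 ≤ D * (cst / 64) + K1 * Λ * e := by
  have hΛ0 : 0 < Λ := by rw [hΛ]; positivity
  have h1 := mul_le_mul_of_nonneg_left hB1v (by positivity : 0 ≤ K1 * Λ)
  have h2 : K1 * Λ * (C * η ^ 2 * U) ≤ D * (cst / 64) := by
    have h3 : K1 * Λ * (C * η ^ 2 * U) = K1 * K2 * (C * η ^ 2) * (lz * U) := by rw [hΛ]; ring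
    rw [h3]
    calc _ ≤ K1 * K2 * (C * η ^ 2) * (D * (600 / cE)) := mul_le_mul_of_nonneg_left hUD (by positivity)
      _ = D * ((K1 * K2) * (C * η ^ 2) * (600 / cE)) := by ring
      _ ≤ _ := mul_le_mul_of_nonneg_left hηc hD0.le
  linarith

theorem t_B2 (K1 K2 K0 M D cE CE I0 cst lz U B2 Λ e : ℝ) (hK10 : 0 ≤ K1) (hK00 : 0 ≤ K0) (hK2 : 0 < K2)
    (hM1 : 1 ≤ M) (hI0 : 0 < I0) (hCE : 0 < CE) (he : 0 ≤ e)
    (hD0 : 0 < D) (hlz : 0 < lz) (hΛ : Λ = K2 * lz)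
    (hUD : lz * U ≤ D * (600 / cE))
    (hMc : (K1 * K2) * ((K0 + 1) * (600 / cE * (2 * I0) * (2 * CE))) / M ≤ cst / 64)
    (hB2v : B2 ≤ (K0 + 1) * (U * (2 * I0) * (2 * CE) + e)) :
    K1 * Λ * (B2 / M) ≤ D * (cst / 64) + K1 * Λ * ((K0 + 1) * e) := by
  have hΛ0 : 0 < Λ := by rw [hΛ]; positivity
  have hM0 : 0 < M := by linarith
  have h1 := mul_le_mul_of_nonneg_left (div_le_div_of_nonneg_right hB2v hM0.le) (by positivity : 0 ≤ K1 * Λ)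
  have h2 : K1 * Λ * ((K0 + 1) * (U * (2 * I0) * (2 * CE)) / M) ≤ D * (cst / 64) := by
    have h3 : K1 * Λ * ((K0 + 1) * (U * (2 * I0) * (2 * CE)) / M) =
        K1 * K2 * ((K0 + 1) * ((2 * I0) * (2 * CE))) / M * (lz * U) := by
      rw [hΛ]; ring
    rw [h3]
    calc _ ≤ K1 * K2 * ((K0 + 1) * ((2 * I0) * (2 * CE))) / M * (D * (600 / cE)) :=
          mul_le_mul_of_nonneg_left hUD (by positivity)
      _ = D * ((K1 * K2) * ((K0 + 1) * (600 / cE * (2 * I0) * (2 * CE))) / M) := by ring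
      _ ≤ _ := mul_le_mul_of_nonneg_left hMc hD0.le
  have h4 : K1 * Λ * ((K0 + 1) * e / M) ≤ K1 * Λ * ((K0 + 1) * e) := by
    apply mul_le_mul_of_nonneg_left _ (by positivity)
    exact div_le_self (by positivity) hM1
  have h5 : K1 * Λ * ((K0 + 1) * (U * (2 * I0) * (2 * CE) + e) / M) =
      K1 * Λ * ((K0 + 1) * (U * (2 * I0) * (2 * CE)) / M) + K1 * Λ * ((K0 + 1) * e / M) := by ring
  rw [h5] at h1
  linarith

/-- the error terms -/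
theorem t_err (ρ K1 K0 K2 Ac ℓ ζ zr zη er Ec κ Λ D' : ℝ)
    (hρ : 0 ≤ ρ) (hK1 : 0 ≤ K1) (hK0 : 0 ≤ K0) (hK2 : 0 ≤ K2) (hAc : 0 ≤ Ac)
    (hℓ : 1 ≤ ℓ) (hζ : 0 < ζ) (hzr : 0 ≤ zr) (hκ0 : 0 ≤ κ)
    (hΛ : Λ = K2 * ℓ) (her : er = Ac * (2 * zr)) (hEc : Ec ≤ 2 * ℓ ^ 25) (hκ : κ ≤ 2 * K2 * ℓ)
    (h14 : zη * zr ≤ ζ) (h14' : zr ≤ ζ) (hzη0 : 0 ≤ zη)
    (h1 : ((ρ * K2 + K1 * K2 * (K0 + 1) + K1 * K2 * (K0 + 1) * (2 * (2 * K2))) * (Ac * 2)) *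
      (ℓ ^ (3 + 27) * ζ) ≤ D') :
    ρ * Λ * er + K1 * Λ * ((K0 + 1) * (zη * er)) + K1 * Λ * ((K0 + 1) * (Ec * κ * er)) ≤ D' := by
  have hp30 : ℓ ≤ ℓ ^ (3 + 27) := le_self_pow₀ hℓ (by norm_num)
  have t1 : ρ * Λ * er ≤ ρ * K2 * (Ac * 2) * (ℓ ^ (3 + 27) * ζ) := by
    have e1 : ρ * Λ * er = ρ * K2 * (Ac * 2) * (ℓ * zr) := by
      rw [hΛ, her]; ring
    rw [e1]
    apply mul_le_mul_of_nonneg_left _ (by positivity)
    exact mul_le_mul hp30 h14' hzr (by positivity)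
  have t2 : K1 * Λ * ((K0 + 1) * (zη * er)) ≤ K1 * K2 * (K0 + 1) * (Ac * 2) * (ℓ ^ (3 + 27) * ζ) := by
    have e1 : K1 * Λ * ((K0 + 1) * (zη * er)) =
        K1 * K2 * (K0 + 1) * (Ac * 2) * (ℓ * (zη * zr)) := by
      rw [hΛ, her]; ring
    rw [e1]
    apply mul_le_mul_of_nonneg_left _ (by positivity)
    exact mul_le_mul hp30 h14 (by positivity) (by positivity)
  have t3 : K1 * Λ * ((K0 + 1) * (Ec * κ * er)) ≤
      K1 * K2 * (K0 + 1) * (2 * (2 * K2)) * (Ac * 2) * (ℓ ^ (3 + 27) * ζ) := by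
    have e1 : K1 * Λ * ((K0 + 1) * (Ec * κ * er)) =
        K1 * K2 * (K0 + 1) * (Ac * 2) * ((ℓ * (Ec * κ)) * zr) := by
      rw [hΛ, her]; ring
    have e2 : K1 * K2 * (K0 + 1) * (2 * (2 * K2)) * (Ac * 2) * (ℓ ^ (3 + 27) * ζ) =
        K1 * K2 * (K0 + 1) * (Ac * 2) * ((2 * (2 * K2) * ℓ ^ (3 + 27)) * ζ) := by ring
    rw [e1, e2]
    apply mul_le_mul_of_nonneg_left _ (by positivity)
    apply mul_le_mul _ h14' hzr (by positivity)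
    calc ℓ * (Ec * κ) ≤ ℓ * ((2 * ℓ ^ 25) * (2 * K2 * ℓ)) := by
          apply mul_le_mul_of_nonneg_left _ (by linarith)
          exact mul_le_mul hEc hκ hκ0 (by positivity)
      _ = 2 * (2 * K2) * ℓ ^ 27 := by ring
      _ ≤ 2 * (2 * K2) * ℓ ^ (3 + 27) := by
          apply mul_le_mul_of_nonneg_left _ (by positivity)
          exact pow_le_pow_right₀ hℓ (by norm_num)
  have t4 : ((ρ * K2 + K1 * K2 * (K0 + 1) + K1 * K2 * (K0 + 1) * (2 * (2 * K2))) *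
      (Ac * 2)) * (ℓ ^ (3 + 27) * ζ) =
      ρ * K2 * (Ac * 2) * (ℓ ^ (3 + 27) * ζ) +
      K1 * K2 * (K0 + 1) * (Ac * 2) * (ℓ ^ (3 + 27) * ζ) +
      K1 * K2 * (K0 + 1) * (2 * (2 * K2)) * (Ac * 2) * (ℓ ^ (3 + 27) * ζ) := by ring
  rw [t4] at h1
  exact (add_le_add (add_le_add t1 t2) t3).trans h1

/-- the last comparison -/
theorem t_fin (K1 K2 Ac ℓ zr Λ D cst xr Gc low : ℝ) (hK1 : 0 ≤ K1) (hK2 : 0 < K2) (hAc : 0 ≤ Ac)
    (hℓ : 0 < ℓ) (hzr : 0 < zr) (hG : 0 ≤ Gc) (hΛ : Λ = K2 * ℓ) (hD : 0 < D) (hcst : 0 < cst)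
    (hlow : low ≤ D) (h1 : xr * ((K1 * K2) * (Ac + 1) * (ℓ ^ 1 * zr)) ≤ cst / 16 * low)
    (h3 : D * (cst / 16) ≤ Gc * ((K1 * Λ) * (Ac * zr))) : xr ≤ Gc := by
  have hK1pos : 0 < K1 := by
    rcases hK1.eq_or_lt with h | h
    · exfalso
      rw [← h] at h3
      have h5 : Gc * (0 * Λ * (Ac * zr)) = 0 := by ring
      rw [h5] at h3
      have : 0 < D * (cst / 16) := by positivity
      linarith
    · exact h
  have h2 : cst / 16 * low ≤ cst / 16 * D := mul_le_mul_of_nonneg_left hlow (by positivity)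
  have h4 : xr * ((K1 * K2) * (Ac + 1) * (ℓ ^ 1 * zr)) ≤ Gc * ((K1 * K2) * (Ac + 1) * (ℓ ^ 1 * zr)) := by
    calc _ ≤ cst / 16 * D := h1.trans h2
      _ = D * (cst / 16) := by ring
      _ ≤ _ := h3
      _ ≤ Gc * ((K1 * K2) * (Ac + 1) * (ℓ ^ 1 * zr)) := by
          apply mul_le_mul_of_nonneg_left _ hG
          rw [hΛ, pow_one]
          have h6 : 0 ≤ K1 * K2 * (ℓ * zr) := by positivity
          calc K1 * (K2 * ℓ) * (Ac * zr) = K1 * K2 * (ℓ * zr) * Ac := by ring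
            _ ≤ K1 * K2 * (ℓ * zr) * (Ac + 1) := mul_le_mul_of_nonneg_left (by linarith) h6
            _ = _ := by ring
  exact le_of_mul_le_mul_right h4 (by positivity)

theorem t_Vκ (z K2 : ℝ) (K' κ : ℕ) (hz : 1 < z) (hK2 : K2 = (K' : ℝ) + 3) (hκ : κ = ⌊2 * K2 * Real.log z⌋₊) :
    z ^ (K' + 3) < 2 ^ (κ + 1) := by
  have hz0 : 0 < z := by linarith
  have hlz : 0 < Real.log z := Real.log_pos hz
  have hK20 : 0 < K2 := by rw [hK2]; positivity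
  have h1 : 2 * K2 * Real.log z < (κ : ℝ) + 1 := by rw [hκ]; exact Nat.lt_floor_add_one _
  have h2 : z ^ (K' + 3) = Real.exp (K2 * Real.log z) := by
    have : Real.exp (K2 * Real.log z) = z ^ (K' + 3) := by
      rw [hK2, show ((K' : ℝ) + 3) = ((K' + 3 : ℕ) : ℝ) by push_cast; ring, Real.exp_nat_mul, Real.exp_log hz0]
    exact this.symm
  have h3 : (2 : ℝ) ^ (κ + 1) = Real.exp ((κ + 1 : ℕ) * Real.log 2) := by
    rw [Real.exp_nat_mul, Real.exp_log (by norm_num)]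
  rw [h2, h3]
  apply Real.exp_lt_exp.2
  push_cast
  have h4 : (1 / 2 : ℝ) < Real.log 2 := by
    have := Real.log_two_gt_d9
    linarith
  have h5 : 0 < K2 * Real.log z := by positivity
  nlinarith

theorem t_VR (z K2 η : ℝ) (K' R : ℕ) (hz : 1 < z) (hη : 0 < η) (hK2 : K2 = (K' : ℝ) + 3) (hR : R = ⌈K2 / η⌉₊) :
    z ^ (K' + 3) ≤ (z ^ η) ^ R := by
  have hz0 : 0 < z := by linarith
  rw [← Real.rpow_natCast, ← Real.rpow_natCast, ← Real.rpow_mul hz0.le]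
  apply Real.rpow_le_rpow_of_exponent_le (by linarith)
  have h1 : K2 / η ≤ R := by rw [hR]; exact Nat.le_ceil _
  rw [div_le_iff₀ hη] at h1
  push_cast
  rw [← hK2]
  linarith

theorem t_V (z x a b n : ℝ) (K' : ℕ) (hz : 4 ≤ z) (ha : a ≤ z) (ha0 : 0 ≤ a) (hb : b ≤ z) (hn0 : 0 ≤ n)
    (hn : n ≤ 3 * x) (hx : x ≤ z ^ K') : a * n + b ≤ z ^ (K' + 3) := by
  have hz0 : 0 < z := by linarith
  have e1 : a * n ≤ z * (3 * z ^ K') := mul_le_mul ha (by linarith) hn0 hz0.le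
  have e3 : (1 : ℝ) ≤ z ^ K' := one_le_pow₀ (by linarith)
  calc a * n + b ≤ z * (3 * z ^ K') + z := add_le_add e1 hb
    _ ≤ z * (4 * z ^ K') := by nlinarith
    _ ≤ z * (z * z * z ^ K') := by
        apply mul_le_mul_of_nonneg_left _ hz0.le
        apply mul_le_mul_of_nonneg_right _ (by positivity)
        nlinarith
    _ = z ^ (K' + 3) := by ring

end Pool.Agent.L7h28.UM
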