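import Mathlib
import Pool.Agent.L7h28.UM.Core4

set_option autoImplicit false

/-! The lower bound for the weighted number of primes at a good scale, summed over many residue classes. -/

open Finset Filter
open scoped ContDiff

namespace Pool.Agent.L7h28.UM

open Pool.Agent.H378R2

/-- the number of the squarefree divisors -/
theorem VV_le (E : Finset ℕ) (R : ℕ) (L : ℝ) (F : ℝ → ℝ) (hF : ∀ x, |F x| ≤ 1) (v : ℕ) (hv : v ≠ 0) :
    |VVm E R L F (v : ℤ)| ≤ 2 ^ (ArithmeticFunction.cardFactors v) := by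
  classical
  have h1 : |VVm E R L F (v : ℤ)| ≤ (((adm E R).filter (fun d => d ∣ v)).card : ℝ) := by
    unfold VVm
    refine (abs_sum_le_sum_abs _ _).trans ?_
    rw [card_filter, Nat.cast_sum]
    apply sum_le_sum
    intro d _
    by_cases h : d ∣ v
    · rw [if_pos (Int.natCast_dvd_natCast.2 h), if_pos h, abs_mul]
      have h2 : |((ArithmeticFunction.moebius d : ℤ) : ℝ)| ≤ 1 := by
        have := ArithmeticFunction.abs_moebius_le_one (n := d)
        exact_mod_cast this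
      calc _ ≤ (1 : ℝ) * 1 := mul_le_mul h2 (hF _) (abs_nonneg _) zero_le_one
        _ = _ := by norm_num
    · rw [if_neg (by rwa [Int.natCast_dvd_natCast]), if_neg h]
      simp
  refine h1.trans ?_
  have h2 : ((adm E R).filter (fun d => d ∣ v)).card ≤ v.primeFactors.powerset.card := by
    apply card_le_card_of_injOn (fun d => d.primeFactors)
    · intro d hd
      rw [mem_coe, mem_filter] at hd
      rw [mem_coe, mem_powerset]
      exact Nat.primeFactors_mono hd.2 hv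
    · intro d hd e he hde
      rw [mem_coe, mem_filter] at hd he
      unfold adm at hd he
      rw [mem_filter] at hd he
      have e1 := Nat.prod_primeFactors_of_squarefree hd.1.2.1
      have e2 := Nat.prod_primeFactors_of_squarefree he.1.2.1
      rw [← e1, ← e2]
      exact congrArg (fun s : Finset ℕ => ∏ p ∈ s, p) hde
  rw [card_powerset] at h2
  have h3 : v.primeFactors.card ≤ ArithmeticFunction.cardFactors v := by
    rw [ArithmeticFunction.cardFactors_apply]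
    exact List.toFinset_card_le _
  have h4 : 2 ^ v.primeFactors.card ≤ 2 ^ (ArithmeticFunction.cardFactors v) := Nat.pow_le_pow_right (by norm_num) h3
  exact_mod_cast h2.trans h4

/-- the weight at an integer all of whose values are almost prime -/
theorem sqn_le_Om {K B : ℕ} (E : Finset ℕ) (z : ℝ) (f : Fin B → ℝ → ℝ) (hf1 : ∀ l x, |f l x| ≤ 1)
    (A : Finset (Fin K → Fin B)) (α β : Fin K → ℕ) (n Om : ℕ)
    (hv : ∀ j, α j * n + β j ≠ 0) (hOm : ∀ j, ArithmeticFunction.cardFactors (α j * n + β j) ≤ Om) :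
    sqn E z f A α β n ≤ ((A.card : ℝ) * (2 ^ Om) ^ K) ^ 2 := by
  unfold sqn
  rw [sq_le_sq]
  have h0 : |(A.card : ℝ) * (2 ^ Om) ^ K| = (A.card : ℝ) * (2 ^ Om) ^ K := abs_of_nonneg (by positivity)
  rw [h0]
  unfold sqw
  refine (abs_sum_le_sum_abs _ _).trans ?_
  rw [← nsmul_eq_mul]
  apply sum_le_card_nsmul
  intro a _
  rw [abs_prod]
  calc ∏ j, |VVm E (RR z) (LL z) (f (a j)) ((α j : ℤ) * (n : ℤ) + (β j : ℤ))| ≤ ∏ _j : Fin K, (2 : ℝ) ^ Om := by
        apply Finset.prod_le_prod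
        · intro j _; exact abs_nonneg _
        · intro j _
          have h1 : ((α j : ℤ) * (n : ℤ) + (β j : ℤ)) = ((α j * n + β j : ℕ) : ℤ) := by push_cast; ring
          rw [h1]
          refine (VV_le E (RR z) (LL z) (f (a j)) (hf1 _) _ (hv j)).trans ?_
          exact pow_le_pow_right₀ (by norm_num) (hOm j)
    _ = _ := by rw [prod_const, card_univ, Fintype.card_fin]

/-- the scale property for a general finite index set -/
theorem ScaleOK.fin {z : ℝ} {K' : ℕ} {c1 : ℝ} {q₁ : ℕ} (h : ScaleOK z K' c1 q₁) {T : Type} [Fintype T]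
    (w : T → ℝ) (α Q b : T → ℕ) (hw : ∀ i, 0 ≤ w i)
    (hα : ∀ i, 1 ≤ α i ∧ (α i : ℝ) ≤ z ^ (1 / 100 : ℝ))
    (hQ : ∀ i, 1 ≤ Q i ∧ (Q i : ℝ) ≤ z ^ (1 / 100 : ℝ) ∧ ¬ q₁ ∣ Q i) (hb : ∀ i, (b i).Coprime (Q i)) :
    ∃ x : ℝ, z ≤ x ∧ x ≤ z ^ K' ∧
      c1 * ∑ i, w i ≤ ∑ i, w i * (CS (α i * x) (Q i) (b i) * ((Q i).totient : ℝ) / (α i * x)) := by
  let e := Fintype.equivFin T
  obtain ⟨x, h1, h2, h3⟩ := h (Fintype.card T) (fun i => w (e.symm i)) (fun i => α (e.symm i))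
    (fun i => Q (e.symm i)) (fun i => b (e.symm i)) (fun i => hw _) (fun i => hα _) (fun i => hQ _) (fun i => hb _)
  refine ⟨x, h1, h2, ?_⟩
  rw [Equiv.sum_comp e.symm w,
    Equiv.sum_comp e.symm (fun i => w i * (CS (α i * x) (Q i) (b i) * ((Q i).totient : ℝ) / (α i * x)))] at h3
  exact h3

theorem low_fin (PK xφ c1 M0 I0 cst cd SC SE ST : ℝ) (hPK : 0 < PK) (hcst : cst = c1 * M0 * I0)
    (h1 : PK * SC / 2 - SE ≤ ST) (h2 : (xφ * (c1 * (M0 / 2 * I0))) * cd ≤ SC) (h3 : SE ≤ PK * xφ * (cst / 8) * cd) :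
    PK * xφ * (c1 * M0 * I0 / 8) * cd ≤ ST := by
  have h4 := mul_le_mul_of_nonneg_left h2 hPK.le
  have h6 : PK * xφ * (c1 * M0 * I0 / 8) * cd = PK * ((xφ * (c1 * (M0 / 2 * I0))) * cd) / 2 - PK * xφ * (cst / 8) * cd := by
    rw [hcst]; ring
  linarith

/-- the lower bound -/
theorem lower2 (h5 : SieveAsymp) (hCB : S_CB) (hE1 : S_E1) {K0 B : ℕ} (f : Fin B → ℝ → ℝ) (c : Fin B → ℝ)
    (A : Finset (Fin (K0 + 1) → Fin B)) (hfam : FamOK f c A) (hII : 0 < II f A) {K1 : ℕ}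
    (ι : Fin K1 ↪ Fin (K0 + 1)) (M0 : ℝ) (hM0 : 0 < M0) (hJJ : M0 * II f A ≤ ∑ j, JJ f A (ι j))
    (K' : ℕ) (c1 : ℝ) (hc1 : 0 < c1) :
    ∀ᶠ X : ℕ in atTop, ∀ (q₁ : ℕ), ScaleOK ((X : ℝ) ^ 400) K' c1 q₁ →
      ∀ (α β : Fin (K0 + 1) → ℕ) (S E : Finset ℕ) (AR : Finset ℕ),
      (∀ j, 1 ≤ α j ∧ (α j : ℝ) ≤ X ∧ (β j : ℝ) ≤ X) → EOK 25 ((X : ℝ) ^ 400) E → SysOK E α β →
      (∀ p : ℕ, p.Prime → p ∣ WX X S → p ∈ E) →
      (∀ j, ¬ q₁ ∣ α (ι j) * WX X S) → (∀ a0 ∈ AR, ∀ j, (α j * a0 + β j).Coprime (α j * WX X S)) →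
      ∃ x : ℝ, (X : ℝ) ^ 400 ≤ x ∧ x ≤ ((X : ℝ) ^ 400) ^ K' ∧
        (1 / (LL ((X : ℝ) ^ 400) * BE E)) ^ K0 * (x / ((WX X S).totient : ℝ)) * (c1 * M0 * II f A / 8) * AR.card ≤
          ∑ a0 ∈ AR, ∑ j, TP E ((X : ℝ) ^ 400) f A α β x a0 (WX X S) (ι j) := by
  classical
  set I0 := II f A with hI0
  set ε1 : ℝ := M0 * I0 / (4 * ((K1 : ℝ) + 1)) with hε1
  have hε1pos : 0 < ε1 := by positivity
  set cst : ℝ := c1 * M0 * I0 with hcst
  have hcst0 : 0 < cst := by positivity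
  have ev1 := S2_bound h5 hCB hE1 f c A hfam ε1 hε1pos (K' + 1)
  have ev3 := evB K0 K' (((K1 : ℝ) + 1) * (A.card : ℝ) ^ 2) (cst / 16) (by positivity) (by positivity)
  have ev5 := Real.tendsto_log_atTop.eventually_ge_atTop (16 * ((K1 : ℝ) + 1) / cst)
  have ht : Tendsto (fun X : ℕ => ((X : ℝ)) ^ 400) atTop atTop :=
    (tendsto_pow_atTop (by norm_num)).comp tendsto_natCast_atTop_atTop
  filter_upwards [ht.eventually ev1, ht.eventually ev3, ht.eventually ev5, basics] with X w2 w4 w6 hbas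
  intro q₁ hscale α β S E AR hαβ hE hSys hWE hq₁ ha0
  obtain ⟨hX1, hlogX1, hlogz, hzr, hXz, hz4⟩ := hbas
  have hX0 : (0 : ℝ) < X := by linarith
  have hXz1 : (X : ℝ) ≤ (X : ℝ) ^ 400 := le_self_pow₀ (by linarith) (by norm_num)
  set z : ℝ := (X : ℝ) ^ 400 with hz
  clear_value z
  have hz0 : 0 < z := by linarith
  have hlz0 : 0 < Real.log z := by rw [hlogz]; linarith
  obtain ⟨W, hW⟩ : ∃ W : ℕ, W = WX X S := ⟨_, rfl⟩
  have hWpos : 0 < W := hW ▸ WX_pos _ _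
  have hWX2 : (W : ℝ) ≤ (X : ℝ) ^ 2 := hW ▸ WX_le (by linarith) S
  rw [← hW] at hWE hq₁ ha0 ⊢
  have hW0 : (0 : ℝ) < W := by exact_mod_cast hWpos
  have hQ : ∀ i, ((α i * W : ℕ) : ℝ) ≤ z ^ (1 / 100 : ℝ) := by
    intro i
    rw [hzr]
    push_cast
    calc (α i : ℝ) * W ≤ X * (X : ℝ) ^ 2 := mul_le_mul (hαβ i).2.1 hWX2 hW0.le hX0.le
      _ = (X : ℝ) ^ 3 := by ring
      _ ≤ (X : ℝ) ^ 4 := pow_le_pow_right₀ (by linarith) (by norm_num)
  set w : Fin K1 → ℝ := fun i => if 2 * ε1 ≤ JJ f A (ι i) then JJ f A (ι i) else 0 with hw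
  have hw0 : ∀ i, 0 ≤ w i := by
    intro i
    simp only [hw]
    split_ifs with h
    · linarith
    · exact le_rfl
  obtain ⟨x, hzx, hxz, hxs⟩ := hscale.fin (T := Fin K1 × {a // a ∈ AR}) (fun t => w t.1) (fun t => α (ι t.1))
    (fun t => α (ι t.1) * W) (fun t => α (ι t.1) * t.2.1 + β (ι t.1)) (fun t => hw0 t.1)
    (fun i => ⟨(hαβ _).1, (hαβ _).2.1.trans hXz⟩)
    (fun i => ⟨Nat.mul_pos (hαβ _).1 hWpos, hQ _, hq₁ i.1⟩) (fun t => ha0 t.2.1 t.2.2 (ι t.1))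
  have hsumT : ∀ F : Fin K1 → ℕ → ℝ, ∑ t : Fin K1 × {a // a ∈ AR}, F t.1 t.2.1 = ∑ a0 ∈ AR, ∑ j, F j a0 := by
    intro F
    rw [Fintype.sum_prod_type_right, ← sum_coe_sort AR (fun a0 => ∑ j, F j a0)]
  rw [hsumT (fun j _ => w j), hsumT (fun j a0 => w j * (CS (α (ι j) * x) (α (ι j) * W) (α (ι j) * a0 + β (ι j)) *
    ((α (ι j) * W).totient : ℝ) / (α (ι j) * x)))] at hxs
  rw [sum_const, nsmul_eq_mul] at hxs
  refine ⟨x, hzx, hxz, ?_⟩
  have hx0 : 0 < x := by linarith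
  obtain ⟨φW, hφW⟩ : ∃ φW : ℝ, φW = (W.totient : ℝ) := ⟨_, rfl⟩
  have hφW0 : 0 < φW := by rw [hφW]; exact_mod_cast Nat.totient_pos.2 hWpos
  have hφWle : φW ≤ z ^ (1 / 100 : ℝ) := by
    have h1 : φW ≤ W := by rw [hφW]; exact_mod_cast Nat.totient_le W
    have h2 : (W : ℝ) ≤ (X : ℝ) ^ 4 := hWX2.trans (pow_le_pow_right₀ (by linarith) (by norm_num))
    rw [hzr]
    exact h1.trans h2
  rw [← hφW]
  have hBE : 0 < BE E := BE_pos hE.1
  have hBE1 : BE E ≤ 1 := BE_le_one hE.1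
  have hL0 : 0 < LL z := LL_pos_of (by linarith)
  obtain ⟨PK, hPK⟩ : ∃ PK : ℝ, PK = (1 / (LL z * BE E)) ^ K0 := ⟨_, rfl⟩
  rw [← hPK]
  have hPK0 : 0 < PK := by rw [hPK]; positivity
  have hPKlow : (1 / Real.log z) ^ K0 ≤ PK := by
    rw [hPK]
    apply pow_le_pow_left₀ (by positivity)
    apply one_div_le_one_div_of_le (by positivity)
    have h1 : LL z ≤ Real.log z := by unfold LL; linarith
    calc LL z * BE E ≤ LL z * 1 := mul_le_mul_of_nonneg_left hBE1 hL0.le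
      _ ≤ _ := by linarith
  have hlow : (1 / Real.log z) ^ K0 * (x / z ^ (1 / 100 : ℝ)) ≤ PK * (x / φW) := by
    apply mul_le_mul hPKlow _ (by positivity) hPK0.le
    exact div_le_div_of_nonneg_left hx0.le hφW0 hφWle
  have hPx : 0 < PK * (x / φW) := by positivity
  -- the errors
  have hErr : ∀ j, ErS (α (ι j) * x) z (BE E) K0 (α (ι j) * W) A.card ≤
      PK * (x / φW) / Real.log z + PK * (x / φW) * (cst / 16) / ((K1 : ℝ) + 1) := by
    intro j
    have hαi : (1 : ℝ) ≤ α (ι j) := by exact_mod_cast (hαβ (ι j)).1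
    have hy : x ≤ (α (ι j) : ℝ) * x := le_mul_of_one_le_left hx0.le hαi
    refine one_form PK z x φW (Real.log z) _ A.card (BE E) K0 (α (ι j)) W X (by linarith) hPK hPK0 rfl hlz0
      (by rw [hlogz]; linarith) hφW hφW0 hx0 (hαβ _).1 (hαβ _).2.1 ?_
    have h2 := w4 x (α (ι j) * x) hzx (by linarith) (by linarith) (by
      exact mul_le_mul_of_nonneg_right ((hαβ _).2.1.trans hXz) hx0.le) hxz
    rw [le_div_iff₀ (by positivity)]
    calc _ = ((K1 : ℝ) + 1) * (A.card : ℝ) ^ 2 * (Real.exp (2 * LL z) *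
          (2 * Real.sqrt (3 * (α (ι j) * x)) * Real.log (3 * (α (ι j) * x)))) := by ring
      _ ≤ _ := h2
      _ ≤ cst / 16 * (PK * (x / φW)) := mul_le_mul_of_nonneg_left hlow (by positivity)
      _ = _ := by ring
  have hlower : ∀ a0 ∈ AR, ∀ j, PK * (CS (α (ι j) * x) (α (ι j) * W) (α (ι j) * a0 + β (ι j)) * w j) / 2 -
      ErS (α (ι j) * x) z (BE E) K0 (α (ι j) * W) A.card ≤ TP E z f A α β x a0 W (ι j) := by
    intro a0 ha j
    have hαi : (1 : ℝ) ≤ α (ι j) := by exact_mod_cast (hαβ (ι j)).1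
    have hy : x ≤ (α (ι j) : ℝ) * x := le_mul_of_one_le_left hx0.le hαi
    have hCS0 := CS_nonneg (α (ι j) * x) (α (ι j) * W) (α (ι j) * a0 + β (ι j))
    have h1 := w2 E W a0 α β (ι j) x hE hWpos hWE hSys hzx (by
        rw [pow_succ']
        exact mul_le_mul ((hαβ _).2.1.trans hXz1) hxz hx0.le hz0.le) (hαβ _).1 (hQ _)
        ((hαβ _).2.2.trans hXz) (ha0 a0 ha _)
    rw [← hPK] at h1
    refine one_lower PK (JJ f A (ι j)) ε1 (w j) _ _ _ hPK0 hCS0 rfl ?_ ?_ h1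
    · unfold ErS
      have hl : 0 ≤ Real.log (3 * (α (ι j) * x)) := Real.log_nonneg (by linarith)
      positivity
    · unfold TP
      exact sum_nonneg fun n _ => mul_nonneg (Phi_nonneg _) (mul_nonneg (th_nonneg _) (sqn_nonneg _ _ _ _ _ _ _))
  have hwsum : M0 / 2 * I0 ≤ ∑ i, w i := by
    have h1 : ∀ i, JJ f A (ι i) - 2 * ε1 ≤ w i := by
      intro i
      simp only [hw]
      split_ifs with h
      · linarith
      · linarith
    have h2 := sum_le_sum fun i (_ : i ∈ (univ : Finset (Fin K1))) => h1 i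
    rw [sum_sub_distrib, sum_const, card_univ, Fintype.card_fin, nsmul_eq_mul] at h2
    have h3 : (K1 : ℝ) * (2 * ε1) ≤ M0 * I0 / 2 := by
      rw [hε1]
      have : (K1 : ℝ) * (2 * (M0 * I0 / (4 * ((K1 : ℝ) + 1)))) = (M0 * I0 / 2) * (K1 / ((K1 : ℝ) + 1)) := by
        field_simp
        norm_num
      rw [this]
      apply mul_le_of_le_one_right (by positivity)
      rw [div_le_one (by positivity)]
      linarith
    linarith
  have hcsum : ((x / φW) * (c1 * (M0 / 2 * I0))) * AR.card ≤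
      ∑ a0 ∈ AR, ∑ j, CS (α (ι j) * x) (α (ι j) * W) (α (ι j) * a0 + β (ι j)) * w j := by
    have h1 : ((x / φW) * (c1 * (M0 / 2 * I0))) * AR.card ≤ (x / φW) * (c1 * (AR.card * ∑ i, w i)) := by
      calc _ = (x / φW) * (c1 * (AR.card * (M0 / 2 * I0))) := by ring
        _ ≤ _ := by
          apply mul_le_mul_of_nonneg_left _ (by positivity)
          apply mul_le_mul_of_nonneg_left _ hc1.le
          exact mul_le_mul_of_nonneg_left hwsum (Nat.cast_nonneg _)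
    refine h1.trans ((mul_le_mul_of_nonneg_left hxs (by positivity)).trans ?_)
    rw [mul_sum]
    apply sum_le_sum
    intro a0 _
    rw [mul_sum]
    apply sum_le_sum
    intro j _
    have hαi : (1 : ℝ) ≤ α (ι j) := by exact_mod_cast (hαβ (ι j)).1
    have hCS0 := CS_nonneg (α (ι j) * x) (α (ι j) * W) (α (ι j) * a0 + β (ι j))
    have h2 : ((α (ι j) * W).totient : ℝ) ≤ α (ι j) * φW := by
      rw [hφW]
      exact totient_mul_le' (α (ι j)) W (by have := (hαβ (ι j)).1; omega) hWpos.ne'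
    have h3 := cs_lower _ _ _ φW x hCS0 (by linarith : (0 : ℝ) < α (ι j)) hφW0 hx0 h2
    calc _ = w j * ((x / φW) * (CS (α (ι j) * x) (α (ι j) * W) (α (ι j) * a0 + β (ι j)) *
          ((α (ι j) * W).totient : ℝ) / (α (ι j) * x))) := by ring
      _ ≤ w j * CS (α (ι j) * x) (α (ι j) * W) (α (ι j) * a0 + β (ι j)) := mul_le_mul_of_nonneg_left h3 (hw0 j)
      _ = _ := mul_comm _ _
  have hEsum : ∑ _a0 ∈ AR, ∑ j, ErS (α (ι j) * x) z (BE E) K0 (α (ι j) * W) A.card ≤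
      PK * (x / φW) * (cst / 8) * AR.card := by
    rw [sum_const, nsmul_eq_mul, mul_comm]
    apply mul_le_mul_of_nonneg_right _ (Nat.cast_nonneg _)
    have h3 := sum_le_sum fun i (_ : i ∈ (univ : Finset (Fin K1))) => hErr i
    rw [sum_const, card_univ, Fintype.card_fin, nsmul_eq_mul] at h3
    have h4 : (K1 : ℝ) * (PK * (x / φW) / Real.log z + PK * (x / φW) * (cst / 16) / ((K1 : ℝ) + 1)) ≤
        PK * (x / φW) * (cst / 8) := by
      have e1 : (K1 : ℝ) * (PK * (x / φW) / Real.log z + PK * (x / φW) * (cst / 16) / ((K1 : ℝ) + 1)) =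
          PK * (x / φW) * (K1 / Real.log z) + PK * (x / φW) * (cst / 16) * (K1 / ((K1 : ℝ) + 1)) := by ring
      rw [e1]
      have e2 : (K1 : ℝ) / Real.log z ≤ cst / 16 := by
        rw [div_le_div_iff₀ hlz0 (by norm_num)]
        have := w6
        rw [div_le_iff₀ hcst0] at this
        linarith
      have e3 : (K1 : ℝ) / ((K1 : ℝ) + 1) ≤ 1 := by
        rw [div_le_one (by positivity)]; linarith
      have e4 := mul_le_mul_of_nonneg_left e2 hPx.le
      have e5 : PK * (x / φW) * (cst / 16) * (K1 / ((K1 : ℝ) + 1)) ≤ PK * (x / φW) * (cst / 16) :=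
        mul_le_of_le_one_right (by positivity) e3
      linarith
    exact h3.trans h4
  have h1 : PK * (∑ a0 ∈ AR, ∑ j, CS (α (ι j) * x) (α (ι j) * W) (α (ι j) * a0 + β (ι j)) * w j) / 2 -
      ∑ _a0 ∈ AR, ∑ j, ErS (α (ι j) * x) z (BE E) K0 (α (ι j) * W) A.card ≤
      ∑ a0 ∈ AR, ∑ j, TP E z f A α β x a0 W (ι j) := by
    rw [mul_sum, sum_div, ← sum_sub_distrib]
    apply sum_le_sum
    intro a0 ha
    rw [mul_sum, sum_div, ← sum_sub_distrib]
    apply sum_le_sum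
    intro j _
    exact hlower a0 ha j
  exact low_fin PK (x / φW) c1 M0 I0 cst AR.card _ _ _ hPK0 hcst h1 hcsum hEsum

end Pool.Agent.L7h28.UM
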