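import Mathlib
import Pool.Agent.L7h28.UM.Stm2
import Pool.Agent.L7h28.UM.Core1

set_option autoImplicit false

/-! Statements for the last round: large exceptional modulus, and the count of the right order. -/

open Finset Filter

namespace Pool.Agent.L7h28.UM

/-- (P2) a common scale for several progressions; the exceptional modulus is larger than every power of
`log z` (Siegel-Walfisz) -/
def S_P2 : Prop := ∃ (K' : ℕ) (c1 : ℝ) (e : ℝ → ℕ), 1 ≤ K' ∧ 0 < c1 ∧
    (∀ B : ℕ, ∀ᶠ z : ℝ in atTop, (Real.log z) ^ B ≤ (e z : ℝ)) ∧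
    ∀ᶠ z : ℝ in atTop, 2 ≤ e z ∧ ScaleOK z K' c1 (e z)

/-- (ADM) the number of the admissible residue classes -/
def S_ADM : Prop := ∀ k : ℕ, ∃ c : ℝ, 0 < c ∧ ∀ (W : ℕ) (α β : Fin k → ℕ), 0 < W → Squarefree W →
    (∀ p : ℕ, p.Prime → ∃ n : ℕ, ∀ j, ¬ p ∣ α j * n + β j) →
    c * (W * ((W.totient : ℝ) / W) ^ k) ≤
      (((range W).filter (fun a => ∀ j, (α j * a + β j).Coprime (α j * W))).card : ℝ)

end Pool.Agent.L7h28.UM
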