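import Mathlib
import Pool.Agent.L7h28.UM.Core5
import Pool.Agent.L7h28.UM.Stm3

set_option autoImplicit false

/-! The core, with the count of the right order of magnitude. -/

open Finset Filter
open scoped ContDiff

namespace Pool.Agent.L7h28.UM

open Pool.Agent.H378R2

theorem WX_squarefree (X : ℝ) (S : Finset ℕ) : Squarefree (WX X S) := by
  unfold WX
  apply Finset.squarefree_prod_of_pairwise_isCoprime
  · intro a ha b hb hab
    have ha' := (mem_filter.1 (mem_coe.1 ha)).2.1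
    have hb' := (mem_filter.1 (mem_coe.1 hb)).2.1
    exact (Nat.coprime_iff_isRelPrime).1 ((Nat.coprime_primes ha' hb').2 hab)
  · intro l hl
    exact (mem_filter.1 hl).2.1.prime.squarefree

theorem BE_le_totient {E : Finset ℕ} {W : ℕ} (hE : ∀ p ∈ E, p.Prime) (hW : 0 < W)
    (hWE : ∀ p : ℕ, p.Prime → p ∣ W → p ∈ E) : BE E ≤ (W.totient : ℝ) / W := by
  have hW0 : (0 : ℝ) < W := by exact_mod_cast hW
  rw [totient_real, mul_div_assoc, mul_comm, div_mul_cancel₀ _ hW0.ne']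
  unfold BE
  apply Finset.prod_le_prod_of_subset_of_le_one
  · intro p hp
    exact hWE p (Nat.prime_of_mem_primeFactors hp) (Nat.dvd_of_mem_primeFactors hp)
  · intro p hp
    exact (one_sub_prime_pos (hE p hp)).le
  · intro p _ _
    have : (0 : ℝ) ≤ 1 / p := by positivity
    linarith

/-- one residue class -/
theorem per_class (D cst ρΛ KΛ S1 B1 B2 M e1 e2 e3 : ℝ)
    (h1 : ρΛ * S1 ≤ D * (cst / 64) + e1) (h2 : KΛ * B1 ≤ D * (cst / 64) + e2) (h3 : KΛ * (B2 / M) ≤ D * (cst / 64) + e3)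
    (he : e1 + e2 + e3 ≤ D * (cst / 64)) :
    ρΛ * S1 + KΛ * (B1 + B2 / M) ≤ D * (cst / 16) := by
  have : KΛ * (B1 + B2 / M) = KΛ * B1 + KΛ * (B2 / M) := by ring
  rw [this]
  linarith

/-- the last comparison -/
theorem t_fin2 (K1 K2 Cw ℓ Λ D cst cA x φW W BEE L PK AR Gc lx δ : ℝ) (K0 : ℕ) (hK1 : 0 ≤ K1) (hK2 : 0 < K2)
    (hCw : 0 ≤ Cw) (hℓ : 0 < ℓ) (hG : 0 ≤ Gc) (hΛ : Λ = K2 * ℓ) (hcst : 0 < cst) (hcA : 0 < cA) (hx : 0 < x)
    (hφW : 0 < φW) (hW : 0 < W) (hBE : 0 < BEE) (hL : 0 < L) (hLℓ : L ≤ ℓ) (hPK : PK = (1 / (L * BEE)) ^ K0)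
    (hD : D = PK * (x / φW)) (hBEW : BEE ≤ φW / W) (hAR : cA * (W * (φW / W) ^ (K0 + 1)) ≤ AR) (hlx : ℓ ≤ lx)
    (hδ : δ = cA * (cst / 16) / ((K1 * K2 + 1) * (Cw + 1)))
    (h3 : D * (cst / 16) * AR ≤ Gc * ((K1 * Λ) * Cw)) : δ * (x / lx ^ (K0 + 1)) ≤ Gc := by
  have hD0 : 0 < D := by rw [hD, hPK]; positivity
  have h4 : cA * (x * (1 / ℓ) ^ K0) ≤ D * AR := by
    calc cA * (x * (1 / ℓ) ^ K0) ≤ cA * (x * ((1 / (L * BEE)) * (φW / W)) ^ K0) := by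
          apply mul_le_mul_of_nonneg_left _ hcA.le
          apply mul_le_mul_of_nonneg_left _ hx.le
          apply pow_le_pow_left₀ (by positivity)
          rw [div_mul_eq_mul_div, one_mul, div_le_div_iff₀ hℓ (by positivity), one_mul]
          have e1 : L * BEE ≤ L * (φW / W) := mul_le_mul_of_nonneg_left hBEW hL.le
          have e2 : L * (φW / W) ≤ (φW / W) * ℓ := by
            rw [mul_comm]
            exact mul_le_mul_of_nonneg_left hLℓ (by positivity)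
          linarith
      _ = D * (cA * (W * (φW / W) ^ (K0 + 1))) := by
          rw [hD, hPK, mul_pow, pow_succ]
          field_simp
      _ ≤ _ := mul_le_mul_of_nonneg_left hAR hD0.le
  have hℓx : 0 < lx := by linarith
  have h5 : x / lx ^ (K0 + 1) ≤ x * (1 / ℓ) ^ K0 * (1 / ℓ) := by
    calc x / lx ^ (K0 + 1) ≤ x / ℓ ^ (K0 + 1) := by
          apply div_le_div_of_nonneg_left hx.le (by positivity)
          exact pow_le_pow_left₀ hℓ.le hlx _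
      _ = _ := by rw [one_div_pow, pow_succ]; field_simp
  have h6 : (cst / 16) * (cA * (x * (1 / ℓ) ^ K0)) ≤ Gc * ((K1 * Λ) * Cw) := by
    calc _ ≤ (cst / 16) * (D * AR) := mul_le_mul_of_nonneg_left h4 (by positivity)
      _ = D * (cst / 16) * AR := by ring
      _ ≤ _ := h3
  have h7 : Gc * ((K1 * Λ) * Cw) ≤ Gc * (((K1 * K2 + 1) * (Cw + 1)) * ℓ) := by
    apply mul_le_mul_of_nonneg_left _ hG
    rw [hΛ]
    have e1 : K1 * (K2 * ℓ) * Cw = (K1 * K2 * Cw) * ℓ := by ring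
    rw [e1]
    apply mul_le_mul_of_nonneg_right _ hℓ.le
    have e2 : 0 ≤ K1 * K2 := by positivity
    nlinarith
  have hden : 0 < (K1 * K2 + 1) * (Cw + 1) := by positivity
  calc δ * (x / lx ^ (K0 + 1)) ≤ δ * (x * (1 / ℓ) ^ K0 * (1 / ℓ)) := by
        apply mul_le_mul_of_nonneg_left h5
        rw [hδ]; positivity
    _ = ((cst / 16) * (cA * (x * (1 / ℓ) ^ K0))) / (((K1 * K2 + 1) * (Cw + 1)) * ℓ) := by
        rw [hδ]; field_simp
    _ ≤ (Gc * (((K1 * K2 + 1) * (Cw + 1)) * ℓ)) / (((K1 * K2 + 1) * (Cw + 1)) * ℓ) :=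
        div_le_div_of_nonneg_right (h6.trans h7) (by positivity)
    _ = Gc := by field_simp

theorem core2 (h5 : SieveAsymp) (hCB : S_CB) (hADM : S_ADM) (hE1 : S_E1) (hS1 : S_S1) (hS1P : S_S1P)
    {K0 B : ℕ} (f : Fin B → ℝ → ℝ) (c : Fin B → ℝ)
    (A : Finset (Fin (K0 + 1) → Fin B)) (hfam : FamOK f c A) (hII : 0 < II f A) {K1 : ℕ}
    (ι : Fin K1 ↪ Fin (K0 + 1)) (M0 : ℝ) (hM0 : 0 < M0) (hJJ : M0 * II f A ≤ ∑ j, JJ f A (ι j))
    (K' : ℕ) (c1 : ℝ) (hc1 : 0 < c1) (cE CE : ℝ) (hcE : 0 < cE) (hCE : 0 < CE)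
    (hcEev : ∀ᶠ X : ℝ in atTop, ∀ S E : Finset ℕ,
      (∀ p ∈ S, p.Prime) → ∑ p ∈ S, (1 : ℝ) / p ≤ 1 → EOK 25 (X ^ 400) E →
      cE * (((WX X S).totient : ℝ) / (WX X S : ℝ)) ≤ BE E)
    (hCEev : ∀ᶠ X : ℝ in atTop, ∀ S E : Finset ℕ,
      (∀ p ∈ S, p.Prime) → ∑ p ∈ S, (1 : ℝ) / p ≤ 1 → EOK 25 (X ^ 400) E →
      ∑ p ∈ E.filter (fun p => ¬ p ∣ WX X S), (1 : ℝ) / p ≤ CE)
    (ρ : ℕ) (hρ : (ρ : ℝ) * ((K' : ℝ) + 3) * (1200 / cE) ≤ c1 * M0 / 64) :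
    ∃ (Om : ℕ) (δ : ℝ), 0 < δ ∧ ∀ᶠ X : ℕ in atTop, ∀ (q₁ : ℕ), ScaleOK ((X : ℝ) ^ 400) K' c1 q₁ →
      ∀ (α β : Fin (K0 + 1) → ℕ) (S : Finset ℕ),
      (∀ j, 1 ≤ α j ∧ (α j : ℝ) ≤ X ∧ (β j : ℝ) ≤ X) → (∀ i j, i ≠ j → α i * β j ≠ α j * β i) →
      (∀ p : ℕ, p.Prime → ∃ n : ℕ, ∀ j, ¬ p ∣ α j * n + β j) →
      (∀ p ∈ S, p.Prime) → ∑ p ∈ S, (1 : ℝ) / p ≤ 1 →
      (∀ (j : Fin K1) (W : ℕ), (∀ p ∈ S, ¬ p ∣ W) → ¬ q₁ ∣ α (ι j) * W) →
      ∃ x : ℝ, (X : ℝ) ^ 400 ≤ x ∧ x ≤ ((X : ℝ) ^ 400) ^ K' ∧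
        δ * (x / (Real.log x) ^ (K0 + 1)) ≤ (((Icc 1 ⌊3 * x⌋₊).filter (fun n : ℕ => x ≤ 2 * n ∧
          ρ < ((univ : Finset (Fin K1)).filter (fun j => (α (ι j) * n + β (ι j)).Prime)).card ∧
          ∀ i, ArithmeticFunction.cardFactors (α i * n + β i) ≤ Om)).card : ℝ) := by
  classical
  obtain ⟨C, hC, hbad1⟩ := bad1_sum hS1P f c A hfam
  obtain ⟨I0, hI0⟩ : ∃ I0 : ℝ, I0 = II f A := ⟨_, rfl⟩
  have hI0pos : 0 < I0 := hI0 ▸ hII
  obtain ⟨K2, hK2⟩ : ∃ K2 : ℝ, K2 = (K' : ℝ) + 3 := ⟨_, rfl⟩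
  have hK20 : 0 < K2 := by rw [hK2]; positivity
  obtain ⟨cst, hcst⟩ : ∃ cst : ℝ, cst = c1 * M0 * I0 := ⟨_, rfl⟩
  have hcst0 : 0 < cst := by rw [hcst]; positivity
  -- choice of η
  obtain ⟨η, hη, hη1, hηc⟩ : ∃ η : ℝ, 0 < η ∧ η ≤ 1 / 100 ∧
      ((K1 : ℝ) * K2) * (C * η ^ 2) * (600 / cE) ≤ cst / 64 := by
    obtain ⟨D, hD⟩ : ∃ D : ℝ, D = ((K1 : ℝ) * K2) * C * (600 / cE) + 1 := ⟨_, rfl⟩
    have hD0 : 0 < D := by rw [hD]; positivity
    refine ⟨min (1 / 100) (cst / 64 / D), by positivity, min_le_left _ _, ?_⟩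
    obtain ⟨η, hη⟩ : ∃ η : ℝ, η = min (1 / 100) (cst / 64 / D) := ⟨_, rfl⟩
    rw [← hη]
    have h1 : η ≤ 1 / 100 := hη ▸ min_le_left _ _
    have h2 : η ≤ cst / 64 / D := hη ▸ min_le_right _ _
    have h0 : 0 < η := by rw [hη]; positivity
    have h3 : η ^ 2 ≤ η := by nlinarith
    have h4 : η * D ≤ cst / 64 := by rwa [le_div_iff₀ hD0] at h2
    calc ((K1 : ℝ) * K2) * (C * η ^ 2) * (600 / cE) = η ^ 2 * (((K1 : ℝ) * K2) * C * (600 / cE)) := by ring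
      _ ≤ η * D := by
          apply mul_le_mul h3 _ (by positivity) h0.le
          rw [hD]; linarith
      _ ≤ _ := h4
  -- choice of M
  obtain ⟨M, hMpos, hMc⟩ : ∃ M : ℕ, 0 < M ∧
      ((K1 : ℝ) * K2) * (((K0 : ℝ) + 1) * (600 / cE * (2 * I0) * (2 * CE))) / M ≤ cst / 64 := by
    obtain ⟨M, hM⟩ := exists_nat_gt (((K1 : ℝ) * K2) * (((K0 : ℝ) + 1) * (600 / cE * (2 * I0) * (2 * CE))) / (cst / 64))
    have hM0' : (0 : ℝ) < M := lt_of_le_of_lt (by positivity) hM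
    refine ⟨M, by exact_mod_cast hM0', ?_⟩
    rw [div_le_iff₀ hM0']
    rw [div_lt_iff₀ (by positivity)] at hM
    linarith
  have hMr : (0 : ℝ) < M := by exact_mod_cast hMpos
  -- number of large prime factors
  obtain ⟨R, hR⟩ : ∃ R : ℕ, R = ⌈K2 / η⌉₊ := ⟨_, rfl⟩
  obtain ⟨cA, hcA, hADM'⟩ := hADM (K0 + 1)
  obtain ⟨Cw, hCw⟩ : ∃ Cw : ℝ, Cw = ((A.card : ℝ) * (2 ^ (M + R)) ^ (K0 + 1)) ^ 2 := ⟨_, rfl⟩
  have hCw0 : 0 ≤ Cw := by rw [hCw]; positivity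
  obtain ⟨δ, hδ⟩ : ∃ δ : ℝ, δ = cA * (cst / 16) / ((K1 * K2 + 1) * (Cw + 1)) := ⟨_, rfl⟩
  refine ⟨M + R, δ, by rw [hδ]; positivity, ?_⟩
  have ht : Tendsto (fun X : ℕ => ((X : ℝ)) ^ 400) atTop atTop :=
    (tendsto_pow_atTop (by norm_num)).comp tendsto_natCast_atTop_atTop
  have ht2 : Tendsto (fun X : ℕ => ((X : ℝ))) atTop atTop := tendsto_natCast_atTop_atTop
  have hlow := lower2 h5 hCB hE1 f c A hfam hII ι M0 hM0 hJJ K' c1 hc1
  have ev2 := hS1 (K0 + 1) B f c A hfam 25 (by norm_num) (II f A) hII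
  have ev3 := hbad1 η hη
  have ev4 := evD (3 + 27) K0 (((ρ : ℝ) * K2 + K1 * K2 * ((K0 : ℝ) + 1) + K1 * K2 * ((K0 : ℝ) + 1) * (2 * (2 * K2))) *
    ((A.card : ℝ) ^ 2 * 2)) (cst / 64) (by positivity) (by positivity)
  filter_upwards [hlow, ht.eventually ev2, ht.eventually ev3, ht.eventually ev4,
    ht2.eventually hcEev, ht2.eventually hCEev, ht2.eventually (ES_ok (K0 + 1)), basics] with
    X v1 v2 v3 v4 v6 v7 v8 hbas
  intro q₁ hscale α β S hαβ hdet hfix hSp hSs hSq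
  obtain ⟨hX1, hlogX1, hlogz, hzr, hXz, hz4⟩ := hbas
  have hX0 : (0 : ℝ) < X := by linarith
  have hXz1 : (X : ℝ) ≤ (X : ℝ) ^ 400 := le_self_pow₀ (by linarith) (by norm_num)
  have hX4z : (X : ℝ) ^ 4 ≤ (X : ℝ) ^ 400 := pow_le_pow_right₀ (by linarith) (by norm_num)
  obtain ⟨hE, hSys⟩ := v8 α β hαβ hdet
  set z : ℝ := (X : ℝ) ^ 400 with hz
  clear_value z
  obtain ⟨E, hEd⟩ : ∃ E : Finset ℕ, E = ES z α β := ⟨_, rfl⟩
  rw [← hEd] at hE hSys
  obtain ⟨W, hW⟩ : ∃ W : ℕ, W = WX X S := ⟨_, rfl⟩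
  have hWpos : 0 < W := hW ▸ WX_pos _ _
  have hWE : ∀ p : ℕ, p.Prime → p ∣ W → p ∈ E := by
    intro p hp hd
    rw [hW] at hd
    apply hE.2.1 p hp
    have h1 := (WX_prime hp hd).1
    have h2 : (p : ℝ) ≤ Real.log X := (Nat.le_floor_iff (by linarith)).1 h1
    have h3 : Real.log X ≤ Real.log z := by rw [hlogz]; linarith
    have h4 : 1 ≤ Real.log z := by rw [hlogz]; linarith
    exact (h2.trans h3).trans (le_self_pow₀ h4 (by norm_num))
  have hWS : ∀ p ∈ S, ¬ p ∣ W := fun p hp hd => (WX_prime (hSp p hp) (hW ▸ hd)).2 hp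
  obtain ⟨AR, hARd⟩ : ∃ AR : Finset ℕ, AR = (range W).filter (fun a => ∀ j, (α j * a + β j).Coprime (α j * W)) :=
    ⟨_, rfl⟩
  have hARc := hADM' W α β hWpos (hW ▸ WX_squarefree _ _) hfix
  rw [← hARd] at hARc
  have ha0 : ∀ a0 ∈ AR, ∀ j, (α j * a0 + β j).Coprime (α j * W) := by
    intro a0 ha
    rw [hARd, mem_filter] at ha
    exact ha.2
  have haW : ∀ a0 ∈ AR, a0 < W := by
    intro a0 ha
    rw [hARd, mem_filter, mem_range] at ha
    exact ha.1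
  obtain ⟨x, hzx, hxz, hG⟩ := v1 q₁ hscale α β S E AR hαβ hE hSys (hW ▸ hWE)
    (fun j => by rw [← hW]; exact hSq j W hWS) (fun a0 ha j => by rw [← hW]; exact ha0 a0 ha j)
  rw [← hW] at hG
  refine ⟨x, hzx, hxz, ?_⟩
  have hcE2 := v6 S E hSp hSs hE
  have hCE2 := v7 S E hSp hSs hE
  rw [← hW] at hcE2 hCE2
  have hz0 : 0 < z := by linarith
  have hx0 : 0 < x := by linarith
  have hlz : 0 < Real.log z := by rw [hlogz]; linarith
  have hlz1 : 1 ≤ Real.log z := by rw [hlogz]; linarith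
  have hW0 : (0 : ℝ) < W := by exact_mod_cast hWpos
  obtain ⟨φW, hφW⟩ : ∃ φW : ℝ, φW = (W.totient : ℝ) := ⟨_, rfl⟩
  have hφW0 : 0 < φW := by rw [hφW]; exact_mod_cast Nat.totient_pos.2 hWpos
  have hWX2 : (W : ℝ) ≤ (X : ℝ) ^ 2 := hW ▸ WX_le (by linarith) S
  have hφWle : φW ≤ z ^ (1 / 100 : ℝ) := by
    have h1 : φW ≤ W := by rw [hφW]; exact_mod_cast Nat.totient_le W
    have h2 : (W : ℝ) ≤ (X : ℝ) ^ 4 := hWX2.trans (pow_le_pow_right₀ (by linarith) (by norm_num))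
    rw [hzr]
    exact h1.trans h2
  rw [← hφW] at hG hcE2
  have hBE : 0 < BE E := BE_pos hE.1
  have hBE1 : BE E ≤ 1 := BE_le_one hE.1
  have hL0 : 0 < LL z := LL_pos_of (by linarith)
  obtain ⟨PK, hPK⟩ : ∃ PK : ℝ, PK = (1 / (LL z * BE E)) ^ K0 := ⟨_, rfl⟩
  have hPK0 : 0 < PK := by rw [hPK]; positivity
  have hPKs : (1 / (LL z * BE E)) ^ (K0 + 1) = PK * (1 / (LL z * BE E)) := by rw [pow_succ, hPK]
  rw [← hPK] at hG
  have hPKlow : (1 / Real.log z) ^ K0 ≤ PK := by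
    rw [hPK]
    apply pow_le_pow_left₀ (by positivity)
    apply one_div_le_one_div_of_le (by positivity)
    have h1 : LL z ≤ Real.log z := by unfold LL; linarith
    calc LL z * BE E ≤ LL z * 1 := mul_le_mul_of_nonneg_left hBE1 hL0.le
      _ ≤ _ := by linarith
  obtain ⟨D, hD⟩ : ∃ D : ℝ, D = PK * (x / φW) := ⟨_, rfl⟩
  have hD0 : 0 < D := by rw [hD]; positivity
  have hlowD : (1 / Real.log z) ^ K0 * (x / z ^ (1 / 100 : ℝ)) ≤ D := by
    rw [hD]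
    apply mul_le_mul hPKlow _ (by positivity) hPK0.le
    exact div_le_div_of_nonneg_left hx0.le hφW0 hφWle
  rw [← hD, ← hI0] at hG
  have hG' : D * (cst / 8) * AR.card ≤ ∑ a0 ∈ AR, ∑ j, TP E z f A α β x a0 W (ι j) := by
    refine le_trans (le_of_eq ?_) hG
    rw [hcst]
  -- the unit
  obtain ⟨U, hU⟩ : ∃ U : ℝ, U = (3 * x / W) * (PK * (1 / (LL z * BE E))) := ⟨_, rfl⟩
  have hU0 : 0 < U := by rw [hU]; positivity
  have hUD : Real.log z * U ≤ D * (600 / cE) := by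
    rw [hU, hD]
    exact unit_le PK x W φW (BE E) (LL z) (Real.log z) cE hPK0 hx0 hW0 hφW0 hBE hlz hcE rfl hcE2
  obtain ⟨N, hN⟩ : ∃ N : ℕ, N = ⌊3 * x⌋₊ := ⟨_, rfl⟩
  have hN3 : (N : ℝ) ≤ 3 * x := by rw [hN]; exact Nat.floor_le (by linarith)
  have hNU : ((N : ℝ) / W) * (1 / (LL z * BE E)) ^ (K0 + 1) ≤ U := by
    rw [hPKs, hU]
    apply mul_le_mul_of_nonneg_right _ (by positivity)
    exact div_le_div_of_nonneg_right hN3 hW0.le
  obtain ⟨er, her⟩ : ∃ er : ℝ, er = (A.card : ℝ) ^ 2 * (2 * Real.exp (2 * LL z)) := ⟨_, rfl⟩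
  have her0 : 0 ≤ er := by rw [her]; positivity
  have hNS : ∀ a0, NS x a0 W = (Icc 1 N).filter (fun n => n ≡ a0 [MOD W]) := by intro a0; unfold NS; rw [hN]
  obtain ⟨Λ, hΛ⟩ : ∃ Λ : ℝ, Λ = K2 * Real.log z := ⟨_, rfl⟩
  have hΛ0 : 0 < Λ := by rw [hΛ]; positivity
  obtain ⟨Y, hY⟩ : ∃ Y : ℕ, Y = ⌊z ^ η⌋₊ := ⟨_, rfl⟩
  obtain ⟨κ, hκ⟩ : ∃ κ : ℕ, κ = ⌊2 * K2 * Real.log z⌋₊ := ⟨_, rfl⟩
  -- S1
  have hS1g : ∀ W' a', 0 < W' → (∀ q : ℕ, q.Prime → q ∣ W' → q ∈ E) →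
      ∑ n ∈ (Icc 1 N).filter (fun n => n ≡ a' [MOD W']), sqn E z f A α β n ≤
        ((N : ℝ) / W') * ((1 / (LL z * BE E)) ^ (K0 + 1) * (2 * I0)) + er := by
    intro W' a' hW' hWE'
    have h1 := v2 E W' a' N α β hE hW' hWE' hSys
    rw [← her, ← hI0] at h1
    refine h1.trans (le_of_eq ?_)
    ring
  have hS1v : ∀ a0, ∑ n ∈ NS x a0 W, sqn E z f A α β n ≤ U * (2 * I0) + er := by
    intro a0
    rw [hNS]
    refine (hS1g W a0 hWpos hWE).trans ?_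
    have h1 : ((N : ℝ) / W) * ((1 / (LL z * BE E)) ^ (K0 + 1) * (2 * I0)) ≤ U * (2 * I0) := by
      rw [← mul_assoc]
      exact mul_le_mul_of_nonneg_right hNU (by positivity)
    linarith
  have hB1v : ∀ a0, ∑ n ∈ NS x a0 W, sqn E z f A α β n * bad1 E Y α β n ≤
      C * η ^ 2 * U + ((K0 : ℝ) + 1) * (z ^ η * er) := by
    intro a0
    rw [hNS, hY]
    have h1 := v3 E W a0 N α β hE hWpos hWE hSys
    rw [← her] at h1
    push_cast at h1
    refine h1.trans ?_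
    have h2 := mul_le_mul_of_nonneg_left hNU (by positivity : 0 ≤ C * η ^ 2)
    linarith
  have hcopab : ∀ i, (α i).Coprime (β i) := by
    intro i
    apply Nat.coprime_of_dvd
    intro p hp h1 h2
    obtain ⟨n, hn⟩ := hfix p hp
    exact hn i (dvd_add (h1.mul_right n) h2)
  have hB2v : ∀ a0, ∑ n ∈ NS x a0 W, sqn E z f A α β n * bad2 (E.filter (fun p => ¬ p ∣ W)) κ α β n ≤
      ((K0 : ℝ) + 1) * (U * (2 * I0) * (2 * CE) + E.card * κ * er) := by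
    intro a0
    have hcast : ((K0 : ℝ) + 1) = ((K0 + 1 : ℕ) : ℝ) := by push_cast; ring
    rw [hNS, hcast]
    refine (bad2_sum E z f A W a0 N κ α β ((1 / (LL z * BE E)) ^ (K0 + 1) * (2 * I0)) er hWpos (by positivity) her0
      hS1g hE.1 hWE hcopab CE hCE2).trans ?_
    apply mul_le_mul_of_nonneg_left _ (Nat.cast_nonneg _)
    have h1 : ((N : ℝ) / W) * ((1 / (LL z * BE E)) ^ (K0 + 1) * (2 * I0)) ≤ U * (2 * I0) := by
      rw [← mul_assoc]
      exact mul_le_mul_of_nonneg_right hNU (by positivity)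
    have h2 := mul_le_mul_of_nonneg_right h1 (by positivity : 0 ≤ 2 * CE)
    linarith
  have hEc : (E.card : ℝ) ≤ 2 * (Real.log z) ^ 25 := by
    have h1 := hE.card_le hlz.le
    have h2 : (Real.log z) ^ 2 ≤ (Real.log z) ^ 25 := pow_le_pow_right₀ hlz1 (by norm_num)
    linarith
  have hκr : (κ : ℝ) ≤ 2 * K2 * Real.log z := by rw [hκ]; exact Nat.floor_le (by positivity)
  have hzη1 : z ^ η ≤ z ^ (1 / 100 : ℝ) := Real.rpow_le_rpow_of_exponent_le (by linarith) hη1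
  have hexp : Real.exp (2 * LL z) = z ^ (1 / 100 : ℝ) := exp_two_LL z hz0
  -- the total
  have hper : ∀ a0 ∈ AR, (ρ : ℝ) * Λ * (∑ n ∈ NS x a0 W, sqn E z f A α β n) +
      (K1 : ℝ) * Λ * ((∑ n ∈ NS x a0 W, sqn E z f A α β n * bad1 E Y α β n) +
        (∑ n ∈ NS x a0 W, sqn E z f A α β n * bad2 (E.filter (fun p => ¬ p ∣ W)) κ α β n) / M) ≤ D * (cst / 16) := by
    intro a0 _
    have hS1v := hS1v a0
    have hB1v := hB1v a0
    have hB2v := hB2v a0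
    refine per_class D cst ((ρ : ℝ) * Λ) ((K1 : ℝ) * Λ) _ _ _ M
      ((ρ : ℝ) * Λ * er) ((K1 : ℝ) * Λ * (((K0 : ℝ) + 1) * (z ^ η * er)))
      ((K1 : ℝ) * Λ * (((K0 : ℝ) + 1) * (E.card * κ * er))) ?_ ?_ ?_ ?_
    · exact t_S1 ρ K2 _ I0 D cE c1 M0 cst (Real.log z) U _ Λ er (Nat.cast_nonneg _) hK20 hI0pos hD0 hlz hK2 hcst
        hΛ hUD hρ hS1v
    · exact t_B1 K1 K2 C η D cE cst (Real.log z) U _ Λ _ (Nat.cast_nonneg _) hK20 hC hD0 hlz hΛ hUD hηc hB1v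
    · exact t_B2 K1 K2 K0 M D cE CE I0 cst (Real.log z) U _ Λ _ (Nat.cast_nonneg _) (Nat.cast_nonneg _) hK20
        (by exact_mod_cast hMpos) hI0pos hCE (by positivity) hD0 hlz hΛ hUD hMc hB2v
    · have h1 := v4 x hzx
      have h2 := mul_le_mul_of_nonneg_left hlowD (by positivity : 0 ≤ cst / 64)
      have hzr0 : 0 < z ^ (1 / 100 : ℝ) := by positivity
      have h14 : z ^ (1 / 100 : ℝ) * z ^ (1 / 100 : ℝ) ≤ z ^ (1 / 4 : ℝ) := by
        rw [← Real.rpow_add hz0]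
        exact Real.rpow_le_rpow_of_exponent_le (by linarith) (by norm_num)
      have h14' : z ^ (1 / 100 : ℝ) ≤ z ^ (1 / 4 : ℝ) := Real.rpow_le_rpow_of_exponent_le (by linarith) (by norm_num)
      have h5 : cst / 64 * D = D * (cst / 64) := by ring
      exact t_err ρ K1 K0 K2 ((A.card : ℝ) ^ 2) (Real.log z) (z ^ (1 / 4 : ℝ)) (z ^ (1 / 100 : ℝ)) (z ^ η) er
        E.card κ Λ (D * (cst / 64)) (Nat.cast_nonneg _) (Nat.cast_nonneg _) (Nat.cast_nonneg _) hK20.le (by positivity)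
        hlz1 (by positivity) hzr0.le (Nat.cast_nonneg _) hΛ (by rw [her, hexp]) hEc hκr
        ((mul_le_mul_of_nonneg_right hzη1 hzr0.le).trans h14) h14' (by positivity) (h5 ▸ (h1.trans h2))
  have htot : D * (cst / 16) * AR.card ≤ ∑ a0 ∈ AR, ∑ n ∈ NS x a0 W,
      TT' ι E (E.filter (fun p => ¬ p ∣ W)) Y κ α β x (ρ * Λ) (K1 * Λ) M n * sqn E z f A α β n := by
    have h1 : ∑ a0 ∈ AR, ∑ n ∈ NS x a0 W,
        TT' ι E (E.filter (fun p => ¬ p ∣ W)) Y κ α β x (ρ * Λ) (K1 * Λ) M n * sqn E z f A α β n =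
        ∑ a0 ∈ AR, ∑ j, TP E z f A α β x a0 W (ι j) - ∑ a0 ∈ AR, ((ρ : ℝ) * Λ * (∑ n ∈ NS x a0 W, sqn E z f A α β n) +
      (K1 : ℝ) * Λ * ((∑ n ∈ NS x a0 W, sqn E z f A α β n * bad1 E Y α β n) +
        (∑ n ∈ NS x a0 W, sqn E z f A α β n * bad2 (E.filter (fun p => ¬ p ∣ W)) κ α β n) / M)) := by
      rw [← sum_sub_distrib]
      exact sum_congr rfl fun a0 _ => sum_TT _ _ _ _ _ _ _ _ _ _ _ _ _ _ _ _
    rw [h1]
    have h2 := sum_le_sum hper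
    rw [sum_const, nsmul_eq_mul] at h2
    have h3 : D * (cst / 8) * (AR.card : ℝ) = D * (cst / 16) * AR.card + AR.card * (D * (cst / 16)) := by ring
    linarith
  -- bounds for the values
  have hx3 : ∀ j, Real.log (3 * (α j * x)) ≤ Λ := by
    intro j
    have hαj : (1 : ℝ) ≤ α j := by exact_mod_cast (hαβ j).1
    rw [Real.log_mul (by norm_num) (by positivity), Real.log_mul (by linarith) hx0.ne']
    have e1 : Real.log 3 ≤ Real.log z := Real.log_le_log (by norm_num) (by linarith)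
    have e2 : Real.log (α j) ≤ Real.log z := Real.log_le_log (by linarith) ((hαβ j).2.1.trans hXz1)
    have e3 : Real.log x ≤ K' * Real.log z := by
      have := Real.log_le_log hx0 hxz
      rwa [Real.log_pow] at this
    rw [hΛ, hK2]
    nlinarith
  have hβx : ∀ j, 2 * (β j : ℝ) ≤ x := by
    intro j
    have h1 : 2 * (X : ℝ) ≤ X ^ 4 := by nlinarith [pow_pos hX0 3, pow_pos hX0 2, mul_pos hX0 hX0]
    have := (hαβ j).2.2
    linarith
  obtain ⟨V, hV⟩ : ∃ V : ℝ, V = z ^ (K' + 3) := ⟨_, rfl⟩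
  have hz4' : 4 ≤ z := by linarith
  have hzη : 1 < z ^ η := Real.one_lt_rpow (by linarith) hη
  have hVle : ∀ a0, ∀ n ∈ NS x a0 W, ∀ j, ((α j * n + β j : ℕ) : ℝ) ≤ V := by
    intro a0 n hn j
    rw [mem_NS] at hn
    have hn3 : (n : ℝ) ≤ 3 * x := (Nat.le_floor_iff (by linarith)).1 hn.1.2
    push_cast
    rw [hV]
    exact t_V z x (α j) (β j) n K' hz4' ((hαβ j).2.1.trans hXz1) (Nat.cast_nonneg _)
      ((hαβ j).2.2.trans hXz1) (Nat.cast_nonneg _) hn3 hxz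
  have hVκ : V < 2 ^ (κ + 1) := by
    rw [hV]
    exact t_Vκ z K2 K' κ (by linarith) hK2 hκ
  have hVR : V ≤ (z ^ η) ^ R := by
    rw [hV]
    exact t_VR z K2 η K' R (by linarith) hη hK2 hR
  -- counting
  obtain ⟨Gd, hGd⟩ : ∃ Gd : Finset ℕ, Gd = (Icc 1 ⌊3 * x⌋₊).filter (fun n : ℕ => x ≤ 2 * n ∧
          ρ < ((univ : Finset (Fin K1)).filter (fun j => (α (ι j) * n + β (ι j)).Prime)).card ∧
          ∀ i, ArithmeticFunction.cardFactors (α i * n + β i) ≤ M + R) := ⟨_, rfl⟩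
  rw [← hGd]
  have hTle : ∀ n, TT' ι E (E.filter (fun p => ¬ p ∣ W)) Y κ α β x (ρ * Λ) (K1 * Λ) M n ≤ K1 * Λ := by
    intro n
    unfold TT'
    have h1 := prime_part ι α β x Λ n hx0 (fun j => (hαβ j).1) hx3 hΛ0.le
    have h2 : (((univ : Finset (Fin K1)).filter (fun j => (α (ι j) * n + β (ι j)).Prime)).card : ℝ) ≤ K1 := by
      have := card_le_univ ((univ : Finset (Fin K1)).filter (fun j => (α (ι j) * n + β (ι j)).Prime))
      rw [Fintype.card_fin] at this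
      exact_mod_cast this
    have h3 := mul_le_mul_of_nonneg_right h2 hΛ0.le
    have h4 : 0 ≤ (ρ : ℝ) * Λ := by positivity
    have h5 := bad1_nonneg E Y α β n
    have h6 := bad2_nonneg (E.filter (fun p => ¬ p ∣ W)) κ α β n
    have h7 : 0 ≤ (K1 : ℝ) * Λ * (bad1 E Y α β n + bad2 (E.filter (fun p => ¬ p ∣ W)) κ α β n / M) := by positivity
    linarith
  have hsq : ∀ n ∈ Gd, sqn E z f A α β n ≤ Cw := by
    intro n hn
    rw [hGd, mem_filter, mem_Icc] at hn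
    rw [hCw]
    apply sqn_le_Om E z f hfam.2.2.2.2.2 A α β n (M + R)
    · intro j
      have h1 := (hαβ j).1
      have h2 : 0 < α j * n := Nat.mul_pos (by omega) (by omega)
      omega
    · exact hn.2.2.2
  have hKΛ : 0 ≤ (K1 : ℝ) * Λ := by positivity
  have hub : ∑ a0 ∈ AR, ∑ n ∈ NS x a0 W,
      TT' ι E (E.filter (fun p => ¬ p ∣ W)) Y κ α β x (ρ * Λ) (K1 * Λ) M n * sqn E z f A α β n ≤
      Gd.card * ((K1 * Λ) * Cw) := by
    have hone : ∀ a0 ∈ AR, ∑ n ∈ NS x a0 W,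
        TT' ι E (E.filter (fun p => ¬ p ∣ W)) Y κ α β x (ρ * Λ) (K1 * Λ) M n * sqn E z f A α β n ≤
        ((Gd.filter (fun n => n % W = a0)).card : ℝ) * ((K1 * Λ) * Cw) := by
      intro a0 ha
      calc _ ≤ ∑ n ∈ NS x a0 W, (if n ∈ Gd then (K1 * Λ) * Cw else 0) := by
            apply sum_le_sum
            intro n hn
            have hs0 := sqn_nonneg E z f A α β n
            by_cases hpos : 0 < TT' ι E (E.filter (fun p => ¬ p ∣ W)) Y κ α β x (ρ * Λ) (K1 * Λ) M n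
            · have hn' := mem_NS.1 hn
              have hg := good_of_pos ι E Y κ α β x Λ ρ M W a0 n hx0 hMpos (fun j => (hαβ j).1) hx3 hΛ0 hβx hn'.2
                (ha0 a0 ha) η z V R hY hzη hn'.1.1 hVκ hVR (hVle a0 n hn) hpos
              have hnG : n ∈ Gd := by
                rw [hGd, mem_filter, mem_Icc]
                exact ⟨hn'.1, hg⟩
              rw [if_pos hnG]
              exact mul_le_mul (hTle n) (hsq n hnG) hs0 hKΛ
            · have h1 := mul_nonpos_of_nonpos_of_nonneg (not_lt.1 hpos) hs0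
              refine h1.trans ?_
              split_ifs
              · positivity
              · exact le_rfl
        _ = (((NS x a0 W).filter (fun n => n ∈ Gd)).card : ℝ) * ((K1 * Λ) * Cw) := by
            rw [← sum_filter, sum_const, nsmul_eq_mul]
        _ ≤ _ := by
            apply mul_le_mul_of_nonneg_right _ (by positivity)
            have h1 : (NS x a0 W).filter (fun n => n ∈ Gd) ⊆ Gd.filter (fun n => n % W = a0) := by
              intro n hn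
              rw [mem_filter] at hn ⊢
              refine ⟨hn.2, ?_⟩
              have h2 := (mem_NS.1 hn.1).2
              have h3 : n % W = a0 % W := h2
              rw [h3, Nat.mod_eq_of_lt (haW a0 ha)]
            exact_mod_cast card_le_card h1
    refine (sum_le_sum hone).trans ?_
    rw [← sum_mul]
    apply mul_le_mul_of_nonneg_right _ (by positivity)
    have h2 : ∑ a0 ∈ AR, (Gd.filter (fun n => n % W = a0)).card ≤ Gd.card := by
      rw [← card_biUnion]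
      · apply card_le_card
        intro n hn
        rw [mem_biUnion] at hn
        obtain ⟨a0, _, h⟩ := hn
        exact (mem_filter.1 h).1
      · intro a _ b _ hab
        rw [Function.onFun, disjoint_left]
        intro n h1 h2
        exact hab ((mem_filter.1 h1).2.symm.trans (mem_filter.1 h2).2)
    exact_mod_cast h2
  have hLz : LL z ≤ Real.log z := by unfold LL; linarith
  exact t_fin2 K1 K2 Cw (Real.log z) Λ D cst cA x φW W (BE E) (LL z) PK AR.card Gd.card (Real.log x) δ K0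
    (Nat.cast_nonneg _) hK20 hCw0 hlz (Nat.cast_nonneg _) hΛ hcst0 hcA hx0 hφW0 hW0 hBE hL0 hLz hPK hD
    (by rw [hφW]; exact BE_le_totient hE.1 hWpos hWE) (by rw [hφW]; exact hARc) (Real.log_le_log hz0 hzx) hδ
    (htot.trans hub)

end Pool.Agent.L7h28.UM
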