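import Mathlib
import Pool.Agent.L7h28.UM.Fin2
import Pool.Agent.H398R2.PG.C

set_option autoImplicit false

/-! The final assembly. -/

open Finset Filter
open scoped ContDiff

namespace Pool.Agent.L7h28.UM

open Pool.Agent.H378R2

theorem umt (h5 : SieveAsymp) (hCB : S_CB) (hE1 : S_E1) (hE2 : S_E2) (hS1 : S_S1) (hSP : S_P)
    (hpage : PageStmt) (hPG : S_PG) (hCRT : S_CRT) : UMT := by
  classical
  intro r
  obtain ⟨K', c1, hK'1, hc1, hPev⟩ := hSP hpage
  obtain ⟨cE, hcE, hEev⟩ := hE2 25 (by norm_num)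
  set K2 : ℝ := (K' : ℝ) + 3 with hK2
  have hK20 : 0 ≤ K2 := by positivity
  set M0 : ℝ := 19200 * ((r : ℝ) + 1) * K2 / (c1 * cE) + 1 with hM0
  have hM01 : 1 ≤ M0 := by
    have : 0 ≤ 19200 * ((r : ℝ) + 1) * K2 / (c1 * cE) := by positivity
    linarith
  obtain ⟨K0, B, f, c, A, hsm, hcs, hf0, hc, hA, hf1, hII, hJJ, -⟩ :=
    Pool.Agent.H398R2.PG.familyR M0 0
  have hfam : FamOK f c A := ⟨hsm, hcs, hf0, hc, hA, hf1⟩
  set I0 := II f A with hI0
  set ε1 : ℝ := I0 / (4 * ((K0 : ℝ) + 1)) with hε1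
  have hε1pos : 0 < ε1 := by positivity
  have hε1le : ε1 ≤ I0 := by
    rw [hε1]
    apply div_le_self hII.le
    have : (0 : ℝ) ≤ K0 := Nat.cast_nonneg _
    linarith
  obtain ⟨K, hK⟩ := hPG (K0 + 1) (by omega)
  refine ⟨K, 400 * K' + 2, ?_⟩
  set cst : ℝ := c1 * M0 * I0 with hcst
  have hcst0 : 0 < cst := by positivity
  have ev1 := S2_bound h5 hCB hE1 f c A hfam ε1 hε1pos (K' + 1)
  have ev2 := hS1 (K0 + 1) B f c A hfam 25 (by norm_num) ε1 hε1pos
  have ev3 := evB K0 K' (((K0 : ℝ) + 1) * (A.card : ℝ) ^ 2) (cst / 16) (by positivity) (by positivity)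
  have ev4 := evC K0 ((r : ℝ) * K2 * ((A.card : ℝ) ^ 2 * 2)) (cst / 16) (by positivity)
  have ev5 := Real.tendsto_log_atTop.eventually_ge_atTop (16 * ((K0 : ℝ) + 1) / cst)
  have ht : Tendsto (fun X : ℕ => ((X : ℝ)) ^ 400) atTop atTop :=
    (tendsto_pow_atTop (by norm_num)).comp tendsto_natCast_atTop_atTop
  have ht2 : Tendsto (fun X : ℕ => ((X : ℝ))) atTop atTop := tendsto_natCast_atTop_atTop
  filter_upwards [ht.eventually hPev, ht.eventually ev1, ht.eventually ev2, ht.eventually ev3,
    ht.eventually ev4, ht.eventually ev5, ht2.eventually hEev, ht2.eventually (ES_ok (K0 + 1)),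
    eventually_ge_atTop 4] with X w1 w2 w3 w4 w5 w6 w7 w8 hX4
  obtain ⟨q₁, hq₁, hscale⟩ := w1
  refine ⟨q₁, hq₁, ?_⟩
  intro a b hab hdet hfix
  obtain ⟨ι, S, hSp, hSsum, hSq⟩ := hK q₁ a hq₁ (fun j => ⟨(hab j).1, (hab j).2.2.2⟩)
  set z : ℝ := (X : ℝ) ^ 400 with hz
  clear_value z
  have hX1 : (4 : ℝ) ≤ X := by exact_mod_cast hX4
  have hX0 : (0 : ℝ) < X := by linarith
  have hz4 : 4 ≤ z := by
    rw [hz]
    calc (4 : ℝ) ≤ X := hX1
      _ ≤ (X : ℝ) ^ 400 := le_self_pow₀ (by linarith) (by norm_num)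
  have hz0 : 0 < z := by linarith
  have hlogz : Real.log z = 400 * Real.log X := by rw [hz, Real.log_pow]; norm_num
  have hlogX1 : 1 ≤ Real.log X := by
    rw [Real.le_log_iff_exp_le hX0]
    linarith [exp_one_lt_three']
  have hlz0 : 0 < Real.log z := by rw [hlogz]; linarith
  have hzr : z ^ (1 / 100 : ℝ) = (X : ℝ) ^ 4 := by
    rw [hz, ← Real.rpow_natCast, ← Real.rpow_mul hX0.le, ← Real.rpow_natCast]
    norm_num
  set α : Fin (K0 + 1) → ℕ := fun j => a (ι j) with hα
  set β : Fin (K0 + 1) → ℕ := fun j => b (ι j) with hβ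
  have hα1 : ∀ j, 1 ≤ α j := fun j => (hab (ι j)).1
  have hαX : ∀ j, (α j : ℝ) ≤ X := fun j => by exact_mod_cast (hab (ι j)).2.1
  have hβX : ∀ j, (β j : ℝ) ≤ X := fun j => by exact_mod_cast (hab (ι j)).2.2.1
  have hdet' : ∀ i j, i ≠ j → α i * β j ≠ α j * β i := fun i j hij =>
    hdet _ _ fun h => hij (ι.injective h)
  obtain ⟨hE, hSys⟩ := w8 α β (fun j => ⟨hα1 j, hαX j, hβX j⟩) hdet'
  set E := ES z α β with hEdef
  set W := WX (X : ℝ) S with hW
  have hWpos : 0 < W := WX_pos _ _
  have hW0 : (0 : ℝ) < W := by exact_mod_cast hWpos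
  have hWX2 : (W : ℝ) ≤ (X : ℝ) ^ 2 := WX_le (by linarith) S
  have hWE : ∀ p : ℕ, p.Prime → p ∣ W → p ∈ E := by
    intro p hp hd
    apply hE.2.1 p hp
    have h1 := (WX_prime hp hd).1
    have h2 : (p : ℝ) ≤ Real.log X := (Nat.le_floor_iff (by linarith)).1 h1
    have h3 : Real.log X ≤ Real.log z := by rw [hlogz]; linarith
    have h4 : 1 ≤ Real.log z := by rw [hlogz]; linarith
    exact (h2.trans h3).trans (le_self_pow₀ h4 (by norm_num))
  have hWS : ∀ p ∈ S, ¬ p ∣ W := fun p hp hd => (WX_prime (hSp p hp) hd).2 hp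
  obtain ⟨a0, ha0⟩ := hCRT (K0 + 1) α β W hWpos (fun p hp => by
    obtain ⟨n, hn⟩ := hfix p hp
    exact ⟨n, fun j => hn (ι j)⟩)
  have hQ : ∀ i, ((α i * W : ℕ) : ℝ) ≤ z ^ (1 / 100 : ℝ) := by
    intro i
    rw [hzr]
    push_cast
    calc (α i : ℝ) * W ≤ X * (X : ℝ) ^ 2 := mul_le_mul (hαX i) hWX2 hW0.le hX0.le
      _ = (X : ℝ) ^ 3 := by ring
      _ ≤ (X : ℝ) ^ 4 := pow_le_pow_right₀ (by linarith) (by norm_num)
  have hXz : (X : ℝ) ≤ z ^ (1 / 100 : ℝ) := by
    rw [hzr]
    exact le_self_pow₀ (by linarith) (by norm_num)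
  set w : Fin (K0 + 1) → ℝ := fun i => if 2 * ε1 ≤ JJ f A i then JJ f A i else 0 with hw
  have hw0 : ∀ i, 0 ≤ w i := by
    intro i
    simp only [hw]
    split_ifs with h
    · linarith
    · exact le_rfl
  obtain ⟨x, hzx, hxz, hxs⟩ := hscale (K0 + 1) w α (fun i => α i * W) (fun i => α i * a0 + β i) hw0
    (fun i => ⟨hα1 i, (hαX i).trans hXz⟩)
    (fun i => ⟨Nat.mul_pos (hα1 i) hWpos, hQ i, hSq i W hWS⟩) ha0
  have hx0 : 0 < x := by linarith
  by_contra hcon
  push Not at hcon
  -- abbreviations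
  set φW : ℝ := (W.totient : ℝ) with hφW
  have hφW0 : 0 < φW := by rw [hφW]; exact_mod_cast Nat.totient_pos.2 hWpos
  have hφWle : φW ≤ z ^ (1 / 100 : ℝ) := by
    have h1 : φW ≤ W := by rw [hφW]; exact_mod_cast Nat.totient_le W
    have h2 : (W : ℝ) ≤ (X : ℝ) ^ 4 := hWX2.trans (pow_le_pow_right₀ (by linarith) (by norm_num))
    rw [hzr]
    exact h1.trans h2
  have hBE : 0 < BE E := BE_pos hE.1
  have hBE1 : BE E ≤ 1 := BE_le_one hE.1
  have hL0 : 0 < LL z := LL_pos_of (by linarith)
  set PK : ℝ := (1 / (LL z * BE E)) ^ K0 with hPK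
  have hPK0 : 0 < PK := by rw [hPK]; positivity
  have hPKlow : (1 / Real.log z) ^ K0 ≤ PK := by
    rw [hPK]
    apply pow_le_pow_left₀ (by positivity)
    apply one_div_le_one_div_of_le (by positivity)
    have h1 : LL z ≤ Real.log z := by unfold LL; linarith
    nlinarith
  have hlow : (1 / Real.log z) ^ K0 * (x / z ^ (1 / 100 : ℝ)) ≤ PK * (x / φW) := by
    apply mul_le_mul hPKlow _ (by positivity) hPK0.le
    exact div_le_div_of_nonneg_left hx0.le hφW0 hφWle
  set sq : ℕ → ℝ := fun n => sqw E z f A (fun j => (α j : ℤ) * (n : ℤ) + (β j : ℤ)) ^ 2 with hsq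
  have hsq0 : ∀ n, 0 ≤ sq n := fun n => sq_nonneg _
  set Ns := (Icc 1 ⌊3 * x⌋₊).filter (fun n => n ≡ a0 [MOD W]) with hNs
  set S1v := ∑ n ∈ Ns, sq n with hS1v
  set T : Fin (K0 + 1) → ℝ := fun i => ∑ n ∈ Ns, Phi (((α i * n + β i : ℕ) : ℝ) / (α i * x)) *
    (th (α i * n + β i) * sq n) with hT
  set S2v := ∑ i, T i with hS2v
  -- the upper bound
  have H1 : S1v ≤ (3 * x / W) * (PK * (1 / (LL z * BE E))) * (2 * I0) +
      (A.card : ℝ) ^ 2 * (2 * Real.exp (2 * LL z)) := by
    have h1 := w3 E W a0 ⌊3 * x⌋₊ α β hE hWpos hWE hSys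
    refine h1.trans ?_
    have h2 : ((⌊3 * x⌋₊ : ℕ) : ℝ) ≤ 3 * x := Nat.floor_le (by linarith)
    have h3 : (1 / (LL z * BE E)) ^ (K0 + 1) = PK * (1 / (LL z * BE E)) := by rw [pow_succ]
    rw [h3]
    have h4 : (((⌊3 * x⌋₊ : ℕ) : ℝ) / W) * (PK * (1 / (LL z * BE E))) * (II f A + ε1) ≤
        (3 * x / W) * (PK * (1 / (LL z * BE E))) * (2 * I0) := by
      apply mul_le_mul
      · apply mul_le_mul_of_nonneg_right _ (by positivity)
        exact div_le_div_of_nonneg_right h2 hW0.le
      · linarith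
      · linarith
      · positivity
    linarith
  have H3 : S2v ≤ (r : ℝ) * K2 * Real.log z * S1v := by
    rw [hS2v, hS1v]
    simp only [hT]
    rw [sum_comm, mul_sum]
    apply sum_le_sum
    intro n hn
    rw [hNs, mem_filter, mem_Icc] at hn
    have hn3 : (n : ℝ) ≤ 3 * x := (Nat.le_floor_iff (by linarith)).1 hn.1.2
    have hnX : n ≤ X ^ (400 * K' + 2) := by
      have h1 : (n : ℝ) ≤ (X : ℝ) ^ (400 * K' + 2) := by
        calc (n : ℝ) ≤ 3 * x := hn3
          _ ≤ (X : ℝ) ^ 2 * z ^ K' := by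
              apply mul_le_mul _ hxz hx0.le (by positivity)
              nlinarith
          _ = (X : ℝ) ^ (400 * K' + 2) := by rw [hz, ← pow_mul, ← pow_add]; congr 1; ring
      exact_mod_cast h1
    have h2 := hcon n hnX
    have h3 : ((univ : Finset (Fin (K0 + 1))).filter (fun j => (α j * n + β j).Prime)).card ≤ r := by
      have h4 : ((univ : Finset (Fin (K0 + 1))).filter (fun j => (α j * n + β j).Prime)).card ≤
          ((univ : Finset (Fin K)).filter (fun j => (a j * n + b j).Prime)).card := by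
        apply card_le_card_of_injOn ι
        · intro j hj
          simp only [coe_filter, mem_univ, true_and, Set.mem_ofPred_eq] at hj ⊢
          exact hj
        · exact ι.injective.injOn
      omega
    have h5' : ∀ i, Phi (((α i * n + β i : ℕ) : ℝ) / (α i * x)) * (th (α i * n + β i) * sq n) ≤
        (if (α i * n + β i).Prime then K2 * Real.log z * sq n else 0) := by
      intro i
      have hαi : (1 : ℝ) ≤ α i := by exact_mod_cast hα1 i
      have hy0 : 0 < (α i : ℝ) * x := by positivity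
      by_cases hp : (α i * n + β i).Prime
      · rw [if_pos hp]
        by_cases hΦ : Phi (((α i * n + β i : ℕ) : ℝ) / (α i * x)) = 0
        · rw [hΦ, zero_mul]
          have := hsq0 n
          positivity
        · have h6 : ((α i * n + β i : ℕ) : ℝ) < 3 * (α i * x) := by
            by_contra hge
            apply hΦ
            apply Phi_eq_zero_of_ge
            rw [le_div_iff₀ hy0]
            have := exp_one_lt_three'
            nlinarith
          have h7 : th (α i * n + β i) ≤ K2 * Real.log z := by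
            unfold th
            rw [if_pos hp]
            have hpp : (0 : ℝ) < ((α i * n + β i : ℕ) : ℝ) := by exact_mod_cast hp.pos
            calc Real.log ((α i * n + β i : ℕ) : ℝ) ≤ Real.log (3 * (α i * x)) := Real.log_le_log hpp h6.le
              _ = Real.log 3 + (Real.log (α i) + Real.log x) := by
                  rw [Real.log_mul (by norm_num) hy0.ne', Real.log_mul (by linarith) hx0.ne']
              _ ≤ Real.log z + (Real.log z + K' * Real.log z) := by
                  have e1 : Real.log 3 ≤ Real.log z := Real.log_le_log (by norm_num) (by linarith)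
                  have e2 : Real.log (α i) ≤ Real.log z := by
                    rw [hlogz]
                    have := Real.log_le_log (by linarith) (hαX i)
                    linarith
                  have e3 : Real.log x ≤ K' * Real.log z := by
                    have := Real.log_le_log hx0 hxz
                    rwa [Real.log_pow] at this
                  linarith
              _ ≤ K2 * Real.log z := by rw [hK2]; nlinarith
          have h8 := Phi_le_one (((α i * n + β i : ℕ) : ℝ) / (α i * x))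
          have h9 := hsq0 n
          have h10 : 0 ≤ th (α i * n + β i) * sq n := mul_nonneg (th_nonneg _) h9
          calc _ ≤ 1 * (th (α i * n + β i) * sq n) := mul_le_mul_of_nonneg_right h8 h10
            _ = th (α i * n + β i) * sq n := one_mul _
            _ ≤ _ := mul_le_mul_of_nonneg_right h7 h9
      · rw [if_neg hp]
        have : th (α i * n + β i) = 0 := by unfold th; rw [if_neg hp]
        rw [this, zero_mul, mul_zero]
    calc ∑ i, Phi (((α i * n + β i : ℕ) : ℝ) / (α i * x)) * (th (α i * n + β i) * sq n) ≤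
        ∑ i, (if (α i * n + β i).Prime then K2 * Real.log z * sq n else 0) := sum_le_sum fun i _ => h5' i
      _ = (((univ : Finset (Fin (K0 + 1))).filter (fun j => (α j * n + β j).Prime)).card : ℝ) * (K2 * Real.log z * sq n) := by
          rw [← sum_filter, sum_const, nsmul_eq_mul]
      _ ≤ (r : ℝ) * (K2 * Real.log z * sq n) := by
          apply mul_le_mul_of_nonneg_right _ (by have := hsq0 n; positivity)
          exact_mod_cast h3
      _ = _ := by ring
  -- the lower bound
  have hErr : ∀ i, ErS (α i * x) z (BE E) K0 (α i * W) A.card ≤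
      PK * (x / φW) / Real.log z + (A.card : ℝ) ^ 2 * (Real.exp (2 * LL z) *
        (2 * Real.sqrt (3 * (α i * x)) * Real.log (3 * (α i * x)))) := by
    intro i
    unfold ErS
    have hαi : (1 : ℝ) ≤ α i := by exact_mod_cast hα1 i
    have hφα : (0 : ℝ) < (α i).totient := by exact_mod_cast Nat.totient_pos.2 (hα1 i)
    have h1 : ((α i).totient : ℝ) * φW ≤ ((α i * W).totient : ℝ) := by
      rw [hφW]; exact_mod_cast Nat.totient_super_multiplicative (α i) W
    have h2 : (α i : ℝ) / (α i).totient ≤ Real.log z := by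
      refine (div_totient_le (α i) (hα1 i)).trans ?_
      have h3 := card_le_log (h := α i) (by have := hα1 i; omega) (V := Real.log X)
        (by rw [Real.exp_log hX0]; exact hαX i)
      rw [hlogz]
      linarith
    have h4 : (α i : ℝ) * x / (((α i * W).totient : ℝ) * (Real.log z) ^ 2) ≤ (x / φW) / Real.log z := by
      calc (α i : ℝ) * x / (((α i * W).totient : ℝ) * (Real.log z) ^ 2) ≤
          (α i : ℝ) * x / ((((α i).totient : ℝ) * φW) * (Real.log z) ^ 2) := by
            apply div_le_div_of_nonneg_left (by positivity) (by positivity)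
            exact mul_le_mul_of_nonneg_right h1 (by positivity)
        _ = ((α i : ℝ) / (α i).totient) * ((x / φW) / (Real.log z) ^ 2) := by
            field_simp
        _ ≤ Real.log z * ((x / φW) / (Real.log z) ^ 2) := mul_le_mul_of_nonneg_right h2 (by positivity)
        _ = _ := by field_simp
    have h5'' := mul_le_mul_of_nonneg_left h4 hPK0.le
    have h6 : PK * (x / φW) / Real.log z = PK * (x / φW / Real.log z) := mul_div_assoc _ _ _
    rw [h6, ← hPK]
    exact add_le_add h5'' le_rfl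
  have hlower : ∀ i, PK * (CS (α i * x) (α i * W) (α i * a0 + β i) * w i) / 2 -
      ErS (α i * x) z (BE E) K0 (α i * W) A.card ≤ T i := by
    intro i
    have hαi : (1 : ℝ) ≤ α i := by exact_mod_cast hα1 i
    have hCS0 := CS_nonneg (α i * x) (α i * W) (α i * a0 + β i)
    by_cases hJ : 2 * ε1 ≤ JJ f A i
    · have hwi : w i = JJ f A i := by simp only [hw]; rw [if_pos hJ]
      have h1 := w2 E W a0 α β i x hE hWpos hWE hSys hzx (by
        rw [pow_succ']
        apply mul_le_mul _ hxz hx0.le hz0.le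
        rw [hz]
        calc (α i : ℝ) ≤ X := hαX i
          _ ≤ (X : ℝ) ^ 400 := le_self_pow₀ (by linarith) (by norm_num)) (hα1 i) (hQ i)
        ((hβX i).trans hXz) (ha0 i)
      rw [hwi]
      have h2 : PK * (CS (α i * x) (α i * W) (α i * a0 + β i) * JJ f A i) / 2 ≤
          CS (α i * x) (α i * W) (α i * a0 + β i) * (PK * (JJ f A i - ε1)) := by
        have : 0 ≤ PK * CS (α i * x) (α i * W) (α i * a0 + β i) := mul_nonneg hPK0.le hCS0
        nlinarith
      exact (by linarith : _ ≤ _).trans h1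
    · have hwi : w i = 0 := by simp only [hw]; rw [if_neg hJ]
      rw [hwi, mul_zero, mul_zero, zero_div]
      have h1 : 0 ≤ ErS (α i * x) z (BE E) K0 (α i * W) A.card := by
        unfold ErS
        have hl : 0 ≤ Real.log (3 * (α i * x)) := Real.log_nonneg (by nlinarith)
        positivity
      have h2 : 0 ≤ T i := by
        simp only [hT]
        exact sum_nonneg fun n _ => mul_nonneg (Phi_nonneg _) (mul_nonneg (th_nonneg _) (hsq0 n))
      linarith
  have hwsum : M0 / 2 * I0 ≤ ∑ i, w i := by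
    have h1 : ∀ i, JJ f A i - 2 * ε1 ≤ w i := by
      intro i
      simp only [hw]
      split_ifs with h
      · linarith
      · linarith
    have h2 := sum_le_sum fun i (_ : i ∈ (univ : Finset (Fin (K0 + 1)))) => h1 i
    rw [sum_sub_distrib, sum_const, card_univ, Fintype.card_fin, nsmul_eq_mul] at h2
    have h3 : ((K0 + 1 : ℕ) : ℝ) * (2 * ε1) = I0 / 2 := by
      rw [hε1]; push_cast; field_simp; ring
    rw [h3] at h2
    nlinarith
  have hcsum : (x / φW) * (c1 * (M0 / 2 * I0)) ≤
      ∑ i, CS (α i * x) (α i * W) (α i * a0 + β i) * w i := by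
    have h1 : (x / φW) * (c1 * (M0 / 2 * I0)) ≤ (x / φW) * (c1 * ∑ i, w i) := by
      apply mul_le_mul_of_nonneg_left _ (by positivity)
      exact mul_le_mul_of_nonneg_left hwsum hc1.le
    refine h1.trans ((mul_le_mul_of_nonneg_left hxs (by positivity)).trans ?_)
    rw [mul_sum]
    apply sum_le_sum
    intro i _
    have hαi : (1 : ℝ) ≤ α i := by exact_mod_cast hα1 i
    have hCS0 := CS_nonneg (α i * x) (α i * W) (α i * a0 + β i)
    have h2 : ((α i * W).totient : ℝ) ≤ α i * φW :=
      totient_mul_le' (α i) W (by have := hα1 i; omega) hWpos.ne'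
    have h3 : (x / φW) * (CS (α i * x) (α i * W) (α i * a0 + β i) * ((α i * W).totient : ℝ) / (α i * x)) ≤
        CS (α i * x) (α i * W) (α i * a0 + β i) := by
      calc (x / φW) * (CS (α i * x) (α i * W) (α i * a0 + β i) * ((α i * W).totient : ℝ) / (α i * x)) ≤
          (x / φW) * (CS (α i * x) (α i * W) (α i * a0 + β i) * (α i * φW) / (α i * x)) := by
            apply mul_le_mul_of_nonneg_left _ (by positivity)
            apply div_le_div_of_nonneg_right _ (by positivity)
            exact mul_le_mul_of_nonneg_left h2 hCS0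
        _ = _ := by field_simp
    calc (x / φW) * (w i * (CS (α i * x) (α i * W) (α i * a0 + β i) * ((α i * W).totient : ℝ) / (α i * x))) =
        w i * ((x / φW) * (CS (α i * x) (α i * W) (α i * a0 + β i) * ((α i * W).totient : ℝ) / (α i * x))) := by ring
      _ ≤ w i * CS (α i * x) (α i * W) (α i * a0 + β i) := mul_le_mul_of_nonneg_left h3 (hw0 i)
      _ = _ := mul_comm _ _
  set e2 := ∑ i, ErS (α i * x) z (BE E) K0 (α i * W) A.card with he2
  have H2 : PK * (x / φW) * (c1 * M0 * I0 / 4) - e2 ≤ S2v := by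
    have h1 := sum_le_sum fun i (_ : i ∈ (univ : Finset (Fin (K0 + 1)))) => hlower i
    rw [sum_sub_distrib, ← sum_div, ← mul_sum] at h1
    have h2 := mul_le_mul_of_nonneg_left hcsum hPK0.le
    have h3 : PK * (x / φW) * (c1 * M0 * I0 / 4) = PK * ((x / φW) * (c1 * (M0 / 2 * I0))) / 2 := by ring
    rw [h3]
    linarith
  have He2 : e2 ≤ PK * (x / φW) * (c1 * M0 * I0 / 8) := by
    have h1 : ∀ i, ErS (α i * x) z (BE E) K0 (α i * W) A.card ≤
        PK * (x / φW) / Real.log z + (PK * (x / φW)) * (cst / 16) / ((K0 : ℝ) + 1) := by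
      intro i
      have hαi : (1 : ℝ) ≤ α i := by exact_mod_cast hα1 i
      have h2 := w4 x (α i * x) hzx (by positivity) (by nlinarith) (by
        exact mul_le_mul_of_nonneg_right ((hαX i).trans hXz) hx0.le) hxz
      have h3 := hErr i
      have h4 : (A.card : ℝ) ^ 2 * (Real.exp (2 * LL z) *
        (2 * Real.sqrt (3 * (α i * x)) * Real.log (3 * (α i * x)))) ≤ (PK * (x / φW)) * (cst / 16) / ((K0 : ℝ) + 1) := by
        rw [le_div_iff₀ (by positivity)]
        calc _ = ((K0 : ℝ) + 1) * (A.card : ℝ) ^ 2 * (Real.exp (2 * LL z) *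
              (2 * Real.sqrt (3 * (α i * x)) * Real.log (3 * (α i * x)))) := by ring
          _ ≤ _ := h2
          _ ≤ cst / 16 * (PK * (x / φW)) := mul_le_mul_of_nonneg_left hlow (by positivity)
          _ = _ := by ring
      linarith
    have h2 := sum_le_sum fun i (_ : i ∈ (univ : Finset (Fin (K0 + 1)))) => h1 i
    rw [sum_const, card_univ, Fintype.card_fin, nsmul_eq_mul] at h2
    have h3 : ((K0 + 1 : ℕ) : ℝ) * (PK * (x / φW) / Real.log z + (PK * (x / φW)) * (cst / 16) / ((K0 : ℝ) + 1)) =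
        PK * (x / φW) * (((K0 : ℝ) + 1) / Real.log z) + PK * (x / φW) * (cst / 16) := by
      push_cast
      field_simp
    rw [h3] at h2
    have h4 : ((K0 : ℝ) + 1) / Real.log z ≤ cst / 16 := by
      rw [div_le_div_iff₀ hlz0 (by norm_num)]
      have := w6
      rw [div_le_iff₀ hcst0] at this
      linarith
    have h5'' := mul_le_mul_of_nonneg_left h4 (by positivity : 0 ≤ PK * (x / φW))
    calc e2 ≤ _ := h2
      _ ≤ PK * (x / φW) * (cst / 16) + PK * (x / φW) * (cst / 16) := by linarith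
      _ = _ := by rw [hcst]; ring
  have He1 : (r : ℝ) * K2 * Real.log z * ((A.card : ℝ) ^ 2 * (2 * Real.exp (2 * LL z))) ≤
      PK * (x / φW) * (c1 * M0 * I0 / 16) := by
    have h1 := w5 x hzx
    calc _ = (r : ℝ) * K2 * ((A.card : ℝ) ^ 2 * 2) * (Real.log z * Real.exp (2 * LL z)) := by ring
      _ ≤ _ := h1
      _ ≤ cst / 16 * (PK * (x / φW)) := mul_le_mul_of_nonneg_left hlow (by positivity)
      _ = _ := by rw [hcst]; ring
  have hcomp := w7 S E hSp hSsum hE
  apply fin_real PK x W φW (BE E) (LL z) (Real.log z) I0 c1 M0 cE r K2 S1v S2v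
    ((A.card : ℝ) ^ 2 * (2 * Real.exp (2 * LL z))) e2 hPK0 hx0 hW0 hφW0 hBE hlz0 hII hcE (Nat.cast_nonneg r)
    hK20 rfl hcomp H1 H2 H3 He2 He1
  rw [hM0]
  have h1 : c1 * (19200 * ((r : ℝ) + 1) * K2 / (c1 * cE) + 1) / 16 = 1200 * (r + 1) * K2 / cE + c1 / 16 := by
    field_simp
    ring
  rw [h1]
  have h2 : 1200 * (r : ℝ) * K2 / cE ≤ 1200 * (r + 1) * K2 / cE := by
    apply div_le_div_of_nonneg_right _ hcE.le
    nlinarith
  linarith

end Pool.Agent.L7h28.UM
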