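import Mathlib
import Pool.Agent.L7h28.UM.Main
import Pool.Agent.L7h32.UM.Easy
import Pool.Agent.L7h32.UM.Mer
import Pool.Agent.L7h32.UM.S1
import Pool.Agent.L7h80.UM.SP
import Pool.Agent.L7h80.UM.CB
import Pool.Agent.Y835.SC.Page

set_option autoImplicit false

/-! The uniform Maynard-Tao theorem of Linnik type. -/

namespace Pool.Agent.L7h28.UM

theorem page_holds : PageStmt := Pool.Agent.Y835.SC.page

theorem umt_holds : UMT :=
  umt Pool.Agent.H378R2.sieve_asymp Pool.Agent.L7h80.UM.s_CB Pool.Agent.L7h32.UM.s_e1 Pool.Agent.L7h32.UM.s_e2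
    Pool.Agent.L7h32.UM.s_s1 Pool.Agent.L7h80.UM.s_P page_holds Pool.Agent.L7h32.UM.s_pg Pool.Agent.L7h32.UM.s_crt

end Pool.Agent.L7h28.UM
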