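import Mathlib
import Pool.Agent.L7h28.UM.Core6
import Pool.Agent.L7h32.UM.Easy
import Pool.Agent.L7h32.UM.Mer
import Pool.Agent.L7h32.UM.S1
import Pool.Agent.L7h80.UM.CB
import Pool.Agent.L7h32.UM.S1P
import Pool.Agent.L7h32.UM.E3
import Pool.Agent.L7h32.UM.P2
import Pool.Agent.L7h80.UM.CP
import Pool.Agent.L7h80.UM.FAM

set_option autoImplicit false

/-! The uniform theorem of Linnik type: many primes, or a prescribed prime, and all values almost prime. -/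

open Finset Filter

namespace Pool.Agent.L7h28.UM

open Pool.Agent.H378R2

/-- a system of `k` linear forms with coefficients at most `X`, pairwise not proportional, without fixed
prime divisor -/
def Sys {k : ℕ} (X : ℕ) (a b : Fin k → ℕ) : Prop :=
  (∀ j, 1 ≤ a j ∧ a j ≤ X ∧ b j ≤ X) ∧ (∀ i j, i ≠ j → a i * b j ≠ a j * b i) ∧
    (∀ p : ℕ, p.Prime → ∃ n : ℕ, ∀ j, ¬ p ∣ a j * n + b j)

/-- many primes in the subfamily `J`, all values almost prime -/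
def PartA (A : ℕ) (q : ℕ → ℕ) : Prop :=
  ∀ r : ℕ, ∃ K : ℕ, ∀ k : ℕ, ∃ (Om : ℕ) (δ : ℝ), 0 < δ ∧ ∀ᶠ X : ℕ in atTop,
    ∀ a b : Fin k → ℕ, Sys X a b → ∀ J : Finset (Fin k), K ≤ (J.filter (fun j => ¬ q X ∣ a j)).card →
    ∃ N : ℕ, X ≤ N ∧ N ≤ X ^ A ∧ δ * (N / (Real.log N) ^ k) ≤
      (((Icc 1 N).filter (fun n : ℕ => N ≤ 6 * n ∧ r ≤ (J.filter (fun j => (a j * n + b j).Prime)).card ∧
        ∀ i, ArithmeticFunction.cardFactors (a i * n + b i) ≤ Om)).card : ℝ)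

/-- one prescribed form prime, all values almost prime -/
def PartB (A : ℕ) (q : ℕ → ℕ) : Prop :=
  ∀ k : ℕ, ∃ (Om : ℕ) (δ : ℝ), 0 < δ ∧ ∀ᶠ X : ℕ in atTop,
    ∀ a b : Fin k → ℕ, Sys X a b → ∀ j : Fin k, ¬ q X ∣ a j →
    ∃ N : ℕ, X ≤ N ∧ N ≤ X ^ A ∧ δ * (N / (Real.log N) ^ k) ≤
      (((Icc 1 N).filter (fun n : ℕ => N ≤ 6 * n ∧ (a j * n + b j).Prime ∧
        ∀ i, ArithmeticFunction.cardFactors (a i * n + b i) ≤ Om)).card : ℝ)

theorem fin_min {T : Type} [Fintype T] (δ : T → ℝ) (h : ∀ t, 0 < δ t) : ∃ d : ℝ, 0 < d ∧ ∀ t, d ≤ δ t := by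
  have hs : 0 ≤ ∑ t, 1 / δ t := sum_nonneg fun t _ => (one_div_pos.2 (h t)).le
  refine ⟨1 / (1 + ∑ t, 1 / δ t), by positivity, fun t => ?_⟩
  rw [div_le_iff₀ (by positivity)]
  have h1 : 1 / δ t ≤ ∑ t, 1 / δ t := single_le_sum (f := fun t => 1 / δ t)
    (fun t _ => (one_div_pos.2 (h t)).le) (mem_univ t)
  have h2 := mul_le_mul_of_nonneg_left h1 (h t).le
  rw [mul_one_div_cancel (h t).ne'] at h2
  nlinarith [h t]

/-- the passage from the real scale to an integer -/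
theorem toN (X K' k : ℕ) (x δ c : ℝ) (hX : 3 ≤ X) (hx1 : (X : ℝ) ^ 400 ≤ x) (hx2 : x ≤ ((X : ℝ) ^ 400) ^ K')
    (hδ : 0 < δ) (h : δ * (x / (Real.log x) ^ k) ≤ c) :
    X ≤ ⌊3 * x⌋₊ ∧ ⌊3 * x⌋₊ ≤ X ^ (400 * K' + 1) ∧
      δ / 3 * ((⌊3 * x⌋₊ : ℝ) / (Real.log (⌊3 * x⌋₊ : ℝ)) ^ k) ≤ c ∧
      ∀ n : ℕ, x ≤ 2 * n → ⌊3 * x⌋₊ ≤ 6 * n := by
  have hX3 : (3 : ℝ) ≤ X := by exact_mod_cast hX
  have hXx : (X : ℝ) ≤ x := (le_self_pow₀ (by linarith) (by norm_num)).trans hx1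
  have hx0 : 0 < x := by linarith
  have hN1 : ((⌊3 * x⌋₊ : ℕ) : ℝ) ≤ 3 * x := Nat.floor_le (by linarith)
  have hN2 : 3 * x - 1 < ((⌊3 * x⌋₊ : ℕ) : ℝ) := Nat.sub_one_lt_floor _
  have hN3 : x ≤ ((⌊3 * x⌋₊ : ℕ) : ℝ) := by linarith
  have hlx : 0 < Real.log x := Real.log_pos (by linarith)
  refine ⟨by exact_mod_cast hXx.trans hN3, ?_, ?_, ?_⟩
  · have h1 : ((⌊3 * x⌋₊ : ℕ) : ℝ) ≤ ((X ^ (400 * K' + 1) : ℕ) : ℝ) := by
      push_cast
      calc ((⌊3 * x⌋₊ : ℕ) : ℝ) ≤ 3 * x := hN1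
        _ ≤ X * ((X : ℝ) ^ 400) ^ K' := mul_le_mul hX3 hx2 hx0.le (by linarith)
        _ = _ := by rw [← pow_mul, pow_succ, mul_comm]
    exact_mod_cast h1
  · refine le_trans ?_ h
    have h2 : ((⌊3 * x⌋₊ : ℕ) : ℝ) / (Real.log ((⌊3 * x⌋₊ : ℕ) : ℝ)) ^ k ≤ (3 * x) / (Real.log x) ^ k := by
      apply div_le_div₀ (by linarith) hN1 (by positivity)
      exact pow_le_pow_left₀ hlx.le (Real.log_le_log hx0 hN3) _
    calc _ ≤ δ / 3 * ((3 * x) / (Real.log x) ^ k) := mul_le_mul_of_nonneg_left h2 (by positivity)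
      _ = _ := by ring
  · intro n hn
    have h1 : ((⌊3 * x⌋₊ : ℕ) : ℝ) ≤ ((6 * n : ℕ) : ℝ) := by
      push_cast
      linarith
    exact_mod_cast h1

/-- the hypotheses which are used -/
theorem both (hADM : S_ADM) : ∃ (A : ℕ) (q : ℕ → ℕ), (∀ X, 2 ≤ q X) ∧
    (∀ B : ℕ, ∀ᶠ X : ℕ in atTop, (Real.log X) ^ B ≤ (q X : ℝ)) ∧ PartA A q ∧ PartB A q := by
  classical
  obtain ⟨K', c1, e, hK', hc1, hgrow, hscale⟩ := Pool.Agent.L7h32.UM.s_p2
  obtain ⟨cE, hcE, hcEev⟩ := Pool.Agent.L7h32.UM.s_e2 25 (by norm_num)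
  obtain ⟨CE, hCE, hCEev⟩ := Pool.Agent.L7h32.UM.s_e3 25 (by norm_num)
  have ht : Tendsto (fun X : ℕ => ((X : ℝ)) ^ 400) atTop atTop :=
    (tendsto_pow_atTop (by norm_num)).comp tendsto_natCast_atTop_atTop
  have hq2 : ∀ᶠ X : ℕ in atTop, 2 ≤ e ((X : ℝ) ^ 400) ∧ ScaleOK ((X : ℝ) ^ 400) K' c1 (e ((X : ℝ) ^ 400)) :=
    ht.eventually hscale
  obtain ⟨q, hq⟩ : ∃ q : ℕ → ℕ, q = fun X : ℕ => max 2 (e ((X : ℝ) ^ 400)) := ⟨_, rfl⟩
  have hqe : ∀ᶠ X : ℕ in atTop, q X = e ((X : ℝ) ^ 400) := by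
    filter_upwards [hq2] with X h
    rw [hq]
    exact max_eq_right h.1
  have hcore := fun {K0 B : ℕ} (f : Fin B → ℝ → ℝ) (c : Fin B → ℝ) (A : Finset (Fin (K0 + 1) → Fin B))
    (hfam : FamOK f c A) (hII : 0 < II f A) {K1 : ℕ} (ι : Fin K1 ↪ Fin (K0 + 1)) (M0 : ℝ) (hM0 : 0 < M0)
    (hJJ : M0 * II f A ≤ ∑ j, JJ f A (ι j)) (ρ : ℕ) (hρ : (ρ : ℝ) * ((K' : ℝ) + 3) * (1200 / cE) ≤ c1 * M0 / 64) =>
    core2 Pool.Agent.H378R2.sieve_asymp Pool.Agent.L7h80.UM.s_CB hADM Pool.Agent.L7h32.UM.s_e1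
      Pool.Agent.L7h32.UM.s_s1 (Pool.Agent.L7h32.UM.s_s1p Pool.Agent.L7h80.UM.s_CP) f c A hfam hII ι M0 hM0 hJJ
      K' c1 hc1 cE CE hcE hCE hcEev hCEev ρ hρ
  refine ⟨400 * K' + 1, q, fun X => by rw [hq]; exact le_max_left _ _, ?_, ?_, ?_⟩
  · intro B
    have h1 := ht.eventually (hgrow B)
    filter_upwards [h1, hqe, eventually_ge_atTop 3] with X h2 h3 h4
    rw [h3]
    refine le_trans ?_ h2
    have hX3 : (3 : ℝ) ≤ X := by exact_mod_cast h4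
    have hl : 0 ≤ Real.log X := Real.log_nonneg (by linarith)
    apply pow_le_pow_left₀ hl
    exact Real.log_le_log (by linarith) (le_self_pow₀ (by linarith) (by norm_num))
  · -- many primes
    intro r
    obtain ⟨M0, hM0⟩ : ∃ M0 : ℝ, M0 = 64 * ((r : ℝ) * ((K' : ℝ) + 3) * (1200 / cE)) / c1 + 1 := ⟨_, rfl⟩
    have hM00 : 0 < M0 := by rw [hM0]; positivity
    have hρ : (r : ℝ) * ((K' : ℝ) + 3) * (1200 / cE) ≤ c1 * M0 / 64 := by
      rw [hM0]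
      have : c1 * (64 * ((r : ℝ) * ((K' : ℝ) + 3) * (1200 / cE)) / c1 + 1) / 64 =
          (r : ℝ) * ((K' : ℝ) + 3) * (1200 / cE) + c1 / 64 := by
        field_simp
      rw [this]
      have : 0 < c1 / 64 := by positivity
      linarith
    obtain ⟨K1, hK1, hfam⟩ := Pool.Agent.L7h80.UM.s_FAM M0
    obtain ⟨K, hPG⟩ := Pool.Agent.L7h32.UM.s_pgj K1 hK1
    refine ⟨K + 1, fun k => ?_⟩
    rcases k with _ | K0
    · refine ⟨0, 1, one_pos, Eventually.of_forall fun X a b _ J hJ => ?_⟩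
      exfalso
      have : (J.filter (fun j => ¬ q X ∣ a j)) = ∅ := by
        apply eq_empty_of_isEmpty
      rw [this] at hJ
      simp at hJ
    · choose B f c A h1 h2 h3 using fun ι : Fin K1 ↪ Fin (K0 + 1) => hfam K0 ι
      choose Om δ hδ hev using fun ι : Fin K1 ↪ Fin (K0 + 1) =>
        hcore (f ι) (c ι) (A ι) (h1 ι) (h2 ι) ι M0 hM00 (h3 ι) r hρ
      obtain ⟨d, hd, hdle⟩ := fin_min δ hδ
      have hOm : ∀ ι, Om ι ≤ univ.sup Om := fun ι => le_sup (mem_univ ι)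
      refine ⟨univ.sup Om, d / 3, by positivity, ?_⟩
      have hall : ∀ᶠ X : ℕ in atTop, ∀ ι : Fin K1 ↪ Fin (K0 + 1), ∀ (q₁ : ℕ), ScaleOK ((X : ℝ) ^ 400) K' c1 q₁ →
          ∀ (α β : Fin (K0 + 1) → ℕ) (S : Finset ℕ),
          (∀ j, 1 ≤ α j ∧ (α j : ℝ) ≤ X ∧ (β j : ℝ) ≤ X) → (∀ i j, i ≠ j → α i * β j ≠ α j * β i) →
          (∀ p : ℕ, p.Prime → ∃ n : ℕ, ∀ j, ¬ p ∣ α j * n + β j) →
          (∀ p ∈ S, p.Prime) → ∑ p ∈ S, (1 : ℝ) / p ≤ 1 →
          (∀ (j : Fin K1) (W : ℕ), (∀ p ∈ S, ¬ p ∣ W) → ¬ q₁ ∣ α (ι j) * W) →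
          ∃ x : ℝ, (X : ℝ) ^ 400 ≤ x ∧ x ≤ ((X : ℝ) ^ 400) ^ K' ∧
            δ ι * (x / (Real.log x) ^ (K0 + 1)) ≤ (((Icc 1 ⌊3 * x⌋₊).filter (fun n : ℕ => x ≤ 2 * n ∧
              r < ((univ : Finset (Fin K1)).filter (fun j => (α (ι j) * n + β (ι j)).Prime)).card ∧
              ∀ i, ArithmeticFunction.cardFactors (α i * n + β i) ≤ Om ι)).card : ℝ) :=
        eventually_all.2 hev
      filter_upwards [hall, hq2, hqe, eventually_ge_atTop 3] with X hX hX2 hXq hX3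
      intro a b hsys J hJ
      rw [hXq] at hJ
      have hJ' : K ≤ ((univ : Finset (Fin (K0 + 1))).filter
          (fun j => 1 ≤ (if j ∈ J then a j else 0) ∧ ¬ e ((X : ℝ) ^ 400) ∣ (if j ∈ J then a j else 0))).card := by
        refine (Nat.le_succ K).trans (hJ.trans (card_le_card ?_))
        intro j hj
        rw [mem_filter] at hj ⊢
        rw [if_pos hj.1]
        exact ⟨mem_univ _, (hsys.1 j).1, hj.2⟩
      obtain ⟨ι, S, hSp, hSs, hSq⟩ := hPG (K0 + 1) (e ((X : ℝ) ^ 400)) (fun j => if j ∈ J then a j else 0) hX2.1 hJ'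
      have hιJ : ∀ j, ι j ∈ J := by
        intro j
        by_contra hc
        have := hSq j 1 (fun p hp hd => (hSp p hp).one_lt.ne' (Nat.dvd_one.1 hd))
        simp only [if_neg hc, zero_mul] at this
        exact this (dvd_zero _)
      obtain ⟨x, hx1, hx2, hx3⟩ := hX ι (e ((X : ℝ) ^ 400)) hX2.2 a b S
        (fun j => ⟨(hsys.1 j).1, by exact_mod_cast (hsys.1 j).2.1, by exact_mod_cast (hsys.1 j).2.2⟩) hsys.2.1 hsys.2.2
        hSp hSs (fun j W hW => by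
          have := hSq j W hW
          simp only [if_pos (hιJ j)] at this
          exact this)
      have hx3' := le_trans (mul_le_mul_of_nonneg_right (hdle ι) (by
        have hX3' : (3 : ℝ) ≤ X := by exact_mod_cast hX3
        have : (3 : ℝ) ≤ x := (hX3'.trans (le_self_pow₀ (by linarith) (by norm_num))).trans hx1
        have := Real.log_nonneg (by linarith : (1 : ℝ) ≤ x)
        positivity)) hx3
      obtain ⟨t1, t2, t3, t4⟩ := toN X K' (K0 + 1) x d _ hX3 hx1 hx2 hd hx3'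
      refine ⟨⌊3 * x⌋₊, t1, t2, t3.trans ?_⟩
      have hsub : ((Icc 1 ⌊3 * x⌋₊).filter (fun n : ℕ => x ≤ 2 * n ∧
              r < ((univ : Finset (Fin K1)).filter (fun j => (a (ι j) * n + b (ι j)).Prime)).card ∧
              ∀ i, ArithmeticFunction.cardFactors (a i * n + b i) ≤ Om ι)) ⊆
          ((Icc 1 ⌊3 * x⌋₊).filter (fun n : ℕ => ⌊3 * x⌋₊ ≤ 6 * n ∧
            r ≤ (J.filter (fun j => (a j * n + b j).Prime)).card ∧
            ∀ i, ArithmeticFunction.cardFactors (a i * n + b i) ≤ univ.sup Om)) := by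
        intro n hn
        rw [mem_filter] at hn ⊢
        refine ⟨hn.1, t4 n hn.2.1, ?_, fun i => (hn.2.2.2 i).trans (hOm ι)⟩
        refine (hn.2.2.1.le).trans ?_
        rw [← card_map ι]
        apply card_le_card
        intro j hj
        rw [Finset.mem_map] at hj
        obtain ⟨i, hi, rfl⟩ := hj
        rw [mem_filter] at hi ⊢
        exact ⟨hιJ i, hi.2⟩
      exact_mod_cast card_le_card hsub
  · -- a prescribed prime
    intro k
    rcases k with _ | K0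
    · exact ⟨0, 1, one_pos, Eventually.of_forall fun X a b _ j => j.elim0⟩
    · choose B f c A h1 h2 h3 using fun i : Fin (K0 + 1) => Pool.Agent.L7h80.UM.s_FAM1 K0 i
      obtain ⟨em, hem⟩ : ∃ em : Fin (K0 + 1) → (Fin 1 ↪ Fin (K0 + 1)), ∀ i j, em i j = i :=
        ⟨fun i => ⟨fun _ => i, fun a b _ => Subsingleton.elim a b⟩, fun i j => rfl⟩
      choose Om δ hδ hev using fun i : Fin (K0 + 1) =>
        hcore (f i) (c i) (A i) (h1 i) (h2 i) (em i) (JJ (f i) (A i) i / II (f i) (A i)) (div_pos (h3 i) (h2 i))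
          (by rw [div_mul_cancel₀ _ (h2 i).ne']; simp [hem]) 0 (by
            have := div_pos (h3 i) (h2 i)
            simp only [Nat.cast_zero, zero_mul]
            positivity)
      obtain ⟨d, hd, hdle⟩ := fin_min δ hδ
      have hOm : ∀ i, Om i ≤ univ.sup Om := fun i => le_sup (mem_univ i)
      refine ⟨univ.sup Om, d / 3, by positivity, ?_⟩
      have hall := eventually_all.2 hev
      filter_upwards [hall, hq2, hqe, eventually_ge_atTop 3] with X hX hX2 hXq hX3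
      intro a b hsys i hi
      rw [hXq] at hi
      obtain ⟨l, hl, hlW⟩ := Pool.Agent.L7h32.UM.pick _ _ hi
      obtain ⟨x, hx1, hx2, hx3⟩ := hX i (e ((X : ℝ) ^ 400)) hX2.2 a b {l}
        (fun j => ⟨(hsys.1 j).1, by exact_mod_cast (hsys.1 j).2.1, by exact_mod_cast (hsys.1 j).2.2⟩) hsys.2.1 hsys.2.2
        (fun p hp => by rw [mem_singleton] at hp; rw [hp]; exact hl)
        (by
          rw [sum_singleton]
          have : (1 : ℝ) ≤ l := by exact_mod_cast hl.one_lt.le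
          rw [div_le_one (by linarith)]
          exact this)
        (fun j W hW => by
          rw [hem]
          exact hlW W (hW l (mem_singleton_self l)))
      have hx3' := le_trans (mul_le_mul_of_nonneg_right (hdle i) (by
        have hX3' : (3 : ℝ) ≤ X := by exact_mod_cast hX3
        have : (3 : ℝ) ≤ x := (hX3'.trans (le_self_pow₀ (by linarith) (by norm_num))).trans hx1
        have := Real.log_nonneg (by linarith : (1 : ℝ) ≤ x)
        positivity)) hx3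
      obtain ⟨t1, t2, t3, t4⟩ := toN X K' (K0 + 1) x d _ hX3 hx1 hx2 hd hx3'
      refine ⟨⌊3 * x⌋₊, t1, t2, t3.trans ?_⟩
      have hsub : ((Icc 1 ⌊3 * x⌋₊).filter (fun n : ℕ => x ≤ 2 * n ∧
              0 < ((univ : Finset (Fin 1)).filter (fun j => (a (em i j) * n + b (em i j)).Prime)).card ∧
              ∀ i', ArithmeticFunction.cardFactors (a i' * n + b i') ≤ Om i)) ⊆
          ((Icc 1 ⌊3 * x⌋₊).filter (fun n : ℕ => ⌊3 * x⌋₊ ≤ 6 * n ∧ (a i * n + b i).Prime ∧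
            ∀ i, ArithmeticFunction.cardFactors (a i * n + b i) ≤ univ.sup Om)) := by
        intro n hn
        rw [mem_filter] at hn ⊢
        refine ⟨hn.1, t4 n hn.2.1, ?_, fun i' => (hn.2.2.2 i').trans (hOm _)⟩
        obtain ⟨j, hj⟩ := card_pos.1 hn.2.2.1
        have := (mem_filter.1 hj).2
        rwa [hem] at this
      have hsub2 := card_le_card hsub
      exact_mod_cast hsub2

end Pool.Agent.L7h28.UM
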