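import Mathlib
import Pool.Agent.L7h28.UM.Final2

set_option autoImplicit false

/-! Subfamilies without fixed prime divisor, and the count of the good subsets of a family. -/

open Finset Filter

namespace Pool.Agent.L7h28.UM

/-- coprime pairs which are distinct are not proportional -/
theorem det_ne {a b a' b' : ℕ} (h : a.Coprime b) (h' : a'.Coprime b') (ha : 1 ≤ a) (ha' : 1 ≤ a')
    (hne : (a, b) ≠ (a', b')) : a * b' ≠ a' * b := by
  intro he
  apply hne
  have h1 : a ∣ a' := h.dvd_of_dvd_mul_right (Dvd.intro _ he)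
  have h2 : a' ∣ a := h'.dvd_of_dvd_mul_right (Dvd.intro _ he.symm)
  have h3 : a = a' := Nat.dvd_antisymm h1 h2
  subst h3
  have h4 : b' = b := Nat.eq_of_mul_eq_mul_left (by omega) he
  rw [h4]

/-- at most one root -/
theorem root_unique {p a b n m : ℕ} (hp : p.Prime) (h : a.Coprime b) (hn : n < p) (hm : m < p)
    (h1 : p ∣ a * n + b) (h2 : p ∣ a * m + b) : n = m := by
  have hpa : ¬ p ∣ a := by
    intro hd
    have h3 : p ∣ b := (Nat.dvd_add_right (hd.mul_right n)).1 h1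
    exact hp.one_lt.ne' (Nat.dvd_one.1 (h ▸ Nat.dvd_gcd hd h3))
  have h4 : a * n + b ≡ a * m + b [MOD p] :=
    ((Nat.modEq_zero_iff_dvd).2 h1).trans ((Nat.modEq_zero_iff_dvd).2 h2).symm
  have h5 : a * n ≡ a * m [MOD p] := Nat.ModEq.add_right_cancel' b h4
  have h6 : n ≡ m [MOD p] := Nat.ModEq.cancel_left_of_coprime (by
    rw [Nat.Coprime] at *
    exact (Nat.Prime.coprime_iff_not_dvd hp).2 hpa) h5
  exact Nat.ModEq.eq_of_lt_of_lt h6 hn hm

/-- a large family has a subfamily of size `K` without fixed prime divisor -/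
theorem sub_adm (K : ℕ) (G : Finset (ℕ × ℕ)) (hG : ∀ v ∈ G, v.1.Coprime v.2)
    (hcard : (K.factorial * K.factorial) * K < G.card) :
    ∃ H ⊆ G, H.card = K ∧ ∀ p : ℕ, p.Prime → ∃ n : ℕ, ∀ v ∈ H, ¬ p ∣ v.1 * n + v.2 := by
  classical
  set Q := K.factorial with hQ
  have hQ0 : 0 < Q := Nat.factorial_pos _
  have h1 : ∀ v ∈ G, (v.1 % Q, v.2 % Q) ∈ range Q ×ˢ range Q := by
    intro v _
    rw [mem_product, mem_range, mem_range]
    exact ⟨Nat.mod_lt _ hQ0, Nat.mod_lt _ hQ0⟩
  obtain ⟨y, _, hy⟩ := exists_lt_card_fiber_of_mul_lt_card_of_maps_to h1 (n := K) (by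
    rw [card_product, card_range]; exact hcard)
  obtain ⟨H, hHs, hHc⟩ := exists_subset_card_eq hy.le
  have hHG : H ⊆ G := fun v hv => (mem_filter.1 (hHs hv)).1
  refine ⟨H, hHG, hHc, ?_⟩
  intro p hp
  by_cases hpK : p ≤ K
  · have hpQ : p ∣ Q := (Nat.Prime.dvd_factorial hp).2 hpK
    rcases H.eq_empty_or_nonempty with h0 | ⟨w, hw⟩
    · exact ⟨0, fun v hv => by rw [h0] at hv; simp at hv⟩
    · have hcong : ∀ v ∈ H, ∀ n, v.1 * n + v.2 ≡ w.1 * n + w.2 [MOD p] := by
        intro v hv n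
        have e1 := (mem_filter.1 (hHs hv)).2
        have e2 := (mem_filter.1 (hHs hw)).2
        have e3 : v.1 ≡ w.1 [MOD Q] := by
          have := (Prod.ext_iff.1 (e1.trans e2.symm)).1
          exact this
        have e4 : v.2 ≡ w.2 [MOD Q] := by
          have := (Prod.ext_iff.1 (e1.trans e2.symm)).2
          exact this
        exact ((e3.of_dvd hpQ).mul_right n).add (e4.of_dvd hpQ)
      by_cases hb : p ∣ w.2
      · have ha : ¬ p ∣ w.1 := fun ha =>
          hp.one_lt.ne' (Nat.dvd_one.1 ((hG w (hHG hw)) ▸ Nat.dvd_gcd ha hb))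
        refine ⟨1, fun v hv hd => ha ?_⟩
        have h3 := (Nat.ModEq.dvd_iff (hcong v hv 1) dvd_rfl).1 hd
        rw [mul_one] at h3
        exact (Nat.dvd_add_left hb).1 h3
      · refine ⟨0, fun v hv hd => hb ?_⟩
        have h3 := (Nat.ModEq.dvd_iff (hcong v hv 0) dvd_rfl).1 hd
        rwa [mul_zero, zero_add] at h3
  · push Not at hpK
    by_contra hcon
    push Not at hcon
    -- every residue is a root of one of the K forms
    choose! g hg1 hg2 using hcon
    have h3 : (range p).card ≤ H.card := by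
      apply card_le_card_of_injOn g
      · intro n _
        exact hg1 n
      · intro n hn m hm hnm
        rw [mem_coe, mem_range] at hn hm
        apply root_unique hp (hG _ (hHG (hg1 n))) hn hm (hg2 n)
        rw [hnm]
        exact hg2 m
    rw [card_range, hHc] at h3
    omega

/-- the good subsets of size `r` -/
theorem choose_le {V : Type} [DecidableEq V] (F : Finset V) (M r : ℕ) (hr : r ≤ M) (hF : M ≤ F.card)
    (good : Finset V → Prop) [DecidablePred good]
    (h : ∀ G ⊆ F, G.card = M → ∃ H ⊆ G, H.card = r ∧ good H) :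
    F.card.choose r ≤ M.choose r * ((F.powersetCard r).filter good).card := by
  classical
  set GS := (F.powersetCard r).filter good with hGS
  have h1 : F.powersetCard M ⊆ GS.biUnion (fun H => (F.powersetCard M).filter (fun G => H ⊆ G)) := by
    intro G hG
    rw [mem_powersetCard] at hG
    obtain ⟨H, hHG, hHc, hgood⟩ := h G hG.1 hG.2
    rw [mem_biUnion]
    refine ⟨H, ?_, ?_⟩
    · rw [hGS, mem_filter, mem_powersetCard]
      exact ⟨⟨hHG.trans hG.1, hHc⟩, hgood⟩
    · rw [mem_filter, mem_powersetCard]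
      exact ⟨hG, hHG⟩
  have h2 : ∀ H ∈ GS, ((F.powersetCard M).filter (fun G => H ⊆ G)).card ≤ (F.card - r).choose (M - r) := by
    intro H hH
    rw [hGS, mem_filter, mem_powersetCard] at hH
    have h3 : ((F.powersetCard M).filter (fun G => H ⊆ G)).card ≤ ((F \ H).powersetCard (M - r)).card := by
      apply card_le_card_of_injOn (fun G => G \ H)
      · intro G hG
        rw [mem_coe, mem_filter, mem_powersetCard] at hG
        rw [mem_coe, mem_powersetCard]
        refine ⟨sdiff_subset_sdiff hG.1.1 le_rfl, ?_⟩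
        rw [card_sdiff_of_subset hG.2, hG.1.2, hH.1.2]
      · intro G hG G' hG' he
        rw [mem_coe, mem_filter] at hG hG'
        simp only at he
        rw [← sdiff_union_of_subset hG.2, ← sdiff_union_of_subset hG'.2, he]
    rw [card_powersetCard, card_sdiff_of_subset hH.1.1, hH.1.2] at h3
    exact h3
  have h3 : F.card.choose M ≤ GS.card * (F.card - r).choose (M - r) := by
    calc F.card.choose M = (F.powersetCard M).card := (card_powersetCard _ _).symm
      _ ≤ _ := card_le_card h1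
      _ ≤ ∑ H ∈ GS, ((F.powersetCard M).filter (fun G => H ⊆ G)).card := card_biUnion_le
      _ ≤ ∑ _H ∈ GS, (F.card - r).choose (M - r) := sum_le_sum h2
      _ = _ := by rw [sum_const, smul_eq_mul]
  have h4 : F.card.choose M * M.choose r = F.card.choose r * (F.card - r).choose (M - r) := Nat.choose_mul hr
  have h5 : 0 < (F.card - r).choose (M - r) := Nat.choose_pos (by omega)
  apply Nat.le_of_mul_le_mul_right _ h5
  calc F.card.choose r * (F.card - r).choose (M - r) = F.card.choose M * M.choose r := h4.symm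
    _ ≤ (GS.card * (F.card - r).choose (M - r)) * M.choose r := Nat.mul_le_mul_right _ h3
    _ = _ := by ring

/-- the family of the `r` forms takes many prime values -/
def Many (A K : ℕ) (δ : ℝ) (X : ℕ) (H : Finset (ℕ × ℕ)) : Prop :=
  ∃ N : ℕ, X ≤ N ∧ N ≤ X ^ A ∧ δ * (N / (Real.log N) ^ K) ≤
    (((Icc 1 N).filter (fun n : ℕ => N ≤ 6 * n ∧ ∀ v ∈ H, (v.1 * n + v.2).Prime)).card : ℝ)

/-- every large family contains a good subset of size `r` -/
theorem prop_of {A : ℕ} {q : ℕ → ℕ} (hA : PartA A q) (r : ℕ) : ∃ (K M : ℕ) (δ : ℝ), 0 < δ ∧ r ≤ M ∧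
    ∀ᶠ X : ℕ in atTop, ∀ G : Finset (ℕ × ℕ),
      (∀ v ∈ G, 1 ≤ v.1 ∧ v.1 ≤ X ∧ v.2 ≤ X ∧ v.1.Coprime v.2 ∧ ¬ q X ∣ v.1) → M ≤ G.card →
      ∃ H ⊆ G, H.card = r ∧ Many A K δ X H := by
  classical
  obtain ⟨K, hK⟩ := hA r
  obtain ⟨Om, δ, hδ, hev⟩ := hK K
  refine ⟨K, r + ((K.factorial * K.factorial) * K + 1), δ / ((K.choose r : ℝ) + 1), by positivity, by omega, ?_⟩
  filter_upwards [hev, eventually_ge_atTop 3] with X hX hX3
  intro G hG hGc
  obtain ⟨H0, hH0G, hH0c, hadm⟩ := sub_adm K G (fun v hv => (hG v hv).2.2.2.1) (by omega)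
  obtain ⟨e⟩ : Nonempty (Fin K ≃ H0) := ⟨(Fintype.equivFinOfCardEq (by rw [Fintype.card_coe, hH0c])).symm⟩
  have hv : ∀ j, (e j : ℕ × ℕ) ∈ G := fun j => hH0G (e j).2
  have hsys : Sys X (fun j => (e j : ℕ × ℕ).1) (fun j => (e j : ℕ × ℕ).2) := by
    refine ⟨fun j => ⟨(hG _ (hv j)).1, (hG _ (hv j)).2.1, (hG _ (hv j)).2.2.1⟩, ?_, ?_⟩
    · intro i j hij
      apply det_ne (hG _ (hv i)).2.2.2.1 (hG _ (hv j)).2.2.2.1 (hG _ (hv i)).1 (hG _ (hv j)).1
      intro he
      apply hij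
      apply e.injective
      apply Subtype.ext
      exact Prod.ext (Prod.ext_iff.1 he).1 (Prod.ext_iff.1 he).2
    · intro p hp
      obtain ⟨n, hn⟩ := hadm p hp
      exact ⟨n, fun j => hn _ (e j).2⟩
  obtain ⟨N, h1, h2, h3⟩ := hX _ _ hsys univ (by
    rw [filter_true_of_mem fun j _ => (hG _ (hv j)).2.2.2.2, card_univ, Fintype.card_fin])
  -- pigeonhole over the subsets
  have hN3 : 3 ≤ N := hX3.trans h1
  have hN0 : (3 : ℝ) ≤ N := by exact_mod_cast hN3
  have hlog : 0 < Real.log N := Real.log_pos (by linarith)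
  obtain ⟨T, hT⟩ : ∃ T : Finset (Fin K) → Finset ℕ, T = fun s => (Icc 1 N).filter
    (fun n : ℕ => N ≤ 6 * n ∧ ∀ j ∈ s, ((e j : ℕ × ℕ).1 * n + (e j : ℕ × ℕ).2).Prime) := ⟨_, rfl⟩
  obtain ⟨cnt, hcnt⟩ : ∃ cnt : ℝ, cnt = N / (Real.log N) ^ K := ⟨_, rfl⟩
  have hcnt0 : 0 < cnt := by rw [hcnt]; positivity
  rw [← hcnt] at h3
  have h4 : δ * cnt ≤ ∑ s ∈ (univ : Finset (Fin K)).powersetCard r, ((T s).card : ℝ) := by
    refine h3.trans ?_
    rw [← Nat.cast_sum]
    refine Nat.cast_le.2 ?_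
    refine le_trans (card_le_card ?_) card_biUnion_le
    intro n hn
    rw [mem_filter] at hn
    obtain ⟨s, hs, hsc⟩ := exists_subset_card_eq hn.2.2.1
    rw [mem_biUnion]
    refine ⟨s, mem_powersetCard.2 ⟨subset_univ _, hsc⟩, ?_⟩
    rw [hT, mem_filter]
    exact ⟨hn.1, hn.2.1, fun j hj => (mem_filter.1 (hs hj)).2⟩
  have h5 : ∃ s ∈ (univ : Finset (Fin K)).powersetCard r, δ / ((K.choose r : ℝ) + 1) * cnt ≤ ((T s).card : ℝ) := by
    by_contra hcon
    push Not at hcon
    have h6 : ∑ s ∈ (univ : Finset (Fin K)).powersetCard r, ((T s).card : ℝ) ≤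
        (K.choose r : ℝ) * (δ / ((K.choose r : ℝ) + 1) * cnt) := by
      calc _ ≤ ∑ _s ∈ (univ : Finset (Fin K)).powersetCard r, (δ / ((K.choose r : ℝ) + 1) * cnt) :=
            sum_le_sum fun s hs => (hcon s hs).le
        _ = _ := by rw [sum_const, card_powersetCard, card_univ, Fintype.card_fin, nsmul_eq_mul]
    have h7 : (K.choose r : ℝ) * (δ / ((K.choose r : ℝ) + 1) * cnt) < δ * cnt := by
      have e1 : (K.choose r : ℝ) * (δ / ((K.choose r : ℝ) + 1) * cnt) =
          (δ * cnt) * ((K.choose r : ℝ) / ((K.choose r : ℝ) + 1)) := by ring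
      rw [e1]
      have e2 : (K.choose r : ℝ) / ((K.choose r : ℝ) + 1) < 1 := by
        rw [div_lt_one (by positivity)]
        linarith
      have e3 : 0 < δ * cnt := by positivity
      nlinarith
    linarith
  obtain ⟨s, hs, hsle⟩ := h5
  rw [mem_powersetCard] at hs
  refine ⟨s.map (e.toEmbedding.trans (Function.Embedding.subtype _)), ?_, ?_, N, h1, h2, ?_⟩
  · intro v hv'
    rw [Finset.mem_map] at hv'
    obtain ⟨j, _, rfl⟩ := hv'
    exact hv j
  · rw [card_map, hs.2]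
  · rw [← hcnt]
    refine hsle.trans ?_
    refine Nat.cast_le.2 (card_le_card ?_)
    intro n hn
    rw [hT, mem_filter] at hn
    rw [mem_filter]
    refine ⟨hn.1, hn.2.1, ?_⟩
    intro v hv'
    rw [Finset.mem_map] at hv'
    obtain ⟨j, hj, rfl⟩ := hv'
    exact hn.2.2 j hj

/-- a positive proportion of the subsets of size `r` of every family -/
theorem proportion {A : ℕ} {q : ℕ → ℕ} (hA : PartA A q) (r : ℕ) : ∃ (K M : ℕ) (δ : ℝ), 0 < δ ∧ r ≤ M ∧
    ∀ᶠ X : ℕ in atTop, ∀ G : Finset (ℕ × ℕ),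
      (∀ v ∈ G, 1 ≤ v.1 ∧ v.1 ≤ X ∧ v.2 ≤ X ∧ v.1.Coprime v.2 ∧ ¬ q X ∣ v.1) → M ≤ G.card →
      (open Classical in
      G.card.choose r ≤ M.choose r * ((G.powersetCard r).filter (fun H => Many A K δ X H)).card) := by
  classical
  obtain ⟨K, M, δ, hδ, hrM, hev⟩ := prop_of hA r
  refine ⟨K, M, δ, hδ, hrM, ?_⟩
  filter_upwards [hev] with X hX
  intro G hG hGc
  apply choose_le G M r hrM hGc
  intro G' hG' hc
  exact hX G' (fun v hv => hG v (hG' hv)) hc.ge

end Pool.Agent.L7h28.UM
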