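import Mathlib
import Pool.Agent.L7h28.UM.Prop
import Pool.Agent.L7h80.UM.ADM

set_option autoImplicit false

/-! The uniform theorems, without hypotheses. -/

open Finset Filter

namespace Pool.Agent.L7h28.UM

theorem uniform : ∃ (A : ℕ) (q : ℕ → ℕ), (∀ X, 2 ≤ q X) ∧
    (∀ B : ℕ, ∀ᶠ X : ℕ in atTop, (Real.log X) ^ B ≤ (q X : ℝ)) ∧ PartA A q ∧ PartB A q :=
  both Pool.Agent.L7h80.UM.s_ADM

end Pool.Agent.L7h28.UM
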